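import Pool.Agent.MP_ed9623_an.R46.Spec
import Pool.Agent.MP_ed9623_an.R77.Kit

/-! Continuously differentiable functions on open sets. -/

open MeasureTheory Filter Topology Set
open scoped ContDiff

namespace Pool.Agent.MP_ed9623_an.R46

open H64 H77 R77

variable {O : Set P} {f f₁ f₂ : P → ℝ}

theorem C1.of_d (hO : IsOpen O) (h1 : D1 O f f₁) (h2 : D2 O f f₂) (c1 : ContinuousOn f₁ O)
    (c2 : ContinuousOn f₂ O) : C1 O f f₁ f₂ := by
  refine ⟨c1, c2, fun p hp => ?_⟩
  have n := hO.mem_nhds hp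
  have := hasStrictFDerivAt_uncurry_coprod (𝕜 := ℝ) (u := p) (f := fun x y => f (x, y))
    (f₁ := fun x y => ContinuousLinearMap.toSpanSingleton ℝ (f₁ (x, y)))
    (f₂ := fun x y => ContinuousLinearMap.toSpanSingleton ℝ (f₂ (x, y)))
    (mem_of_superset n fun q hq => (h1 q hq).hasFDerivAt)
    (mem_of_superset n fun q hq => (h2 q hq).hasFDerivAt)
    ((ContinuousLinearMap.toSpanSingletonCLE (𝕜 := ℝ) (E := ℝ)).continuous.continuousAt.comp
      (c1.continuousAt n))
    ((ContinuousLinearMap.toSpanSingletonCLE (𝕜 := ℝ) (E := ℝ)).continuous.continuousAt.comp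
      (c2.continuousAt n))
  exact this.hasFDerivAt.congr_fderiv (ContinuousLinearMap.ext fun v => by
    simp [Function.HasUncurry.uncurry, mul_comm])

theorem C1.pd0 (h : C1 O f f₁ f₂) : EqOn (pd (ee 0) f) f₁ O := fun p hp => pd0_of (h.fd p hp)

theorem C1.pd1 (h : C1 O f f₁ f₂) : EqOn (pd (ee 1) f) f₂ O := fun p hp => pd1_of (h.fd p hp)

theorem C1.cd (h : C1 O f f₁ f₂) (hO : IsOpen O) : ContDiffOn ℝ 1 f O := by
  refine (contDiffOn_succ_iff_fderiv_of_isOpen (n := 0) hO).2
    ⟨fun p hp => (h.fd p hp).differentiableAt.differentiableWithinAt, by simp, ?_⟩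
  rw [contDiffOn_zero]
  refine ContinuousOn.congr (f := fun p => lf (f₁ p) (f₂ p)) ?_ fun p hp => (h.fd p hp).fderiv
  exact (h.c1.smul continuousOn_const).add (h.c2.smul continuousOn_const)

/-- Integration by parts with a derivative along one direction. -/
theorem wd_of_HD {e : P} {g : P → ℝ} (hO : IsOpen O) (hf : ContinuousOn f O)
    (hg : ContinuousOn g O) (h : ∀ p ∈ O, HD e p f (g p)) : WD O e f g := fun φ hφ => by
  have i1 := int_on hO hg hφ
  have i2 := int_on hO hf (hφ.pd e)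
  have := integral_HD_eq_zero volume e (F := fun x => f x * φ x)
    (F' := fun x => g x * φ x + f x * pd e φ x) (int_on hO hf hφ) (i1.add i2) fun z => by
      by_cases hz : z ∈ O
      · exact (h z hz).mul (HD.of_diff (sm_diff hφ.1 z))
      · have a : z ∉ tsupport φ := fun b => hz (hφ.2.2 b)
        rw [hφ.off hz, (hφ.pd e).off hz, mul_zero, mul_zero, add_zero]
        have t : Tendsto (fun s : ℝ => z + s • e) (𝓝 0) (𝓝 z) :=
          Continuous.tendsto' (by fun_prop) _ _ (by simp)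
        refine (hasDerivAt_const (0 : ℝ) (0 : ℝ)).congr_of_eventuallyEq ?_
        filter_upwards [t.eventually (notMem_tsupport_iff_eventuallyEq.1 a)] with s hs
        simp [show φ (z + s • e) = 0 from hs]
  rw [integral_add i1 i2] at this
  linarith

theorem C1.wd0 (h : C1 O f f₁ f₂) (hO : IsOpen O) : WD O (ee 0) f f₁ :=
  wd_of_HD hO h.cont h.c1 fun p hp => h.pd0 hp ▸ HD.of_diff (h.fd p hp).differentiableAt

theorem C1.wd1 (h : C1 O f f₁ f₂) (hO : IsOpen O) : WD O (ee 1) f f₂ :=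
  wd_of_HD hO h.cont h.c2 fun p hp => h.pd1 hp ▸ HD.of_diff (h.fd p hp).differentiableAt

theorem wPc : PcS := fun _ _ _ _ hO => ⟨C1.of_d hO,
  fun h => ⟨h.cd hO, h.pd0, h.pd1, h.wd0 hO, h.wd1 hO⟩⟩

theorem wCw : CwS := fun _ _ _ hO hf hg =>
  ⟨fun h _ hp => cw0 hO hf hg h hp, fun h _ hp => cw1 hO hf hg h hp⟩

theorem wKer : KerS := tk

end Pool.Agent.MP_ed9623_an.R46
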