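import Pool.Agent.MP_ed9623_an.R46.Pc

/-! The interior Schauder estimate for the weak Cauchy-Riemann system. -/

open MeasureTheory Filter Topology Set
open scoped ContDiff

namespace Pool.Agent.MP_ed9623_an.R46

open H64 H77 R77

namespace XSl

theorem nrm_lf (u v : ℝ) : ‖lf u v‖ ≤ |u| + |v| := by
  refine ContinuousLinearMap.opNorm_le_bound _ (by positivity) fun h => ?_
  rw [lf_apply, Real.norm_eq_abs, add_mul]
  refine (abs_add_le _ _).trans (add_le_add ?_ ?_) <;> rw [abs_mul]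
  · exact mul_le_mul_of_nonneg_left (norm_fst_le h) (abs_nonneg _)
  · exact mul_le_mul_of_nonneg_left (norm_snd_le h) (abs_nonneg _)

theorem fd_lf {f : P → ℝ} {y : P} (h : DifferentiableAt ℝ f y) :
    HasFDerivAt f (lf (pd (ee 0) f y) (pd (ee 1) f y)) y :=
  h.hasFDerivAt.congr_fderiv (ContinuousLinearMap.ext fun v => by
    have := pd_dir f v y
    rw [lf_apply, mul_comm _ v.1, mul_comm _ v.2, ← this]; rfl)

theorem tele {u t : ℕ → ℝ} {c : ℝ} (c0 : 0 ≤ c) (ht : ∀ n, 4 * t (n + 1) ≤ 3 * t n)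
    (h : ∀ n, |u n - u (n + 1)| ≤ c * t n) {n m : ℕ} (hm : n ≤ m) :
    |u n - u m| ≤ 4 * c * (t n - t m) := by
  induction m, hm using Nat.le_induction with
  | base => simp
  | succ m _ ih =>
    have a := abs_sub_le (u n) (u m) (u (m + 1))
    have b := mul_le_mul_of_nonneg_left (ht m) c0
    have := h m
    nlinarith

theorem lim {u t : ℕ → ℝ} {c : ℝ} (c0 : 0 ≤ c) (t0 : ∀ n, 0 < t n)
    (ht : ∀ n, 4 * t (n + 1) ≤ 3 * t n) (tl : Tendsto t atTop (𝓝 0))
    (h : ∀ n, |u n - u (n + 1)| ≤ c * t n) : ∃ G, ∀ n, |u n - G| ≤ 4 * c * t n := by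
  have k : ∀ n m, n ≤ m → dist (u n) (u m) ≤ 4 * c * t n := fun n m hm => by
    have := tele c0 ht h hm
    have b := mul_nonneg c0 (t0 m).le
    rw [Real.dist_eq]; nlinarith
  obtain ⟨G, hG⟩ := cauchySeq_tendsto_of_complete (cauchySeq_of_le_tendsto_0' _ k
    (by simpa using tl.const_mul (4 * c)))
  refine ⟨G, fun n => ?_⟩
  rw [← Real.dist_eq]
  exact le_of_tendsto (tendsto_const_nhds.dist hG) (eventually_atTop.2 ⟨n, fun m hm => k n m hm⟩)

theorem grow {u t : ℕ → ℝ} {c H : ℝ} (c0 : 0 ≤ c) (t0 : ∀ n, 0 < t n)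
    (ht : ∀ n, 4 * t (n + 1) ≤ 3 * t n) (h : ∀ n, |u n - u (n + 1)| ≤ c / t n) (h0 : |u 0| ≤ H)
    (n : ℕ) : |u n| ≤ H + 4 * (c / t n) := by
  induction n with
  | zero => have := div_nonneg c0 (t0 0).le; linarith
  | succ n ih =>
    have a : |u (n + 1)| ≤ |u n| + |u n - u (n + 1)| := by
      have := abs_sub (u n) (u n - u (n + 1))
      rwa [sub_sub_cancel] at this
    have b : 5 * (c / t n) ≤ 4 * (c / t (n + 1)) := by
      rw [← mul_div_assoc, ← mul_div_assoc, div_le_div_iff₀ (t0 n) (t0 _)]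
      have := mul_le_mul_of_nonneg_left (ht n) c0
      have := mul_nonneg c0 (t0 n).le
      nlinarith
    have := h n
    linarith

/-- Limits of smooth functions with geometric control of the gradients. -/
theorem loc {B : Set P} (hB : IsOpen B) (hc : Convex ℝ B) {U : ℕ → P → ℝ} {a : P → ℝ}
    {t : ℕ → ℝ} {c H : ℝ} (sm : ∀ n, ContDiff ℝ ∞ (U n))
    (cv : ∀ y ∈ B, Tendsto (fun n => U n y) atTop (𝓝 (a y))) (c0 : 0 ≤ c) (t0 : ∀ n, 0 < t n)
    (ht : ∀ n, 4 * t (n + 1) ≤ 3 * t n) (tl : Tendsto t atTop (𝓝 0))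
    (h1 : ∀ n i, ∀ y ∈ B, |pd (ee i) (U n) y - pd (ee i) (U (n + 1)) y| ≤ c * t n)
    (h2 : ∀ n i j, ∀ y ∈ B,
      |pd (ee j) (pd (ee i) (U n)) y - pd (ee j) (pd (ee i) (U (n + 1))) y| ≤ c / t n)
    (h0 : ∀ i j, ∀ y ∈ B, |pd (ee j) (pd (ee i) (U 0)) y| ≤ H) :
    (∀ y ∈ B, DifferentiableAt ℝ a y) ∧
      (∀ n i, ∀ y ∈ B, |pd (ee i) (U n) y - pd (ee i) a y| ≤ 4 * c * t n) ∧
      ∀ n i, ∀ p ∈ B, ∀ q ∈ B, |pd (ee i) a p - pd (ee i) a q| ≤
        8 * c * t n + 2 * (H + 4 * (c / t n)) * dist p q := by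
  have ex : ∀ (i : Fin 2) (y : P), ∃ G : ℝ, y ∈ B → ∀ n, |pd (ee i) (U n) y - G| ≤ 4 * c * t n :=
    fun i y => by
      by_cases hy : y ∈ B
      · exact (lim c0 t0 ht tl fun n => h1 n i y hy).imp fun _ h _ => h
      · exact ⟨0, fun h => absurd h hy⟩
  choose G hG using ex
  have un : TendstoUniformlyOn (fun n y => lf (pd (ee 0) (U n) y) (pd (ee 1) (U n) y))
      (fun y => lf (G 0 y) (G 1 y)) atTop B := by
    refine Metric.tendstoUniformlyOn_iff.2 fun ε ε0 => ?_
    have : Tendsto (fun n => 8 * c * t n) atTop (𝓝 0) := by simpa using tl.const_mul (8 * c)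
    filter_upwards [this.eventually (gt_mem_nhds ε0)] with n hn y hy
    have e : lf (pd (ee 0) (U n) y) (pd (ee 1) (U n) y) - lf (G 0 y) (G 1 y) =
        lf (pd (ee 0) (U n) y - G 0 y) (pd (ee 1) (U n) y - G 1 y) :=
      ContinuousLinearMap.ext fun v => by simp; ring
    rw [dist_comm, dist_eq_norm, e]
    have := hG 0 y hy n
    have := hG 1 y hy n
    linarith [nrm_lf (pd (ee 0) (U n) y - G 0 y) (pd (ee 1) (U n) y - G 1 y)]
  have fd : ∀ y ∈ B, HasFDerivAt a (lf (G 0 y) (G 1 y)) y := fun y hy =>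
    hasFDerivAt_of_tendstoUniformlyOn hB un (fun n x _ => fd_lf (sm_diff (sm n) x)) cv hy
  have eG : ∀ i, ∀ y ∈ B, pd (ee i) a y = G i y := fun i y hy => by
    unfold pd
    rw [(fd y hy).fderiv]
    fin_cases i <;> simp [ee]
  have k : ∀ n i, ∀ y ∈ B, |pd (ee i) (U n) y - pd (ee i) a y| ≤ 4 * c * t n :=
    fun n i y hy => eG i y hy ▸ hG i y hy n
  refine ⟨fun y hy => (fd y hy).differentiableAt, k, fun n i p hp q hq => ?_⟩
  have mv := hc.norm_image_sub_le_of_norm_hasFDerivWithin_le (f := pd (ee i) (U n))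
    (C := 2 * (H + 4 * (c / t n)))
    (fun y _ => (fd_lf (sm_diff (sm_pd (sm n) _) y)).hasFDerivWithinAt)
    (fun y hy => (nrm_lf _ _).trans (by
      have := grow c0 t0 ht (fun n => h2 n i 0 y hy) (h0 i 0 y hy) n
      have := grow c0 t0 ht (fun n => h2 n i 1 y hy) (h0 i 1 y hy) n
      linarith)) hq hp
  rw [Real.norm_eq_abs, ← dist_eq_norm] at mv
  have a1 := abs_le.1 (k n i p hp)
  have a2 := abs_le.1 (k n i q hq)
  have a3 := abs_le.1 mv
  rw [abs_le]
  constructor <;> linarith [a1.1, a1.2, a2.1, a2.2, a3.1, a3.2]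

theorem m2_ind {O : Set P} {a : P → ℝ} {M₀ r : ℝ} {x : P} (hr : Metric.ball x r ⊆ O)
    (ha : ContinuousOn a O) (hb : ∀ p ∈ O, |a p| ≤ M₀) : M2 ((Metric.ball x r).indicator a) := by
  have mb : MeasurableSet (Metric.ball x r) := Metric.isOpen_ball.measurableSet
  refine (memLp_indicator_iff_restrict mb).2 ?_
  have : IsFiniteMeasure (volume.restrict (Metric.ball x r)) :=
    isFiniteMeasure_restrict.2 measure_ball_lt_top.ne
  exact MemLp.of_bound ((ha.mono hr).aestronglyMeasurable mb) M₀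
    ((ae_restrict_iff' mb).2 (Eventually.of_forall fun p hp => hb p (hr hp)))

theorem crw_ind {O B : Set P} {a b k₁ k₂ : P → ℝ} (hB : B ⊆ O) (h : CRw O a b k₁ k₂) :
    CRw B (B.indicator a) (B.indicator b) k₁ k₂ := fun φ hφ => by
  have e : ∀ (f : P → ℝ) (v x : P), B.indicator f x * pd v φ x = f x * pd v φ x := fun f v x => by
    by_cases hx : x ∈ B
    · rw [indicator_of_mem hx]
    · rw [(hφ.pd v).off hx, mul_zero, mul_zero]
  simp only [e]
  exact h φ (hφ.mono hB)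

theorem crw_rot {O : Set P} {a b k₁ k₂ : P → ℝ} (h : CRw O a b k₁ k₂) :
    CRw O b (fun x => -a x) k₂ fun x => -k₁ x := fun φ hφ => by
  obtain ⟨h1, h2⟩ := h φ hφ
  constructor
  · rw [← h2]; congr 1; funext x; ring
  · simp only [neg_mul, integral_neg, neg_neg]
    rw [← neg_neg (∫ x, k₁ x * φ x), ← h1, ← integral_neg]
    congr 1; funext x; ring

theorem one (hS : Sl1S) : ∃ C₀ : ℝ, 1 ≤ C₀ ∧ ∀ (O : Set P) (a b k₁ k₂ : P → ℝ) (M M₀ e : ℝ),
    IsOpen O → 0 < e → e ≤ 1 → 0 ≤ M → 0 ≤ M₀ → ContinuousOn a O → ContinuousOn b O →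
    (∀ p ∈ O, |a p| ≤ M₀ ∧ |b p| ≤ M₀) → Ho O M k₁ → Ho O M k₂ → CRw O a b k₁ k₂ →
    (∀ x, Metric.ball x (3 * e) ⊆ O → DifferentiableAt ℝ a x) ∧
      ∀ i, Ho {x | Metric.ball x (3 * e) ⊆ O} (C₀ * (M + M₀ / e ^ 2)) (pd (ee i) a) := by
  obtain ⟨ρ, C, C0, hK, hA, hB⟩ := hS
  refine ⟨24 * C + 1, by linarith, fun O a b k₁ k₂ M M₀ e hO e0 e1 M0 N0 ca cb bd g1 g2 cr => ?_⟩
  set s : ℕ → ℝ := fun n => e * (1 / 2) ^ n with hs
  have s0 : ∀ n, 0 < s n := fun n => by positivity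
  have s2 : ∀ n, s (n + 1) = s n / 2 := fun n => by simp only [hs]; ring
  have se : ∀ n, s n ≤ e := fun n =>
    mul_le_of_le_one_right e0.le (pow_le_one₀ (by norm_num) (by norm_num))
  have sz : s 0 = e := by simp [hs]
  have sl : Tendsto s atTop (𝓝 0) := by
    have := (tendsto_pow_atTop_nhds_zero_of_lt_one (r := (1 / 2 : ℝ)) (by norm_num)
      (by norm_num)).const_mul e
    rwa [mul_zero] at this
  have t0 : ∀ n, 0 < √(s n) := fun n => Real.sqrt_pos.2 (s0 n)
  have tq : ∀ n, √(s n) * √(s n) = s n := fun n => Real.mul_self_sqrt (s0 n).le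
  have ht : ∀ n, 4 * √(s (n + 1)) ≤ 3 * √(s n) := fun n => by
    refine (mul_self_le_mul_self_iff (by positivity) (by positivity)).2 ?_
    have := tq n
    have := tq (n + 1)
    have := s2 n
    have := s0 n
    nlinarith
  have tl : Tendsto (fun n => √(s n)) atTop (𝓝 0) := by simpa using sl.sqrt
  have cm : 0 ≤ C * M := mul_nonneg C0 M0
  have n0 : 0 ≤ M₀ / e ^ 2 := by positivity
  have cn : 0 ≤ C * (M₀ / e ^ 2) := mul_nonneg C0 n0
  have key : ∀ x, Metric.ball x (3 * e) ⊆ O → DifferentiableAt ℝ a x ∧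
      (∀ i, |pd (ee i) a x| ≤ (4 * (C * M) + C * (M₀ / e ^ 2)) * √e) ∧
      ∀ n i, ∀ q ∈ Metric.ball x (2 * e), |pd (ee i) a x - pd (ee i) a q| ≤
        8 * (C * M) * √(s n) + 2 * (C * (M₀ / e ^ 2) + 4 * (C * M / √(s n))) * dist x q := by
    intro x hx
    have mA := m2_ind hx ca fun p hp => (bd p hp).1
    have mB := m2_ind hx cb fun p hp => (bd p hp).2
    have cr' := crw_ind hx cr
    set A := (Metric.ball x (3 * e)).indicator a with hA'
    have sub : ∀ n, ∀ y ∈ Metric.ball x (2 * e), Metric.ball y (s n) ⊆ Metric.ball x (3 * e) :=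
      fun n y hy => Metric.ball_subset_ball' (by linarith [se n, Metric.mem_ball.1 hy])
    have d1 : ∀ n i, pd (ee i) (mol (rs ρ (s n)) A) = mol (DL [i] (rs ρ (s n))) A := fun n i =>
      ((rowMol1 _ (hK _ (s0 n)).test).1 A mA).2 _
    have d2 : ∀ n i j, pd (ee j) (pd (ee i) (mol (rs ρ (s n)) A)) =
        mol (DL [j, i] (rs ρ (s n))) A := fun n i j => by
      rw [d1]
      exact ((rowMol1 _ ((hK _ (s0 n)).test.DL [i])).1 A mA).2 _
    have bA : ∀ y ∈ Metric.ball x (2 * e), ∀ z ∈ Metric.ball y (s 0), |A z| ≤ M₀ :=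
      fun y hy z hz => by
        rw [hA', indicator_of_mem (sub 0 y hy hz)]
        exact (bd z (hx (sub 0 y hy hz))).1
    have x2 : x ∈ Metric.ball x (2 * e) := Metric.mem_ball_self (by linarith)
    obtain ⟨r1, r2, r3⟩ := loc (B := Metric.ball x (2 * e)) Metric.isOpen_ball (convex_ball _ _)
      (U := fun n => mol (rs ρ (s n)) A) (a := a) (t := fun n => √(s n)) (c := C * M)
      (H := C * (M₀ / e ^ 2)) (fun n => ((rowMol1 _ (hK _ (s0 n)).test).1 A mA).1)
      (fun y hy => by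
        have yO : y ∈ O := hx (sub 0 y hy (Metric.mem_ball_self (s0 0)))
        refine Metric.tendsto_nhds.2 fun δ δ0 => ?_
        obtain ⟨η, η0, hη⟩ := Metric.continuousAt_iff.1 (ca.continuousAt (hO.mem_nhds yO)) _
          (half_pos δ0)
        filter_upwards [sl.eventually (gt_mem_nhds η0)] with n hn
        refine lt_of_le_of_lt (mol_near (hK _ (s0 n)) mA (Eventually.of_forall fun z hz => ?_))
          (half_lt_self δ0)
        rw [hA', indicator_of_mem (sub n y hy hz)]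
        exact (hη (hz.trans hn)).le)
      cm t0 ht tl
      (fun n i y hy => by
        have := hB _ _ _ _ _ y (s n) M i [] (by simp) (s0 n) (sub n y hy) mA mB
          (g1.mono hx le_rfl) (g2.mono hx le_rfl) cr'
        rw [d1, d1, s2]
        simpa using this)
      (fun n i j y hy => by
        have := hB _ _ _ _ _ y (s n) M i [j] (by simp) (s0 n) (sub n y hy) mA mB
          (g1.mono hx le_rfl) (g2.mono hx le_rfl) cr'
        rw [d2, d2, s2]
        refine le_of_le_of_eq this ?_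
        rw [List.length_singleton, pow_one, div_eq_div_iff (s0 n).ne' (t0 n).ne', mul_assoc, tq])
      (fun i j y hy => by
        have := hA A y (s 0) M₀ [j, i] (by simp) (s0 0) mA (bA y hy)
        rw [d2, ← mul_div_assoc, ← sz]
        exact this)
    refine ⟨r1 x x2, fun i => ?_, fun n i q hq => r3 n i x x2 q hq⟩
    have a1 := r2 0 i x x2
    have a2 := hA A x (s 0) M₀ [i] (by simp) (s0 0) mA (bA x x2)
    rw [← d1, List.length_singleton, pow_one, sz] at a2
    simp only [sz] at a1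
    have a3 : C * M₀ / e ≤ C * (M₀ / e ^ 2) * √e := by
      have : C * M₀ / e = C * (M₀ / e ^ 2) * e := by field_simp
      rw [this]
      exact mul_le_mul_of_nonneg_left (Real.le_sqrt_of_sq_le (by nlinarith)) cn
    have a4 := abs_le.1 a1
    have a5 := abs_le.1 a2
    rw [abs_le]
    constructor <;> linarith [a4.1, a4.2, a5.1, a5.2]
  have q1 : √e ≤ 1 := Real.sqrt_le_one.2 e1
  refine ⟨fun x hx => (key x hx).1, fun i => ⟨fun p hp => ?_, fun p hp q hq => ?_⟩⟩
  · have := ((key p hp).2.1 i).trans (mul_le_of_le_one_right (by positivity) q1)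
    nlinarith
  · have d0 : 0 ≤ √(dist p q) := Real.sqrt_nonneg _
    have fin : ∀ X, X ≤ (24 * (C * M) + 2 * (C * (M₀ / e ^ 2))) * √(dist p q) →
        X ≤ (24 * C + 1) * (M + M₀ / e ^ 2) * √(dist p q) := fun X hX =>
      hX.trans (mul_le_mul_of_nonneg_right (by nlinarith) d0)
    refine fin _ ?_
    rcases le_or_gt e (dist p q) with h | h
    · have a1 := (key p hp).2.1 i
      have a2 := (key q hq).2.1 i
      have a3 := mul_le_mul_of_nonneg_left (Real.sqrt_le_sqrt h)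
        (show 0 ≤ 4 * (C * M) + C * (M₀ / e ^ 2) by positivity)
      have a4 := abs_sub (pd (ee i) a p) (pd (ee i) a q)
      have := mul_nonneg cm d0
      linarith
    rcases (dist_nonneg (x := p) (y := q)).eq_or_lt with z | z
    · rw [dist_eq_zero.1 z.symm, sub_self, abs_zero]; positivity
    obtain ⟨n, n1, n2⟩ := exists_nat_pow_near_of_lt_one (x := dist p q / e) (y := 1 / 2)
      (by positivity) ((div_le_one e0).2 h.le) (by norm_num) (by norm_num)
    have n3 : s (n + 1) < dist p q := by rw [lt_div_iff₀ e0, mul_comm] at n1; exact n1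
    have n4 : dist p q ≤ s n := by rw [div_le_iff₀ e0, mul_comm] at n2; exact n2
    have dq := Real.mul_self_sqrt z.le
    have a0 := (key p hp).2.2 n i q (by rw [Metric.mem_ball, dist_comm]; linarith)
    have b1 : √(s n) ≤ 2 * √(dist p q) := by
      refine (mul_self_le_mul_self_iff (t0 n).le (by positivity)).2 ?_
      have := tq n
      have := s2 n
      nlinarith
    have b2 : dist p q ≤ √(dist p q) := Real.le_sqrt_of_sq_le (by nlinarith)
    have b3 : C * M / √(s n) * dist p q ≤ C * M * √(dist p q) := by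
      rw [div_mul_eq_mul_div, div_le_iff₀ (t0 n), mul_assoc (C * M)]
      refine mul_le_mul_of_nonneg_left ?_ cm
      have := mul_le_mul_of_nonneg_left (Real.sqrt_le_sqrt n4) d0
      linarith
    have b4 := mul_le_mul_of_nonneg_left b1 cm
    have b5 := mul_le_mul_of_nonneg_left b2 cn
    linarith

end XSl

theorem rowSl : OfSl := fun hS => by
  obtain ⟨C₀, c1, h⟩ := XSl.one hS
  refine ⟨C₀, c1, fun O a b k₁ k₂ M M₀ e hO e0 e1 M0 N0 ca cb bd g1 g2 cr f hf => ?_⟩
  rcases hf with rfl | rfl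
  · exact h O _ b k₁ k₂ M M₀ e hO e0 e1 M0 N0 ca cb bd g1 g2 cr
  · exact h O _ (fun x => -a x) k₂ (fun x => -k₁ x) M M₀ e hO e0 e1 M0 N0 cb ca.neg
      (fun p hp => ⟨(bd p hp).2, by rw [abs_neg]; exact (bd p hp).1⟩) g2 g1.neg (XSl.crw_rot cr)

end Pool.Agent.MP_ed9623_an.R46
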