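import Pool.Agent.MP_ed9623_an.R46.Pc

/-! Bounds for mollifications at dyadic scales. -/

open MeasureTheory Filter Topology Set
open scoped ContDiff

namespace Pool.Agent.MP_ed9623_an.R46

open H64 H77 R77

namespace XSl1

variable {ψ : P → ℝ} {s : ℝ}

theorem sm_sc (hψ : ContDiff ℝ ∞ ψ) (c : ℝ) : ContDiff ℝ ∞ fun x : P => ψ (c • x) :=
  hψ.comp (contDiff_const_smul c)

theorem pd_sc (hψ : ContDiff ℝ ∞ ψ) (c : ℝ) (e x : P) :
    pd e (fun x : P => ψ (c • x)) x = c * pd e ψ (c • x) := by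
  have : HasFDerivAt (fun x : P => ψ (c • x)) _ x :=
    (sm_diff hψ (c • x)).hasFDerivAt.comp x ((hasFDerivAt_id x).const_smul c)
  rw [pd, pd, this.fderiv]
  simp only [ContinuousLinearMap.comp_apply, smul_apply,
    ContinuousLinearMap.id_apply, map_smul, smul_eq_mul]

theorem sm_rs (hψ : ContDiff ℝ ∞ ψ) (s : ℝ) : ContDiff ℝ ∞ (rs ψ s) := (sm_sc hψ _).div_const _

theorem pd_rs (hψ : ContDiff ℝ ∞ ψ) (s : ℝ) (e x : P) :
    pd e (rs ψ s) x = s⁻¹ * rs (pd e ψ) s x := by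
  have : rs ψ s = fun x => (s ^ 2)⁻¹ * ψ (s⁻¹ • x) := funext fun x => by
    rw [rs, div_eq_inv_mul]
  rw [this, pd_const_mul _ _ (sm_diff (sm_sc hψ _) x), pd_sc hψ, rs]
  ring

theorem sm_DL (hψ : ContDiff ℝ ∞ ψ) (l : List (Fin 2)) : ContDiff ℝ ∞ (DL l ψ) := by
  induction l with
  | nil => exact hψ
  | cons i l ih => exact sm_pd ih _

theorem DL_rs (hψ : ContDiff ℝ ∞ ψ) (s : ℝ) (l : List (Fin 2)) :
    DL l (rs ψ s) = fun x => s⁻¹ ^ l.length * rs (DL l ψ) s x := by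
  induction l with
  | nil => funext x; simp [DL_nil]
  | cons i l ih =>
    funext x
    rw [DL_cons, ih, pd_const_mul _ _ (sm_diff (sm_rs (sm_DL hψ l) s) x), pd_rs (sm_DL hψ l),
      DL_cons, List.length_cons, pow_succ]
    ring

theorem test_rs (hψ : Test (Metric.ball 0 1) ψ) (hs : 0 < s) : Test (Metric.ball 0 s) (rs ψ s) := by
  have c : Continuous fun x : P => s⁻¹ • x := by fun_prop
  have t : tsupport (rs ψ s) ⊆ {x | s⁻¹ • x ∈ tsupport ψ} :=
    closure_minimal (fun x hx => subset_tsupport ψ fun h => hx (by simp [rs, h]))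
      ((isClosed_tsupport ψ).preimage c)
  have b : tsupport (rs ψ s) ⊆ Metric.ball 0 s := fun x hx => by
    have := hψ.2.2 (t hx)
    rw [mem_ball_zero_iff, norm_smul, Real.norm_of_nonneg (inv_nonneg.2 hs.le),
      inv_mul_lt_iff₀ hs, mul_one] at this
    exact mem_ball_zero_iff.2 this
  exact ⟨sm_rs hψ.1 s, (isCompact_closedBall 0 s).of_isClosed_subset (isClosed_tsupport _)
    (b.trans Metric.ball_subset_closedBall), b⟩

theorem int_rs (ψ : P → ℝ) (hs : 0 < s) : ∫ x, rs ψ s x = ∫ x, ψ x := by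
  unfold rs
  rw [integral_div, Measure.integral_comp_inv_smul_of_nonneg volume ψ hs.le]
  simp only [Module.finrank_prod, Module.finrank_self, smul_eq_mul]
  field_simp
  ring

theorem abs_rs (ψ : P → ℝ) (s : ℝ) (x : P) : |rs ψ s x| = rs (fun y => |ψ y|) s x := by
  unfold rs
  rw [abs_div, abs_of_nonneg (sq_nonneg s)]

theorem test_w (hψ : Test (Metric.ball 0 1) ψ) (hs : 0 < s) (x : P) :
    Test (Metric.ball x s) fun z => rs ψ s (x - z) :=
  ((test_rs hψ hs).top.refl x).mono fun z hz => by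
    have := (test_rs hψ hs).2.2 hz
    rwa [mem_ball_zero_iff, ← dist_eq_norm, dist_comm] at this

theorem pd_w (hψ : Test (Metric.ball 0 1) ψ) (s : ℝ) (x e z : P) :
    pd e (fun z => rs ψ s (x - z)) z = -(s⁻¹ * rs (pd e ψ) s (x - z)) := by
  rw [pd_refl (sm_rs hψ.1 s), pd_rs hψ.1]

/-- The sup bound. -/
theorem bound (hψ : Test (Metric.ball 0 1) ψ) (hs : 0 < s) {a : P → ℝ} {x : P} {M : ℝ}
    (h : ∀ z ∈ Metric.ball x s, |a z| ≤ M) :
    |∫ z, a z * rs ψ s (x - z)| ≤ M * ∫ y, |ψ y| := by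
  have t := test_w hψ hs x
  have i0 : Integrable fun z => |rs ψ s (x - z)| := (t.ct.integrable_of_hasCompactSupport t.2.1).abs
  have e : ∫ y, |ψ y| = ∫ z, |rs ψ s (x - z)| := by
    rw [integral_sub_left_eq_self (fun y => |rs ψ s y|) volume x]
    simp only [abs_rs]
    rw [int_rs _ hs]
  rw [e, ← integral_const_mul]
  refine Real.norm_eq_abs _ ▸ norm_integral_le_of_norm_le (i0.const_mul M)
    (Eventually.of_forall fun z => ?_)
  rw [Real.norm_eq_abs, abs_mul]
  by_cases b : z ∈ Metric.ball x s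
  · exact mul_le_mul_of_nonneg_right (h z b) (abs_nonneg _)
  · simp [t.off b]

/-- The bound for a Hölder function against a derivative. -/
theorem hold (hψ : Test (Metric.ball 0 1) ψ) (hs : 0 < s) {k : P → ℝ} {x : P} {M : ℝ}
    (h : Ho (Metric.ball x s) M k) (e : P) :
    |∫ z, k z * rs (pd e ψ) s (x - z)| ≤ M * √s * ∫ y, |pd e ψ y| := by
  have t := test_w (hψ.pd e) hs x
  have x0 : x ∈ Metric.ball x s := Metric.mem_ball_self hs
  have M0 : 0 ≤ M := (abs_nonneg _).trans (h.1 x x0)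
  have z : ∫ z, rs (pd e ψ) s (x - z) = 0 := by
    rw [integral_sub_left_eq_self (rs (pd e ψ) s) volume x, int_rs _ hs]
    exact integral_pd_eq_zero volume e (contDiff_infty.1 hψ.1 1) hψ.2.1
  have : ∫ z, k z * rs (pd e ψ) s (x - z) = ∫ z, (k z - k x) * rs (pd e ψ) s (x - z) := by
    simp only [sub_mul]
    rw [integral_sub (int_on Metric.isOpen_ball h.cont t)
      ((t.ct.integrable_of_hasCompactSupport t.2.1).const_mul _), integral_const_mul, z]
    simp
  rw [this]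
  exact bound (hψ.pd e) hs fun z hz => (h.2 z hz x x0).trans
    (mul_le_mul_of_nonneg_left (Real.sqrt_le_sqrt (Metric.mem_ball.1 hz).le) M0)

/-- The Laplacian of a test function against a solution of the system. -/
theorem lap (hψ : Test (Metric.ball 0 1) ψ) (hs : 0 < s) {O : Set P} {a b k₁ k₂ : P → ℝ} {x : P}
    (hO : Metric.ball x s ⊆ O) (ha : M2 a) (hb : M2 b) (h : CRw O a b k₁ k₂) :
    ∫ z, a z * rs (fun y => pd (ee 0) (pd (ee 0) ψ) y + pd (ee 1) (pd (ee 1) ψ) y) s (x - z)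
      = s * ((∫ z, k₁ z * rs (pd (ee 0) ψ) s (x - z)) + ∫ z, k₂ z * rs (pd (ee 1) ψ) s (x - z)) := by
  have e1 := (h _ ((test_w (hψ.pd (ee 0)) hs x).mono hO)).1
  have e2 := (h _ ((test_w (hψ.pd (ee 1)) hs x).mono hO)).2
  simp only [pd_w (hψ.pd _)] at e1 e2
  rw [pd_comm_sm hψ.1 (ee 0) (ee 1)] at e2
  have i : ∀ {f : P → ℝ}, M2 f → ∀ e e' : P,
      Integrable fun z => f z * rs (pd e (pd e' ψ)) s (x - z) :=
    fun hf e e' => hf.int_mul (test_w ((hψ.pd e').pd e) hs x).m2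
  have q : ∀ (f g : P → ℝ), (fun z => f z * -(s⁻¹ * g z)) = fun z => -s⁻¹ * (f z * g z) :=
    fun f g => funext fun z => by ring
  have j : ∀ {f : P → ℝ}, M2 f → ∀ e e' : P,
      Integrable fun z => f z * -(s⁻¹ * rs (pd e (pd e' ψ)) s (x - z)) := fun hf e e' => by
    rw [q]; exact (i hf e e').const_mul _
  rw [integral_sub (j ha _ _) (j hb _ _), q, q, integral_const_mul, integral_const_mul] at e1
  rw [integral_add (j ha _ _) (j hb _ _), q, q, integral_const_mul, integral_const_mul] at e2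
  have : ∀ z, a z * rs (fun y => pd (ee 0) (pd (ee 0) ψ) y + pd (ee 1) (pd (ee 1) ψ) y) s (x - z)
      = a z * rs (pd (ee 0) (pd (ee 0) ψ)) s (x - z)
        + a z * rs (pd (ee 1) (pd (ee 1) ψ)) s (x - z) := fun z => by
    unfold rs; ring
  simp only [this]
  rw [integral_add (i ha _ _) (i ha _ _)]
  have u : s * s⁻¹ = 1 := mul_inv_cancel₀ hs.ne'
  linear_combination (-s) * e1 - s * e2 - ((∫ z, a z * rs (pd (ee 0) (pd (ee 0) ψ)) s (x - z))
    + ∫ z, a z * rs (pd (ee 1) (pd (ee 1) ψ)) s (x - z)) * u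

/-- The telescoping identity for derivatives. -/
theorem tel {ρ κ : P → ℝ} (hρ : ContDiff ℝ ∞ ρ) (hκ : ContDiff ℝ ∞ κ) (h : ∀ x : P,
    ρ x - 4 * ρ ((2 : ℝ) • x) = pd (ee 0) (pd (ee 0) κ) x + pd (ee 1) (pd (ee 1) κ) x)
    (l : List (Fin 2)) (x : P) : DL l ρ x - 4 * 2 ^ l.length * DL l ρ ((2 : ℝ) • x)
      = pd (ee 0) (pd (ee 0) (DL l κ)) x + pd (ee 1) (pd (ee 1) (DL l κ)) x := by
  induction l generalizing x with
  | nil => simpa [DL_nil] using h x
  | cons i l ih =>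
    have a := sm_DL hρ l
    have b := sm_DL hκ l
    have := congrArg (fun f => pd (ee i) f x) (funext ih)
    rw [pd_sub _ (sm_diff a x) (sm_diff (contDiff_const.mul (sm_sc a 2)) x),
      pd_const_mul _ _ (sm_diff (sm_sc a 2) x), pd_sc a,
      pd_add _ (sm_diff (sm_pd (sm_pd b _) _) x) (sm_diff (sm_pd (sm_pd b _) _) x),
      pd_comm_sm (sm_pd b _) (ee i) (ee 0), pd_comm_sm (sm_pd b _) (ee i) (ee 1),
      pd_comm_sm b (ee i) (ee 0), pd_comm_sm b (ee i) (ee 1)] at this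
    rw [DL_cons, DL_cons, List.length_cons, pow_succ, ← this]
    ring

theorem unif (ψ : P → ℝ) : ∃ C, 0 ≤ C ∧ ∀ l : List (Fin 2), l.length ≤ 3 → ∫ y, |DL l ψ y| ≤ C := by
  obtain ⟨C, hC⟩ := ((List.finite_length_le (Fin 2) 3).image fun l => ∫ y, |DL l ψ y|).bddAbove
  exact ⟨max C 0, le_max_right _ _, fun l hl => (hC ⟨l, hl, rfl⟩).trans (le_max_left _ _)⟩

end XSl1

open XSl1

theorem rowSl1 : OfSl1 := by
  rintro ⟨ρ, κ, hρ, hκ, h⟩
  obtain ⟨A, A0, hA⟩ := unif ρ
  obtain ⟨B, B0, hB⟩ := unif κ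
  refine ⟨ρ, A + 2 * B, by positivity, fun s hs => ⟨test_rs hρ.1 hs, fun x =>
    div_nonneg (hρ.2.1 _) (sq_nonneg s), by rw [int_rs _ hs, hρ.2.2]⟩, ?_, ?_⟩
  · intro a x s M₀ l hl hs _ hb
    have M0 : 0 ≤ M₀ := (abs_nonneg _).trans (hb x (Metric.mem_ball_self hs))
    have := (bound (hρ.1.DL l) hs hb).trans
      (mul_le_mul_of_nonneg_left (hA l (hl.trans (by norm_num))) M0)
    have p : 0 ≤ s⁻¹ ^ l.length := by positivity
    simp only [mol, DL_rs hρ.1.1, mul_left_comm _ (s⁻¹ ^ l.length)]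
    rw [integral_const_mul, abs_mul, abs_of_nonneg p, div_eq_inv_mul, ← inv_pow]
    exact mul_le_mul_of_nonneg_left (this.trans (by nlinarith [mul_nonneg M0 B0])) p
  · intro O a b k₁ k₂ x s M i l hl hs hO ha hb h1 h2 hc
    set L := l ++ [i]
    have len : L.length = l.length + 1 := by simp [L]
    have tψ := hκ.DL L
    have M0 : 0 ≤ M := (abs_nonneg _).trans (h1.1 x (hO (Metric.mem_ball_self hs)))
    have e : mol (DL L (rs ρ s)) a x - mol (DL L (rs ρ (s / 2))) a x = s⁻¹ ^ L.length *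
        ∫ z, a z * rs (fun y => pd (ee 0) (pd (ee 0) (DL L κ)) y
          + pd (ee 1) (pd (ee 1) (DL L κ)) y) s (x - z) := by
      have m : ∀ t, 0 < t → Integrable fun z => a z * DL L (rs ρ t) (x - z) := fun t ht =>
        ha.int_mul (((test_rs hρ.1 ht).DL L).top.refl x).m2
      rw [mol, mol, ← integral_sub (m s hs) (m _ (half_pos hs)), ← integral_const_mul]
      refine integral_congr_ae (Eventually.of_forall fun z => ?_)
      simp only [DL_rs hρ.1.1, rs, ← tel hρ.1.1 hκ.1 h L]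
      rw [show (s / 2)⁻¹ = 2 * s⁻¹ by field_simp, mul_pow, mul_smul]
      field_simp
      ring
    have b1 := hold tψ hs (h1.mono hO le_rfl) (ee 0)
    have b2 := hold tψ hs (h2.mono hO le_rfl) (ee 1)
    have c1 := hB (0 :: L) (by rw [List.length_cons, len]; omega)
    have c2 := hB (1 :: L) (by rw [List.length_cons, len]; omega)
    rw [DL_cons] at c1 c2
    have p : 0 ≤ s⁻¹ ^ l.length := by positivity
    have q : 0 ≤ M * √s := by positivity
    rw [e, lap tψ hs hO ha hb hc, len, pow_succ, mul_assoc, inv_mul_cancel_left₀ hs.ne', abs_mul,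
      abs_of_nonneg p, div_eq_inv_mul, ← inv_pow]
    refine mul_le_mul_of_nonneg_left ((abs_add_le _ _).trans ?_) p
    nlinarith [mul_le_mul_of_nonneg_left c1 q, mul_le_mul_of_nonneg_left c2 q, mul_nonneg A0 q]

end Pool.Agent.MP_ed9623_an.R46
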