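import Pool.Agent.MP_ed9623_an.R77.Jt

/-! Hölder classes, levels of tangential regularity, characteristic charts, jets. -/

open MeasureTheory Filter Topology Set

namespace Pool.Agent.MP_ed9623_an.R46

open H64 H77 R77

/-- Bounded by `M` and Hölder of exponent one half with constant `M` on `B`. -/
def Ho (B : Set P) (M : ℝ) (f : P → ℝ) : Prop :=
  (∀ p ∈ B, |f p| ≤ M) ∧ ∀ p ∈ B, ∀ q ∈ B, |f p - f q| ≤ M * √(dist p q)

def Hq (B : Set P) (f : P → ℝ) : Prop := ∃ M, 0 ≤ M ∧ Ho B M f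

/-- Classical derivative in the first and in the second variable. -/
def D1 (B : Set P) (f g : P → ℝ) : Prop := ∀ p ∈ B, HasDerivAt (fun s => f (s, p.2)) (g p) p.1
def D2 (B : Set P) (f g : P → ℝ) : Prop := ∀ p ∈ B, HasDerivAt (fun s => f (p.1, s)) (g p) p.2

/-- `f` is continuously differentiable on `O` with gradient `(f₁, f₂)`. -/
structure C1 (O : Set P) (f f₁ f₂ : P → ℝ) : Prop where
  c1 : ContinuousOn f₁ O
  c2 : ContinuousOn f₂ O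
  fd : ∀ p ∈ O, HasFDerivAt f (lf (f₁ p) (f₂ p)) p

noncomputable def d1 (f : P → ℝ) : P → ℝ := fun p => deriv (fun s => f (s, p.2)) p.1

/-- `k` derivatives in the first variable exist and are Hölder. -/
def Lv (B : Set P) : ℕ → (P → ℝ) → Prop
  | 0, f => Hq B f
  | k + 1, f => Hq B f ∧ D1 B f (d1 f) ∧ Lv B k (d1 f)

/-- Difference quotient of the `k`-th derivative. -/
noncomputable def tau (k : ℕ) (h : ℝ) (f : P → ℝ) : P → ℝ := fun p => dl h (d1^[k] f) p / h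

/-- A family that is bounded in the Hölder norm on `Q ρ` for steps `0 < h < h₀`. -/
def Bd (ρ h₀ : ℝ) (u : ℝ → P → ℝ) : Prop := ∃ C, 0 ≤ C ∧ ∀ h, 0 < h → h < h₀ → Ho (Q ρ) C (u h)

/-- The top difference quotient of `f` is dominated by those of the members of `G`. -/
def Dom (k : ℕ) (ρ₁ h₀ : ℝ) (G : Set (P → ℝ)) (a : ℝ) (f : P → ℝ) : Prop :=
  ∃ C, 0 ≤ C ∧ ∀ h, 0 < h → h < h₀ → ∀ ρ ≤ ρ₁, ∀ M, 0 ≤ M →
    (∀ g ∈ G, Ho (Q ρ) M (tau k h g)) → Ho (Q ρ) (a * M + C) (tau k h f)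

/-- Domination with a constant that does not depend on the level. -/
def TU (r : ℝ) (H : ℕ → ℝ → Prop) (G : Set (P → ℝ)) (f : P → ℝ) : Prop :=
  ∃ a N, 0 ≤ a ∧ 0 ≤ N ∧ Ho (Q r) N f ∧ ∀ k, ∀ r' ≤ r, H k r' →
    Lv (Q r') k f ∧ ∀ ρ₁ < r', Dom k ρ₁ (r' - ρ₁) G a f

/-- A continuous curve in the square over `[s, t]`. -/
def Cu (a s t : ℝ) (y : ℝ → ℝ) : Prop := ContinuousOn y (Icc s t) ∧ ∀ σ ∈ Icc s t, |y σ| < a

/-- Difference quotient in the second variable. -/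
noncomputable def dq (l : P → ℝ) (y z : ℝ → ℝ) (σ : ℝ) : ℝ :=
  (l (σ, z σ) - l (σ, y σ)) / (z σ - y σ)

/-- Integrated Lipschitz and second difference bounds along curves. -/
structure QH (a K : ℝ) (l : P → ℝ) : Prop where
  ct : ContinuousOn l (Q a)
  bd : ∀ p ∈ Q a, |l p| ≤ K
  il : ∀ (s t d : ℝ) (y z : ℝ → ℝ), -a < s → s ≤ t → t < a → Cu a s t y → Cu a s t z →
    (∀ σ ∈ Icc s t, |y σ - z σ| ≤ d) →
    ∫ σ in s..t, |l (σ, y σ) - l (σ, z σ)| ≤ K * √(t - s) * d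
  qh : ∀ (s t d : ℝ) (y z y' z' : ℝ → ℝ), -a < s → s ≤ t → t < a → Cu a s t y → Cu a s t z →
    Cu a s t y' → Cu a s t z' →
    (∀ σ ∈ Icc s t, y σ < z σ ∧ y' σ < z' σ ∧ z σ - y' σ ≤ d ∧ z' σ - y σ ≤ d ∧
      z σ - y σ ≤ d ∧ z' σ - y' σ ≤ d) →
    ∫ σ in s..t, |dq l y z σ - dq l y' z' σ| ≤ K * √(t - s) * √d

/-- Double characteristic coordinates for the fields `(1, l)` and `(m, 1)`. -/
structure Co (a r K : ℝ) (l m : P → ℝ) (Θ Ξ : P → P) (m₁ m₂ : P → ℝ) : Prop where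
  r0 : 0 < r
  r1 : r ≤ 1
  K1 : 1 ≤ K
  z0 : Θ 0 = 0
  mp : ∀ p ∈ Q r, Θ p ∈ Q a
  cx : C1 (Q r) (fun p => (Θ p).1) m₁ fun p => m₂ p * m (Θ p)
  cy : C1 (Q r) (fun p => (Θ p).2) (fun p => m₁ p * l (Θ p)) m₂
  h1 : Ho (Q r) K m₁
  h2 : Ho (Q r) K m₂
  hl : Ho (Q r) K fun p => l (Θ p)
  hm : Ho (Q r) K fun p => m (Θ p)
  lo : ∀ p ∈ Q r, 1 / K ≤ m₁ p ∧ 1 / K ≤ m₂ p ∧ |l (Θ p) * m (Θ p)| ≤ 1 / 2
  bs : ∀ s, |s| < r → (Θ (s, 0)).1 = s ∧ m₁ (s, 0) = 1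
  inv : ∀ p ∈ Q r, Ξ (Θ p) = p
  lip : ∀ p ∈ Q r, ∀ q ∈ Q r, dist (Θ p) (Θ q) ≤ K * dist p q ∧ dist p q ≤ K * dist (Θ p) (Θ q)
  bl : ∀ p δ, Metric.ball p δ ⊆ Q r → Metric.ball (Θ p) (δ / K) ⊆ Θ '' Metric.ball p δ

/-- The Jacobian of the chart. -/
def Jc (l m : P → ℝ) (Θ : P → P) (m₁ m₂ : P → ℝ) : P → ℝ :=
  fun p => m₁ p * m₂ p * (1 - l (Θ p) * m (Θ p))

/-- Bounded and continuous. -/
def Cb (B : Set P) (f : P → ℝ) : Prop := ContinuousOn f B ∧ ∃ M, ∀ p ∈ B, |f p| ≤ M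

/-- Approximation of `g` by functions with controlled vertical slices. -/
structure Sq (r K : ℝ) (G : ℕ → P → ℝ) (g : P → ℝ) : Prop where
  ct : ∀ n, Cb (Q r) (G n)
  m2 : M2 ((Q r).indicator g)
  cv : Tendsto (fun n => nm ((Q r).indicator fun p => G n p - g p)) atTop (𝓝 0)
  bd : ∀ n s, |s| < r → slS (-r) r (G n) s ≤ K ^ 2
  ho : ∀ n s t, |s| < r → |t| < r →
    ∫ η in Ioo (-r) r, (G n (s, η) - G n (t, η)) ^ 2 ≤ K ^ 2 * |s - t|
  ca : ∀ ε > 0, ∃ N, ∀ n ≥ N, ∀ k ≥ N, ∀ s, |s| < r → slS (-r) r (fun p => G n p - G k p) s ≤ ε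

/-- `Φ` is a vertical primitive of `W` that is Hölder in the horizontal variable. -/
structure Pm (r : ℝ) (W Φ : P → ℝ) : Prop where
  int : IntegrableOn W (Q r)
  ct : ContinuousOn Φ (Q r)
  ho : ∃ M, ∀ p ∈ Q r, |Φ p| ≤ M ∧ ∀ t, |t| < r → |Φ p - Φ (t, p.2)| ≤ M * √|p.1 - t|
  wd : WD (Q r) (ee 1) Φ W
  av : ∀ c d, |c| < r → |d| < r →
    ∀ᵐ s, |s| < r → ∫ η in c..d, W (s, η) = Φ (s, d) - Φ (s, c)

/-- Hölder in the vertical variable. -/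
def Vh (r : ℝ) (Φ : P → ℝ) : Prop :=
  ∃ M, ∀ p ∈ Q r, ∀ t, |t| < r → |Φ p - Φ (p.1, t)| ≤ M * √|p.2 - t|

/-- Equality almost everywhere on `O`. -/
def Ae (O : Set P) (f g : P → ℝ) : Prop := ∀ᵐ p, p ∈ O → f p = g p

/-- The weak form of `a_x - b_y = k₁`, `a_y + b_x = k₂`. -/
def CRw (O : Set P) (a b k₁ k₂ : P → ℝ) : Prop := ∀ φ, Test O φ →
  (∫ x, (a x * pd (ee 0) φ x - b x * pd (ee 1) φ x) = -∫ x, k₁ x * φ x) ∧
  ∫ x, (a x * pd (ee 1) φ x + b x * pd (ee 0) φ x) = -∫ x, k₂ x * φ x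

/-- The same system in a chart with components `x`, `y`, multiplied by the Jacobian. -/
def cr1 (x₁ x₂ y₁ y₂ u₁ u₂ v₁ v₂ : P → ℝ) : P → ℝ :=
  fun p => u₁ p * y₂ p - u₂ p * y₁ p + v₁ p * x₂ p - v₂ p * x₁ p
def cr2 (x₁ x₂ y₁ y₂ u₁ u₂ v₁ v₂ : P → ℝ) : P → ℝ :=
  fun p => u₂ p * x₁ p - u₁ p * x₂ p + v₁ p * y₂ p - v₂ p * y₁ p

/-- The Schauder estimate in a chart. -/
def CRe (r C₀ : ℝ) (x₁ x₂ y₁ y₂ : P → ℝ) : Prop :=
  ∀ (ρ R M M₀ : ℝ) (u u₁ u₂ v v₁ v₂ : P → ℝ), 0 < ρ → ρ < R → R ≤ r → 0 ≤ M → 0 ≤ M₀ →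
    C1 (Q R) u u₁ u₂ → C1 (Q R) v v₁ v₂ → (∀ p ∈ Q R, |u p| ≤ M₀ ∧ |v p| ≤ M₀) →
    Ho (Q R) M (cr1 x₁ x₂ y₁ y₂ u₁ u₂ v₁ v₂) → Ho (Q R) M (cr2 x₁ x₂ y₁ y₂ u₁ u₂ v₁ v₂) →
    ∀ f ∈ ({u₁, u₂, v₁, v₂} : Set (P → ℝ)), Ho (Q ρ) (C₀ * (M + M₀ / (R - ρ) ^ 2)) f

/-- Names of the jets: time derivatives of the two stream functions and of the pressure. -/
inductive Ix
  | ps (j : ℕ)
  | al (j : ℕ)
  | pr (j : ℕ)

/-- The top classical order. -/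
def Ix.ord : Ix → ℕ
  | .ps _ => 3
  | .al 0 => 2
  | .al (_ + 1) => 3
  | .pr _ => 1

/-- The three families of jets as one family. -/
def pk (ps al pr : ℕ → J2) : Ix → J2
  | .ps j => ps j
  | .al j => al j
  | .pr j => pr j

/-- Classical jets on `Q a`. -/
structure CJ (a : ℝ) (ps al pr : ℕ → J2) : Prop where
  c1 : ∀ (i : Ix) (u v : ℕ), u + v < i.ord →
    C1 (Q a) (pk ps al pr i u v) (pk ps al pr i (u + 1) v) (pk ps al pr i u (v + 1))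
  ho : ∀ (i : Ix) (u v : ℕ), u + v ≤ i.ord → Hq (Q a) (pk ps al pr i u v)
  e1 : ∀ j u v, u + v = 1 → ∀ p ∈ Q a, lp (ps j) u v p = ps (j + 1) u v p
    + ∑ i ∈ Finset.range (j + 1), (j.choose i : ℝ) *
      (br (al i) (ps (j - i)) u v p + br (ps (j - i)) (al i) u v p)
  e2 : ∀ j, ∀ p ∈ Q a,
    lp (al (j + 1)) 1 0 p = al (j + 2) 1 0 p + nl ps al (j + 1) 1 0 p + pr j 0 1 p ∧
    lp (al (j + 1)) 0 1 p = al (j + 2) 0 1 p + nl ps al (j + 1) 0 1 p - pr j 1 0 p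
  l : ∀ j, ∀ p ∈ Q a,
    ∑ i ∈ Finset.range (j + 1), (j.choose i : ℝ) * cf (ps (j - i)) (al i) p = 0

/-- The jets `J'` differ from the jets `J` only at the top order, and there on a null set. -/
def Same (a : ℝ) (J' J : Ix → J2) : Prop := ∀ (i : Ix) (u v : ℕ),
  (u + v < i.ord → J' i u v = J i u v) ∧ (u + v = i.ord → Ae (Q a) (J' i u v) (J i u v))

/-- The null fields `(1, l)`, `(m, 1)` of the Hessian of `f`. -/
structure Nu (a c ε : ℝ) (f : J2) (l m s : P → ℝ) : Prop where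
  c0 : 0 < c
  e : ε = 1 ∨ ε = -1
  l0 : l 0 = 0
  ds : ∀ p ∈ Q a, c ≤ f 1 1 p ^ 2 - f 2 0 p * f 0 2 p ∧ s p = ε * √(f 1 1 p ^ 2 - f 2 0 p * f 0 2 p) ∧
    c ≤ ε * (f 1 1 p + s p)
  hl : ∀ p ∈ Q a, l p = -f 2 0 p / (f 1 1 p + s p)
  hm : ∀ p ∈ Q a, m p = -f 0 2 p / (f 1 1 p + s p)
  lm : ∀ p ∈ Q a, |l p * m p| ≤ 1 / 2

/-- The set where all first order jets of the half sum vanish. -/
def Z0 (al : ℕ → J2) : Set P := {z | ∀ j, al j 1 0 z = 0 ∧ al j 0 1 z = 0}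

/-- `Z` contains truncated cones of every opening below the origin. -/
def Cone (Z : Set P) : Prop := ∀ κ > 0, ∃ ε > 0, ∀ z ∈ Q ε, z.2 < -(κ * |z.1|) → z ∈ Z

/-- All derivatives in the first variable exist and are Hölder. -/
def CC (r : ℝ) (f : P → ℝ) : Prop := ∀ k, Lv (Q r) k f

/-- The gradients of the slopes of the null fields. -/
noncomputable def lx (f : J2) (l s : P → ℝ) : P → ℝ :=
  fun p => -(f 3 0 p + 2 * l p * f 2 1 p + l p ^ 2 * f 1 2 p) / (2 * s p)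
noncomputable def ly (f : J2) (l s : P → ℝ) : P → ℝ :=
  fun p => -(f 2 1 p + 2 * l p * f 1 2 p + l p ^ 2 * f 0 3 p) / (2 * s p)
noncomputable def mx (f : J2) (m s : P → ℝ) : P → ℝ :=
  fun p => -(m p ^ 2 * f 3 0 p + 2 * m p * f 2 1 p + f 1 2 p) / (2 * s p)
noncomputable def my (f : J2) (m s : P → ℝ) : P → ℝ :=
  fun p => -(m p ^ 2 * f 2 1 p + 2 * m p * f 1 2 p + f 0 3 p) / (2 * s p)

/-- The Hessian of `g` on the null fields. -/
def h11 (g : J2) (l : P → ℝ) : P → ℝ := fun p => g 2 0 p + 2 * l p * g 1 1 p + l p ^ 2 * g 0 2 p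
def h12 (g : J2) (l m : P → ℝ) : P → ℝ :=
  fun p => m p * g 2 0 p + (1 + l p * m p) * g 1 1 p + l p * g 0 2 p
def h22 (g : J2) (m : P → ℝ) : P → ℝ := fun p => m p ^ 2 * g 2 0 p + 2 * m p * g 1 1 p + g 0 2 p

/-- The output chart `(s, e) ↦ (s, Y (s, e))`. -/
structure Out (a r : ℝ) (ps al pr : ℕ → J2) (l s Y n : P → ℝ) : Prop where
  r0 : 0 < r
  mp : ∀ p ∈ Q r, ((p.1, Y p) : P) ∈ Q a
  y0 : Y 0 = 0
  cY : C1 (Q r) Y (fun p => l (p.1, Y p)) n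
  n0 : ∃ c > 0, ∀ p ∈ Q r, c ≤ n p
  dn : D1 (Q r) n fun p => ly (ps 0) l s (p.1, Y p) * n p
  cn : CC r n
  cl : CC r fun p => l (p.1, Y p)
  cs : CC r fun p => s (p.1, Y p)
  cJ : ∀ (i : Ix) (u v : ℕ), u + v ≤ i.ord → CC r fun p => pk ps al pr i u v (p.1, Y p)
  zs : ∀ p ∈ Q r, p.2 ≤ 0 → ((p.1, Y p) : P) ∈ Z0 al
  ed : (∃ t, |t| < r ∧ ((t, Y (t, 0)) : P) ∈ interior (Z0 al)) → (0 : P) ∈ interior (Z0 al)

/-- Rescaled kernel. -/
noncomputable def rs (ρ : P → ℝ) (s : ℝ) : P → ℝ := fun x => ρ (s⁻¹ • x) / s ^ 2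

/-! ### Basic facts -/

section basic

variable {B B' : Set P} {M M' : ℝ} {f g f₁ f₂ g₁ g₂ : P → ℝ}

theorem Ho.mono (h : Ho B M f) (hB : B' ⊆ B) (hM : M ≤ M') : Ho B' M' f :=
  ⟨fun p hp => (h.1 p (hB hp)).trans hM, fun p hp q hq => (h.2 p (hB hp) q (hB hq)).trans
    (mul_le_mul_of_nonneg_right hM (Real.sqrt_nonneg _))⟩

theorem Ho.congr (h : Ho B M f) (hf : EqOn f g B) : Ho B M g :=
  ⟨fun p hp => hf hp ▸ h.1 p hp, fun p hp q hq => hf hp ▸ hf hq ▸ h.2 p hp q hq⟩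

theorem Ho.const (B : Set P) (c : ℝ) : Ho B |c| fun _ => c :=
  ⟨fun _ _ => le_rfl, fun _ _ _ _ => by simp; positivity⟩

theorem Ho.add (h : Ho B M f) (h' : Ho B M' g) : Ho B (M + M') fun p => f p + g p :=
  ⟨fun p hp => (abs_add_le _ _).trans (add_le_add (h.1 p hp) (h'.1 p hp)), fun p hp q hq => by
    have := abs_add_le (f p - f q) (g p - g q)
    have a := h.2 p hp q hq
    have b := h'.2 p hp q hq
    rw [show f p + g p - (f q + g q) = f p - f q + (g p - g q) by ring, add_mul]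
    linarith⟩

theorem Ho.neg (h : Ho B M f) : Ho B M fun p => -f p :=
  ⟨fun p hp => by simpa using h.1 p hp, fun p hp q hq => by
    rw [show -f p - -f q = -(f p - f q) by ring, abs_neg]; exact h.2 p hp q hq⟩

theorem Ho.sub (h : Ho B M f) (h' : Ho B M' g) : Ho B (M + M') fun p => f p - g p := by
  simpa only [sub_eq_add_neg] using h.add h'.neg

theorem Ho.mul (h : Ho B M f) (h' : Ho B M' g) (hM : 0 ≤ M) (hM' : 0 ≤ M') :
    Ho B (2 * (M * M')) fun p => f p * g p := by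
  refine ⟨fun p hp => ?_, fun p hp q hq => ?_⟩
  · rw [abs_mul]
    have := mul_le_mul (h.1 p hp) (h'.1 p hp) (abs_nonneg _) hM
    nlinarith [mul_nonneg hM hM']
  · rw [show f p * g p - f q * g q = (f p - f q) * g p + f q * (g p - g q) by ring]
    refine (abs_add_le _ _).trans ?_
    rw [abs_mul, abs_mul]
    have a := mul_le_mul (h.2 p hp q hq) (h'.1 p hp) (abs_nonneg _)
      (mul_nonneg hM (Real.sqrt_nonneg _))
    have b := mul_le_mul (h.1 q hq) (h'.2 p hp q hq) (abs_nonneg _) hM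
    nlinarith

theorem Ho.cont (h : Ho B M f) : ContinuousOn f B := by
  intro p hp
  rw [ContinuousWithinAt, tendsto_iff_dist_tendsto_zero]
  have t : Tendsto (fun q => M * √(dist q p)) (𝓝[B] p) (𝓝 0) := by
    have : Continuous fun q : P => M * √(dist q p) := by fun_prop
    simpa using (this.tendsto p).mono_left nhdsWithin_le_nhds
  refine squeeze_zero' (Eventually.of_forall fun _ => dist_nonneg) ?_ t
  filter_upwards [self_mem_nhdsWithin] with q hq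
  exact h.2 q hq p hp

/-- Composition with a Lipschitz map. -/
theorem Ho.comp {G : P → P} {K : ℝ} (h : Ho B M f) (hM : 0 ≤ M) (hK : 1 ≤ K)
    (hG : ∀ p ∈ B', G p ∈ B) (hL : ∀ p ∈ B', ∀ q ∈ B', dist (G p) (G q) ≤ K * dist p q) :
    Ho B' (M * K) fun p => f (G p) := by
  refine ⟨fun p hp => (h.1 _ (hG p hp)).trans (by nlinarith), fun p hp q hq => ?_⟩
  refine (h.2 _ (hG p hp) _ (hG q hq)).trans ?_
  rw [mul_assoc]
  refine mul_le_mul_of_nonneg_left ?_ hM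
  refine (Real.sqrt_le_sqrt (hL p hp q hq)).trans ?_
  rw [Real.sqrt_mul (by linarith)]
  exact mul_le_mul_of_nonneg_right (Real.sqrt_le_iff.2 ⟨by linarith, by nlinarith⟩)
    (Real.sqrt_nonneg _)

theorem Hq.mono (h : Hq B f) (hB : B' ⊆ B) : Hq B' f :=
  let ⟨M, a, b⟩ := h; ⟨M, a, b.mono hB le_rfl⟩

theorem Hq.congr (h : Hq B f) (hf : EqOn f g B) : Hq B g := let ⟨M, a, b⟩ := h; ⟨M, a, b.congr hf⟩

theorem Hq.const (B : Set P) (c : ℝ) : Hq B fun _ => c := ⟨_, abs_nonneg c, Ho.const B c⟩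

theorem Hq.add (h : Hq B f) (h' : Hq B g) : Hq B fun p => f p + g p :=
  let ⟨_, a, b⟩ := h; let ⟨_, a', b'⟩ := h'; ⟨_, add_nonneg a a', b.add b'⟩

theorem Hq.neg (h : Hq B f) : Hq B fun p => -f p := let ⟨M, a, b⟩ := h; ⟨M, a, b.neg⟩

theorem Hq.sub (h : Hq B f) (h' : Hq B g) : Hq B fun p => f p - g p :=
  let ⟨_, a, b⟩ := h; let ⟨_, a', b'⟩ := h'; ⟨_, add_nonneg a a', b.sub b'⟩

theorem Hq.mul (h : Hq B f) (h' : Hq B g) : Hq B fun p => f p * g p :=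
  let ⟨_, a, b⟩ := h; let ⟨_, a', b'⟩ := h'; ⟨_, by positivity, b.mul b' a a'⟩

theorem Hq.cont (h : Hq B f) : ContinuousOn f B := let ⟨_, _, b⟩ := h; b.cont

theorem Hq.cb (h : Hq B f) : Cb B f := let ⟨M, _, b⟩ := h; ⟨b.cont, M, b.1⟩

theorem Hq.inv (h : Hq B f) {c : ℝ} (hc : 0 < c) (hf : ∀ p ∈ B, c ≤ |f p|) :
    Hq B fun p => (f p)⁻¹ := by
  obtain ⟨M, a, b⟩ := h
  refine ⟨c⁻¹ + M * (c⁻¹ * c⁻¹), by positivity, fun p hp => ?_, fun p hp q hq => ?_⟩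
  · rw [abs_inv]
    have := inv_anti₀ hc (hf p hp)
    have : 0 ≤ M * (c⁻¹ * c⁻¹) := by positivity
    linarith
  · have p0 : f p ≠ 0 := abs_pos.1 (hc.trans_le (hf p hp))
    have q0 : f q ≠ 0 := abs_pos.1 (hc.trans_le (hf q hq))
    rw [show (f p)⁻¹ - (f q)⁻¹ = -(f p - f q) * ((f p)⁻¹ * (f q)⁻¹) by field_simp; ring, abs_mul,
      abs_neg, abs_mul, abs_inv, abs_inv]
    have i := mul_le_mul (inv_anti₀ hc (hf p hp)) (inv_anti₀ hc (hf q hq)) (by positivity)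
      (by positivity)
    have j := mul_le_mul (b.2 p hp q hq) i (by positivity) (by positivity)
    have : 0 ≤ c⁻¹ * √(dist p q) := by positivity
    nlinarith

theorem C1.mono (h : C1 B f f₁ f₂) (hB : B' ⊆ B) : C1 B' f f₁ f₂ :=
  ⟨h.c1.mono hB, h.c2.mono hB, fun p hp => h.fd p (hB hp)⟩

theorem C1.cont (h : C1 B f f₁ f₂) : ContinuousOn f B :=
  fun p hp => (h.fd p hp).continuousAt.continuousWithinAt

theorem C1.d1 (h : C1 B f f₁ f₂) : D1 B f f₁ := fun p hp => by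
  have := (h.fd p hp).comp_hasDerivAt p.1
    ((hasDerivAt_id p.1).prodMk (hasDerivAt_const p.1 p.2))
  simpa [Function.comp_def] using this

theorem C1.d2 (h : C1 B f f₁ f₂) : D2 B f f₂ := fun p hp => by
  have := (h.fd p hp).comp_hasDerivAt p.2
    ((hasDerivAt_const p.2 p.1).prodMk (hasDerivAt_id p.2))
  simpa [Function.comp_def] using this

theorem C1.congr_d (h : C1 B f f₁ f₂) (h₁ : EqOn f₁ g₁ B) (h₂ : EqOn f₂ g₂ B) : C1 B f g₁ g₂ :=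
  ⟨h.c1.congr h₁.symm, h.c2.congr h₂.symm, fun p hp => h₁ hp ▸ h₂ hp ▸ h.fd p hp⟩

theorem C1.congr (h : C1 B f f₁ f₂) (hB : IsOpen B) (hf : EqOn f g B) : C1 B g f₁ f₂ :=
  ⟨h.c1, h.c2, fun p hp => (h.fd p hp).congr_of_eventuallyEq
    (mem_of_superset (hB.mem_nhds hp) fun _ hq => (hf hq).symm)⟩

theorem C1.add (h : C1 B f f₁ f₂) (h' : C1 B g g₁ g₂) :
    C1 B (fun p => f p + g p) (fun p => f₁ p + g₁ p) fun p => f₂ p + g₂ p :=
  ⟨h.c1.add h'.c1, h.c2.add h'.c2, fun p hp =>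
    ((h.fd p hp).add (h'.fd p hp)).congr_fderiv (ContinuousLinearMap.ext fun v => by
      simp; ring)⟩

theorem C1.neg (h : C1 B f f₁ f₂) : C1 B (fun p => -f p) (fun p => -f₁ p) fun p => -f₂ p :=
  ⟨h.c1.neg, h.c2.neg, fun p hp =>
    (h.fd p hp).neg.congr_fderiv (ContinuousLinearMap.ext fun v => by simp; ring)⟩

theorem C1.mul (h : C1 B f f₁ f₂) (h' : C1 B g g₁ g₂) :
    C1 B (fun p => f p * g p) (fun p => f₁ p * g p + f p * g₁ p)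
      fun p => f₂ p * g p + f p * g₂ p :=
  ⟨(h.c1.mul h'.cont).add (h.cont.mul h'.c1), (h.c2.mul h'.cont).add (h.cont.mul h'.c2),
    fun p hp => ((h.fd p hp).mul (h'.fd p hp)).congr_fderiv (ContinuousLinearMap.ext fun v => by
      simp; ring)⟩

/-- Chain rule. -/
theorem C1.comp {G : P → P} {x₁ x₂ y₁ y₂ : P → ℝ} (h : C1 B f f₁ f₂)
    (hx : C1 B' (fun p => (G p).1) x₁ x₂) (hy : C1 B' (fun p => (G p).2) y₁ y₂)
    (hG : ∀ p ∈ B', G p ∈ B) :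
    C1 B' (fun p => f (G p)) (fun p => f₁ (G p) * x₁ p + f₂ (G p) * y₁ p)
      fun p => f₁ (G p) * x₂ p + f₂ (G p) * y₂ p := by
  have cG : ContinuousOn G B' := hx.cont.prodMk hy.cont
  have a := h.c1.comp cG hG
  have b := h.c2.comp cG hG
  refine ⟨(a.mul hx.c1).add (b.mul hy.c1), (a.mul hx.c2).add (b.mul hy.c2), fun p hp => ?_⟩
  exact ((h.fd _ (hG p hp)).comp p ((hx.fd p hp).prodMk (hy.fd p hp))).congr_fderiv
    (ContinuousLinearMap.ext fun v => by simp; ring)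

theorem D1.eq (h : D1 B f g) : EqOn (d1 f) g B := fun p hp => (h p hp).deriv

theorem Lv.hq {k : ℕ} (h : Lv B k f) : Hq B f := by
  cases k with
  | zero => exact h
  | succ k => exact h.1

theorem Co.mono {a r K r' : ℝ} {l m m₁ m₂ : P → ℝ} {Θ Ξ : P → P} (h : Co a r K l m Θ Ξ m₁ m₂)
    (h0 : 0 < r') (hr : r' ≤ r) : Co a r' K l m Θ Ξ m₁ m₂ :=
  have s := Q_mono hr
  ⟨h0, hr.trans h.r1, h.K1, h.z0, fun p hp => h.mp p (s hp), h.cx.mono s, h.cy.mono s,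
    h.h1.mono s le_rfl, h.h2.mono s le_rfl, h.hl.mono s le_rfl, h.hm.mono s le_rfl,
    fun p hp => h.lo p (s hp), fun t ht => h.bs t (ht.trans_le hr), fun p hp => h.inv p (s hp),
    fun p hp q hq => h.lip p (s hp) q (s hq), fun p δ hδ => h.bl p δ (hδ.trans s)⟩

theorem Co.shrink {a r K a' : ℝ} {l m m₁ m₂ : P → ℝ} {Θ Ξ : P → P}
    (h : Co a r K l m Θ Ξ m₁ m₂) (ha : 0 < a') : ∃ r', Co a' r' K l m Θ Ξ m₁ m₂ := by
  have K0 : 0 < K := one_pos.trans_le h.K1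
  have g := h.mono (lt_min h.r0 (div_pos ha K0)) (min_le_left _ _)
  refine ⟨_, g.r0, g.r1, g.K1, g.z0, fun p hp => ?_, g.cx, g.cy, g.h1, g.h2, g.hl, g.hm, g.lo,
    g.bs, g.inv, g.lip, g.bl⟩
  have z : (0 : P) ∈ Q (min r (a' / K)) := by rw [Q_eq_ball]; exact Metric.mem_ball_self g.r0
  have := (g.lip p hp 0 z).1
  rw [Q_eq_ball, Metric.mem_ball] at hp ⊢
  rw [g.z0] at this
  have e : dist p 0 < a' / K := hp.trans_le (min_le_right _ _)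
  rw [lt_div_iff₀ K0] at e
  linarith

theorem Hg.hq (h : Hg f) (B : Set P) : Hq B f :=
  let ⟨M, a, b⟩ := h; ⟨M, a, fun p _ => (b p).1, fun p _ q _ => (b p).2 q⟩

theorem Nu.mono {a a' c ε : ℝ} {F : J2} {l m s : P → ℝ} (h : Nu a c ε F l m s) (ha : a' ≤ a) :
    Nu a' c ε F l m s :=
  have s := Q_mono ha
  ⟨h.c0, h.e, h.l0, fun p hp => h.ds p (s hp), fun p hp => h.hl p (s hp),
    fun p hp => h.hm p (s hp), fun p hp => h.lm p (s hp)⟩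

/-- The algebra of the null fields. -/
theorem Nu.alg {a c ε : ℝ} {F : J2} {l m s : P → ℝ} (h : Nu a c ε F l m s) {p : P}
    (hp : p ∈ Q a) : F 1 1 p + s p ≠ 0 ∧ c ≤ s p ^ 2 ∧ s p ^ 2 = F 1 1 p ^ 2 - F 2 0 p * F 0 2 p ∧
      h11 F l p = 0 ∧ h22 F m p = 0 ∧ F 1 1 p + l p * F 0 2 p = s p ∧
      F 1 1 p + m p * F 2 0 p = s p ∧
      ∀ g : J2, cf F g p = -(F 1 1 p + s p) * h12 g l m p := by
  obtain ⟨h1, h2, h3⟩ := h.ds p hp
  have w : F 1 1 p + s p ≠ 0 := fun e => by rw [e, mul_zero] at h3; linarith [h.c0]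
  have e2 : ε ^ 2 = 1 := by rcases h.e with e | e <;> simp [e]
  have q : s p ^ 2 = F 1 1 p ^ 2 - F 2 0 p * F 0 2 p := by
    rw [h2, mul_pow, e2, one_mul, Real.sq_sqrt (h.c0.le.trans h1)]
  have a1 : F 2 0 p = -l p * (F 1 1 p + s p) := by rw [h.hl p hp]; field_simp
  have a2 : F 0 2 p = -m p * (F 1 1 p + s p) := by rw [h.hm p hp]; field_simp
  have a3 : F 1 1 p - s p = l p * m p * (F 1 1 p + s p) := by
    apply mul_right_cancel₀ w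
    linear_combination (-1 : ℝ) * q + F 0 2 p * a1 - l p * (F 1 1 p + s p) * a2
  refine ⟨w, q ▸ h1, q, ?_, ?_, ?_, ?_, fun g => ?_⟩
  · unfold h11; linear_combination a1 + l p ^ 2 * a2 + l p * a3
  · unfold h22; linear_combination m p ^ 2 * a1 + a2 + m p * a3
  · linear_combination l p * a2 + a3
  · linear_combination m p * a1 + a3
  · unfold cf h12; linear_combination g 2 0 p * a2 + g 0 2 p * a1 - g 1 1 p * a3

end basic

end Pool.Agent.MP_ed9623_an.R46
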