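import Pool.Agent.MP_ed9623_an.R46.Tr

/-! Approximation by mollifications in the chart. -/

open MeasureTheory Filter Topology Set
open scoped ContDiff

namespace Pool.Agent.MP_ed9623_an.R46

open H64 H77 R77

namespace XApx

variable {r : ℝ} {G H : ℕ → P → ℝ} {g h x u v : P → ℝ}

theorem cb_add (a : Cb (Q r) u) (b : Cb (Q r) v) : Cb (Q r) fun p => u p + v p := by
  obtain ⟨c, M, hM⟩ := a
  obtain ⟨d, N, hN⟩ := b
  exact ⟨c.add d, M + N, fun p hp => (abs_add_le _ _).trans (add_le_add (hM p hp) (hN p hp))⟩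

theorem cb_sub (a : Cb (Q r) u) (b : Cb (Q r) v) : Cb (Q r) fun p => u p - v p := by
  obtain ⟨c, M, hM⟩ := a
  obtain ⟨d, N, hN⟩ := b
  exact ⟨c.sub d, M + N, fun p hp => (abs_sub _ _).trans (add_le_add (hM p hp) (hN p hp))⟩

theorem cb_mul (a : Cb (Q r) u) (b : Cb (Q r) v) : Cb (Q r) fun p => u p * v p := by
  obtain ⟨c, M, hM⟩ := a
  obtain ⟨d, N, hN⟩ := b
  exact ⟨c.mul d, M * N, fun p hp => abs_mul (u p) (v p) ▸
    mul_le_mul (hM p hp) (hN p hp) (abs_nonneg _) ((abs_nonneg _).trans (hM p hp))⟩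

theorem ind_add (u v : P → ℝ) : ((Q r).indicator fun p => u p + v p)
    = fun p => (Q r).indicator u p + (Q r).indicator v p := by
  funext p; by_cases c : p ∈ Q r <;> simp [c]

theorem ind_sub (u v : P → ℝ) : ((Q r).indicator fun p => u p - v p)
    = fun p => (Q r).indicator u p - (Q r).indicator v p := by
  funext p; by_cases c : p ∈ Q r <;> simp [c]

theorem ind_mul (u v : P → ℝ) : ((Q r).indicator fun p => u p * v p)
    = fun p => (Q r).indicator v p * (Q r).indicator u p := by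
  funext p; by_cases c : p ∈ Q r <;> simp [c, mul_comm]

/-- Convergence in the mean square on the square. -/
structure Cg (r : ℝ) (G : ℕ → P → ℝ) (g : P → ℝ) : Prop where
  ct : ∀ n, Cb (Q r) (G n)
  m2 : M2 ((Q r).indicator g)
  cv : Tendsto (fun n => nm ((Q r).indicator fun p => G n p - g p)) atTop (𝓝 0)

theorem Cg.md (a : Cg r G g) (n : ℕ) : M2 ((Q r).indicator fun p => G n p - g p) :=
  ind_sub (G n) g ▸ (XTr.m2 (a.ct n)).sub a.m2

theorem Cg.add (a : Cg r G g) (b : Cg r H h) :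
    Cg r (fun n p => G n p + H n p) fun p => g p + h p := by
  refine ⟨fun n => cb_add (a.ct n) (b.ct n), ind_add g h ▸ a.m2.add b.m2, ?_⟩
  refine squeeze_zero (fun _ => nm_nonneg _) (fun n => ?_) (by simpa using a.cv.add b.cv)
  simp only [add_sub_add_comm]
  rw [ind_add]
  exact nm_add_le (a.md n) (b.md n)

theorem Cg.mul (a : Cg r G g) (hx : Cb (Q r) x) :
    Cg r (fun n p => G n p * x p) fun p => g p * x p := by
  have mx := (XTr.m2 hx).meas
  obtain ⟨M, hM⟩ := hx.2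
  have bx : ∀ᵐ p, |(Q r).indicator x p| ≤ |M| := Eventually.of_forall fun p => by
    by_cases c : p ∈ Q r
    · rw [indicator_of_mem c]; exact (hM p c).trans (le_abs_self M)
    · simp [c]
  refine ⟨fun n => cb_mul (a.ct n) hx, ind_mul g x ▸ a.m2.bmul mx bx, ?_⟩
  refine squeeze_zero (fun _ => nm_nonneg _) (fun n => ?_) (by simpa using a.cv.const_mul |M|)
  simp only [← sub_mul]
  rw [ind_mul]
  exact nm_bmul (a.md n) (abs_nonneg M) bx

theorem Cg.bd (a : Cg r G g) : ∃ B, ∀ n, nm ((Q r).indicator (G n)) ^ 2 ≤ B := by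
  obtain ⟨B, hB⟩ := a.cv.bddAbove_range
  refine ⟨(B + nm ((Q r).indicator g)) ^ 2, fun n => pow_le_pow_left₀ (nm_nonneg _) ?_ 2⟩
  have := nm_add_le (a.md n) a.m2
  rw [← ind_add] at this
  simp only [sub_add_cancel] at this
  exact this.trans (add_le_add (hB ⟨n, rfl⟩) le_rfl)

theorem Cg.ca (a : Cg r G g) {ε : ℝ} (e0 : 0 < ε) :
    ∃ N, ∀ n ≥ N, ∀ k ≥ N, nm ((Q r).indicator fun p => G n p - G k p) ^ 2 ≤ ε := by
  obtain ⟨N, hN⟩ := eventually_atTop.1 (a.cv.eventually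
    (Iio_mem_nhds (half_pos (Real.sqrt_pos.2 e0))))
  refine ⟨N, fun n hn k hk => ?_⟩
  have := nm_sub_le (a.md n) (a.md k)
  rw [← ind_sub] at this
  simp only [sub_sub_sub_cancel_right] at this
  rw [← Real.sq_sqrt e0.le]
  exact pow_le_pow_left₀ (nm_nonneg _) (by linarith [hN n hn, hN k hk]) 2

theorem sq (hT : TrS) (r0 : 0 < r) (a : Cg r G g) (b : Cg r H h)
    (d : ∀ n, D1 (Q r) (G n) (H n)) : ∃ B, ∀ K, B ≤ K ^ 2 → Sq r K G g := by
  obtain ⟨A, hA⟩ := a.bd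
  obtain ⟨B, hB⟩ := b.bd
  refine ⟨max B (A / r + 4 * r * B), fun K hK => ⟨a.ct, a.m2, a.cv, fun n s hs => ?_,
    fun n s t hs ht => ?_, fun ε e0 => ?_⟩⟩
  · refine ((hT r _ _ r0 (a.ct n) (b.ct n) (d n)).2 s hs).trans (le_trans ?_
      ((le_max_right _ _).trans hK))
    have := hA n
    have := hB n
    gcongr
  · exact ((hT r _ _ r0 (a.ct n) (b.ct n) (d n)).1 s t hs ht).trans
      (mul_le_mul_of_nonneg_right ((hB n).trans ((le_max_left _ _).trans hK)) (abs_nonneg _))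
  · obtain ⟨N, hN⟩ := a.ca (ε := ε / 2 * r) (by positivity)
    obtain ⟨N', hN'⟩ := b.ca (ε := ε / 2 / (4 * r)) (by positivity)
    refine ⟨max N N', fun n hn k hk s hs => ?_⟩
    refine ((hT r _ _ r0 (cb_sub (a.ct n) (a.ct k)) (cb_sub (b.ct n) (b.ct k))
      fun p hp => (d n p hp).sub (d k p hp)).2 s hs).trans ?_
    have e1 := hN n (le_of_max_le_left hn) k (le_of_max_le_left hk)
    have e2 := hN' n (le_of_max_le_right hn) k (le_of_max_le_right hk)
    rw [← div_le_iff₀ r0] at e1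
    rw [le_div_iff₀ (by positivity)] at e2
    linarith

variable {k : ℕ → P → ℝ} {e : ℕ → ℝ} {T : P → P} {a K : ℝ} {f y : P → ℝ} {F : J2}

theorem cg (hk : ∀ n, Ker (e n) (k n)) (he : Tendsto e atTop (𝓝 0)) (hf : M2 f)
    (c : ContinuousOn T (Q r)) (mp : ∀ p ∈ Q r, T p ∈ Q a) (K0 : 0 ≤ K)
    (hT : ∀ f, M2 f → M2 ((Q r).indicator fun p => f (T p)) ∧
      nm ((Q r).indicator fun p => f (T p)) ≤ K * nm f) :
    Cg r (fun n p => mol (k n) f (T p)) fun p => f (T p) := by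
  refine ⟨fun n => ?_, (hT f hf).1, ?_⟩
  · have s := ((rowMol1 _ (hk n).test).1 f hf).1.continuous
    obtain ⟨M, hM⟩ := (isCompact_closedBall (0 : P) a).exists_bound_of_continuousOn s.continuousOn
    exact ⟨s.comp_continuousOn c, M, fun p hp => hM _
      (Metric.ball_subset_closedBall (Q_eq_ball a ▸ mp p hp))⟩
  · have t : Tendsto (fun n => nm fun p => mol (k n) f p - f p) atTop (𝓝 0) := by
      refine Metric.tendsto_nhds.2 fun δ δ0 => ?_
      obtain ⟨ε, ε0, hε⟩ := rowMol2.2.2.2 f hf _ (half_pos δ0)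
      filter_upwards [he.eventually (Iio_mem_nhds ε0)] with n hn
      rw [dist_zero_right, Real.norm_of_nonneg (nm_nonneg _)]
      exact (hε _ _ (le_of_lt hn) (hk n)).trans_lt (half_lt_self δ0)
    exact squeeze_zero (fun _ => nm_nonneg _)
      (fun n => (hT _ ((rowMol2.2.1 _ _ f (hk n) hf).1.sub hf)).2) (by simpa using t.const_mul K)

theorem c1 (hk : ∀ n, Ker (e n) (k n)) (hF : Jt 1 F) (n : ℕ) (O : Set P) :
    C1 O (mol (k n) (F 0 0)) (mol (k n) (F 1 0)) (mol (k n) (F 0 1)) := by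
  obtain ⟨s, d⟩ := (rowMol1 _ (hk n).test).1 _ (hF.m 0 0 (by omega))
  refine ⟨((rowMol1 _ (hk n).test).1 _ (hF.m 1 0 le_rfl)).1.continuous.continuousOn,
    ((rowMol1 _ (hk n).test).1 _ (hF.m 0 1 le_rfl)).1.continuous.continuousOn, fun p _ => ?_⟩
  refine (sm_diff s p).hasFDerivAt.congr_fderiv (ContinuousLinearMap.ext fun w => ?_)
  rw [lf_apply, ← mol_wd (hk n).test (hF.x 0 0 one_pos) fun _ _ => mem_univ _,
    ← mol_wd (hk n).test (hF.y 0 0 one_pos) fun _ _ => mem_univ _, ← d, ← d]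
  have : w = w.1 • ee 0 + w.2 • ee 1 := by ext <;> simp [ee]
  conv_lhs => rw [this]
  simp only [map_add, map_smul, smul_eq_mul, pd]
  ring

theorem gen (hTr : TrS) (r0 : 0 < r) (hk : ∀ n, Ker (e n) (k n)) (he : Tendsto e atTop (𝓝 0))
    (hF : Jt 1 F) (c : ContinuousOn T (Q r)) (mp : ∀ p ∈ Q r, T p ∈ Q a) (K0 : 0 ≤ K)
    (hT : ∀ f, M2 f → M2 ((Q r).indicator fun p => f (T p)) ∧
      nm ((Q r).indicator fun p => f (T p)) ≤ K * nm f) (hx : Cb (Q r) x) (hy : Cb (Q r) y)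
    (d : ∀ f f₁ f₂, C1 (Q a) f f₁ f₂ →
      D1 (Q r) (fun p => f (T p)) fun p => f₁ (T p) * x p + f₂ (T p) * y p) :
    ∃ B, ∀ K', B ≤ K' ^ 2 →
      Sq r K' (fun n p => mol (k n) (F 0 0) (T p)) fun p => F 0 0 (T p) :=
  sq hTr r0 (cg hk he (hF.m 0 0 (by omega)) c mp K0 hT)
    (((cg hk he (hF.m 1 0 le_rfl) c mp K0 hT).mul hx).add
      ((cg hk he (hF.m 0 1 le_rfl) c mp K0 hT).mul hy)) fun n => d _ _ _ (c1 hk hF n _)

theorem sw {p : P} (hp : p ∈ Q r) : p.swap ∈ Q r := ⟨hp.2, hp.1⟩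

theorem cb_sw (a : Cb (Q r) u) : Cb (Q r) fun p => u p.swap :=
  ⟨a.1.comp continuous_swap.continuousOn fun _ => sw, a.2.imp fun _ b _ hp => b _ (sw hp)⟩

end XApx

open XApx

theorem rowApx : OfApx := by
  intro hS hC hT a r K l m Θ Ξ m₁ m₂ h k e F hk he hF
  obtain ⟨K', K0, hK, -⟩ := hC a r K l m Θ Ξ m₁ m₂ h
  have z : 0 ≤ K := zero_le_one.trans h.K1
  have c : ContinuousOn Θ (Q r) := h.cx.cont.prodMk h.cy.cont
  have b1 : Cb (Q r) m₁ := Hq.cb ⟨K, z, h.h1⟩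
  have b2 : Cb (Q r) m₂ := Hq.cb ⟨K, z, h.h2⟩
  have bl : Cb (Q r) fun p => l (Θ p) := Hq.cb ⟨K, z, h.hl⟩
  have bm : Cb (Q r) fun p => m (Θ p) := Hq.cb ⟨K, z, h.hm⟩
  obtain ⟨A, hA⟩ := gen hT h.r0 hk he hF c h.mp K0 hK b1 (cb_mul b1 bl)
    fun f f₁ f₂ a => (a.comp h.cx h.cy h.mp).d1
  obtain ⟨B, hB⟩ := gen (T := fun p => Θ p.swap) hT h.r0 hk he hF
    (c.comp continuous_swap.continuousOn fun _ => sw) (fun p hp => h.mp _ (sw hp)) K0
    (fun f hf => by
      have e : ((Q r).indicator fun p => f (Θ p.swap))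
          = fun p => (Q r).indicator (fun p => f (Θ p)) p.swap := by
        funext p
        by_cases a : p ∈ Q r
        · rw [indicator_of_mem a, indicator_of_mem (sw a)]
        · rw [indicator_of_notMem a, indicator_of_notMem fun b => a (sw b)]
      obtain ⟨a1, a2⟩ := (hS r _ f).1 (hK f hf).1
      rw [e]
      exact ⟨a1, a2 ▸ (hK f hf).2⟩)
    (cb_sw (cb_mul b2 bm)) (cb_sw b2) fun f f₁ f₂ a p hp => (a.comp h.cx h.cy h.mp).d2 _ (sw hp)
  have q : max A B ≤ √(max A B) ^ 2 := by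
    rw [Real.sq_sqrt', le_max_iff]; exact Or.inl le_rfl
  exact ⟨_, hA _ ((le_max_left _ _).trans q), hB _ ((le_max_right _ _).trans q)⟩

end Pool.Agent.MP_ed9623_an.R46
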