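import Pool.Agent.MP_ed9623_an.R46.Lv

/-! Bounded difference quotients give one more level; integration in the second variable; the
iteration lemma. -/

open MeasureTheory Filter Topology Set

namespace Pool.Agent.MP_ed9623_an.R46

open H64 H77 R77

variable {ρ ρ₁ ρ₂ h M C : ℝ} {f g S T : P → ℝ} {k : ℕ}

theorem abs_uIcc {a b t r : ℝ} (ha : |a| < r) (hb : |b| < r) (ht : t ∈ uIcc a b) : |t| < r := by
  have u := abs_lt.1 ha
  have v := abs_lt.1 hb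
  rcases mem_uIcc.1 ht with e | e <;> exact abs_lt.2 ⟨by linarith [e.1, e.2], by linarith [e.1, e.2]⟩

theorem ct1 (hg : ContinuousOn g (Q ρ₂)) {p : P} (hp : p ∈ Q ρ₁) {a b : ℝ}
    (ha : |a| ≤ ρ₂ - ρ₁) (hb : |b| ≤ ρ₂ - ρ₁) :
    IntervalIntegrable (fun t => g (p.1 + t, p.2)) volume a b := by
  refine (hg.comp (by fun_prop) fun t ht => sh_mem hp ?_).intervalIntegrable
  have u := abs_le.1 ha
  have v := abs_le.1 hb
  rcases mem_uIcc.1 ht with e | e <;> exact abs_le.2 ⟨by linarith [e.1, e.2], by linarith [e.1, e.2]⟩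

/-- Two difference quotients are close. -/
theorem dq_close {ρ' h₀ h' : ℝ} (hg : ContinuousOn g (Q ρ₂)) (h12 : ρ₁ + h₀ ≤ ρ₂)
    (hb : ∀ h, 0 < h → h < h₀ → Ho (Q ρ₁) C fun p => dl h g p / h) (C0 : 0 ≤ C) {p : P}
    (hp : p ∈ Q ρ') (h0 : 0 < h) (h0' : 0 < h') (h1 : h < h₀) (h1' : h' < h₀)
    (h2 : h ≤ ρ₁ - ρ') (h2' : h' ≤ ρ₁ - ρ') :
    |dl h g p / h - dl h' g p / h'| ≤ C * √h + C * √h' := by
  have one : ∀ u v : ℝ, 0 < u → 0 < v → v < h₀ → u ≤ ρ₁ - ρ' →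
      |(∫ t in v..u + v, g (p.1 + t, p.2)) / v - (∫ t in (0 : ℝ)..u, g (p.1 + t, p.2)) / v
        - u * (dl v g p / v)| ≤ C * √u * u := by
    intro u v u0 v0 v1 u1
    have i0 : IntervalIntegrable (fun t => g (p.1 + t, p.2)) volume 0 u :=
      ct1 hg hp (by rw [abs_zero]; linarith) (by rw [abs_of_pos u0]; linarith)
    have i1 : IntervalIntegrable (fun t => g (p.1 + (t + v), p.2)) volume 0 u := by
      have := (ct1 hg hp (a := v) (b := u + v) (by rw [abs_of_pos v0]; linarith)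
        (by rw [abs_of_pos (by linarith)]; linarith)).comp_add_right v
      simpa using this
    have e := intervalIntegral.integral_comp_add_right (a := 0) (b := u)
      (fun t => g (p.1 + t, p.2)) v
    rw [zero_add] at e
    have n := intervalIntegral.norm_integral_le_of_norm_le_const (a := 0) (b := u) (C := C * √u)
      (f := fun t => (g (p.1 + (t + v), p.2) / v - g (p.1 + t, p.2) / v) - dl v g p / v)
      fun t ht => by
        rw [uIoc_of_le u0.le] at ht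
        have m : ((p.1 + t, p.2) : P) ∈ Q ρ₁ := sh_mem hp (by rw [abs_of_pos ht.1]; linarith [ht.2])
        have := (hb v v0 v1).2 _ m p (Q_mono (by linarith) hp)
        have d : dist ((p.1 + t, p.2) : P) p ≤ u := by
          simp [Prod.dist_eq, abs_of_pos ht.1, ht.2, u0.le]
        refine le_trans (le_of_eq ?_) (this.trans
          (mul_le_mul_of_nonneg_left (Real.sqrt_le_sqrt d) C0))
        simp only [dl, Real.norm_eq_abs, add_assoc, sub_div]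
    rw [intervalIntegral.integral_sub ((i1.div_const v).sub (i0.div_const v))
      intervalIntegrable_const, intervalIntegral.integral_sub (i1.div_const v) (i0.div_const v),
      intervalIntegral.integral_div, intervalIntegral.integral_div, e] at n
    simpa [abs_of_pos u0, mul_div_assoc] using n
  have a := one h h' h0 h0' h1' h2
  have b := one h' h h0' h0 h1 h2'
  have z : |(0 : ℝ)| ≤ ρ₂ - ρ' := by rw [abs_zero]; linarith
  have e1 := intervalIntegral.integral_interval_sub_left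
    (ct1 hg hp (b := h + h') z (by rw [abs_of_pos (by linarith)]; linarith))
    (ct1 hg hp (b := h') z (by rw [abs_of_pos h0']; linarith))
  have e2 := intervalIntegral.integral_interval_sub_left
    (ct1 hg hp (b := h' + h) z (by rw [abs_of_pos (by linarith)]; linarith))
    (ct1 hg hp (b := h) z (by rw [abs_of_pos h0]; linarith))
  rw [← e1] at a
  rw [← e2, add_comm h' h] at b
  set X := ∫ t in (0 : ℝ)..h + h', g (p.1 + t, p.2)
  set Y := ∫ t in (0 : ℝ)..h, g (p.1 + t, p.2)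
  set Y' := ∫ t in (0 : ℝ)..h', g (p.1 + t, p.2)
  set D := dl h g p / h
  set D' := dl h' g p / h'
  have a' : |(X - Y' - Y) / (h * h') - D'| ≤ C * √h := by
    rw [show (X - Y' - Y) / (h * h') - D' = ((X - Y') / h' - Y / h' - h * D') / h by
      field_simp, abs_div, abs_of_pos h0, div_le_iff₀ h0]
    exact a
  have b' : |(X - Y' - Y) / (h * h') - D| ≤ C * √h' := by
    rw [show (X - Y' - Y) / (h * h') - D = ((X - Y) / h - Y' / h - h' * D) / h' by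
      field_simp; ring, abs_div, abs_of_pos h0', div_le_iff₀ h0']
    exact b
  have := abs_sub_le D ((X - Y' - Y) / (h * h')) D'
  rw [abs_sub_comm D ((X - Y' - Y) / (h * h'))] at this
  linarith

theorem Ho.lim {B : Set P} {F : ℕ → P → ℝ} (hF : ∀ n, Ho B M (F n))
    (ht : ∀ p ∈ B, Tendsto (fun n => F n p) atTop (𝓝 (g p))) : Ho B M g :=
  ⟨fun p hp => le_of_tendsto' (ht p hp).abs fun n => (hF n).1 p hp, fun p hp q hq =>
    le_of_tendsto' ((ht p hp).sub (ht q hq)).abs fun n => (hF n).2 p hp q hq⟩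

theorem up_one {ρ' h₀ : ℝ} (hg : Hq (Q ρ₂) g) (h0 : 0 < h₀) (h12 : ρ₁ + h₀ ≤ ρ₂) (h1 : ρ' < ρ₁)
    (hb : Bd ρ₁ h₀ fun h p => dl h g p / h) : ∃ g', D1 (Q ρ') g g' ∧ Hq (Q ρ') g' := by
  obtain ⟨C, C0, hC⟩ := hb
  set δ := min (h₀ / 2) (ρ₁ - ρ') with hδ
  have δ0 : 0 < δ := lt_min (half_pos h0) (by linarith)
  set u : ℕ → ℝ := fun n => δ / (n + 1) with hu
  have u0 : ∀ n, 0 < u n := fun n => by positivity
  have u1 : ∀ n, u n ≤ δ := fun n => div_le_self δ0.le (by simp)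
  have u2 : ∀ n, u n < h₀ := fun n => (u1 n).trans_lt ((min_le_left _ _).trans_lt (half_lt_self h0))
  have u3 : ∀ n, u n ≤ ρ₁ - ρ' := fun n => (u1 n).trans (min_le_right _ _)
  have ut : Tendsto u atTop (𝓝 0) := by
    simpa [hu, div_eq_mul_inv] using tendsto_one_div_add_atTop_nhds_zero_nat.const_mul δ
  have st : Tendsto (fun n => C * √(u n)) atTop (𝓝 0) := by
    simpa using ((Real.continuous_sqrt.tendsto 0).comp ut).const_mul C
  have cl := fun (p : P) (hp : p ∈ Q ρ') (n m : ℕ) =>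
    dq_close hg.cont h12 hC C0 hp (u0 n) (u0 m) (u2 n) (u2 m) (u3 n) (u3 m)
  have ca : ∀ ε > (0 : ℝ), ∃ N : ℕ, ∀ m ≥ N, ∀ n ≥ N, ∀ p ∈ Q ρ',
      dist (dl (u m) g p / u m) (dl (u n) g p / u n) < ε := fun ε ε0 => by
    obtain ⟨N, hN⟩ := eventually_atTop.1 (st.eventually (gt_mem_nhds (half_pos ε0)))
    exact ⟨N, fun m a n b p hp => (cl p hp m n).trans_lt (by linarith [hN m a, hN n b])⟩
  have ex : ∀ p ∈ Q ρ', ∃ y, Tendsto (fun n => dl (u n) g p / u n) atTop (𝓝 y) := fun p hp =>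
    cauchySeq_tendsto_of_complete (Metric.cauchySeq_iff.2 fun ε ε0 =>
      (ca ε ε0).imp fun N hN m a n b => hN m a n b p hp)
  choose! g' hg' using ex
  refine ⟨g', fun p hp => ?_, C, C0,
    Ho.lim (fun n => (hC _ (u0 n) (u2 n)).mono (Q_mono h1.le) le_rfl) hg'⟩
  have o : ∀ r : ℝ, IsOpen {s : ℝ | |s| < r} := fun r => isOpen_lt continuous_abs continuous_const
  have m : ∀ s : ℝ, |s| < ρ' → ((s, p.2) : P) ∈ Q ρ' := fun s hs => mem_Q.2 ⟨hs, (mem_Q.1 hp).2⟩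
  have r2 : ρ' ≤ ρ₂ := by linarith
  have p2 : |p.2| < ρ₂ := (mem_Q.1 hp).2.trans_le r2
  have c : ContinuousOn (fun s => g (s, p.2)) {s | |s| < ρ₂} :=
    hg.cont.comp (by fun_prop) fun s hs => mem_Q.2 ⟨hs, p2⟩
  have ii : ∀ s : ℝ, |s| < ρ₂ → IntervalIntegrable (fun s => g (s, p.2)) volume 0 s := fun s hs =>
    (c.mono fun t ht => abs_uIcc (by rw [abs_zero]; exact (abs_nonneg _).trans_lt hs) hs
      ht).intervalIntegrable
  have dG : ∀ s : ℝ, |s| < ρ₂ →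
      HasDerivAt (fun s => ∫ t in (0 : ℝ)..s, g (t, p.2)) (g (s, p.2)) s := fun s hs =>
    intervalIntegral.integral_hasDerivAt_right (ii s hs) (c.stronglyMeasurableAtFilter (o _) _ hs)
      (c.continuousAt ((o _).mem_nhds hs))
  have sm : ∀ n, ∀ s : ℝ, |s| < ρ' → |s + u n| < ρ₂ := fun n s hs =>
    (abs_add_le _ _).trans_lt (by rw [abs_of_pos (u0 n)]; linarith [u2 n])
  refine hasDerivAt_of_tendstoUniformlyOn (l := atTop) (o ρ')
    (f := fun n s => ((∫ t in (0 : ℝ)..s + u n, g (t, p.2)) - ∫ t in (0 : ℝ)..s, g (t, p.2)) / u n)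
    (f' := fun n s => dl (u n) g (s, p.2) / u n) (g' := fun s => g' (s, p.2))
    (UniformCauchySeqOn.tendstoUniformlyOn_of_tendsto (Metric.uniformCauchySeqOn_iff.2 fun ε ε0 =>
      (ca ε ε0).imp fun N hN a b c d s hs => hN a b c d _ (m s hs)) fun s hs => hg' _ (m s hs))
    (Eventually.of_forall fun n s hs =>
      (((dG _ (sm n s hs)).comp_add_const s (u n)).sub (dG s (hs.trans_le r2))).div_const _)
    (fun s hs => ?_) (mem_Q.1 hp).1
  have t := (hasDerivAt_iff_tendsto_slope_zero.1 (dG s (hs.trans_le r2))).comp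
    (tendsto_nhdsWithin_iff.2 ⟨ut, Eventually.of_forall fun n => (u0 n).ne'⟩)
  refine t.congr fun n => ?_
  simp [div_eq_inv_mul]

/-- Bounded top difference quotients give one more level. -/
theorem Lv.up {ρ' h₀ : ℝ} (hf : Lv (Q ρ₂) k f) (h0 : 0 < h₀) (h12 : ρ₁ + h₀ ≤ ρ₂) (h1 : ρ' < ρ₁)
    (hb : Bd ρ₁ h₀ fun h => tau k h f) : Lv (Q ρ') (k + 1) f := by
  obtain ⟨g', a, b⟩ := up_one hf.it_hq h0 h12 h1 hb
  exact (hf.mono (Q_mono (by linarith))).snoc (isOpen_Q _) a b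

theorem sqrt_dist1 (p q : P) : √|p.1 - q.1| ≤ √(dist p q) :=
  Real.sqrt_le_sqrt (le_max_left _ _)

theorem sqrt_dist2 (p q : P) : √|p.2 - q.2| ≤ √(dist p q) :=
  Real.sqrt_le_sqrt (le_max_right _ _)

/-- Hölder bounds in each variable give a Hölder bound. -/
theorem ho_of_sep {M₀ M₁ M₂ : ℝ} (h0 : ∀ p ∈ Q ρ, |f p| ≤ M₀) (m1 : 0 ≤ M₁) (m2 : 0 ≤ M₂)
    (h1 : ∀ p ∈ Q ρ, ∀ t, |t| < ρ → |f p - f (t, p.2)| ≤ M₁ * √|p.1 - t|)
    (h2 : ∀ p ∈ Q ρ, ∀ t, |t| < ρ → |f p - f (p.1, t)| ≤ M₂ * √|p.2 - t|)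
    (hM : M₀ ≤ M) (hM' : M₁ + M₂ ≤ M) : Ho (Q ρ) M f := by
  refine ⟨fun p hp => (h0 p hp).trans hM, fun p hp q hq => ?_⟩
  have a := h1 p hp q.1 (mem_Q.1 hq).1
  have b := h2 (q.1, p.2) (mem_Q.2 ⟨(mem_Q.1 hq).1, (mem_Q.1 hp).2⟩) q.2 (mem_Q.1 hq).2
  have c := abs_sub_le (f p) (f (q.1, p.2)) (f q)
  have d := mul_le_mul_of_nonneg_left (sqrt_dist1 p q) m1
  have e := mul_le_mul_of_nonneg_left (sqrt_dist2 p q) m2
  have i := mul_le_mul_of_nonneg_right hM' (Real.sqrt_nonneg (dist p q))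
  simp only at b
  nlinarith

/-- Integration from the line `η = 0`. -/
theorem ode {M₀ : ℝ} {T₀ : P → ℝ} (hd : D2 (Q ρ) T S) (hS : Ho (Q ρ) M S) (h₀ : Ho (Q ρ) M₀ T₀)
    (e : ∀ s, |s| < ρ → T (s, 0) = T₀ (s, 0)) (m : 0 ≤ M) (m₀ : 0 ≤ M₀) (r1 : ρ ≤ 1) :
    Ho (Q ρ) (M₀ + 3 * √ρ * M) T := by
  have s0 := Real.sqrt_nonneg ρ
  have mv : ∀ {U V : ℝ → ℝ} {c : ℝ} {a b : ℝ}, |a| < ρ → |b| < ρ →
      (∀ t, |t| < ρ → HasDerivAt U (V t) t ∧ |V t| ≤ c) → |U a - U b| ≤ c * |a - b| := by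
    intro U V c a b ha hb hU
    have cv : Convex ℝ (Ioo (-ρ) ρ) := convex_Ioo _ _
    exact cv.norm_image_sub_le_of_norm_hasDerivWithin_le
      (fun t ht => (hU t (abs_lt.2 ht)).1.hasDerivWithinAt) (fun t ht => (hU t (abs_lt.2 ht)).2)
      (abs_lt.1 hb) (abs_lt.1 ha)
  have small : ∀ t : ℝ, |t| < ρ → |t - 0| ≤ √ρ := fun t ht => by
    rw [sub_zero]
    exact ht.le.trans (Real.le_sqrt_of_sq_le (by nlinarith [abs_nonneg t]))
  refine ho_of_sep (M₀ := M₀ + √ρ * M) (M₁ := M₀ + √ρ * M) (M₂ := 2 * √ρ * M) (fun p hp => ?_)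
    (by positivity) (by positivity) (fun p hp t ht => ?_) (fun p hp t ht => ?_)
    (by nlinarith [mul_nonneg s0 m]) (by linarith)
  · have hP := mem_Q.1 hp
    have z : |(0 : ℝ)| < ρ := by rw [abs_zero]; exact (abs_nonneg _).trans_lt hP.1
    have a := mv (U := fun t => T (p.1, t)) hP.2 z fun t ht =>
      ⟨hd (p.1, t) (mem_Q.2 ⟨hP.1, ht⟩), hS.1 _ (mem_Q.2 ⟨hP.1, ht⟩)⟩
    have b := h₀.1 (p.1, 0) (mem_Q.2 ⟨hP.1, z⟩)
    rw [← e _ hP.1] at b
    have c := abs_sub_le (T p) (T (p.1, 0)) 0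
    have d := mul_le_mul_of_nonneg_left (small _ hP.2) m
    simp only [sub_zero] at a c d
    linarith
  · have hP := mem_Q.1 hp
    have z : |(0 : ℝ)| < ρ := by rw [abs_zero]; exact (abs_nonneg _).trans_lt hP.1
    have dd : ∀ η : ℝ, dist ((p.1, η) : P) (t, η) = |p.1 - t| := fun η => by
      simp [Prod.dist_eq, Real.dist_eq]
    have a := mv (U := fun η => T (p.1, η) - T (t, η)) (c := M * √|p.1 - t|) hP.2 z fun η hη =>
      ⟨(hd (p.1, η) (mem_Q.2 ⟨hP.1, hη⟩)).sub (hd (t, η) (mem_Q.2 ⟨ht, hη⟩)),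
        dd η ▸ hS.2 (p.1, η) (mem_Q.2 ⟨hP.1, hη⟩) (t, η) (mem_Q.2 ⟨ht, hη⟩)⟩
    have b := h₀.2 (p.1, 0) (mem_Q.2 ⟨hP.1, z⟩) (t, 0) (mem_Q.2 ⟨ht, z⟩)
    rw [← e _ hP.1, ← e _ ht, dd] at b
    have c := abs_sub_le (T p - T (t, p.2)) (T (p.1, 0) - T (t, 0)) 0
    have d := mul_le_mul_of_nonneg_left (small _ hP.2) (mul_nonneg m (Real.sqrt_nonneg |p.1 - t|))
    simp only [sub_zero] at a c d
    nlinarith
  · have hP := mem_Q.1 hp
    have a := mv (U := fun t => T (p.1, t)) hP.2 ht fun t ht =>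
      ⟨hd (p.1, t) (mem_Q.2 ⟨hP.1, ht⟩), hS.1 _ (mem_Q.2 ⟨hP.1, ht⟩)⟩
    have b : √|p.2 - t| ≤ 2 * √ρ := Real.sqrt_le_iff.2 ⟨by positivity, by
      rw [mul_pow, Real.sq_sqrt ((abs_nonneg _).trans ht.le)]
      linarith [abs_sub p.2 t, hP.2, abs_nonneg t]⟩
    have c := Real.mul_self_sqrt (abs_nonneg (p.2 - t))
    have d := mul_le_mul_of_nonneg_left (mul_le_mul_of_nonneg_right b
      (Real.sqrt_nonneg |p.2 - t|)) m
    nlinarith

/-- The iteration lemma. -/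
theorem iter {ρ₀ : ℝ} {S : ℝ → ℝ → Prop} (h01 : ρ₀ < ρ₁) (C0 : 0 ≤ C)
    (mono : ∀ ρ M M', M ≤ M' → S ρ M → S ρ M') (fin : ∃ M, 0 ≤ M ∧ ∀ ρ ≤ ρ₁, S ρ M)
    (step : ∀ ρ R M, ρ₀ ≤ ρ → ρ < R → R ≤ ρ₁ → 0 ≤ M → S R M → S ρ (M / 16 + C / (R - ρ) ^ 2)) :
    S ρ₀ (1 + 6 * C / (ρ₁ - ρ₀) ^ 2) := by
  obtain ⟨M, m0, hM⟩ := fin
  have key : ∀ n : ℕ, ∀ ρ, ρ₀ ≤ ρ → ρ < ρ₁ → S ρ (M / 16 ^ n + 6 * C / (ρ₁ - ρ) ^ 2) := by
    intro n
    induction n with
    | zero =>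
      intro ρ _ b
      exact mono _ _ _ (by simp; positivity) (hM ρ b.le)
    | succ n ih =>
      intro ρ a b
      have d : 0 < ρ₁ - ρ := by linarith
      refine mono _ _ _ ?_ (step ρ ((ρ + ρ₁) / 2) _ a (by linarith) (by linarith) (by positivity)
        (ih _ (by linarith) (by linarith)))
      rw [show ρ₁ - (ρ + ρ₁) / 2 = (ρ₁ - ρ) / 2 by ring,
        show (ρ + ρ₁) / 2 - ρ = (ρ₁ - ρ) / 2 by ring]
      have : 0 ≤ C / (ρ₁ - ρ) ^ 2 := by positivity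
      have e : (M / 16 ^ n + 6 * C / ((ρ₁ - ρ) / 2) ^ 2) / 16 + C / ((ρ₁ - ρ) / 2) ^ 2
          = M / 16 ^ (n + 1) + 6 * C / (ρ₁ - ρ) ^ 2 - C / (ρ₁ - ρ) ^ 2 / 2 := by
        field_simp; ring
      linarith
  obtain ⟨n, hn⟩ := pow_unbounded_of_one_lt M (by norm_num : (1 : ℝ) < 16)
  exact mono _ _ _ (by gcongr; exact (div_le_one (by positivity)).2 hn.le) (key n ρ₀ le_rfl h01)

end Pool.Agent.MP_ed9623_an.R46
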