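import Pool.Agent.MP_ed9623_an.R46.Spec
import Pool.Agent.MP_ed9623_an.R46.Up
import Pool.Agent.MP_ed9623_an.R77.Kit

/-! Continuity of the Hessian of the half sum. -/

open MeasureTheory Filter Topology Set

namespace Pool.Agent.MP_ed9623_an.R46

open H64 H77 R77

namespace XB1

variable {r : ℝ} {f g c : P → ℝ}

/-- `g` has an approximation with controlled slices. -/
def Ap (r : ℝ) (g : P → ℝ) : Prop := ∃ K G, Sq r K G g

/-- Bounded almost everywhere. -/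
def Ba (r : ℝ) (g : P → ℝ) : Prop := ∃ B, ∀ᵐ p, p ∈ Q r → |g p| ≤ B

theorem mQ (r : ℝ) : MeasurableSet (Q r) := (isOpen_Q r).measurableSet

theorem swQ {p : P} (hp : p ∈ Q r) : p.swap ∈ Q r := mem_Q.2 ⟨(mem_Q.1 hp).2, (mem_Q.1 hp).1⟩

theorem one (hr : 0 < r) : Ap r fun _ => 1 := by
  refine ⟨r + 1, fun _ _ => 1, fun _ => (Hq.const _ _).cb, ?_, ?_, fun _ s _ => ?_,
    fun _ s t _ _ => ?_, fun ε hε => ⟨0, fun _ _ _ _ s _ => ?_⟩⟩
  · refine memLp_indicator_const 2 (mQ r) 1 (Or.inr ?_)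
    rw [Q_eq_ball]
    exact Metric.isBounded_ball.measure_lt_top.ne
  · simp [nm]
  · simp only [slS, one_pow, integral_const, smul_eq_mul, mul_one, MeasurableSet.univ,
      measureReal_restrict_apply, univ_inter, Real.volume_real_Ioo]
    exact max_le (by nlinarith [sq_nonneg r]) (sq_nonneg _)
  · simp only [sub_self, ne_eq, OfNat.ofNat_ne_zero, not_false_eq_true, zero_pow, integral_zero]
    positivity
  · simpa [slS] using hε.le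

theorem m2c (hc : Hq (Q r) c) (hg : M2 ((Q r).indicator g)) :
    M2 ((Q r).indicator fun p => c p * g p) := by
  obtain ⟨M, m0, hM⟩ := id hc
  have h := hg.bmul (m := (Q r).indicator c) ((aestronglyMeasurable_indicator_iff (mQ r)).2
    (hc.cont.aestronglyMeasurable (mQ r))) (C := M) (Eventually.of_forall fun p => by
      by_cases hp : p ∈ Q r
      · simpa only [indicator_of_mem hp] using hM.1 p hp
      · simpa only [indicator_of_notMem hp, abs_zero] using m0)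
  refine h.congr (Eventually.of_forall fun p => ?_)
  by_cases hp : p ∈ Q r
  · simp only [indicator_of_mem hp]
  · simp only [indicator_of_notMem hp, mul_zero]

theorem hq_swap (h : Hq (Q r) f) : Hq (Q r) fun p => f p.swap := by
  obtain ⟨M, m0, hM⟩ := h
  refine ⟨M * 1, by positivity, hM.comp m0 le_rfl (fun _ => swQ) fun p _ q _ => ?_⟩
  rw [one_mul, Prod.dist_eq, Prod.dist_eq, max_comm]
  rfl

theorem ba_swap (h : Ba r f) : Ba r fun p => f p.swap := by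
  obtain ⟨B, hB⟩ := h
  exact ⟨B, ((Measure.measurePreserving_swap (μ := (volume : Measure ℝ))
    (ν := (volume : Measure ℝ))).quasiMeasurePreserving.ae hB).mono fun _ a hp => a (swQ hp)⟩

theorem bil (hB : BilS) (hr : 0 < r) (hf : Ap r f) (hg : Ap r g) (hc : Hq (Q r) c) :
    ∃ Φ, Pm r (fun p => c p * (f p * g p)) Φ ∧ (Ba r g → Vh r Φ) :=
  let ⟨_, _, a⟩ := hf; let ⟨_, _, b⟩ := hg; hB r _ _ _ _ _ _ _ hr a b hc

theorem half (hB : BilS) (hR : RepS) (hr : 0 < r) {A B C a b c₁ c₂ c₃ J u W : P → ℝ}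
    (hA : Ap r A) (hB' : Ap r B) (hC : Ap r C) (ha : Ap r a) (hb : Ap r b) (h1 : Hq (Q r) c₁)
    (h2 : Hq (Q r) c₂) (h3 : Hq (Q r) c₃) (hJ : Hq (Q r) J)
    (hu : ∀ p, c₁ p * A p + c₂ p * B p + c₃ p * C p = u p)
    (hW : ∀ p, J p * (a p * B p - b p * C p) = W p) (w : WD (Q r) (ee 1) u W) :
    ∃ h, Ae (Q r) u h ∧ (∃ M, ∀ p ∈ Q r, |h p| ≤ M) ∧ (Ba r B → Ba r C → Hq (Q r) h) := by
  obtain ⟨ad, cg, rp⟩ := hR r hr
  obtain ⟨Φ₁, p1, v1⟩ := bil hB hr ha hB' hJ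
  obtain ⟨Φ₂, p2, v2⟩ := bil hB hr hb hC hJ.neg
  obtain ⟨Ψ₁, q1, -⟩ := bil hB hr (one hr) hA h1
  obtain ⟨Ψ₂, q2, -⟩ := bil hB hr (one hr) hB' h2
  obtain ⟨Ψ₃, q3, -⟩ := bil hB hr (one hr) hC h3
  have pW := cg _ _ W (ad _ _ _ _ p1 p2) fun p _ => by simp only [← hW p]; ring
  have pu := cg _ _ u (ad _ _ _ _ (ad _ _ _ _ q1 q2) q3) fun p _ => by simp only [← hu p]; ring
  have mu : M2 ((Q r).indicator u) := by
    obtain ⟨_, _, sA⟩ := hA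
    obtain ⟨_, _, sB⟩ := hB'
    obtain ⟨_, _, sC⟩ := hC
    refine (((m2c h1 sA.m2).add (m2c h2 sB.m2)).add (m2c h3 sC.m2)).congr
      (Eventually.of_forall fun p => ?_)
    by_cases hp : p ∈ Q r
    · simp only [indicator_of_mem hp, hu p]
    · simp only [indicator_of_notMem hp, add_zero]
  obtain ⟨T, N, hT, e⟩ := rp _ _ _ _ pW pu mu w
  obtain ⟨M, hM⟩ := pW.ho
  have z : |(0 : ℝ)| < r := by simpa using hr
  have b0 : ∀ p ∈ Q r, |Φ₁ p + Φ₂ p + T p.1| ≤ M + N := fun p hp =>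
    (abs_add_le _ _).trans (add_le_add (hM p hp).1 (hT _ 0 (mem_Q.1 hp).1 z).1)
  refine ⟨_, e, ⟨_, b0⟩, fun x y => ?_⟩
  obtain ⟨V₁, hV₁⟩ := v1 x
  obtain ⟨V₂, hV₂⟩ := v2 y
  have m0 : 0 ≤ M + N := (abs_nonneg _).trans (b0 (0, 0) (mem_Q.2 ⟨z, z⟩))
  refine ⟨M + N + (|V₁| + |V₂|), by positivity, ho_of_sep (M₁ := M + N) (M₂ := |V₁| + |V₂|) b0 m0
    (by positivity) (fun p hp t ht => ?_) (fun p hp t ht => ?_)
    (le_add_of_nonneg_right (by positivity)) le_rfl⟩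
  · rw [add_sub_add_comm, add_mul]
    exact (abs_add_le _ _).trans (add_le_add ((hM p hp).2 t ht) (hT _ t (mem_Q.1 hp).1 ht).2)
  · rw [add_sub_add_comm, sub_self, add_zero, add_sub_add_comm, add_mul]
    exact (abs_add_le _ _).trans (add_le_add ((hV₁ p hp t ht).trans
      (mul_le_mul_of_nonneg_right (le_abs_self _) (Real.sqrt_nonneg _))) ((hV₂ p hp t ht).trans
      (mul_le_mul_of_nonneg_right (le_abs_self _) (Real.sqrt_nonneg _))))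

theorem comb {α β h h' G : P → ℝ} (hα : Hq (Q r) α) (hβ : Hq (Q r) β)
    (b : ∃ M, ∀ p ∈ Q r, |h p| ≤ M) (b' : ∃ M, ∀ p ∈ Q r, |h' p| ≤ M)
    (e : Ae (Q r) G fun p => α p * h p + β p * h' p) : Ba r G := by
  obtain ⟨A, a0, hA⟩ := hα
  obtain ⟨B, b0, hB⟩ := hβ
  obtain ⟨M, hM⟩ := b
  obtain ⟨N, hN⟩ := b'
  refine ⟨A * M + B * N, Eventually.mono e fun p a hp => ?_⟩
  rw [a hp]
  refine (abs_add_le _ _).trans ?_
  rw [abs_mul, abs_mul]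
  exact add_le_add (mul_le_mul (hA.1 p hp) (hM p hp) (abs_nonneg _) a0)
    (mul_le_mul (hB.1 p hp) (hN p hp) (abs_nonneg _) b0)

variable {a K : ℝ} {l m m₁ m₂ : P → ℝ} {Θ Ξ : P → P}

theorem ap (hA : ApxS) (h : Co a r K l m Θ Ξ m₁ m₂) {k : ℕ} {F : J2} (hF : Jt k F) (i j : ℕ)
    (e : 1 + i + j ≤ k) : Ap r (fun p => F i j (Θ p)) ∧ Ap r fun p => F i j (Θ p.swap) := by
  choose κ hκ using fun n : ℕ => exists_ker (Nat.one_div_pos_of_nat (n := n) (α := ℝ))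
  obtain ⟨K', x, y⟩ := hA _ _ _ _ _ _ _ _ _ h κ _ _ hκ tendsto_one_div_add_atTop_nhds_zero_nat
    (hF.der i j e)
  simp only [zero_add] at x y
  exact ⟨⟨_, _, x⟩, _, _, y⟩

theorem back (hC : CvS) (h : Co a r K l m Θ Ξ m₁ m₂) {G H : P → ℝ} (hH : Hq (Q r) H)
    (e : Ae (Q r) (fun p => G (Θ p)) H) :
    ∃ b, Hq (Q (min a (r / K))) b ∧ Ae (Q (min a (r / K))) G b := by
  have sb : ∀ z ∈ Q (min a (r / K)), z ∈ Θ '' Q r := fun z hz => by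
    have := h.bl 0 r (Q_eq_ball r).ge
    rw [h.z0, ← Q_eq_ball r] at this
    rw [Q_eq_ball] at hz
    exact this (Metric.ball_subset_ball (min_le_right _ _) hz)
  obtain ⟨_, -, -, -, c⟩ := hC _ _ _ _ _ _ _ _ _ h
  obtain ⟨M, m0, hM⟩ := hH
  refine ⟨fun z => H (Ξ z), ⟨M * K, mul_nonneg m0 (by linarith [h.K1]),
    hM.comp m0 h.K1 (fun z hz => ?_) fun z hz w hw => ?_⟩, (c _ e).mono fun z x hz => ?_⟩
  · obtain ⟨p, hp, rfl⟩ := sb z hz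
    rwa [h.inv p hp]
  · obtain ⟨p, hp, rfl⟩ := sb z hz
    obtain ⟨q, hq, rfl⟩ := sb w hw
    rw [h.inv p hp, h.inv q hq]
    exact (h.lip p hp q hq).2
  · have y := x (sb z hz)
    obtain ⟨p, hp, rfl⟩ := sb z hz
    rw [h.inv p hp] at y
    simp only [h.inv p hp]
    exact y

theorem alg {x y z L M n₁ n₂ U V : ℝ} (h1 : n₁ ≠ 0) (h2 : n₂ ≠ 0) (hw : 1 - L * M ≠ 0)
    (eu : n₁ * (x + 2 * L * y + L ^ 2 * z) = U) (ev : n₂ * (M ^ 2 * x + 2 * M * y + z) = V)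
    (e : M * x + (1 + L * M) * y + L * z = 0) :
    x = n₁⁻¹ * ((1 - L * M)⁻¹ * (1 - L * M)⁻¹) * U
      + L * L * (n₂⁻¹ * ((1 - L * M)⁻¹ * (1 - L * M)⁻¹)) * V ∧
    y = -(M * (n₁⁻¹ * ((1 - L * M)⁻¹ * (1 - L * M)⁻¹))) * U
      + -(L * (n₂⁻¹ * ((1 - L * M)⁻¹ * (1 - L * M)⁻¹))) * V ∧
    z = M * M * (n₁⁻¹ * ((1 - L * M)⁻¹ * (1 - L * M)⁻¹)) * U
      + n₂⁻¹ * ((1 - L * M)⁻¹ * (1 - L * M)⁻¹) * V := by
  subst eu ev
  obtain ⟨w, hw'⟩ : ∃ w, w = 1 - L * M := ⟨_, rfl⟩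
  rw [← hw'] at hw ⊢
  refine ⟨?_, ?_, ?_⟩ <;> field_simp <;> subst hw'
  · linear_combination (-2 * L) * e
  · linear_combination (1 + L * M) * e
  · linear_combination (-2 * M) * e

end XB1

open XB1 in
theorem rowB1 : OfB1 := by
  intro hS hC hA hB hR hW a r K l m g Θ Ξ m₁ m₂ h jl jm jg h0
  have hr := h.r0
  have K0 : 0 < K := by linarith [h.K1]
  have a0 : 0 < a := by
    have := h.mp 0 (mem_Q.2 (by simpa using hr))
    rw [h.z0] at this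
    simpa using (mem_Q.1 this).1
  obtain ⟨w1, w2⟩ := hW _ _ _ _ _ _ _ _ _ _ h jl jm jg h0
  have q1 : Hq (Q r) m₁ := ⟨K, K0.le, h.h1⟩
  have q2 : Hq (Q r) m₂ := ⟨K, K0.le, h.h2⟩
  have ql : Hq (Q r) fun p => l 0 0 (Θ p) := ⟨K, K0.le, h.hl⟩
  have qm : Hq (Q r) fun p => m 0 0 (Θ p) := ⟨K, K0.le, h.hm⟩
  have qw : Hq (Q r) fun p => 1 - l 0 0 (Θ p) * m 0 0 (Θ p) := (Hq.const _ 1).sub (ql.mul qm)
  have qJ : Hq (Q r) (Jc (l 0 0) (m 0 0) Θ m₁ m₂) := (q1.mul q2).mul qw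
  have g20 := ap hA h jg 2 0 le_rfl
  have g11 := ap hA h jg 1 1 le_rfl
  have g02 := ap hA h jg 0 2 le_rfl
  obtain ⟨u, eu, bu, hu⟩ := half hB hR hr g20.1 g11.1 g02.1 (ap hA h jl 0 1 le_rfl).1
    (ap hA h jl 1 0 le_rfl).1 q1 (q1.mul ((Hq.const _ 2).mul ql)) (q1.mul (ql.mul ql)) qJ
    (fun p => by simp only [h11]; ring) (fun _ => rfl) w1
  obtain ⟨v, ev, bv, hv⟩ := half hB hR hr g02.2 g11.2 g20.2 (ap hA h jm 1 0 le_rfl).2
    (ap hA h jm 0 1 le_rfl).2 (hq_swap q2) (hq_swap (q2.mul ((Hq.const _ 2).mul qm)))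
    (hq_swap (q2.mul (qm.mul qm))) (hq_swap qJ) (fun p => by simp only [h22]; ring) (fun _ => rfl)
    (((hS r _ _).2.2.1 (Q r) fun _ => swQ).1 w2)
  have ev' := (hS r _ _).2.1 ev
  simp only [Prod.swap_swap] at ev'
  have bv' : ∃ M, ∀ p ∈ Q r, |v p.swap| ≤ M := bv.imp fun _ x p hp => x _ (swQ hp)
  have k0 : 0 < 1 / K := by positivity
  have i1 := q1.inv k0 fun p hp => (h.lo p hp).1.trans (le_abs_self _)
  have i2 := q2.inv k0 fun p hp => (h.lo p hp).2.1.trans (le_abs_self _)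
  have lw : ∀ p ∈ Q r, (1 / 2 : ℝ) ≤ |1 - l 0 0 (Θ p) * m 0 0 (Θ p)| := fun p hp =>
    le_trans (by linarith [(abs_le.1 (h.lo p hp).2.2).2]) (le_abs_self _)
  have iw := qw.inv (by norm_num) lw
  have α := i1.mul (iw.mul iw)
  have β := i2.mul (iw.mul iw)
  obtain ⟨_, -, -, c, -⟩ := hC _ _ _ _ _ _ _ _ _ h
  have e0 := c _ h0
  have nz : ∀ p ∈ Q r, m₁ p ≠ 0 ∧ m₂ p ≠ 0 ∧ 1 - l 0 0 (Θ p) * m 0 0 (Θ p) ≠ 0 := fun p hp =>
    ⟨(k0.trans_le (h.lo p hp).1).ne', (k0.trans_le (h.lo p hp).2.1).ne',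
      abs_pos.1 (lt_of_lt_of_le (by norm_num) (lw p hp))⟩
  have α2 := (qm.mul α).neg
  have β2 := (ql.mul β).neg
  have β1 := (ql.mul ql).mul β
  have α3 := (qm.mul qm).mul α
  have al := ((eu.and ev').and e0).mono fun p x hp =>
    alg (nz p hp).1 (nz p hp).2.1 (nz p hp).2.2 (x.1.1 hp) (x.1.2 hp) (x.2 hp)
  have e20 := al.mono fun _ x hp => (x hp).1
  have e11 := al.mono fun _ x hp => (x hp).2.1
  have e02 := al.mono fun _ x hp => (x hp).2.2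
  have b20 := comb α β1 bu bv' e20
  have b11 := comb α2 β2 bu bv' e11
  have b02 := comb α3 β bu bv' e02
  have qu := hu b11 b02
  have qv := hq_swap (hv (ba_swap b11) (ba_swap b20))
  refine ⟨min a (r / K), lt_min a0 (by positivity), min_le_left _ _, fun i j e => ?_⟩
  obtain ⟨rfl, rfl⟩ | ⟨rfl, rfl⟩ | ⟨rfl, rfl⟩ : (i = 2 ∧ j = 0) ∨ (i = 1 ∧ j = 1) ∨
    (i = 0 ∧ j = 2) := by omega
  · exact back hC h ((α.mul qu).add (β1.mul qv)) e20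
  · exact back hC h ((α2.mul qu).add (β2.mul qv)) e11
  · exact back hC h ((α3.mul qu).add (β.mul qv)) e02

end Pool.Agent.MP_ed9623_an.R46
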