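import Pool.Agent.MP_ed9623_an.R46.Spec

/-! Classical jets from the time jets. -/

open MeasureTheory Filter Topology Set

namespace Pool.Agent.MP_ed9623_an.R46

open H64 H77 R77

namespace XBase

/-- Hölder up to order `k`. -/
def HH (B : Set P) (k : ℕ) (f : J2) : Prop := ∀ u v, u + v ≤ k → Hq B (f u v)

/-- Equal at `p` up to order `k`. -/
def EE (k : ℕ) (p : P) (f g : J2) : Prop := ∀ u v, u + v ≤ k → f u v p = g u v p

variable {B : Set P} {p : P} {f g f' g' : J2}

theorem HH.le {k k' : ℕ} (h : HH B k f) (e : k' ≤ k) : HH B k' f :=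
  fun u v c => h u v (c.trans e)

theorem EE.le {k k' : ℕ} (h : EE k p f g) (e : k' ≤ k) : EE k' p f g :=
  fun u v c => h u v (c.trans e)

theorem hsum {ι : Type} (s : Finset ι) {F : ι → P → ℝ} (h : ∀ i ∈ s, Hq B (F i)) :
    Hq B fun p => ∑ i ∈ s, F i p := by
  classical
  induction s using Finset.induction_on with
  | empty => simpa using Hq.const B 0
  | insert a s ha ih =>
    simp only [Finset.sum_insert ha]
    exact (h a (Finset.mem_insert_self _ _)).add
      (ih fun i hi => h i (Finset.mem_insert_of_mem hi))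

theorem hbr (hf : HH B 2 f) (hg : HH B 2 g) {a b : ℕ} (e : a + b = 1) : Hq B (br f g a b) :=
  ((hf 1 0 (by omega)).mul (hg a (b + 1) (by omega))).sub
    ((hf 0 1 (by omega)).mul (hg (a + 1) b (by omega)))

theorem hlp (hf : HH B 3 f) {a b : ℕ} (e : a + b = 1) : Hq B (lp f a b) :=
  (hf (a + 2) b (by omega)).add (hf a (b + 2) (by omega))

theorem hcf (hf : HH B 2 f) (hg : HH B 2 g) : Hq B (cf f g) :=
  (((hf 0 2 (by omega)).mul (hg 2 0 (by omega))).sub
    ((Hq.const B 2).mul ((hf 1 1 (by omega)).mul (hg 1 1 (by omega))))).add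
      ((hf 2 0 (by omega)).mul (hg 0 2 (by omega)))

theorem ebr (hf : EE 2 p f f') (hg : EE 2 p g g') {a b : ℕ} (e : a + b = 1) :
    br f g a b p = br f' g' a b p := by
  unfold br
  rw [hf 1 0 (by omega), hf 0 1 (by omega), hg a (b + 1) (by omega), hg (a + 1) b (by omega)]

theorem elp (hf : EE 3 p f f') {a b : ℕ} (e : a + b = 1) : lp f a b p = lp f' a b p := by
  unfold R77.lp
  rw [hf (a + 2) b (by omega), hf a (b + 2) (by omega)]

theorem ecf (hf : EE 2 p f f') (hg : EE 2 p g g') : cf f g p = cf f' g' p := by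
  unfold cf
  rw [hf 0 2 (by omega), hf 1 1 (by omega), hf 2 0 (by omega), hg 0 2 (by omega),
    hg 1 1 (by omega), hg 2 0 (by omega)]

/-- The right side of the first equation. -/
noncomputable def r1 (ps al : ℕ → J2) (j a b : ℕ) (p : P) : ℝ := ps (j + 1) a b p
  + ∑ i ∈ Finset.range (j + 1), (j.choose i : ℝ) *
    (br (al i) (ps (j - i)) a b p + br (ps (j - i)) (al i) a b p)

/-- The right side of the second equation without the pressure. -/
noncomputable def r2 (ps al : ℕ → J2) (j a b : ℕ) (p : P) : ℝ :=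
  al (j + 2) a b p + nl ps al (j + 1) a b p

variable {ps al ps' al' : ℕ → J2}

theorem hr1 (hp : ∀ j, HH B 2 (ps j)) (ha : ∀ j, HH B 2 (al j)) (j : ℕ) {a b : ℕ}
    (e : a + b = 1) : Hq B (r1 ps al j a b) :=
  (hp (j + 1) a b (by omega)).add (hsum _ fun i _ => (Hq.const B _).mul
    ((hbr (ha i) (hp (j - i)) e).add (hbr (hp (j - i)) (ha i) e)))

theorem hr2 (hp : ∀ j, HH B 2 (ps j)) (ha : ∀ j, HH B 2 (al j)) (j : ℕ) {a b : ℕ}
    (e : a + b = 1) : Hq B (r2 ps al j a b) :=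
  (ha (j + 2) a b (by omega)).add (hsum _ fun i _ => (Hq.const B _).mul
    ((hbr (ha i) (ha (j + 1 - i)) e).add (hbr (hp i) (hp (j + 1 - i)) e)))

theorem er1 (hp : ∀ j, EE 2 p (ps j) (ps' j)) (ha : ∀ j, EE 2 p (al j) (al' j)) (j : ℕ)
    {a b : ℕ} (e : a + b = 1) : r1 ps al j a b p = r1 ps' al' j a b p := by
  unfold r1
  rw [hp (j + 1) a b (by omega)]
  refine congrArg _ (Finset.sum_congr rfl fun i _ => ?_)
  rw [ebr (ha i) (hp (j - i)) e, ebr (hp (j - i)) (ha i) e]

theorem er2 (hp : ∀ j, EE 2 p (ps j) (ps' j)) (ha : ∀ j, EE 2 p (al j) (al' j)) (j : ℕ)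
    {a b : ℕ} (e : a + b = 1) : r2 ps al j a b p = r2 ps' al' j a b p := by
  unfold r2 nl
  rw [ha (j + 2) a b (by omega)]
  refine congrArg _ (Finset.sum_congr rfl fun i _ => ?_)
  rw [ebr (ha i) (ha (j + 1 - i)) e, ebr (hp i) (hp (j + 1 - i)) e]

theorem every {r : ℝ} {u v : P → ℝ} (hu : Hq (Q r) u) (hv : Hq (Q r) v)
    (h : ∀ᵐ p, p ∈ Q r → u p = v p) : ∀ p ∈ Q r, u p = v p :=
  Measure.eqOn_open_of_ae_eq ((ae_restrict_iff' (isOpen_Q r).measurableSet).2 h) (isOpen_Q r)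
    hu.cont hv.cont

theorem ae_EE {k : ℕ} (h : ∀ u v, u + v ≤ k → Ae B (f u v) (g u v)) :
    ∀ᵐ p, p ∈ B → EE k p f g := by
  have : ∀ᵐ p, ∀ u v, u + v ≤ k → p ∈ B → f u v p = g u v p :=
    ae_all_iff.2 fun u => ae_all_iff.2 fun v => by
      by_cases c : u + v ≤ k
      · exact (h u v c).mono fun p a _ => a
      · exact Eventually.of_forall fun p a => absurd a c
  exact this.mono fun p a b u v c => a u v c b

theorem jt_HH {k : ℕ} (h : Jt (k + 2) f) (B : Set P) : HH B k f :=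
  fun u v c => Hg.hq (h.c u v (by omega)) B

/-- The jet of order three with continuous second derivatives. -/
theorem zero (hC : CwS) {a : ℝ} (h : Jt 3 f)
    (hb : ∀ u v, u + v = 2 → ∃ b, Hq (Q a) b ∧ Ae (Q a) (f u v) b) :
    ∃ A : J2, HH (Q a) 2 A ∧ (∀ u v, u + v < 2 → A u v = f u v) ∧
      (∀ u v, Ae (Q a) (A u v) (f u v)) ∧
      ∀ u v, u + v < 2 → D1 (Q a) (A u v) (A (u + 1) v) ∧ D2 (Q a) (A u v) (A u (v + 1)) := by
  have : ∀ u v, ∃ b, (u + v ≤ 2 → Hq (Q a) b) ∧ (u + v < 2 → b = f u v) ∧ Ae (Q a) b (f u v) := by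
    intro u v
    by_cases c : u + v = 2
    · obtain ⟨b, b1, b2⟩ := hb u v c
      exact ⟨b, fun _ => b1, fun e => by omega, b2.mono fun p x y => (x y).symm⟩
    · exact ⟨f u v, fun e => jt_HH (k := 1) h _ u v (by omega), fun _ => rfl,
        Eventually.of_forall fun _ _ => rfl⟩
  choose A A1 A2 A3 using this
  have s : ∀ u v, ∀ᵐ p, p ∈ Q a → f u v p = A u v p :=
    fun u v => (A3 u v).mono fun p x y => (x y).symm
  refine ⟨A, A1, A2, A3, fun u v c => ⟨?_, ?_⟩⟩
  · exact (hC _ _ _ (isOpen_Q a) (A1 u v c.le).cont (A1 (u + 1) v (by omega)).cont).1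
      (((h.x u v (by omega)).mono (subset_univ _)).congr (s _ _) (s _ _))
  · exact (hC _ _ _ (isOpen_Q a) (A1 u v c.le).cont (A1 u (v + 1) (by omega)).cont).2
      (((h.y u v (by omega)).mono (subset_univ _)).congr (s _ _) (s _ _))

/-- What the third order row gives. -/
theorem three {a : ℝ} {F F' : J2} (h : Jt 4 F)
    (h1 : ∀ u v, u + v < 3 → F' u v = F u v ∧ C1 (Q a) (F' u v) (F' (u + 1) v) (F' u (v + 1)))
    (h2 : ∀ u v, u + v = 3 → Hq (Q a) (F' u v) ∧ Ae (Q a) (F' u v) (F u v)) :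
    HH (Q a) 3 F' ∧ ∀ u v, u + v ≤ 3 → Ae (Q a) (F' u v) (F u v) := by
  refine ⟨fun u v c => ?_, fun u v c => ?_⟩
  · rcases c.lt_or_eq with c | c
    · rw [(h1 u v c).1]
      exact jt_HH (k := 2) h _ u v (by omega)
    · exact (h2 u v c).1
  · rcases c.lt_or_eq with c | c
    · rw [(h1 u v c).1]
      exact Eventually.of_forall fun _ _ => rfl
    · exact (h2 u v c).2

/-- A family with a new first member. -/
def cs (A : J2) (F : ℕ → J2) : ℕ → J2
  | 0 => A
  | j + 1 => F j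

end XBase

open XBase

theorem rowBase : OfBase := by
  intro hP hC h3 hu a a' ps al pr ha T hb
  obtain ⟨A, A1, A2, A3, A4⟩ := zero hC T.j0 hb
  obtain ⟨b, b1, b2⟩ := exists_between ha
  have s1 : Q a' ⊆ Q b := Q_mono b1.le
  have s2 : Q b ⊆ Q a := Q_mono b2.le
  have s3 : Q a' ⊆ Q a := Q_mono ha.le
  set q : ℕ → J2 := cs A fun j => al (j + 1) with hq
  have qH : ∀ j, HH (Q a) 2 (q j) := fun j => by
    cases j with
    | zero => exact A1
    | succ j => exact jt_HH (k := 2) (T.ja j) _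
  have pH : ∀ j, HH (Q a) 2 (ps j) := fun j => jt_HH (k := 2) (T.jp j) _
  have qE : ∀ᵐ p, p ∈ Q a → ∀ j, EE 2 p (al j) (q j) := by
    filter_upwards [ae_EE (k := 2) fun u v _ => A3 u v] with p x y j
    cases j with
    | zero => exact fun u v c => (x y u v c).symm
    | succ j => exact fun _ _ _ => rfl
  have rf : ∀ p j, EE 2 p (ps j) (ps j) := fun _ _ _ _ _ => rfl
  have e1 : ∀ j u v, u + v = 1 → Ae (Q a) (lp (ps j) u v) (r1 ps q j u v) := fun j u v c => by
    filter_upwards [T.e1 j u v c, qE] with p x y z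
    rw [← er1 (rf p) (y z) j c]
    exact x z
  choose ps' P1 P2 using fun j => h3 a a' (ps j) _ _ ha (T.jp j) (hr1 pH qH j (a := 1) (b := 0) rfl)
    (hr1 pH qH j (a := 0) (b := 1) rfl) (e1 j 1 0 rfl) (e1 j 0 1 rfl)
  have e2 : ∀ j, ∀ᵐ p, p ∈ Q a → lp (al (j + 1)) 1 0 p = r2 ps q j 1 0 p + pr j 0 1 p ∧
      lp (al (j + 1)) 0 1 p = r2 ps q j 0 1 p - pr j 1 0 p := fun j => by
    filter_upwards [T.e2 j, qE] with p x y z
    rw [← er2 (rf p) (y z) j (a := 1) (b := 0) rfl, ← er2 (rf p) (y z) j (a := 0) (b := 1) rfl]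
    exact x z
  choose pr' R0 R1 R2 R3 R4 R5 using fun j => hu a b (al (j + 1)) (pr j) _ _ b2 (T.ja j) (T.jr j)
    (hr2 pH qH j (a := 1) (b := 0) rfl) (hr2 pH qH j (a := 0) (b := 1) rfl)
    ((e2 j).mono fun p x y => by linarith [(x y).1]) ((e2 j).mono fun p x y => by linarith [(x y).2])
  choose al' L1 L2 using fun j => h3 b a' (al (j + 1))
    (fun p => r2 ps q j 1 0 p + pr' j 0 1 p) (fun p => r2 ps q j 0 1 p - pr' j 1 0 p) b1 (T.ja j)
    (((hr2 pH qH j (a := 1) (b := 0) rfl).mono s2).add (R3 j))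
    (((hr2 pH qH j (a := 0) (b := 1) rfl).mono s2).sub (R2 j))
    (by
      filter_upwards [e2 j, R5 j] with p x y z
      rw [y z]
      exact (x (s2 z)).1)
    (by
      filter_upwards [e2 j, R4 j] with p x y z
      rw [y z]
      exact (x (s2 z)).2)
  have P3 := fun j => three (T.jp j) (P1 j) (P2 j)
  have L3 := fun j => three (T.ja j) (L1 j) (L2 j)
  have one : ∀ u v : ℕ, u + v ≤ 1 → (u = 0 ∧ v = 0) ∨ (u = 1 ∧ v = 0) ∨ (u = 0 ∧ v = 1) := by
    omega
  have RH : ∀ j, HH (Q a') 1 (pr' j) := fun j u v c => by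
    rcases one u v c with ⟨rfl, rfl⟩ | ⟨rfl, rfl⟩ | ⟨rfl, rfl⟩
    · rw [R0 j]
      exact jt_HH (k := 0) (T.jr j) _ 0 0 le_rfl
    · exact (R2 j).mono s1
    · exact (R3 j).mono s1
  have RA : ∀ j u v, u + v ≤ 1 → Ae (Q a') (pr' j u v) (pr j u v) := fun j u v c => by
    rcases one u v c with ⟨rfl, rfl⟩ | ⟨rfl, rfl⟩ | ⟨rfl, rfl⟩
    · rw [R0 j]
      exact Eventually.of_forall fun _ _ => rfl
    · exact (R4 j).mono fun p x y => x (s1 y)
    · exact (R5 j).mono fun p x y => x (s1 y)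
  set w : ℕ → J2 := cs A al' with hw
  have pH' : ∀ j, HH (Q a') 2 (ps' j) := fun j => (P3 j).1.le (by omega)
  have wH : ∀ j, HH (Q a') 2 (w j) := fun j => by
    cases j with
    | zero => exact fun u v c => (A1 u v c).mono s3
    | succ j => exact (L3 j).1.le (by omega)
  have all : ∀ᵐ p, p ∈ Q a' → (∀ j, EE 3 p (ps' j) (ps j)) ∧ (∀ j, EE 3 p (al' j) (al (j + 1))) ∧
      (∀ j, EE 1 p (pr' j) (pr j)) ∧ ∀ j, EE 2 p (w j) (al j) := by
    filter_upwards [ae_all_iff.2 fun j => ae_EE (P3 j).2, ae_all_iff.2 fun j => ae_EE (L3 j).2,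
      ae_all_iff.2 fun j => ae_EE (RA j), ae_EE (k := 2) fun u v _ => A3 u v] with p x y z t c
    refine ⟨fun j => x j c, fun j => y j c, fun j => z j c, fun j => ?_⟩
    cases j with
    | zero => exact t (s3 c)
    | succ j => exact (y j c).le (by omega)
  refine ⟨ps', w, pr', ⟨fun i u v c => ?_, fun i u v c => ?_, fun j u v c => ?_, fun j => ?_,
    fun j => ?_⟩, fun i u v => ?_⟩
  · rcases i with j | j | j
    · exact (P1 j u v c).2
    · cases j with
      | zero =>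
        have c : u + v < 2 := c
        exact ((hP _ _ _ _ (isOpen_Q a)).1 (A4 u v c).1 (A4 u v c).2
          (A1 (u + 1) v (by omega)).cont (A1 u (v + 1) (by omega)).cont).mono s3
      | succ j => exact (L1 j u v c).2
    · have c : u + v < 1 := c
      obtain ⟨rfl, rfl⟩ : u = 0 ∧ v = 0 := by omega
      exact (R1 j).mono s1
  · rcases i with j | j | j
    · exact (P3 j).1 u v c
    · cases j with
      | zero => exact wH 0 u v c
      | succ j => exact (L3 j).1 u v c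
    · exact RH j u v c
  · refine every (hlp (P3 j).1 c) (hr1 pH' wH j c) ?_
    filter_upwards [all, T.e1 j u v c] with p x y z
    obtain ⟨x1, -, -, x4⟩ := x z
    exact (elp (x1 j) c).trans ((y (s3 z)).trans
      (er1 (fun j => (x1 j).le (by omega)) x4 j c).symm)
  · have k1 := every (hlp (L3 j).1 (a := 1) (b := 0) rfl)
      ((hr2 pH' wH j (a := 1) (b := 0) rfl).add (RH j 0 1 le_rfl)) (by
        filter_upwards [all, T.e2 j] with p x y z
        obtain ⟨x1, x2, x3, x4⟩ := x z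
        rw [elp (x2 j) rfl, er2 (fun j => (x1 j).le (by omega)) x4 j rfl, x3 j 0 1 le_rfl]
        exact (y (s3 z)).1)
    have k2 := every (hlp (L3 j).1 (a := 0) (b := 1) rfl)
      ((hr2 pH' wH j (a := 0) (b := 1) rfl).sub (RH j 1 0 le_rfl)) (by
        filter_upwards [all, T.e2 j] with p x y z
        obtain ⟨x1, x2, x3, x4⟩ := x z
        rw [elp (x2 j) rfl, er2 (fun j => (x1 j).le (by omega)) x4 j rfl, x3 j 1 0 le_rfl]
        exact (y (s3 z)).2)
    exact fun p hp => ⟨k1 p hp, k2 p hp⟩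
  · refine every (hsum _ fun i _ => (Hq.const _ _).mul (hcf (pH' (j - i)) (wH i)))
      (Hq.const _ 0) ?_
    filter_upwards [all, T.l j] with p x y z
    obtain ⟨x1, -, -, x4⟩ := x z
    rw [← y (s3 z)]
    exact Finset.sum_congr rfl fun i _ => by rw [ecf ((x1 (j - i)).le (by omega)) (x4 i)]
  · rcases i with j | j | j
    · exact ⟨fun c => (P1 j u v c).1, fun c => (P2 j u v c).2⟩
    · cases j with
      | zero => exact ⟨fun c => A2 u v c, fun _ => (A3 u v).mono fun p x y => x (s3 y)⟩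
      | succ j => exact ⟨fun c => (L1 j u v c).1, fun c => (L2 j u v c).2⟩
    · refine ⟨fun c => ?_, fun c => RA j u v (le_of_eq c)⟩
      have c : u + v < 1 := c
      obtain ⟨rfl, rfl⟩ : u = 0 ∧ v = 0 := by omega
      exact R0 j

end Pool.Agent.MP_ed9623_an.R46
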