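import Pool.Agent.MP_ed9623_an.R46.Lv

/-! Vertical primitives of products of limits with controlled slices. -/

open MeasureTheory Filter Topology Set

namespace Pool.Agent.MP_ed9623_an.R46

open H64 H77 R77

namespace XBil

variable {r : ℝ}

theorem cs {ν : Measure ℝ} {u v : ℝ → ℝ} {A B : ℝ} (hA : 0 < A) (hB : 0 < B)
    (iu : Integrable (fun x => u x ^ 2) ν) (iv : Integrable (fun x => v x ^ 2) ν)
    (hu : ∫ x, u x ^ 2 ∂ν ≤ A ^ 2) (hv : ∫ x, v x ^ 2 ∂ν ≤ B ^ 2) :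
    ∫ x, |u x * v x| ∂ν ≤ A * B := by
  have h := integral_mono_of_nonneg (μ := ν) (f := fun x => |u x * v x|)
    (g := fun x => B / (2 * A) * u x ^ 2 + A / (2 * B) * v x ^ 2)
    (Eventually.of_forall fun _ => abs_nonneg _) ((iu.const_mul _).add (iv.const_mul _))
    (Eventually.of_forall fun x => by
      have e : B / (2 * A) * u x ^ 2 + A / (2 * B) * v x ^ 2 - |u x| * |v x|
          = (B * |u x| - A * |v x|) ^ 2 / (2 * A * B) := by
        rw [← sq_abs (u x), ← sq_abs (v x)]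
        field_simp
        ring
      have : 0 ≤ (B * |u x| - A * |v x|) ^ 2 / (2 * A * B) := by positivity
      simp only [abs_mul]
      linarith)
  rw [integral_add (iu.const_mul _) (iv.const_mul _), integral_const_mul, integral_const_mul] at h
  have a := mul_le_mul_of_nonneg_left hu (show 0 ≤ B / (2 * A) by positivity)
  have b := mul_le_mul_of_nonneg_left hv (show 0 ≤ A / (2 * B) by positivity)
  have e : B / (2 * A) * A ^ 2 + A / (2 * B) * B ^ 2 = A * B := by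
    field_simp
    ring
  linarith

/-- bounded and continuous on the interval -/
def B1 (r : ℝ) (u : ℝ → ℝ) : Prop :=
  ContinuousOn u (Ioo (-r) r) ∧ ∃ M, ∀ x ∈ Ioo (-r) r, |u x| ≤ M

theorem B1.int {u : ℝ → ℝ} (h : B1 r u) : IntegrableOn u (Ioo (-r) r) :=
  let ⟨M, hM⟩ := h.2
  IntegrableOn.of_bound measure_Ioo_lt_top (h.1.aestronglyMeasurable measurableSet_Ioo) M
    ((ae_restrict_iff' measurableSet_Ioo).2 (Eventually.of_forall hM))

theorem B1.mul {u v : ℝ → ℝ} (h : B1 r u) (h' : B1 r v) : B1 r fun x => u x * v x :=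
  let ⟨M, hM⟩ := h.2
  let ⟨M', hM'⟩ := h'.2
  ⟨h.1.mul h'.1, M * M', fun x hx => by
    rw [abs_mul]
    exact mul_le_mul (hM x hx) (hM' x hx) (abs_nonneg _) ((abs_nonneg _).trans (hM x hx))⟩

theorem B1.sub {u v : ℝ → ℝ} (h : B1 r u) (h' : B1 r v) : B1 r fun x => u x - v x :=
  let ⟨M, hM⟩ := h.2
  let ⟨M', hM'⟩ := h'.2
  ⟨h.1.sub h'.1, M + M', fun x hx => (abs_sub _ _).trans (add_le_add (hM x hx) (hM' x hx))⟩

theorem B1.sq {u : ℝ → ℝ} (h : B1 r u) : IntegrableOn (fun x => u x ^ 2) (Ioo (-r) r) := by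
  simpa only [pow_two] using (h.mul h).int

theorem mq {s x : ℝ} (hs : |s| < r) (hx : x ∈ Ioo (-r) r) : ((s, x) : P) ∈ Q r :=
  mem_Q.2 ⟨hs, abs_lt.2 hx⟩

theorem sl {u : P → ℝ} (h : Cb (Q r) u) {s : ℝ} (hs : |s| < r) : B1 r fun x => u (s, x) :=
  let ⟨M, hM⟩ := h.2
  ⟨h.1.comp (by fun_prop) fun _ hx => mq hs hx, M, fun _ hx => hM _ (mq hs hx)⟩

theorem tri {c₁ c₂ u₁ u₂ v₁ v₂ : ℝ → ℝ} {M δ A B a b : ℝ} (hc₁ : B1 r c₁) (hc₂ : B1 r c₂)
    (hu₁ : B1 r u₁) (hu₂ : B1 r u₂) (hv₁ : B1 r v₁) (hv₂ : B1 r v₂) (hM : 0 ≤ M) (hδ : 0 ≤ δ)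
    (hA : 0 < A) (hB : 0 < B) (ha : 0 < a) (hb : 0 < b) (m : ∀ x ∈ Ioo (-r) r, |c₂ x| ≤ M)
    (d : ∀ x ∈ Ioo (-r) r, |c₁ x - c₂ x| ≤ δ) (e₁ : ∫ x in Ioo (-r) r, u₁ x ^ 2 ≤ A ^ 2)
    (e₂ : ∫ x in Ioo (-r) r, u₂ x ^ 2 ≤ A ^ 2) (e₃ : ∫ x in Ioo (-r) r, v₁ x ^ 2 ≤ B ^ 2)
    (e₄ : ∫ x in Ioo (-r) r, (u₁ x - u₂ x) ^ 2 ≤ a ^ 2)
    (e₅ : ∫ x in Ioo (-r) r, (v₁ x - v₂ x) ^ 2 ≤ b ^ 2) :
    ∫ x in Ioo (-r) r, |c₁ x * (u₁ x * v₁ x) - c₂ x * (u₂ x * v₂ x)|
      ≤ δ * (A * B) + M * (a * B + A * b) := by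
  have k₁ := cs hA hB hu₁.sq hv₁.sq e₁ e₃
  have k₂ := cs ha hB (hu₁.sub hu₂).sq hv₁.sq e₄ e₃
  have k₃ := cs hA hb hu₂.sq (hv₁.sub hv₂).sq e₂ e₅
  have i₁ := (hu₁.mul hv₁).int.abs
  have i₂ := ((hu₁.sub hu₂).mul hv₁).int.abs
  have i₃ := (hu₂.mul (hv₁.sub hv₂)).int.abs
  have i₄ : Integrable (fun x => |(u₁ x - u₂ x) * v₁ x| + |u₂ x * (v₁ x - v₂ x)|)
      (volume.restrict (Ioo (-r) r)) := i₂.add i₃
  have h := setIntegral_mono_on
    (((hc₁.mul (hu₁.mul hv₁)).sub (hc₂.mul (hu₂.mul hv₂))).int.abs)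
    ((i₁.const_mul δ).add (i₄.const_mul M)) measurableSet_Ioo fun x hx => by
      have e : c₁ x * (u₁ x * v₁ x) - c₂ x * (u₂ x * v₂ x) = (c₁ x - c₂ x) * (u₁ x * v₁ x)
          + c₂ x * ((u₁ x - u₂ x) * v₁ x + u₂ x * (v₁ x - v₂ x)) := by ring
      simp only [Pi.add_apply]
      rw [e]
      refine (abs_add_le _ _).trans (add_le_add ?_ ?_) <;> rw [abs_mul]
      · exact mul_le_mul_of_nonneg_right (d x hx) (abs_nonneg _)
      · exact mul_le_mul (m x hx) (abs_add_le _ _) (abs_nonneg _) hM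
  simp only [Pi.add_apply] at h
  rw [integral_add (i₁.const_mul δ) (i₄.const_mul M), integral_const_mul,
    integral_const_mul, integral_add i₂ i₃] at h
  exact h.trans (add_le_add (mul_le_mul_of_nonneg_left k₁ hδ)
    (mul_le_mul_of_nonneg_left (add_le_add k₂ k₃) hM))

theorem sub_I {c d : ℝ} (hc : |c| < r) (hd : |d| < r) : uIoc c d ⊆ Ioo (-r) r := fun x hx => by
  have a := abs_lt.1 hc
  have b := abs_lt.1 hd
  rcases mem_uIcc.1 (uIoc_subset_uIcc hx) with e | e <;>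
    exact ⟨by linarith [e.1, e.2], by linarith [e.1, e.2]⟩

theorem ii {u : ℝ → ℝ} (h : IntegrableOn u (Ioo (-r) r)) {c d : ℝ} (hc : |c| < r) (hd : |d| < r) :
    IntervalIntegrable u volume c d := intervalIntegrable_iff.2 (h.mono_set (sub_I hc hd))

theorem le_I {u : ℝ → ℝ} (h : IntegrableOn u (Ioo (-r) r)) (h0 : ∀ x, 0 ≤ u x) {c d : ℝ}
    (hc : |c| < r) (hd : |d| < r) : ∫ x in uIoc c d, u x ≤ ∫ x in Ioo (-r) r, u x :=
  setIntegral_mono_set h (Eventually.of_forall h0) (sub_I hc hd).eventuallyLE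

theorem dif {u v : ℝ → ℝ} (h : IntegrableOn u (Ioo (-r) r)) (h' : IntegrableOn v (Ioo (-r) r))
    {c d : ℝ} (hc : |c| < r) (hd : |d| < r) :
    |(∫ x in c..d, u x) - ∫ x in c..d, v x| ≤ ∫ x in Ioo (-r) r, |u x - v x| := by
  rw [← intervalIntegral.integral_sub (ii h hc hd) (ii h' hc hd)]
  refine (intervalIntegral.norm_integral_le_integral_norm_uIoc (f := fun x => u x - v x)).trans ?_
  exact le_I (u := fun x => |u x - v x|) (h.sub h').abs (fun _ => abs_nonneg _) hc hd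

theorem vol_Q : (volume : Measure P) (Q r) < ⊤ := by
  rw [Q_eq_ball]
  exact measure_ball_lt_top

theorem cb_int {u : P → ℝ} (h : Cb (Q r) u) : IntegrableOn u (Q r) :=
  let ⟨M, hM⟩ := h.2
  IntegrableOn.of_bound vol_Q (h.1.aestronglyMeasurable (isOpen_Q r).measurableSet) M
    ((ae_restrict_iff' (isOpen_Q r).measurableSet).2 (Eventually.of_forall hM))

theorem cb_mul {u v : P → ℝ} (h : Cb (Q r) u) (h' : Cb (Q r) v) : Cb (Q r) fun x => u x * v x :=
  let ⟨M, hM⟩ := h.2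
  let ⟨M', hM'⟩ := h'.2
  ⟨h.1.mul h'.1, M * M', fun x hx => by
    rw [abs_mul]
    exact mul_le_mul (hM x hx) (hM' x hx) (abs_nonneg _) ((abs_nonneg _).trans (hM x hx))⟩

theorem cb_m2 {u : P → ℝ} (h : Cb (Q r) u) : M2 ((Q r).indicator u) := by
  obtain ⟨M, hM⟩ := h.2
  have : IsFiniteMeasure ((volume : Measure P).restrict (Q r)) := ⟨by simpa using vol_Q⟩
  exact (memLp_indicator_iff_restrict (isOpen_Q r).measurableSet).2
    (MemLp.of_bound (h.1.aestronglyMeasurable (isOpen_Q r).measurableSet) M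
      ((ae_restrict_iff' (isOpen_Q r).measurableSet).2 (Eventually.of_forall hM)))

/-- Cauchy-Schwarz on the square -/
theorem cs2 {u v : P → ℝ} (hu : M2 ((Q r).indicator u)) (hv : M2 ((Q r).indicator v)) :
    IntegrableOn (fun p => u p * v p) (Q r) ∧
      ∫ p in Q r, |u p * v p| ≤ nm ((Q r).indicator u) * nm ((Q r).indicator v) := by
  have m := (isOpen_Q r).measurableSet
  have e : (fun p => (Q r).indicator u p * (Q r).indicator v p)
      = (Q r).indicator fun p => u p * v p := by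
    funext p
    by_cases hp : p ∈ Q r <;> simp [hp]
  refine ⟨(integrable_indicator_iff m).1 (e ▸ hu.int_mul hv), ?_⟩
  have h := abs_int_le (f := fun p => |(Q r).indicator u p|) (g := fun p => |(Q r).indicator v p|)
    (MemLp.abs hu) (MemLp.abs hv)
  have n : ∀ w : P → ℝ, nm (fun p => |w p|) = nm w := fun w => by simp only [nm, sq_abs]
  rw [n, n] at h
  refine le_trans (le_of_eq ?_) ((le_abs_self _).trans h)
  rw [← integral_indicator m]
  refine integral_congr_ae (Eventually.of_forall fun p => ?_)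
  by_cases hp : p ∈ Q r <;> simp [hp, abs_mul]

theorem m2_sub {u v : P → ℝ} (hu : M2 ((Q r).indicator u)) (hv : M2 ((Q r).indicator v)) :
    M2 ((Q r).indicator fun p => u p - v p) := by
  have := hu.sub hv
  rwa [← indicator_sub] at this

/-- slices of a sequence that converges in the mean -/
theorem slice {u : ℕ → P → ℝ} {v : P → ℝ} (hu : ∀ n, IntegrableOn (u n) (Q r))
    (hv : IntegrableOn v (Q r))
    (t : Tendsto (fun n => ∫ p in Q r, |u n p - v p|) atTop (𝓝 0)) :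
    ∃ ns : ℕ → ℕ, StrictMono ns ∧ ∀ᵐ s, |s| < r → IntegrableOn (fun x => v (s, x)) (Ioo (-r) r) ∧
      Tendsto (fun i => ∫ x in Ioo (-r) r, |u (ns i) (s, x) - v (s, x)|) atTop (𝓝 0) := by
  have e : (volume : Measure P).restrict (Q r)
      = (volume.restrict (Ioo (-r) r)).prod (volume.restrict (Ioo (-r) r)) := by
    rw [Measure.prod_restrict]
    rfl
  have i : ∀ n, Integrable (fun p => |u n p - v p|)
      ((volume.restrict (Ioo (-r) r)).prod (volume.restrict (Ioo (-r) r))) := fun n =>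
    e ▸ ((hu n).sub hv).abs
  have h := tendstoInMeasure_of_tendsto_eLpNorm (μ := volume.restrict (Ioo (-r) r)) (p := 1)
    (f := fun n s => ∫ x in Ioo (-r) r, |u n (s, x) - v (s, x)|) (g := fun _ => 0) (l := atTop)
    one_ne_zero (fun n => (i n).integral_prod_left.1) aestronglyMeasurable_const (by
      have t' := ENNReal.tendsto_ofReal t
      rw [ENNReal.ofReal_zero] at t'
      refine t'.congr fun n => ?_
      rw [show ((fun s => ∫ x in Ioo (-r) r, |u n (s, x) - v (s, x)|) - fun _ => (0 : ℝ))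
        = fun s => ∫ x in Ioo (-r) r, |u n (s, x) - v (s, x)| from funext fun s => sub_zero _,
        eLpNorm_one_eq_lintegral_enorm,
        ← ofReal_integral_norm_eq_lintegral_enorm (i n).integral_prod_left, e,
        integral_prod _ (i n)]
      congr 2
      funext s
      exact (Real.norm_of_nonneg (integral_nonneg fun _ => abs_nonneg _)).symm)
  obtain ⟨ns, h1, h2⟩ := h.exists_seq_tendsto_ae
  have hv' : Integrable v ((volume.restrict (Ioo (-r) r)).prod (volume.restrict (Ioo (-r) r))) :=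
    e ▸ hv
  refine ⟨ns, h1, ?_⟩
  filter_upwards [(ae_restrict_iff' measurableSet_Ioo).1 (hv'.prod_right_ae.and h2)] with s hs a
  exact hs (abs_lt.1 a)

theorem lim_test {u : ℕ → P → ℝ} {v φ : P → ℝ} (hu : ∀ n, IntegrableOn (u n) (Q r))
    (hv : IntegrableOn v (Q r))
    (t : Tendsto (fun n => ∫ p in Q r, |u n p - v p|) atTop (𝓝 0)) (hφ : Test (Q r) φ) :
    Tendsto (fun n => ∫ p, u n p * φ p) atTop (𝓝 (∫ p, v p * φ p)) := by
  obtain ⟨C, hC, b⟩ := hφ.bd
  have e : ∀ w : P → ℝ, ∫ p, w p * φ p = ∫ p in Q r, w p * φ p := fun w =>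
    (setIntegral_eq_integral_of_forall_compl_eq_zero fun p hp => by rw [hφ.off hp, mul_zero]).symm
  have i : ∀ w : P → ℝ, IntegrableOn w (Q r) → IntegrableOn (fun p => w p * φ p) (Q r) :=
    fun w hw => hw.mul_bdd hφ.ct.aestronglyMeasurable (Eventually.of_forall b)
  simp only [e]
  refine tendsto_iff_dist_tendsto_zero.2 (squeeze_zero (fun _ => dist_nonneg) (fun n => ?_)
    (by simpa using t.mul_const C))
  rw [Real.dist_eq, ← integral_sub (i _ (hu n)) (i _ hv), ← integral_mul_const]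
  refine abs_integral_le_integral_abs.trans (integral_mono ((i _ (hu n)).sub (i _ hv)).abs
    (((hu n).sub hv).abs.mul_const C) fun p => ?_)
  simp only [← sub_mul, abs_mul]
  exact mul_le_mul_of_nonneg_left (b p) (abs_nonneg _)

/-- primitives of a sequence with controlled slices -/
theorem prim {W : ℕ → P → ℝ} {w : P → ℝ} {M : ℝ} (hr : 0 < r) (hW : ∀ n, Cb (Q r) (W n))
    (hw : IntegrableOn w (Q r)) (t : Tendsto (fun n => ∫ p in Q r, |W n p - w p|) atTop (𝓝 0))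
    (b₁ : ∀ n s, |s| < r → ∫ x in Ioo (-r) r, |W n (s, x)| ≤ M)
    (b₂ : ∀ n s t, |s| < r → |t| < r →
      ∫ x in Ioo (-r) r, |W n (s, x) - W n (t, x)| ≤ M * √|s - t|)
    (b₃ : ∀ ε > 0, ∃ N, ∀ n ≥ N, ∀ k ≥ N, ∀ s, |s| < r →
      ∫ x in Ioo (-r) r, |W n (s, x) - W k (s, x)| ≤ ε) :
    ∃ Φ, Pm r w Φ ∧ ∀ᵐ s, |s| < r → ∀ c d, |c| < r → |d| < r →
      ∫ η in c..d, w (s, η) = Φ (s, d) - Φ (s, c) := by
  have z : |(0 : ℝ)| < r := by simpa using hr
  obtain ⟨U, hU⟩ : ∃ U : ℕ → P → ℝ, U = fun n p => ∫ x in (0 : ℝ)..p.2, W n (p.1, x) := ⟨_, rfl⟩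
  have i : ∀ n s, |s| < r → IntegrableOn (fun x => W n (s, x)) (Ioo (-r) r) :=
    fun n s hs => (sl (hW n) hs).int
  have c₃ : UniformCauchySeqOn U atTop (Q r) := by
    rw [Metric.uniformCauchySeqOn_iff, hU]
    intro ε hε
    obtain ⟨N, hN⟩ := b₃ (ε / 2) (half_pos hε)
    refine ⟨N, fun n hn k hk p hp => ?_⟩
    exact ((dif (i n _ (mem_Q.1 hp).1) (i k _ (mem_Q.1 hp).1) z (mem_Q.1 hp).2).trans
      (hN n hn k hk _ (mem_Q.1 hp).1)).trans_lt (half_lt_self hε)
  obtain ⟨Φ, pt⟩ : ∃ Φ : P → ℝ, ∀ p ∈ Q r, Tendsto (fun n => U n p) atTop (𝓝 (Φ p)) :=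
    ⟨fun p => limUnder atTop fun n => U n p, fun p hp => (c₃.cauchySeq hp).tendsto_limUnder⟩
  have tu := c₃.tendstoUniformlyOn_of_tendsto pt
  have h₁ : ∀ n, ∀ p ∈ Q r, |U n p| ≤ M := fun n p hp => by
    have := dif (i n _ (mem_Q.1 hp).1) (v := fun _ => 0) integrableOn_zero z (mem_Q.1 hp).2
    simp only [intervalIntegral.integral_zero, sub_zero] at this
    rw [hU]
    exact this.trans (b₁ n _ (mem_Q.1 hp).1)
  have h₂ : ∀ n, ∀ p ∈ Q r, ∀ t, |t| < r → |U n p - U n (t, p.2)| ≤ M * √|p.1 - t| :=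
    fun n p hp t ht => by
      rw [hU]
      exact (dif (i n _ (mem_Q.1 hp).1) (i n t ht) z (mem_Q.1 hp).2).trans
        (b₂ n _ t (mem_Q.1 hp).1 ht)
  have ad : ∀ n s c d, |s| < r → |c| < r → |d| < r →
      U n (s, d) - U n (s, c) = ∫ x in c..d, W n (s, x) := fun n s c d hs hc hd => by
    rw [hU]
    exact intervalIntegral.integral_interval_sub_left (ii (i n s hs) z hd) (ii (i n s hs) z hc)
  have cU : ∀ n, ContinuousOn (U n) (Q r) := fun n q hq => by
    obtain ⟨C, hC⟩ := (hW n).2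
    obtain ⟨q₁, q₂⟩ := mem_Q.1 hq
    rw [ContinuousWithinAt, tendsto_iff_dist_tendsto_zero]
    have t : Tendsto (fun p : P => M * √|p.1 - q.1| + C * |p.2 - q.2|) (𝓝[Q r] q) (𝓝 0) := by
      have : Continuous fun p : P => M * √|p.1 - q.1| + C * |p.2 - q.2| := by fun_prop
      simpa using (this.tendsto q).mono_left nhdsWithin_le_nhds
    refine squeeze_zero' (Eventually.of_forall fun _ => dist_nonneg) ?_ t
    filter_upwards [self_mem_nhdsWithin] with p hp
    have b : |U n (q.1, p.2) - U n (q.1, q.2)| ≤ C * |p.2 - q.2| := by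
      rw [ad n _ _ _ q₁ q₂ (mem_Q.1 hp).2]
      exact intervalIntegral.norm_integral_le_of_norm_le_const (f := fun x => W n (q.1, x))
        fun x hx => hC _ (mq q₁ (sub_I q₂ (mem_Q.1 hp).2 hx))
    exact (abs_sub_le _ _ _).trans (add_le_add (h₂ n p hp q.1 q₁) b)
  have cΦ : ContinuousOn Φ (Q r) := tu.continuousOn (Frequently.of_forall cU)
  have bΦ : ∀ p ∈ Q r, |Φ p| ≤ M := fun p hp => le_of_tendsto' (pt p hp).abs fun n => h₁ n p hp
  have wd : ∀ n, WD (Q r) (ee 1) (U n) (W n) := fun n =>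
    wd_of_HD (isOpen_Q r) (cU n) (hW n).1 fun p hp => by
      obtain ⟨p₁, p₂⟩ := mem_Q.1 hp
      have c : ContinuousOn (fun t => W n (p.1, t)) {t | |t| < r} :=
        (hW n).1.comp (by fun_prop) fun t ht => mem_Q.2 ⟨p₁, ht⟩
      have o : IsOpen {t : ℝ | |t| < r} := isOpen_lt continuous_abs continuous_const
      have a := intervalIntegral.integral_hasDerivAt_right (ii (i n _ p₁) z p₂)
        (c.stronglyMeasurableAtFilter o _ p₂) (c.continuousAt (o.mem_nhds p₂))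
      have := a.comp_of_eq (0 : ℝ) ((hasDerivAt_id (0 : ℝ)).const_add p.2) (by simp)
      simpa [HD, hU, ee, Function.comp_def] using this
  have t' : Tendsto (fun n => ∫ p in Q r, |U n p - Φ p|) atTop (𝓝 0) := by
    obtain ⟨V, V0, hV⟩ : ∃ V, 0 ≤ V ∧ (volume : Measure P).real (Q r) = V :=
      ⟨_, measureReal_nonneg, rfl⟩
    refine Metric.tendsto_nhds.2 fun ε hε => ?_
    filter_upwards [Metric.tendstoUniformlyOn_iff.1 tu (ε / (V + 1)) (by positivity)] with n hn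
    have := norm_setIntegral_le_of_norm_le_const (f := fun p => |U n p - Φ p|)
      (C := ε / (V + 1)) vol_Q fun p hp => by
        rw [Real.norm_eq_abs, abs_abs, abs_sub_comm]
        exact (hn p hp).le
    rw [dist_zero_right]
    refine this.trans_lt ?_
    rw [hV, div_mul_eq_mul_div, div_lt_iff₀ (by positivity)]
    linarith
  obtain ⟨ns, n₁, n₂⟩ := slice (fun n => cb_int (hW n)) hw t
  have av : ∀ᵐ s, |s| < r → ∀ c d, |c| < r → |d| < r →
      ∫ η in c..d, w (s, η) = Φ (s, d) - Φ (s, c) := n₂.mono fun s h hs c d hc hd => by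
    have a := ((pt (s, d) (mem_Q.2 ⟨hs, hd⟩)).sub (pt (s, c) (mem_Q.2 ⟨hs, hc⟩))).comp
      n₁.tendsto_atTop
    refine tendsto_nhds_unique (tendsto_iff_dist_tendsto_zero.2 (squeeze_zero
      (fun _ => dist_nonneg) (fun k => ?_) (h hs).2)) a
    rw [Function.comp_apply, ad _ s c d hs hc hd]
    exact dif (i _ s hs) (h hs).1 hc hd
  refine ⟨Φ, ⟨hw, cΦ, ⟨M, fun p hp => ⟨bΦ p hp, fun t ht => le_of_tendsto' ((pt p hp).sub
    (pt (t, p.2) (mem_Q.2 ⟨ht, (mem_Q.1 hp).2⟩))).abs fun n => h₂ n p hp t ht⟩⟩, fun φ hφ => ?_,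
    fun c d hc hd => av.mono fun s h hs => h hs c d hc hd⟩, av⟩
  refine tendsto_nhds_unique (lim_test (fun n => cb_int ⟨cU n, M, h₁ n⟩) (cb_int ⟨cΦ, M, bΦ⟩) t'
    (hφ.pd _)) ((lim_test (fun n => cb_int (hW n)) hw t hφ).neg.congr fun n => (wd n φ hφ).symm)

theorem vh {Φ : P → ℝ} {M : ℝ} (c : ContinuousOn Φ (Q r))
    (h : ∀ᵐ s, |s| < r → ∀ c d, |c| < r → |d| < r → |Φ (s, d) - Φ (s, c)| ≤ M * √|d - c|) :
    Vh r Φ := by
  refine ⟨M, fun p hp t ht => ?_⟩
  have b := (mem_Q.1 hp).2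
  have k : ∀ x, |x| < r → ContinuousOn (fun s => Φ (s, x)) (Ioo (-r) r) := fun x hx =>
    c.comp (by fun_prop) fun s hs => mem_Q.2 ⟨abs_lt.2 hs, hx⟩
  have e := Measure.eqOn_open_of_ae_eq (μ := volume)
    (f := fun s => max |Φ (s, p.2) - Φ (s, t)| (M * √|p.2 - t|)) (g := fun _ => M * √|p.2 - t|)
    ((ae_restrict_iff' measurableSet_Ioo).2
      (h.mono fun s hs a => max_eq_right (hs (abs_lt.2 a) t p.2 ht b))) isOpen_Ioo
    (((k _ b).sub (k t ht)).abs.sup continuousOn_const) continuousOn_const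
    (abs_lt.1 (mem_Q.1 hp).1)
  exact max_eq_right_iff.1 e

theorem up {K : ℝ} {F : ℕ → P → ℝ} {f : P → ℝ} (h : Sq r K F f) : Sq r (|K| + 1) F f :=
  have e : K ^ 2 ≤ (|K| + 1) ^ 2 := by nlinarith [sq_abs K, abs_nonneg K]
  ⟨h.ct, h.m2, h.cv, fun n s hs => (h.bd n s hs).trans e, fun n s t hs ht =>
    (h.ho n s t hs ht).trans (mul_le_mul_of_nonneg_right e (abs_nonneg _)), h.ca⟩

/-- short slices of the limit are small -/
theorem short {K : ℝ} {F : ℕ → P → ℝ} {f : P → ℝ} (K0 : 0 < K) (hF : Sq r K F f) :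
    ∀ᵐ s, |s| < r → IntegrableOn (fun x => f (s, x)) (Ioo (-r) r) ∧ ∀ c d, |c| < r → |d| < r →
      ∫ x in uIoc c d, |f (s, x)| ≤ K * √|d - c| := by
  have one : M2 ((Q r).indicator fun _ => 1) := cb_m2 ⟨continuousOn_const, 1, by simp⟩
  obtain ⟨ns, -, n₂⟩ := slice (v := f) (fun n => cb_int (hF.ct n))
    (by simpa using (cs2 hF.m2 one).1) (squeeze_zero
      (fun _ => integral_nonneg fun _ => abs_nonneg _)
      (fun n => by simpa only [mul_one] using (cs2 (m2_sub (cb_m2 (hF.ct n)) hF.m2) one).2)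
      (by simpa only [zero_mul] using hF.cv.mul_const _))
  refine n₂.mono fun s h hs => ⟨(h hs).1, fun c d hc hd => ?_⟩
  rcases eq_or_ne d c with rfl | e
  · simp
  have s0 : 0 < √|d - c| := Real.sqrt_pos.2 (abs_pos.2 (sub_ne_zero.2 e))
  refine ge_of_tendsto' (by simpa only [add_zero] using (h hs).2.const_add (K * √|d - c|))
    fun k => ?_
  have b := sl (hF.ct (ns k)) hs
  have u := sub_I hc hd
  have i₁ := b.int.abs
  have i₂ : IntegrableOn (fun x => |F (ns k) (s, x) - f (s, x)|) (Ioo (-r) r) :=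
    (b.int.sub (h hs).1).abs
  have k₁ := cs (ν := volume.restrict (uIoc c d)) (v := fun _ => 1) K0 s0 (b.sq.mono_set u)
    ((B1.sq ⟨continuousOn_const, 1, by simp⟩).mono_set u)
    ((le_I b.sq (fun _ => sq_nonneg _) hc hd).trans (hF.bd _ s hs))
    (by rw [Real.sq_sqrt (abs_nonneg _)]; simp [Measure.real, Real.volume_uIoc])
  simp only [mul_one] at k₁
  refine le_trans ?_ (add_le_add k₁ (le_I i₂ (fun _ => abs_nonneg _) hc hd))
  rw [← integral_add (IntegrableOn.mono_set i₁ u) (i₂.mono_set u)]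
  refine integral_mono (IntegrableOn.mono_set (h hs).1.abs u)
    ((IntegrableOn.mono_set i₁ u).add (i₂.mono_set u)) fun x => ?_
  simpa using abs_sub (F (ns k) (s, x)) (F (ns k) (s, x) - f (s, x))

theorem core {K K' : ℝ} {F G : ℕ → P → ℝ} {f g c : P → ℝ} (hr : 0 < r) (K0 : 0 < K)
    (K1 : 0 < K') (hF : Sq r K F f) (hG : Sq r K' G g) (hc : Hq (Q r) c) :
    ∃ Φ, Pm r (fun p => c p * (f p * g p)) Φ ∧
      ((∃ B, ∀ᵐ p, p ∈ Q r → |g p| ≤ B) → Vh r Φ) := by
  obtain ⟨M, M0, hM⟩ := id hc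
  have m := (isOpen_Q r).measurableSet
  have cb := hc.cb
  have iw : IntegrableOn (fun p => c p * (f p * g p)) (Q r) :=
    (cs2 hF.m2 hG.m2).1.bdd_mul (cb.1.aestronglyMeasurable m)
      ((ae_restrict_iff' m).2 (Eventually.of_forall hM.1))
  have t : Tendsto (fun n => ∫ p in Q r, |c p * (F n p * G n p) - c p * (f p * g p)|) atTop
      (𝓝 0) := by
    refine squeeze_zero (fun _ => integral_nonneg fun _ => abs_nonneg _) (fun n => ?_)
      (by simpa only [zero_mul, mul_zero, add_zero] using (((hF.cv.mul hG.cv).add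
        (hF.cv.mul_const (nm ((Q r).indicator g)))).add
        (hG.cv.const_mul (nm ((Q r).indicator f)))).const_mul M)
    have a := m2_sub (cb_m2 (hF.ct n)) hF.m2
    have b := m2_sub (cb_m2 (hG.ct n)) hG.m2
    obtain ⟨i₁, k₁⟩ := cs2 a b
    obtain ⟨i₂, k₂⟩ := cs2 a hG.m2
    obtain ⟨i₃, k₃⟩ := cs2 hF.m2 b
    have i₄ : Integrable (fun p => |(F n p - f p) * (G n p - g p)| + |(F n p - f p) * g p|)
        (volume.restrict (Q r)) := i₁.abs.add i₂.abs
    refine le_trans ?_ (mul_le_mul_of_nonneg_left (add_le_add (add_le_add k₁ k₂) k₃) M0)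
    rw [← integral_add i₁.abs i₂.abs, ← integral_add i₄ i₃.abs, ← integral_const_mul]
    refine integral_mono_of_nonneg (Eventually.of_forall fun _ => abs_nonneg _)
      ((i₄.add i₃.abs).const_mul M) ((ae_restrict_iff' m).2 (Eventually.of_forall fun p hp => ?_))
    have e : c p * (F n p * G n p) - c p * (f p * g p) = c p * ((F n p - f p) * (G n p - g p)
        + (F n p - f p) * g p + f p * (G n p - g p)) := by ring
    simp only [e, abs_mul (c p)]
    exact mul_le_mul (hM.1 p hp) (abs_add_three _ _ _) (abs_nonneg _) M0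
  obtain ⟨Φ, h₁, h₂⟩ := prim (W := fun n p => c p * (F n p * G n p)) (M := 3 * (M * (K * K'))) hr
    (fun n => cb_mul cb (cb_mul (hF.ct n) (hG.ct n))) iw t
    (fun n s hs => by
      have a := sl (hF.ct n) hs
      have b := sl (hG.ct n) hs
      have := tri (c₂ := fun _ => 0) (M := 0) (sl cb hs) ⟨continuousOn_const, 0, by simp⟩ a a b b
        le_rfl M0 K0 K1 one_pos one_pos (by simp)
        (fun x hx => by simpa using hM.1 _ (mq hs hx)) (hF.bd n s hs) (hF.bd n s hs)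
        (hG.bd n s hs) (by simp) (by simp)
      simp only [zero_mul, sub_zero, add_zero] at this
      have : 0 ≤ M * (K * K') := by positivity
      linarith)
    (fun n s t hs ht => by
      rcases eq_or_ne s t with rfl | e
      · simp
      have s0 : 0 < √|s - t| := Real.sqrt_pos.2 (abs_pos.2 (sub_ne_zero.2 e))
      refine (tri (sl cb hs) (sl cb ht) (sl (hF.ct n) hs) (sl (hF.ct n) ht) (sl (hG.ct n) hs)
        (sl (hG.ct n) ht) M0 (mul_nonneg M0 s0.le) K0 K1 (mul_pos K0 s0) (mul_pos K1 s0)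
        (fun x hx => hM.1 _ (mq ht hx))
        (fun x hx => by simpa [Prod.dist_eq, Real.dist_eq] using hM.2 _ (mq hs hx) _ (mq ht hx))
        (hF.bd n s hs) (hF.bd n t ht) (hG.bd n s hs) ?_ ?_).trans (le_of_eq (by ring))
      · rw [mul_pow, Real.sq_sqrt (abs_nonneg _)]
        exact hF.ho n s t hs ht
      · rw [mul_pow, Real.sq_sqrt (abs_nonneg _)]
        exact hG.ho n s t hs ht)
    (fun ε hε => by
      have p0 : 0 < M * (K + K') + 1 := by positivity
      have e0 := div_pos hε p0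
      obtain ⟨N, hN⟩ := hF.ca _ (pow_pos e0 2)
      obtain ⟨N', hN'⟩ := hG.ca _ (pow_pos e0 2)
      refine ⟨max N N', fun n hn k hk s hs => ?_⟩
      refine (tri (δ := 0) (sl cb hs) (sl cb hs) (sl (hF.ct n) hs) (sl (hF.ct k) hs)
        (sl (hG.ct n) hs) (sl (hG.ct k) hs) M0 le_rfl K0 K1 e0 e0 (fun x hx => hM.1 _ (mq hs hx))
        (by simp) (hF.bd n s hs) (hF.bd k s hs) (hG.bd n s hs)
        (hN n (le_of_max_le_left hn) k (le_of_max_le_left hk) s hs)
        (hN' n (le_of_max_le_right hn) k (le_of_max_le_right hk) s hs)).trans ?_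
      have := div_mul_cancel₀ ε p0.ne'
      nlinarith)
  refine ⟨Φ, h₁, fun ⟨B, hB⟩ => vh (M := M * |B| * K) h₁.ct ?_⟩
  filter_upwards [h₂, short K0 hF, Measure.ae_ae_of_ae_prod hB] with s a b e hs x y hx hy
  have u := sub_I hx hy
  rw [← a hs x y hx hy, mul_assoc]
  refine (intervalIntegral.norm_integral_le_integral_norm_uIoc
    (f := fun η => c (s, η) * (f (s, η) * g (s, η)))).trans (le_trans ?_
      (mul_le_mul_of_nonneg_left ((b hs).2 x y hx hy) (by positivity)))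
  rw [← integral_const_mul]
  refine integral_mono_of_nonneg (Eventually.of_forall fun _ => norm_nonneg _)
    ((IntegrableOn.mono_set (b hs).1.abs u).const_mul _)
    ((ae_restrict_iff' measurableSet_uIoc).2 (e.mono fun η h hη => ?_))
  have q := mq hs (u hη)
  simp only [Real.norm_eq_abs, abs_mul]
  rw [mul_comm |f _|, ← mul_assoc]
  exact mul_le_mul_of_nonneg_right (mul_le_mul (hM.1 _ q) ((h q).trans (le_abs_self B))
    (abs_nonneg _) M0) (abs_nonneg _)

end XBil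

theorem rowBil : OfBil := fun _ _ _ _ _ _ _ _ hr hF hG hc =>
  XBil.core hr (by positivity) (by positivity) (XBil.up hF) (XBil.up hG) hc

end Pool.Agent.MP_ed9623_an.R46
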