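import Pool.Agent.MP_ed9623_an.R46.Nc

/-! Double characteristic coordinates. -/

open MeasureTheory Filter Topology Set

namespace Pool.Agent.MP_ed9623_an.R46

open H64 H77 R77

namespace XCh

theorem cfst (B : Set P) : C1 B (fun p => p.1) (fun _ => 1) fun _ => 0 :=
  ⟨continuousOn_const, continuousOn_const, fun _ _ => hasFDerivAt_fst.congr_fderiv
    (ContinuousLinearMap.ext fun v => by simp)⟩

theorem csnd (B : Set P) : C1 B (fun p => p.2) (fun _ => 0) fun _ => 1 :=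
  ⟨continuousOn_const, continuousOn_const, fun _ _ => hasFDerivAt_snd.congr_fderiv
    (ContinuousLinearMap.ext fun v => by simp)⟩

/-- A Lipschitz map from `B'` to `B`. -/
def Lm (B' B : Set P) (G : P → P) : Prop := (∀ p ∈ B', G p ∈ B) ∧
  ∃ K, 1 ≤ K ∧ ∀ p ∈ B', ∀ q ∈ B', dist (G p) (G q) ≤ K * dist p q

theorem hcomp {B B' : Set P} {f : P → ℝ} {G : P → P} (h : Hq B f) (g : Lm B' B G) :
    Hq B' fun p => f (G p) :=
  let ⟨M, a, b⟩ := h; let ⟨m, K, c, d⟩ := g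
  ⟨M * K, mul_nonneg a (zero_le_one.trans c), b.comp a c m d⟩

theorem Lm.comp {B B' B'' : Set P} {G H : P → P} (g : Lm B' B G) (h : Lm B'' B' H) :
    Lm B'' B fun p => G (H p) := by
  obtain ⟨m, K, c, d⟩ := g
  obtain ⟨m', K', c', d'⟩ := h
  refine ⟨fun p hp => m _ (m' p hp), K * K', by nlinarith, fun p hp q hq => ?_⟩
  rw [mul_assoc]
  exact (d _ (m' p hp) _ (m' q hq)).trans
    (mul_le_mul_of_nonneg_left (d' p hp q hq) (zero_le_one.trans c))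

theorem zQ {r : ℝ} (h : 0 < r) : (0 : P) ∈ Q r := by
  rw [Q_eq_ball]; exact Metric.mem_ball_self h

theorem lsw (r : ℝ) : Lm (Q r) (Q r) Prod.swap :=
  ⟨fun p hp => mem_Q.2 (mem_Q.1 hp).symm, 1, le_rfl, fun p _ q _ => by
    simp only [Prod.dist_eq, Prod.fst_swap, Prod.snd_swap, one_mul, max_comm, le_refl]⟩

theorem lpr (r : ℝ) : Lm (Q r) (Q r) fun p => (p.1, 0) :=
  ⟨fun p hp => mem_Q.2 ⟨(mem_Q.1 hp).1, by
    simpa using (abs_nonneg _).trans_lt (mem_Q.1 hp).1⟩, 1, le_rfl, fun p _ q _ => by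
    simp only [Prod.dist_eq, dist_self, one_mul]
    exact max_le_max le_rfl dist_nonneg⟩

/-- A first integral of the field `(m, 1)`. -/
theorem fi (fl : FlS) (inv : InvS) {a K : ℝ} {m : P → ℝ} (ha : 0 < a) (hK : 0 ≤ K)
    (q : QH a K fun p => m p.swap) : ∃ (b c : ℝ) (ξ w : P → ℝ), 0 < b ∧ 0 < c ∧ ξ 0 = 0 ∧
      C1 (Q b) ξ w (fun z => -(m z * w z)) ∧ Hq (Q b) w ∧ ∀ z ∈ Q b, c ≤ w z := by
  obtain ⟨b', X, n, b0, -, cX, hn, lo, x0⟩ := fl a K _ ha hK q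
  have c1 : C1 (Q b') (fun p => ((X p.swap, p.2) : P).1) (fun p => n p.swap)
      fun p => m (X p.swap, p.2) :=
    (cX.comp (G := Prod.swap) (csnd _) (cfst _) (lsw b').1).congr_d (fun p _ => by simp)
      fun p _ => by simp
  have n0 : ∀ p ∈ Q b', 0 < n p := fun p hp => by linarith [(lo p hp).1]
  obtain ⟨-, b, K', G, -, -, hb, K1, G0, hG, -, cG, -, lG, -⟩ :=
    inv b' (fun p => (X p.swap, p.2)) _ _ _ _ b0
      (Prod.ext (x0 0 (by simpa using b0)) rfl) c1 (csnd _)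
      (by simpa using (n0 0 (zQ b0)).ne')
  have L : Lm (Q b) (Q b') fun z => (G z).swap :=
    (lsw b').comp ⟨fun z hz => (hG z hz).1, K', K1, lG⟩
  obtain ⟨M, M0, hM⟩ := id hn
  refine ⟨b, (M + 1)⁻¹, fun z => (G z).1, fun z => (n (G z).swap)⁻¹, hb, by positivity,
    congrArg Prod.fst G0, cG.congr_d (fun z _ => by simp) fun z hz => ?_,
    (hcomp hn L).inv one_half_pos fun z hz => (lo _ (L.1 z hz)).1.trans (le_abs_self _),
    fun z hz => inv_anti₀ (n0 _ (L.1 z hz)) ?_⟩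
  · simp only [(hG z hz).2.1, mul_one, mul_zero, sub_zero]
    ring
  · linarith [le_abs_self (n (G z).swap), hM.1 _ (L.1 z hz)]

/-- The chart without its inverse. -/
structure Pre (a r c : ℝ) (l m : P → ℝ) (Θ : P → P) (m₁ m₂ : P → ℝ) : Prop where
  r0 : 0 < r
  c0 : 0 < c
  z0 : Θ 0 = 0
  mp : ∀ p ∈ Q r, Θ p ∈ Q a
  cx : C1 (Q r) (fun p => (Θ p).1) m₁ fun p => m₂ p * m (Θ p)
  cy : C1 (Q r) (fun p => (Θ p).2) (fun p => m₁ p * l (Θ p)) m₂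
  h1 : Hq (Q r) m₁
  h2 : Hq (Q r) m₂
  hl : Hq (Q r) fun p => l (Θ p)
  hm : Hq (Q r) fun p => m (Θ p)
  lo : ∀ p ∈ Q r, c ≤ m₁ p ∧ c ≤ m₂ p ∧ |l (Θ p) * m (Θ p)| ≤ 1 / 2
  bs : ∀ s, |s| < r → (Θ (s, 0)).1 = s ∧ m₁ (s, 0) = 1

theorem Pre.co (inv : InvS) {a r c : ℝ} {l m m₁ m₂ : P → ℝ} {Θ : P → P}
    (h : Pre a r c l m Θ m₁ m₂) : ∃ r K Ξ, Co a r K l m Θ Ξ m₁ m₂ := by
  obtain ⟨u1, u2, u3⟩ := h.lo 0 (zQ h.r0)
  have c0 := h.c0
  obtain ⟨a', b, K, G, a0, a1, -, K1, -, -, hF, -, -, lG, lF, bl⟩ :=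
    inv r Θ _ _ _ _ h.r0 h.z0 h.cx h.cy (by
      have : 0 < m₁ 0 * m₂ 0 * (1 - l (Θ 0) * m (Θ 0)) :=
        mul_pos (mul_pos (c0.trans_le u1) (c0.trans_le u2)) (by linarith [(abs_le.1 u3).2])
      intro e
      apply this.ne'
      linear_combination e)
  obtain ⟨M₁, p1, k1⟩ := h.h1
  obtain ⟨M₂, p2, k2⟩ := h.h2
  obtain ⟨M₃, p3, k3⟩ := h.hl
  obtain ⟨M₄, p4, k4⟩ := h.hm
  have i0 : 0 < c⁻¹ := inv_pos.2 c0
  have s' : Q (min a' 1) ⊆ Q a' := Q_mono (min_le_left _ _)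
  have s : Q (min a' 1) ⊆ Q r := s'.trans (Q_mono a1)
  obtain ⟨N, hN⟩ : ∃ N, N = K + M₁ + M₂ + M₃ + M₄ + c⁻¹ := ⟨_, rfl⟩
  have KN : K ≤ N := by linarith
  have cN : 1 / N ≤ c := by
    rw [one_div]
    exact inv_le_of_inv_le₀ c0 (by linarith)
  refine ⟨min a' 1, N, G, lt_min a0 one_pos, min_le_right _ _, K1.trans KN, h.z0,
    fun p hp => h.mp p (s hp), h.cx.mono s, h.cy.mono s, k1.mono s (by linarith),
    k2.mono s (by linarith), k3.mono s (by linarith), k4.mono s (by linarith),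
    fun p hp => ⟨cN.trans (h.lo p (s hp)).1, cN.trans (h.lo p (s hp)).2.1, (h.lo p (s hp)).2.2⟩,
    fun t ht => h.bs t (ht.trans_le ((min_le_left _ _).trans a1)), fun p hp => (hF p (s' hp)).2,
    fun p hp q hq => ⟨(lF p (s' hp) q (s' hq)).trans (mul_le_mul_of_nonneg_right KN dist_nonneg),
      ?_⟩, fun p δ hδ => ?_⟩
  · have := lG _ (hF p (s' hp)).1 _ (hF q (s' hq)).1
    rw [(hF p (s' hp)).2, (hF q (s' hq)).2] at this
    exact this.trans (mul_le_mul_of_nonneg_right KN dist_nonneg)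
  · rcases le_total δ 0 with d | d
    · rw [Metric.ball_eq_empty.2 (div_nonpos_of_nonpos_of_nonneg d (by linarith))]
      exact empty_subset _
    · exact (Metric.ball_subset_ball (div_le_div_of_nonneg_left d (by linarith) KN)).trans
        (bl p δ (hδ.trans s'))

theorem pre (fl : FlS) (inv : InvS) {a K : ℝ} {l m : P → ℝ} (ha : 0 < a) (hK : 0 ≤ K) (gl : Hg l)
    (gm : Hg m) (ql : QH a K l) (qm : QH a K fun p => m p.swap)
    (lm : ∀ p ∈ Q a, |l p * m p| ≤ 1 / 2) : ∃ r c Θ m₁ m₂, Pre a r c l m Θ m₁ m₂ := by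
  obtain ⟨b₂, c, ξ, w, b2, c0, ξ0, cξ, hw, cw⟩ := fi fl inv ha hK qm
  obtain ⟨b, Y, n, b0, ba, cY, hn, lo, y0⟩ := fl a K l ha hK ql
  have Y0 : Y 0 = 0 := y0 0 (by simpa using b0)
  obtain ⟨a₁, -, K₁, -, a1, a1b, -, k1, -, -, -, -, -, -, lΦ, -⟩ :=
    inv b (fun p => (p.1, Y p)) _ _ _ _ b0 (Prod.ext rfl Y0) (cfst _) cY
      (by have := (lo 0 (zQ b0)).1; simp only [one_mul, zero_mul, sub_zero]; linarith)
  have K0 : 0 < K₁ := one_pos.trans_le k1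
  obtain ⟨b₃, hb₃⟩ : ∃ b₃, b₃ = min a₁ (b₂ / K₁) := ⟨_, rfl⟩
  have b3 : 0 < b₃ := hb₃ ▸ lt_min a1 (div_pos b2 K0)
  have s1 : Q b₃ ⊆ Q a₁ := Q_mono (hb₃ ▸ min_le_left _ _)
  have s3 : Q b₃ ⊆ Q b := s1.trans (Q_mono a1b)
  have mΦ : ∀ p ∈ Q b₃, ((p.1, Y p) : P) ∈ Q b₂ := fun p hp => by
    have := lΦ p (s1 hp) 0 (zQ a1)
    simp only [Y0, Prod.fst_zero, Prod.mk_zero_zero] at this
    rw [Q_eq_ball, Metric.mem_ball] at hp ⊢
    have e : dist p 0 < b₂ / K₁ := hp.trans_le (hb₃ ▸ min_le_right _ _)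
    rw [lt_div_iff₀ K0] at e
    linarith
  have aΦ : ∀ p ∈ Q b₃, ((p.1, Y p) : P) ∈ Q a := fun p hp =>
    mem_Q.2 ⟨(mem_Q.1 (s3 hp)).1.trans_le ba, (lo p (s3 hp)).2⟩
  have LΦ : Lm (Q b₃) (Q b₂) fun p => (p.1, Y p) :=
    ⟨mΦ, K₁, k1, fun p hp q hq => lΦ p (s1 hp) q (s1 hq)⟩
  have hl := hcomp (Hg.hq gl (Q b₂)) LΦ
  have hm := hcomp (Hg.hq gm (Q b₂)) LΦ
  have hE : Hq (Q b₃) fun p => 1 - l (p.1, Y p) * m (p.1, Y p) := (Hq.const _ 1).sub (hl.mul hm)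
  have E0 : ∀ p ∈ Q b₃, 1 / 2 ≤ 1 - l (p.1, Y p) * m (p.1, Y p) ∧
      1 - l (p.1, Y p) * m (p.1, Y p) ≤ 3 / 2 := fun p hp => by
    have := abs_le.1 (lm _ (aΦ p hp))
    constructor <;> linarith [this.1, this.2]
  obtain ⟨D, hD⟩ : ∃ D : P → ℝ, D = fun p => w (p.1, Y p) * (1 - l (p.1, Y p) * m (p.1, Y p)) :=
    ⟨_, rfl⟩
  have qD : Hq (Q b₃) D := hD ▸ (hcomp hw LΦ).mul hE
  have D0 : ∀ p ∈ Q b₃, c / 2 ≤ D p := fun p hp => by
    have := mul_le_mul (cw _ (mΦ p hp)) (E0 p hp).1 one_half_pos.le (c0.le.trans (cw _ (mΦ p hp)))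
    rw [hD]
    linarith
  have cF : C1 (Q b₃) (fun p => ((ξ (p.1, Y p), p.2) : P).1) D
      fun p => -(m (p.1, Y p) * w (p.1, Y p)) * n p :=
    (cξ.comp (G := fun p => (p.1, Y p)) (cfst _) (cY.mono s3) mΦ).congr_d
      (fun p _ => by rw [hD]; ring) fun p _ => by ring
  obtain ⟨a₃, b₄, K₃, G, a3, a3b, b4, k3, G0, hG, hF, cG, -, lG, lF, -⟩ :=
    inv b₃ (fun p => (ξ (p.1, Y p), p.2)) _ _ _ _ b3
      (Prod.ext (by simp only [Y0, Prod.fst_zero, Prod.mk_zero_zero, ξ0]) rfl) cF (csnd _)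
      (by have := D0 0 (zQ b3); simp only [mul_one, mul_zero, sub_zero]; linarith)
  obtain ⟨r, hr⟩ : ∃ r, r = min a₃ b₄ := ⟨_, rfl⟩
  have r0 : 0 < r := hr ▸ lt_min a3 b4
  have t3 : Q r ⊆ Q a₃ := Q_mono (hr ▸ min_le_left _ _)
  have t4 : Q r ⊆ Q b₄ := Q_mono (hr ▸ min_le_right _ _)
  have u3 : ∀ p ∈ Q r, ((p.1, 0) : P) ∈ Q a₃ := fun p hp => t3 ((lpr r).1 p hp)
  have Lpr : Lm (Q r) (Q b₃) fun p => (p.1, 0) :=
    ⟨fun p hp => Q_mono a3b (u3 p hp), (lpr r).2⟩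
  have LT : Lm (Q r) (Q b₄) fun p => (ξ (p.1, Y (p.1, 0)), p.2) := by
    refine ⟨fun p hp => mem_Q.2 ⟨(mem_Q.1 (hF _ (u3 p hp)).1).1, (mem_Q.1 (t4 hp)).2⟩, K₃, k3,
      fun p hp q hq => ?_⟩
    have := lF _ (u3 p hp) _ (u3 q hq)
    simp only [Prod.dist_eq, dist_self] at this ⊢
    have d1 : max (dist p.1 q.1) 0 ≤ max (dist p.1 q.1) (dist p.2 q.2) :=
      max_le_max le_rfl dist_nonneg
    have d2 := le_max_right (dist p.1 q.1) (dist p.2 q.2)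
    have d3 := dist_nonneg (x := p.2) (y := q.2)
    refine max_le ((le_max_left _ _).trans (this.trans ?_)) (by nlinarith)
    exact mul_le_mul_of_nonneg_left d1 (by linarith)
  have cT : C1 (Q r) (fun p => ((ξ (p.1, Y (p.1, 0)), p.2) : P).1) (fun p => D (p.1, 0))
      fun _ => 0 :=
    (cF.comp (G := fun p => (p.1, 0)) (cfst _) (C1.const _ 0) Lpr.1).congr_d
      (fun p _ => by simp) fun p _ => by simp
  obtain ⟨S, hS⟩ : ∃ S : P → P, S = fun p => G (ξ (p.1, Y (p.1, 0)), p.2) := ⟨_, rfl⟩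
  have LS : Lm (Q r) (Q b₃) S :=
    hS ▸ Lm.comp ⟨fun z hz => (hG z hz).1, K₃, k3, lG⟩ LT
  have S2 : ∀ p ∈ Q r, p.2 = (S p).2 := fun p hp => by
    have := congrArg Prod.snd (hG _ (LT.1 p hp)).2.1
    rw [hS]
    exact this.symm
  have S0 : ∀ s, |s| < r → S (s, 0) = (s, 0) := fun s hs => by
    rw [hS]
    exact (hF (s, 0) (t3 (mem_Q.2 ⟨hs, by simpa using r0⟩))).2
  have Dn : ∀ p ∈ Q r, 0 < D (S p) := fun p hp => (half_pos c0).trans_le (D0 _ (LS.1 p hp))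
  have c1 : C1 (Q r) (fun p => (S p).1) (fun p => D (p.1, 0) * (D (S p))⁻¹)
      fun p => n (S p) * (1 - l ((S p).1, Y (S p)) * m ((S p).1, Y (S p)))⁻¹ *
        m ((S p).1, Y (S p)) := by
    have eS : ∀ p : P, G (ξ (p.1, Y (p.1, 0)), p.2) = S p := fun p => by rw [hS]
    have := cG.comp (G := fun p => (ξ (p.1, Y (p.1, 0)), p.2)) cT (csnd _) LT.1
    simp only [eS, mul_one, mul_zero, sub_zero, add_zero, zero_add] at this
    refine this.congr_d (fun p _ => by ring) fun p hp => ?_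
    have e2 : 1 - l ((S p).1, Y (S p)) * m ((S p).1, Y (S p)) ≠ 0 := by
      linarith [(E0 _ (LS.1 p hp)).1]
    have e3 : w ((S p).1, Y (S p)) ≠ 0 := (c0.trans_le (cw _ (mΦ _ (LS.1 p hp)))).ne'
    simp only [hD]
    field_simp
  have c2 : C1 (Q r) (fun p => (S p).2) (fun _ => 0) fun _ => 1 :=
    (csnd _).congr (isOpen_Q r) S2
  obtain ⟨M, M0, hM⟩ := id qD
  have z : S 0 = 0 := S0 0 (by simpa using r0)
  refine ⟨r, min (c / 2 * (M + 1)⁻¹) (1 / 3), fun p => ((S p).1, Y (S p)), _, _, r0,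
    lt_min (by positivity) (by norm_num), by simp only [z, Y0, Prod.fst_zero, Prod.mk_zero_zero],
    fun p hp => aΦ _ (LS.1 p hp), c1,
    ((cY.mono s3).comp c1 c2 LS.1).congr_d (fun p _ => by ring) fun p hp => ?_,
    (hcomp qD Lpr).mul ((hcomp qD LS).inv (half_pos c0) fun p hp =>
      (D0 _ (LS.1 p hp)).trans (le_abs_self _)),
    (hcomp (hn.mono s3) LS).mul ((hcomp hE LS).inv one_half_pos fun p hp =>
      (E0 _ (LS.1 p hp)).1.trans (le_abs_self _)), (hcomp hl LS :), (hcomp hm LS :),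
    fun p hp => ⟨(min_le_left _ _).trans ?_, (min_le_right _ _).trans ?_,
      lm _ (aΦ _ (LS.1 p hp))⟩, fun s hs => ⟨by rw [S0 s hs], ?_⟩⟩
  · have e2 : 1 - l ((S p).1, Y (S p)) * m ((S p).1, Y (S p)) ≠ 0 := by
      linarith [(E0 _ (LS.1 p hp)).1]
    field_simp
    ring
  · refine mul_le_mul (D0 _ (Lpr.1 p hp)) (inv_anti₀ (Dn p hp) ?_) (by positivity)
      ((half_pos c0).le.trans (D0 _ (Lpr.1 p hp)))
    linarith [le_abs_self (D (S p)), hM.1 _ (LS.1 p hp)]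
  · obtain ⟨e1, e2⟩ := E0 _ (LS.1 p hp)
    have := (lo _ (s3 (LS.1 p hp))).1
    rw [← div_eq_mul_inv, le_div_iff₀ (by linarith)]
    linarith
  · have := Dn (s, 0) (mem_Q.2 ⟨hs, by simpa using r0⟩)
    rw [S0 s hs] at this ⊢
    exact mul_inv_cancel₀ this.ne'

end XCh

open XCh in
theorem rowCh : OfCh := by
  intro fl inv a K l m ha hK gl gm ql qm lm
  obtain ⟨r, c, Θ, m₁, m₂, h⟩ := pre fl inv ha hK gl gm ql qm lm
  obtain ⟨r', K', Ξ, h'⟩ := h.co inv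
  exact ⟨r', K', Θ, Ξ, m₁, m₂, h'⟩

end Pool.Agent.MP_ed9623_an.R46
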