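import Pool.Agent.MP_ed9623_an.R46.Spec

/-! The chart at a hyperbolic point. -/

open MeasureTheory Filter Topology Set

namespace Pool.Agent.MP_ed9623_an.R46

open H64 H77 R77

theorem QH.mono {a K K' : ℝ} {l : P → ℝ} (h : QH a K l) (e : K ≤ K') : QH a K' l :=
  ⟨h.ct, fun p hp => (h.bd p hp).trans e, fun s t d y z a b c u v w =>
    (h.il s t d y z a b c u v w).trans (mul_le_mul_of_nonneg_right
      (mul_le_mul_of_nonneg_right e (Real.sqrt_nonneg _)) ((abs_nonneg _).trans (w s ⟨le_rfl, b⟩))),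
    fun s t d y z y' z' a b c u v u' v' w => (h.qh s t d y z y' z' a b c u v u' v' w).trans
      (mul_le_mul_of_nonneg_right (mul_le_mul_of_nonneg_right e (Real.sqrt_nonneg _))
        (Real.sqrt_nonneg _))⟩

theorem rowChart : OfChart := by
  intro sw qh ch nul b1 base a ps al pr a0 tj e1 e2
  obtain ⟨a', c, ε, l, m, s, b0, ba, jl, jm, hN⟩ := nul a (ps 0) a0 (tj.jp 0) e1 e2
  obtain ⟨K₁, k1, q1⟩ := qh a' l b0 jl
  obtain ⟨K₂, k2, q2⟩ := qh a' _ b0 ((sw 0 0 0).2.2.2 2 m jm)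
  obtain ⟨r, K, Θ, Ξ, m₁, m₂, hC⟩ := ch a' (K₁ + K₂) (l 0 0) (m 0 0) b0 (by positivity)
    (jl.c 0 0 le_rfl) (jm.c 0 0 le_rfl) (q1.mono (by linarith)) (q2.mono (by linarith)) hN.lm
  obtain ⟨a₀, c0, c1, hb⟩ := b1 a' r K l m (al 0) Θ Ξ m₁ m₂ hC jl jm tj.j0
    ((tj.l 0).mono fun p h hp => by
      have u := hN.alg hp
      have v := h (Q_mono ba hp)
      simp only [zero_add, Finset.range_one, Finset.sum_singleton, Nat.choose_self, Nat.cast_one,
        one_mul, Nat.sub_self, u.2.2.2.2.2.2.2 (al 0)] at v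
      exact (mul_eq_zero.1 v).resolve_left (neg_ne_zero.2 u.1))
  obtain ⟨ps', al', pr', hJ, hS⟩ := base a₀ (a₀ / 2) ps al pr (half_lt_self c0)
    (tj.mono (Q_mono (c1.trans ba))) hb
  obtain ⟨r', hC'⟩ := hC.shrink (half_pos c0)
  have n := hN.mono (show a₀ / 2 ≤ a' by linarith)
  have v := fun a b (e : a + b < 3) => (hS (.ps 0) a b).1 e
  simp only [pk] at v
  refine ⟨a₀ / 2, ps', al', pr', c, ε, _, _, s, r', K, Θ, Ξ, m₁, m₂, by linarith, hJ, hS,
    ⟨n.c0, n.e, n.l0, ?_, ?_, ?_, n.lm⟩, hC'⟩ <;>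
    simp only [v 1 1 (by omega), v 2 0 (by omega), v 0 2 (by omega)]
  exacts [n.ds, n.hl, n.hm]

end Pool.Agent.MP_ed9623_an.R46
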