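import Pool.Agent.MP_ed9623_an.R46.Crt

/-! The loop of transport and elliptic estimates. -/

open MeasureTheory Filter Topology Set

namespace Pool.Agent.MP_ed9623_an.R46

open H64 H77 R77

variable {r : ℝ} {H : ℕ → ℝ → Prop} {G G' F F' : Set (P → ℝ)} {f : P → ℝ}

theorem TU.mono (hf : TU r H G f) (hG : G ⊆ G') : TU r H G' f := by
  obtain ⟨a, N, a0, N0, hN, hf⟩ := hf
  refine ⟨a, N, a0, N0, hN, fun k r' hr hH => ⟨(hf k r' hr hH).1, fun ρ₁ h1 => ?_⟩⟩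
  obtain ⟨C, c, hC⟩ := (hf k r' hr hH).2 ρ₁ h1
  exact ⟨C, c, fun h h0 h2 ρ hρ M m hM => hC h h0 h2 ρ hρ M m fun g hg => hM g (hG hg)⟩

/-- Domination of a family with a weight that depends on the radius. -/
def UD (r : ℝ) (H : ℕ → ℝ → Prop) (w : ℝ → ℝ) (G F : Set (P → ℝ)) : Prop :=
  ∃ a, 0 ≤ a ∧ ∀ k, ∀ r' ≤ r, H k r' → ∀ ρ₁ < r', ∃ C, 0 ≤ C ∧ ∀ h, 0 < h → h < r' - ρ₁ →
    ∀ R ≤ ρ₁, ∀ M, 0 ≤ M → (∀ g ∈ G, Ho (Q R) M (tau k h g)) →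
      ∀ f ∈ F, Ho (Q R) (w R * a * M + C) (tau k h f)

/-- Domination with a loss in the radius. -/
def UE (r : ℝ) (H : ℕ → ℝ → Prop) (G F : Set (P → ℝ)) : Prop :=
  ∃ a, 0 ≤ a ∧ ∀ k, ∀ r' ≤ r, H k r' → ∀ ρ₁ < r', ∃ C, 0 ≤ C ∧ ∀ h, 0 < h → h < r' - ρ₁ →
    ∀ ρ R M : ℝ, 0 < ρ → ρ < R → R ≤ ρ₁ → 0 ≤ M → (∀ g ∈ G, Ho (Q R) M (tau k h g)) →
      ∀ f ∈ F, Ho (Q ρ) (a * M + C / (R - ρ) ^ 2) (tau k h f)

theorem UD.union {w : ℝ → ℝ} (hw : ∀ R, 0 ≤ w R) (h : UD r H w G F) (h' : UD r H w G F') :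
    UD r H w G (F ∪ F') := by
  obtain ⟨a, a0, h⟩ := h
  obtain ⟨b, b0, h'⟩ := h'
  refine ⟨a + b, by positivity, fun k r' hr hH ρ₁ h1 => ?_⟩
  obtain ⟨C, c, hC⟩ := h k r' hr hH ρ₁ h1
  obtain ⟨C', c', hC'⟩ := h' k r' hr hH ρ₁ h1
  refine ⟨C + C', by positivity, fun h h0 h2 R hR M m hM f hf => ?_⟩
  have := hw R
  have u : 0 ≤ w R * a * M := by positivity
  have v : 0 ≤ w R * b * M := by positivity
  rcases hf with hf | hf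
  · exact (hC h h0 h2 R hR M m hM f hf).mono Subset.rfl (by linarith)
  · exact (hC' h h0 h2 R hR M m hM f hf).mono Subset.rfl (by linarith)

theorem UE.union (h : UE r H G F) (h' : UE r H G F') : UE r H G (F ∪ F') := by
  obtain ⟨a, a0, h⟩ := h
  obtain ⟨b, b0, h'⟩ := h'
  refine ⟨a + b, by positivity, fun k r' hr hH ρ₁ h1 => ?_⟩
  obtain ⟨C, c, hC⟩ := h k r' hr hH ρ₁ h1
  obtain ⟨C', c', hC'⟩ := h' k r' hr hH ρ₁ h1
  refine ⟨C + C', by positivity, fun h h0 h2 ρ R M ρ0 ρR hR m hM f hf => ?_⟩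
  have u : 0 ≤ a * M := by positivity
  have v : 0 ≤ b * M := by positivity
  have u' : 0 ≤ C / (R - ρ) ^ 2 := by positivity
  have v' : 0 ≤ C' / (R - ρ) ^ 2 := by positivity
  rw [add_div]
  rcases hf with hf | hf
  · exact (hC h h0 h2 ρ R M ρ0 ρR hR m hM f hf).mono Subset.rfl (by linarith)
  · exact (hC' h h0 h2 ρ R M ρ0 ρR hR m hM f hf).mono Subset.rfl (by linarith)

theorem TU.ud (hf : TU r H G f) : UD r H (fun _ => 1) G {f} := by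
  obtain ⟨a, N, a0, -, -, hf⟩ := hf
  refine ⟨a, a0, fun k r' hr hH ρ₁ h1 => ?_⟩
  obtain ⟨C, c, hC⟩ := (hf k r' hr hH).2 ρ₁ h1
  refine ⟨C, c, fun h h0 h2 R hR M m hM g hg => ?_⟩
  rw [hg, one_mul]
  exact hC h h0 h2 R hR M m hM

theorem UD.fin (hF : F.Finite) (h : ∀ f ∈ F, TU r H G f) : UD r H (fun _ => 1) G F := by
  induction F, hF using Set.Finite.induction_on with
  | empty => exact ⟨0, le_rfl, fun _ _ _ _ _ _ => ⟨0, le_rfl, fun _ _ _ _ _ _ _ _ _ e => e.elim⟩⟩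
  | insert _ _ ih =>
    exact UD.union (fun _ => zero_le_one) (h _ (mem_insert _ _)).ud
      (ih fun f hf => h f (mem_insert_of_mem _ hf))

/-- Transport in the second variable gains the square root of the radius. -/
theorem UD.ode {S T₀ : P → ℝ} (r1 : r ≤ 1) (hd : D2 (Q r) f S) (hS : TU r H G S)
    (hf : ∀ k, ∀ r' ≤ r, H k r' → Lv (Q r') k f ∧ Lv (Q r') (k + 1) T₀)
    (e : ∀ s, |s| < r → f (s, 0) = T₀ (s, 0)) : UD r H (fun R => √R) G {f} := by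
  obtain ⟨a, N, a0, -, -, hS⟩ := hS
  refine ⟨3 * a, by positivity, fun k r' hr hH ρ₁ h1 => ?_⟩
  obtain ⟨C, c, hC⟩ := (hS k r' hr hH).2 ρ₁ h1
  obtain ⟨C', c', hC'⟩ := (hf k r' hr hH).2.bd (ρ₁ := ρ₁)
  refine ⟨C' + 3 * C, by positivity, fun h h0 h2 R hR M m hM g hg => ?_⟩
  rw [hg]
  have R1 : R ≤ 1 := by linarith
  refine (R46.ode (((hd.mono (Q_mono hr)).tq (hf k r' hr hH).1 (hS k r' hr hH).1 h0 h2).mono
    (Q_mono hR)) (hC h h0 h2 R hR M m hM) ((hC' h h0 h2).mono (Q_mono hR) le_rfl)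
    (fun s hs => tau_line (fun s hs => e s (hs.trans_le hr)) h0 h2 s (hs.trans_le hR))
    (by positivity) c' R1).mono Subset.rfl ?_
  have := mul_le_mul_of_nonneg_right (Real.sqrt_le_one.2 R1) c
  simp only
  linarith

theorem UE.crt {C₀ : ℝ} {x₁ x₂ y₁ y₂ u u₁ u₂ v v₁ v₂ : P → ℝ} (r1 : r ≤ 1) (C0 : 0 ≤ C₀)
    (hC : CRe r C₀ x₁ x₂ y₁ y₂) (hu : C1 (Q r) u u₁ u₂) (hv : C1 (Q r) v v₁ v₂) (qu : Hq (Q r) u)
    (qv : Hq (Q r) v) (hf : ∀ f ∈ ({u₁, u₂, v₁, v₂} : Set (P → ℝ)), Hq (Q r) f ∧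
      ∀ k, ∀ r' ≤ r, H k r' → Lv (Q r') k f)
    (hx : ∀ f ∈ ({cr1 x₁ x₂ y₁ y₂ u₁ u₂ v₁ v₂, cr2 x₁ x₂ y₁ y₂ u₁ u₂ v₁ v₂, x₁, x₂, y₁, y₂} :
      Set (P → ℝ)), TU r H G f) : UE r H G {u₁, u₂, v₁, v₂} := by
  obtain ⟨N₁, n1, q1⟩ := (hf u₁ (by simp)).1
  obtain ⟨N₂, n2, q2⟩ := (hf u₂ (by simp)).1
  obtain ⟨N₃, n3, q3⟩ := (hf v₁ (by simp)).1
  obtain ⟨N₄, n4, q4⟩ := (hf v₂ (by simp)).1
  obtain ⟨A, A0, hA⟩ := wCrt r C₀ (N₁ + N₂ + N₃ + N₄) x₁ x₂ y₁ y₂ r1 C0 (by positivity) hC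
  obtain ⟨a, a0, ha⟩ := UD.fin (by simp) hx
  refine ⟨A * a, by positivity, fun k r' hr hH ρ₁ h1 => ?_⟩
  have s := Q_mono hr
  obtain ⟨C, c, hC'⟩ := hA k r' ρ₁ u u₁ u₂ v v₁ v₂ h1 hr (hu.mono s) (hv.mono s) (qu.mono s)
    (qv.mono s) (fun g hg => ⟨(hf g hg).2 k r' hr hH, by
      rcases hg with rfl | rfl | rfl | rfl
      exacts [q1.mono s (by linarith), q2.mono s (by linarith), q3.mono s (by linarith),
        q4.mono s (by linarith)]⟩) fun g hg => (hx g (Or.inr (Or.inr hg))).lv hr hH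
  obtain ⟨E, e, hE⟩ := ha k r' hr hH ρ₁ h1
  refine ⟨A * E + C, by positivity, fun h h0 h2 ρ R M ρ0 ρR hR m hM f hf => ?_⟩
  refine (hC' h h0 h2 ρ R _ ρ0 ρR hR (by positivity) (hE h h0 h2 R hR M m hM) f hf).mono
    Subset.rfl ?_
  have d0 : 0 < (R - ρ) ^ 2 := by have : 0 < R - ρ := by linarith
                                  positivity
  have d1 : (R - ρ) ^ 2 ≤ 1 := by nlinarith
  have : A * E ≤ A * E / (R - ρ) ^ 2 := le_div_self (by positivity) d0 d1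
  rw [add_div]
  linarith

theorem hq_tau {ρ₁ ρ₂ h : ℝ} {k : ℕ} (hf : Lv (Q ρ₂) k f) (h0 : 0 < h) (h1 : h < ρ₂ - ρ₁) :
    Hq (Q ρ₁) (tau k h f) := by
  obtain ⟨M, m, hM⟩ := hf.it_hq
  refine (Hq.mul (Hq.sub ⟨M, m, hM.sh (t := h) (by rw [abs_of_pos h0]; exact h1.le)⟩
    ⟨M, m, hM.mono (Q_mono (by linarith)) le_rfl⟩) (Hq.const _ h⁻¹)).congr fun p _ => ?_
  simp only [tau, dl, sh, div_eq_mul_inv]

theorem loop (r0 : 0 < r) (r1 : r ≤ 1) (fin : (F ∪ F').Finite)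
    (hP : UD r H (fun R => √R) (F ∪ F') F) (hE : UE r H F F')
    (hL : ∀ f ∈ F ∪ F', ∀ k, ∀ r' ≤ r, H k r' → Lv (Q r') k f) :
    ∃ r₀, 0 < r₀ ∧ r₀ ≤ r ∧ ∀ k, ∀ r' ≤ r₀, H k r' → ∀ ρ < r', ∀ f ∈ F ∪ F',
      Lv (Q ρ) (k + 1) f := by
  obtain ⟨a, a0, hP⟩ := hP
  obtain ⟨A, A0, hE⟩ := hE
  set θ := 1 / (16 * (a + 1) * (A + 1)) with hθ
  have θ0 : 0 < θ := by positivity
  refine ⟨min r (θ ^ 2), by positivity, min_le_left _ _, fun k r' hr hH ρ h1 f hf => ?_⟩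
  have hr' := hr.trans (min_le_left _ _)
  rcases le_or_gt ρ 0 with ρ0 | ρ0
  · refine (Lv.const _ _ 0).congr (isOpen_Q _) fun p hp => ?_
    exact absurd ((abs_nonneg _).trans_lt (mem_Q.1 hp).1) (not_lt.2 ρ0)
  set ρ₁ := (ρ + 2 * r') / 3
  set ρ₀ := (2 * ρ + r') / 3
  have e1 : ρ₁ < r' := by simp only [ρ₁]; linarith
  have e0 : ρ₀ < ρ₁ := by simp only [ρ₁, ρ₀]; linarith
  have e2 : ρ < ρ₀ := by simp only [ρ₀]; linarith
  obtain ⟨C, c, hC⟩ := hP k r' hr' hH ρ₁ e1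
  obtain ⟨E, e, hE⟩ := hE k r' hr' hH ρ₁ e1
  refine (hL f hf k r' hr' hH).up (ρ₁ := ρ₀) (h₀ := r' - ρ₁) (by linarith) (by linarith) e2
    ⟨1 + 6 * (C + A * C + E) / (ρ₁ - ρ₀) ^ 2, by positivity, fun h h0 h2 => ?_⟩
  refine iter (S := fun R M => ∀ g ∈ F ∪ F', Ho (Q R) M (tau k h g)) e0 (by positivity)
    (fun _ _ _ m hM g hg => (hM g hg).mono Subset.rfl m) ?_ (fun σ R M s0 sR hR m hM => ?_) f hf
  · choose! c c0 hc using fun g hg => hq_tau (hL g hg k r' hr' hH) h0 h2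
    obtain ⟨M, hM⟩ := (fin.image c).bddAbove
    exact ⟨M, (c0 f hf).trans (hM (mem_image_of_mem c hf)), fun σ hσ g hg =>
      (hc g hg).mono (Q_mono hσ) (hM (mem_image_of_mem c hg))⟩
  have s1 : √R ≤ θ := Real.sqrt_le_iff.2 ⟨θ0.le, by linarith [hr.trans (min_le_right _ _)]⟩
  have s2 := Real.sqrt_nonneg R
  have k1 : √R * a * (A + 1) ≤ 1 / 16 := by
    have : θ * (a + 1) * (A + 1) = 1 / 16 := by rw [hθ]; field_simp
    have u : √R * a ≤ θ * (a + 1) := mul_le_mul s1 (by linarith) a0 θ0.le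
    nlinarith
  have k2 : √R * a * (A + 1) * M ≤ 1 / 16 * M := mul_le_mul_of_nonneg_right k1 m
  have k3 : 0 ≤ √R * a * M := by positivity
  have k4 : 0 ≤ A * (√R * a * M) := by positivity
  have d0 : 0 < (R - σ) ^ 2 := by have : 0 < R - σ := by linarith
                                  positivity
  have d1 : (R - σ) ^ 2 ≤ 1 := by nlinarith
  have c1 : C ≤ C / (R - σ) ^ 2 := le_div_self c d0 d1
  have c2 : A * C ≤ A * C / (R - σ) ^ 2 := le_div_self (by positivity) d0 d1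
  have c3 : 0 ≤ E / (R - σ) ^ 2 := by positivity
  have c4 : 0 ≤ A * C := by positivity
  have u := hC h h0 h2 R hR M m hM
  rw [add_div, add_div]
  rintro g (hg | hg)
  · exact (u g hg).mono (Q_mono sR.le) (by linarith)
  · exact (hE h h0 h2 σ R _ (by linarith) sR hR (by positivity) u g hg).mono Subset.rfl
      (by linarith)

end Pool.Agent.MP_ed9623_an.R46
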