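import Pool.Agent.MP_ed9623_an.R46.Cor1
import Pool.Agent.MP_ed9623_an.R46.Loop

/-! Tangential regularity of all jets. -/

open MeasureTheory Filter Topology Set

namespace Pool.Agent.MP_ed9623_an.R46

open H64 H77 R77

namespace Dt

variable (D : Dt) {A A₁ A₂ B B₁ B₂ : P → ℝ} {G : Set (P → ℝ)} {k : ℕ} {r' ρ C₀ : ℝ}

theorem cr1_eq (A₁ A₂ B₁ B₂ : P → ℝ) : cr1 D.m₁ D.x₂ D.y₁ D.m₂ (D.dx A₁ A₂) (D.dy A₁ A₂)
    (D.dx B₁ B₂) (D.dy B₁ B₂) = fun p => D.J p * (D.t A₁ p - D.t B₂ p) := by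
  funext p
  simp only [cr1, dx, dy, x₂, y₁, J, w, t]
  ring

theorem cr2_eq (A₁ A₂ B₁ B₂ : P → ℝ) : cr2 D.m₁ D.x₂ D.y₁ D.m₂ (D.dx A₁ A₂) (D.dy A₁ A₂)
    (D.dx B₁ B₂) (D.dy B₁ B₂) = fun p => D.J p * (D.t A₂ p + D.t B₁ p) := by
  funext p
  simp only [cr2, dx, dy, x₂, y₁, J, w, t]
  ring

theorem lv0 {f : P → ℝ} (h : ∀ k, ∀ r' ≤ D.r, D.H k r' → Lv (Q r') k f) : Hq (Q D.r) f :=
  h 0 D.r le_rfl D.H0

theorem bet {f : P → ℝ} (h : ∀ k, ∀ r' ≤ D.r, D.H k r' → Lv (Q r') (k + 1) f) :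
    TU D.r D.H G f := TU.better (h 0 D.r le_rfl D.H0).1 h

theorem gen {f : P → ℝ} (hG : f ∈ G) (h : ∀ k, ∀ r' ≤ D.r, D.H k r' → Lv (Q r') k f) :
    TU D.r D.H G f := TU.gen (D.lv0 h) hG h

theorem u_l : TU D.r D.H G (D.t D.l) := D.bet fun _ _ hr h => h.l' hr
theorem u_m : TU D.r D.H G (D.t D.m) := D.bet fun _ _ hr h => h.m' hr
theorem u_s : TU D.r D.H G (D.t D.s) := D.bet fun _ _ hr h => h.s' hr
theorem u_w : TU D.r D.H G D.w := D.bet fun _ _ hr h => h.w' hr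
theorem u_low (i : Ix) (u v : ℕ) (e : u + v < i.ord) : TU D.r D.H G (D.j i u v) :=
  D.bet fun _ _ hr h => h.low hr i u v e

theorem l_n₁ : ∀ k, ∀ r' ≤ D.r, D.H k r' → Lv (Q r') k D.n₁ :=
  fun _ _ _ h => h.m₁.mul (isOpen_Q _) h.w

theorem l_pp : ∀ k, ∀ r' ≤ D.r, D.H k r' → Lv (Q r') k D.pp := fun _ r' _ h =>
  have o := isOpen_Q r'
  h.m₁.mul o (((h.j (.al 0) 2 0 le_rfl).add o ((h.l.cmul o 2).mul o (h.j (.al 0) 1 1 le_rfl))).add o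
    ((h.l.sq o).mul o (h.j (.al 0) 0 2 le_rfl)))

section dom

variable (jg : JgS) (h1 : D.pp ∈ G) (h2 : D.n₁ ∈ G)
include jg

theorem u_m₂ : TU D.r D.H G D.m₂ := D.bet fun _ _ hr h => h.m₂' hr jg
theorem u_x₂ : TU D.r D.H G D.x₂ := (D.u_m₂ jg).mul D.u_m

include h2

omit jg in
theorem u_m₁ : TU D.r D.H G D.m₁ :=
  ((D.gen h2 D.l_n₁).div D.u_w one_half_pos D.lo_w).congr fun _ hp =>
    mul_div_cancel_right₀ _ (D.ne_w hp)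

omit jg in
theorem u_y₁ : TU D.r D.H G D.y₁ := (D.u_m₁ h2).mul D.u_l

theorem u_J : TU D.r D.H G D.J := ((D.u_m₁ h2).mul (D.u_m₂ jg)).mul D.u_w

omit jg in
theorem u_dx (a : TU D.r D.H G (D.t A₁)) (b : TU D.r D.H G (D.t A₂)) :
    TU D.r D.H G (D.dx A₁ A₂) := (a.mul (D.u_m₁ h2)).add (b.mul (D.u_y₁ h2))

omit h2 in
theorem u_dy (a : TU D.r D.H G (D.t A₁)) (b : TU D.r D.H G (D.t A₂)) :
    TU D.r D.H G (D.dy A₁ A₂) := (a.mul (D.u_x₂ jg)).add (b.mul (D.u_m₂ jg))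

theorem u_sol (a : TU D.r D.H G (D.dx A₁ A₂)) (b : TU D.r D.H G (D.dy A₁ A₂)) :
    TU D.r D.H G (D.t A₁) ∧ TU D.r D.H G (D.t A₂) :=
  have c : 0 < 1 / D.K * (1 / D.K) * (1 / 2) := by have := D.K0; positivity
  ⟨(((a.mul (D.u_m₂ jg)).sub (b.mul (D.u_y₁ h2))).div (D.u_J jg h2) c D.lo_J).congr (D.solve1 _ _),
    (((b.mul (D.u_m₁ h2)).sub (a.mul (D.u_x₂ jg))).div (D.u_J jg h2) c D.lo_J).congr
      (D.solve2 _ _)⟩

include h1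

theorem u_al : TU D.r D.H G (D.j (.al 0) 2 0) ∧ TU D.r D.H G (D.j (.al 0) 1 1) ∧
    TU D.r D.H G (D.j (.al 0) 0 2) :=
  have c : 0 < 1 / D.K := by have := D.K0; positivity
  have a := (D.gen h1 D.l_pp).div (D.u_m₁ h2) c D.lo_1
  have b := (D.bet fun _ _ hr h => h.rr' hr jg).div (D.u_m₂ jg) c D.lo_2
  ⟨(((a.add (D.u_l.sq.mul b)).div D.u_w one_half_pos D.lo_w).div D.u_w one_half_pos
      D.lo_w).congr D.eq20,
    (((((D.u_m.mul a).add (D.u_l.mul b)).neg).div D.u_w one_half_pos D.lo_w).div D.u_w one_half_pos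
      D.lo_w).congr D.eq11,
    ((((D.u_m.sq.mul a).add b).div D.u_w one_half_pos D.lo_w).div D.u_w one_half_pos
      D.lo_w).congr D.eq02⟩

theorem u_lp (u v : ℕ) (e : u + v = 1) : TU D.r D.H G (D.t (lp (D.ps 0) u v)) := by
  have a := D.u_al jg h1 h2
  have b : TU D.r D.H G (D.j (.al 0) u (v + 1)) ∧ TU D.r D.H G (D.j (.al 0) (u + 1) v) := by
    obtain ⟨rfl, rfl⟩ | ⟨rfl, rfl⟩ : u = 1 ∧ v = 0 ∨ u = 0 ∧ v = 1 := by omega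
    exacts [⟨a.2.1, a.1⟩, ⟨a.2.2, a.2.1⟩]
  have p := fun j u v (e : u + v < 3) => D.u_low (G := G) (.ps j) u v e
  have q := fun u v (e : u + v < 2) => D.u_low (G := G) (.al 0) u v e
  refine ((p 1 u v (by omega)).add ((((q 1 0 (by omega)).mul (p 0 u (v + 1) (by omega))).sub
    ((q 0 1 (by omega)).mul (p 0 (u + 1) v (by omega)))).add
    (((p 0 1 0 (by omega)).mul b.1).sub ((p 0 0 1 (by omega)).mul b.2)))).congr fun x hx => ?_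
  simp only [t, D.hJ.e1 0 u v e _ (D.hC.mp x hx), j, pk, br, zero_add, Finset.range_one,
    Finset.sum_singleton, Nat.choose_self, Nat.cast_one, one_mul, Nat.sub_self]

omit h1 in
theorem ue (C0 : 0 ≤ C₀) (hC : CRe D.r C₀ D.m₁ D.x₂ D.y₁ D.m₂) (hA : C1 (Q D.a) A A₁ A₂)
    (hB : C1 (Q D.a) B B₁ B₂) (qA : Hq (Q D.a) A) (qB : Hq (Q D.a) B)
    (hf : ∀ k, ∀ r' ≤ D.r, D.H k r' → Lv (Q r') k (D.t A₁) ∧ Lv (Q r') k (D.t A₂) ∧
      Lv (Q r') k (D.t B₁) ∧ Lv (Q r') k (D.t B₂))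
    (k₁ : TU D.r D.H G fun p => D.t A₁ p - D.t B₂ p)
    (k₂ : TU D.r D.H G fun p => D.t A₂ p + D.t B₁ p) :
    UE D.r D.H G {D.dx A₁ A₂, D.dy A₁ A₂, D.dx B₁ B₂, D.dy B₁ B₂} := by
  refine UE.crt D.hC.r1 C0 hC (D.chain hA) (D.chain hB) (D.hq_t qA) (D.hq_t qB) (fun f e => ?_)
    fun f e => ?_
  · have : ∀ k, ∀ r' ≤ D.r, D.H k r' → Lv (Q r') k f := fun k r' hr h => by
      obtain ⟨a, b, c, d⟩ := hf k r' hr h
      rcases e with rfl | rfl | rfl | rfl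
      exacts [h.dx a b, h.dy a b, h.dx c d, h.dy c d]
    exact ⟨D.lv0 this, this⟩
  · rw [cr1_eq, cr2_eq] at e
    rcases e with rfl | rfl | rfl | rfl | rfl | rfl
    exacts [(D.u_J jg h2).mul k₁, (D.u_J jg h2).mul k₂, D.u_m₁ h2, D.u_x₂ jg, D.u_y₁ h2, D.u_m₂ jg]

end dom

theorem u_q {f₀ f₁ f₂ z : P → ℝ} (a : TU D.r D.H G f₀) (b : TU D.r D.H G f₁)
    (c : TU D.r D.H G f₂) (e : TU D.r D.H G z) :
    (TU D.r D.H G fun p => -(f₀ p + 2 * z p * f₁ p + z p ^ 2 * f₂ p) / (2 * D.t D.s p)) ∧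
    TU D.r D.H G fun p => -(z p ^ 2 * f₀ p + 2 * z p * f₁ p + f₂ p) / (2 * D.t D.s p) :=
  ⟨((a.add ((e.cmul 2).mul b)).add (e.sq.mul c)).neg.div (D.u_s.cmul 2)
    (Real.sqrt_pos.2 D.hN.c0) D.lo_s,
  (((e.sq.mul a).add ((e.cmul 2).mul b)).add c).neg.div (D.u_s.cmul 2)
    (Real.sqrt_pos.2 D.hN.c0) D.lo_s⟩

/-- The derivatives in the chart of the second order jets of the half difference. -/
def GE : Set (P → ℝ) :=
  {D.dx (D.ps 0 3 0) (D.ps 0 2 1), D.dy (D.ps 0 3 0) (D.ps 0 2 1),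
    D.dx (fun p => -D.ps 0 2 1 p) fun p => -D.ps 0 1 2 p,
    D.dy (fun p => -D.ps 0 2 1 p) fun p => -D.ps 0 1 2 p} ∪
  {D.dx (D.ps 0 2 1) (D.ps 0 1 2), D.dy (D.ps 0 2 1) (D.ps 0 1 2),
    D.dx (fun p => -D.ps 0 1 2 p) fun p => -D.ps 0 0 3 p,
    D.dy (fun p => -D.ps 0 1 2 p) fun p => -D.ps 0 0 3 p}

/-- The two transported quantities gain a level. -/
theorem gain (jg : JgS) (C0 : 0 ≤ C₀) (hC : CRe D.r C₀ D.m₁ D.x₂ D.y₁ D.m₂)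
    (h0 : ∀ t, |t| < D.r → h11 (D.al 0) D.l (D.Θ (t, 0)) = 0) :
    ∃ r₀, 0 < r₀ ∧ r₀ ≤ D.r ∧ ∀ k, ∀ r' ≤ r₀, D.H k r' → ∀ ρ < r',
      Lv (Q ρ) (k + 1) D.pp ∧ Lv (Q ρ) (k + 1) D.n₁ := by
  have c := fun u v (e : u + v < 3) => D.hJ.c1 (.ps 0) u v e
  have q := fun u v (e : u + v ≤ 3) => D.hJ.ho (.ps 0) u v e
  have h1 : D.pp ∈ ({D.pp} ∪ {D.n₁} : Set (P → ℝ)) := Or.inl rfl
  have h2 : D.n₁ ∈ ({D.pp} ∪ {D.n₁} : Set (P → ℝ)) := Or.inr rfl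
  have z : TU D.r D.H ({D.pp} ∪ {D.n₁}) fun _ => 0 := TU.const 0
  have eA := D.ue jg h2 C0 hC (c 2 0 (by omega)) (c 1 1 (by omega)).neg (q 2 0 (by omega))
    (q 1 1 (by omega)).neg (fun k r' _ h => ⟨h.j (.ps 0) 3 0 le_rfl, h.j (.ps 0) 2 1 le_rfl,
      (h.j (.ps 0) 2 1 le_rfl).neg (isOpen_Q _), (h.j (.ps 0) 1 2 le_rfl).neg (isOpen_Q _)⟩)
    ((D.u_lp jg h1 h2 1 0 rfl).congr fun p _ => by simp [t, R77.lp, pk])
    (z.congr fun p _ => by simp [t, pk])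
  have eB := D.ue jg h2 C0 hC (c 1 1 (by omega)) (c 0 2 (by omega)).neg (q 1 1 (by omega))
    (q 0 2 (by omega)).neg (fun k r' _ h => ⟨h.j (.ps 0) 2 1 le_rfl, h.j (.ps 0) 1 2 le_rfl,
      (h.j (.ps 0) 1 2 le_rfl).neg (isOpen_Q _), (h.j (.ps 0) 0 3 le_rfl).neg (isOpen_Q _)⟩)
    ((D.u_lp jg h1 h2 0 1 rfl).congr fun p _ => by simp [t, R77.lp, pk])
    (z.congr fun p _ => by simp [t, pk])
  have hE : UE D.r D.H _ D.GE := eA.union eB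
  have hL : ∀ f ∈ ({D.pp} ∪ {D.n₁}) ∪ D.GE, ∀ k, ∀ r' ≤ D.r, D.H k r' → Lv (Q r') k f := by
    intro f e k r' hr h
    have o := isOpen_Q r'
    have a := h.j (.ps 0) 3 0 le_rfl
    have b := h.j (.ps 0) 2 1 le_rfl
    have c := h.j (.ps 0) 1 2 le_rfl
    have d := h.j (.ps 0) 0 3 le_rfl
    rcases e with (rfl | rfl) | (rfl | rfl | rfl | rfl) | rfl | rfl | rfl | rfl
    exacts [D.l_pp k r' hr h, D.l_n₁ k r' hr h, h.dx a b, h.dy a b, h.dx (b.neg o) (c.neg o),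
      h.dy (b.neg o) (c.neg o), h.dx b c, h.dy b c, h.dx (c.neg o) (d.neg o),
      h.dy (c.neg o) (d.neg o)]
  have g := fun f e => D.gen e (hL f e)
  have g1 : D.pp ∈ ({D.pp} ∪ {D.n₁}) ∪ D.GE := Or.inl h1
  have g2 : D.n₁ ∈ ({D.pp} ∪ {D.n₁}) ∪ D.GE := Or.inl h2
  have s1 := D.u_sol jg g2 (g _ (Or.inr (Or.inl (Or.inl rfl))))
    (g _ (Or.inr (Or.inl (Or.inr (Or.inl rfl)))))
  have s2 := D.u_sol jg g2 (g _ (Or.inr (Or.inr (Or.inl rfl))))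
    (g _ (Or.inr (Or.inr (Or.inr (Or.inl rfl)))))
  have s3 := D.u_sol jg g2 (g _ (Or.inr (Or.inr (Or.inr (Or.inr (Or.inl rfl))))))
    (g _ (Or.inr (Or.inr (Or.inr (Or.inr (Or.inr rfl))))))
  have s4 : TU D.r D.H _ (D.j (.ps 0) 0 3) := s3.2.neg.congr fun p _ => neg_neg _
  have l1 : TU D.r D.H _ (D.t (lx (D.ps 0) D.l D.s)) := (D.u_q s1.1 s1.2 s2.2 D.u_l).1
  have l2 : TU D.r D.H _ (D.t (ly (D.ps 0) D.l D.s)) := (D.u_q s1.2 s2.2 s4 D.u_l).1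
  have m1 : TU D.r D.H _ (D.t (mx (D.ps 0) D.m D.s)) := (D.u_q s1.1 s1.2 s2.2 D.u_m).2
  have m2 : TU D.r D.H _ (D.t (my (D.ps 0) D.m D.s)) := (D.u_q s1.2 s2.2 s4 D.u_m).2
  have a := D.u_al jg g1 g2
  have p1 := UD.ode (T₀ := fun _ => 0) D.hC.r1 (D.tr_p jg)
    (((D.u_dy jg l1 l2).mul (D.u_dx g2 a.2.1 a.2.2)).sub
      ((D.u_dx g2 l1 l2).mul (D.u_dy jg a.2.1 a.2.2)))
    (fun k r' hr h => ⟨D.l_pp k r' hr h, Lv.const _ _ 0⟩) fun s hs => by simp [pp, h0 s hs]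
  have p2 := UD.ode (T₀ := D.w) D.hC.r1 (D.tr_n₁ jg)
    (((D.u_dx g2 m1 m2).mul (D.u_m₂ jg)).sub ((D.u_dy jg m1 m2).mul (D.u_y₁ g2)))
    (fun k r' hr h => ⟨D.l_n₁ k r' hr h, h.w' hr⟩) fun s hs => by simp [n₁, (D.hC.bs s hs).2]
  obtain ⟨r₀, r0, r1, h⟩ := loop D.hC.r0 D.hC.r1 (by simp [GE])
    (p1.union Real.sqrt_nonneg p2) hE hL
  exact ⟨r₀, r0, r1, fun k r' hr hH ρ e => ⟨h k r' hr hH ρ e _ g1, h k r' hr hH ρ e _ g2⟩⟩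

section boot

variable {D} (C0 : 0 ≤ C₀) (hC : CRe D.r C₀ D.m₁ D.x₂ D.y₁ D.m₂) {R : ℝ} (hr : R ≤ D.r)
  (h : D.H k R) (jg : JgS) (hm : Lv (Q R) (k + 1) D.m₁) (e : ρ < R)
include C0 hC hr h jg hm e

theorem btp (hA : C1 (Q D.a) A A₁ A₂) (hB : C1 (Q D.a) B B₁ B₂) (qA : Hq (Q D.a) A)
    (qB : Hq (Q D.a) B) (a : Lv (Q R) k (D.t A₁)) (b : Lv (Q R) k (D.t A₂))
    (c : Lv (Q R) k (D.t B₁)) (d : Lv (Q R) k (D.t B₂))
    (k₁ : Lv (Q R) (k + 1) fun p => D.t A₁ p - D.t B₂ p)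
    (k₂ : Lv (Q R) (k + 1) fun p => D.t A₂ p + D.t B₁ p) :
    (Lv (Q ρ) (k + 1) (D.t A₁) ∧ Lv (Q ρ) (k + 1) (D.t A₂)) ∧
      Lv (Q ρ) (k + 1) (D.t B₁) ∧ Lv (Q ρ) (k + 1) (D.t B₂) := by
  have o := isOpen_Q R
  have o' := isOpen_Q ρ
  have s := Q_mono hr
  have s' := Q_mono e.le
  have m₂ := h.m₂' hr jg
  have x₂ : Lv (Q R) (k + 1) D.x₂ := m₂.mul o (h.m' hr)
  have y₁ : Lv (Q R) (k + 1) D.y₁ := hm.mul o (h.l' hr)
  have J : Lv (Q R) (k + 1) D.J := (hm.mul o m₂).mul o (h.w' hr)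
  have g := wBt D.r C₀ _ _ _ _ D.hC.r1 C0 hC k R ρ _ _ _ _ _ _ e hr ((D.chain hA).mono s)
    ((D.chain hB).mono s) ((D.hq_t qA).mono s) ((D.hq_t qB).mono s)
    (by rintro f (rfl | rfl | rfl | rfl); exacts [h.dx a b, h.dy a b, h.dx c d, h.dy c d])
    (by
      rw [cr1_eq, cr2_eq]
      rintro f (rfl | rfl | rfl | rfl | rfl | rfl)
      exacts [J.mul o k₁, J.mul o k₂, hm, x₂, y₁, m₂])
  have c0 : 0 < 1 / D.K * (1 / D.K) * (1 / 2) := by have := D.K0; positivity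
  have sol : ∀ {F₁ F₂ : P → ℝ}, Lv (Q ρ) (k + 1) (D.dx F₁ F₂) → Lv (Q ρ) (k + 1) (D.dy F₁ F₂) →
      Lv (Q ρ) (k + 1) (D.t F₁) ∧ Lv (Q ρ) (k + 1) (D.t F₂) := fun u v =>
    ⟨(((u.mul o' (m₂.mono s')).sub o' (v.mul o' (y₁.mono s'))).div o' (J.mono s') c0
      fun p hp => D.lo_J p (s (s' hp))).congr o' ((D.solve1 _ _).mono (s'.trans s)),
    (((v.mul o' (hm.mono s')).sub o' (u.mul o' (x₂.mono s'))).div o' (J.mono s') c0
      fun p hp => D.lo_J p (s (s' hp))).congr o' ((D.solve2 _ _).mono (s'.trans s))⟩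
  exact ⟨sol (g _ (by simp)) (g _ (by simp)), sol (g _ (by simp)) (g _ (by simp))⟩

theorem bt3 (i : Ix) (hi : i.ord = 3)
    (k₁ : Lv (Q R) (k + 1) (D.t (R77.lp (pk D.ps D.al D.pr i) 1 0)))
    (k₂ : Lv (Q R) (k + 1) (D.t (R77.lp (pk D.ps D.al D.pr i) 0 1))) (u v : ℕ) (e' : u + v = 3) :
    Lv (Q ρ) (k + 1) (D.j i u v) := by
  have o := isOpen_Q R
  have c := fun u v (e : u + v < 3) => D.hJ.c1 i u v (hi ▸ e)
  have q := fun u v (e : u + v ≤ 3) => D.hJ.ho i u v (hi ▸ e)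
  have j := fun u v (e : u + v ≤ 3) => h.j i u v (hi ▸ e)
  have z := Lv.const (Q R) (k + 1) 0
  have a := btp C0 hC hr h jg hm e (c 2 0 (by omega)) (c 1 1 (by omega)).neg (q 2 0 (by omega))
    (q 1 1 (by omega)).neg (j 3 0 le_rfl) (j 2 1 le_rfl) ((j 2 1 le_rfl).neg o)
    ((j 1 2 le_rfl).neg o) (k₁.congr o fun p _ => by simp [t, R77.lp])
    (z.congr o fun p _ => by simp [t])
  have b := btp C0 hC hr h jg hm e (c 1 1 (by omega)) (c 0 2 (by omega)).neg (q 1 1 (by omega))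
    (q 0 2 (by omega)).neg (j 2 1 le_rfl) (j 1 2 le_rfl) ((j 1 2 le_rfl).neg o)
    ((j 0 3 le_rfl).neg o) (k₂.congr o fun p _ => by simp [t, R77.lp])
    (z.congr o fun p _ => by simp [t])
  obtain ⟨rfl, rfl⟩ | ⟨rfl, rfl⟩ | ⟨rfl, rfl⟩ | ⟨rfl, rfl⟩ :
    u = 3 ∧ v = 0 ∨ u = 2 ∧ v = 1 ∨ u = 1 ∧ v = 2 ∨ u = 0 ∧ v = 3 := by omega
  exacts [a.1.1, a.1.2, b.1.2, (b.2.2.neg (isOpen_Q _)).congr (isOpen_Q _) fun p _ => neg_neg _]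

end boot

theorem step (jg : JgS) (C0 : 0 ≤ C₀) (hC : CRe D.r C₀ D.m₁ D.x₂ D.y₁ D.m₂) {R : ℝ} (hr : R ≤ D.r)
    (h : D.H k R) (hp : Lv (Q R) (k + 1) D.pp) (hn : Lv (Q R) (k + 1) D.n₁) (e : ρ < R) :
    D.H (k + 1) ρ := by
  have o := isOpen_Q R
  have s := Q_mono hr
  have s' := Q_mono e.le
  have c : 0 < 1 / D.K := by have := D.K0; positivity
  have lw := fun p hp => D.lo_w p (s hp)
  have hw := h.w' hr
  have hl := h.l' hr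
  have hm := h.m' hr
  have m₁ : Lv (Q R) (k + 1) D.m₁ := (hn.div o hw one_half_pos lw).congr o fun _ hp =>
    mul_div_cancel_right₀ _ (D.ne_w (s hp))
  have a := hp.div o m₁ c fun p hp => D.lo_1 p (s hp)
  have b := (h.rr' hr jg).div o (h.m₂' hr jg) c fun p hp => D.lo_2 p (s hp)
  have a20 := (((a.add o ((hl.sq o).mul o b)).div o hw one_half_pos lw).div o hw one_half_pos
    lw).congr o (D.eq20.mono s)
  have a11 := (((((hm.mul o a).add o (hl.mul o b)).neg o).div o hw one_half_pos lw).div o hw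
    one_half_pos lw).congr o (D.eq11.mono s)
  have a02 := (((((hm.sq o).mul o a).add o b).div o hw one_half_pos lw).div o hw one_half_pos
    lw).congr o (D.eq02.mono s)
  have p2 : ∀ j u v, u + v ≤ 2 → Lv (Q R) (k + 1) (D.t (D.ps j u v)) := fun j u v e =>
    h.low hr (.ps j) u v (Nat.lt_succ_of_le e)
  have a2 : ∀ j u v, u + v ≤ 2 → Lv (Q R) (k + 1) (D.t (D.al j u v)) := by
    rintro (_ | j) u v e
    · rcases e.lt_or_eq with e | e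
      · exact h.low hr (.al 0) u v e
      obtain ⟨rfl, rfl⟩ | ⟨rfl, rfl⟩ | ⟨rfl, rfl⟩ :
        u = 2 ∧ v = 0 ∨ u = 1 ∧ v = 1 ∨ u = 0 ∧ v = 2 := by omega
      exacts [a20, a11, a02]
    · exact h.low hr (.al (j + 1)) u v (Nat.lt_succ_of_le e)
  have hb : ∀ {f g : J2}, (∀ u v, u + v ≤ 2 → Lv (Q R) (k + 1) (D.t (f u v))) →
      (∀ u v, u + v ≤ 2 → Lv (Q R) (k + 1) (D.t (g u v))) → ∀ u v, u + v = 1 →
      Lv (Q R) (k + 1) (D.t (br f g u v)) := fun a b u v e =>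
    ((a 1 0 (by omega)).mul o (b u (v + 1) (by omega))).sub o
      ((a 0 1 (by omega)).mul o (b (u + 1) v (by omega)))
  have hp : ∀ j u v, u + v = 1 → Lv (Q R) (k + 1) (D.t (R77.lp (D.ps j) u v)) := fun j u v e =>
    ((p2 (j + 1) u v (by omega)).add o (Lv.sum (Finset.range (j + 1)) o fun i _ =>
      ((hb (a2 i) (p2 (j - i)) u v e).add o (hb (p2 (j - i)) (a2 i) u v e)).cmul o
        (j.choose i))).congr o fun x hx => (D.hJ.e1 j u v e _ (D.hC.mp x (s hx))).symm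
  have hn : ∀ j u v, u + v = 1 →
      Lv (Q R) (k + 1) fun x => D.t (D.al (j + 1) u v) x + D.t (nl D.ps D.al j u v) x :=
    fun j u v e => (a2 (j + 1) u v (by omega)).add o (Lv.sum (Finset.range (j + 1)) o fun i _ =>
      ((hb (a2 i) (a2 (j - i)) u v e).add o (hb (p2 i) (p2 (j - i)) u v e)).cmul o (j.choose i))
  have e1 : (ρ + R) / 2 < R := by linarith
  have e2 : ρ < (ρ + R) / 2 := by linarith
  have hu := fun j => btp C0 hC hr h jg m₁ e1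
    ((D.hJ.c1 (.al (j + 1)) 2 0 (by simp [Ix.ord])).add (D.hJ.c1 (.al (j + 1)) 0 2 (by simp [Ix.ord])))
    (D.hJ.c1 (.pr j) 0 0 (by simp [Ix.ord]))
    ((D.hJ.ho (.al (j + 1)) 2 0 (by simp [Ix.ord])).add (D.hJ.ho (.al (j + 1)) 0 2 (by simp [Ix.ord])))
    (D.hJ.ho (.pr j) 0 0 (by simp [Ix.ord]))
    ((h.j (.al (j + 1)) 3 0 le_rfl).add o (h.j (.al (j + 1)) 1 2 le_rfl))
    ((h.j (.al (j + 1)) 2 1 le_rfl).add o (h.j (.al (j + 1)) 0 3 le_rfl))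
    (h.j (.pr j) 1 0 le_rfl) (h.j (.pr j) 0 1 le_rfl)
    ((hn (j + 1) 1 0 rfl).congr o fun x hx => by
      have := (D.hJ.e2 j _ (D.hC.mp x (s hx))).1
      simp only [t, pk, R77.lp] at this ⊢
      linarith)
    ((hn (j + 1) 0 1 rfl).congr o fun x hx => by
      have := (D.hJ.e2 j _ (D.hC.mp x (s hx))).2
      simp only [t, pk, R77.lp] at this ⊢
      linarith)
  refine ⟨m₁.mono s', (h.m₂' hr jg).mono s', hl.mono s', hm.mono s', (h.s' hr).mono s',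
    fun i u v e' => ?_⟩
  rcases e'.lt_or_eq with e' | e'
  · exact (h.low hr i u v e').mono s'
  rcases i with j | (_ | j) | j
  · exact bt3 C0 hC hr h jg m₁ e (.ps j) rfl (hp j 1 0 rfl) (hp j 0 1 rfl) u v e'
  · exact (a2 0 u v e'.le).mono s'
  · exact bt3 C0 hC (e1.le.trans hr) (h.mono e1.le) jg (m₁.mono (Q_mono e1.le)) e2 (.al (j + 1)) rfl
      (hu j).1.1 (hu j).1.2 u v e'
  · obtain ⟨rfl, rfl⟩ | ⟨rfl, rfl⟩ : u = 1 ∧ v = 0 ∨ u = 0 ∧ v = 1 := by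
      simp only [Ix.ord] at e'; omega
    exacts [(hu j).2.1.mono (Q_mono e2.le), (hu j).2.2.mono (Q_mono e2.le)]

end Dt

theorem wCore (nc : NcS) (jg : JgS) (cr : CrsS) : CoreS := by
  intro a ps al pr c ε l m s r K Θ Ξ m₁ m₂ hJ hN hC h0
  obtain ⟨cl, cm, -, -, qs⟩ := nc a c ε (ps 0) l m s hN fun u v e =>
    ⟨hJ.c1 (.ps 0) u v (by simp [Ix.ord, e]), hJ.ho (.ps 0) u v (by simp [Ix.ord, e])⟩
  obtain ⟨C₀, C0, hE⟩ := cr _ _ _ _ _ _ _ _ _ hC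
  let D : Dt := ⟨a, c, ε, r, K, ps, al, pr, l, m, s, m₁, m₂, Θ, Ξ, hJ, hN, hC, cl, cm, qs⟩
  obtain ⟨r₀, r0, r1, hg⟩ := D.gain jg C0 hE h0
  have key : ∀ k, ∀ ρ < r₀, D.H k ρ := by
    intro k
    induction k with
    | zero => exact fun ρ e => D.H0.mono (e.le.trans r1)
    | succ k ih =>
      intro ρ e
      have h := ih ((ρ + 2 * r₀) / 3) (by linarith)
      have g := hg k _ (by linarith) h ((2 * ρ + r₀) / 3) (by linarith)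
      exact D.step jg C0 hE (by linarith) (h.mono (by linarith)) g.1 g.2 (by linarith)
  have h := fun k => key k (r₀ / 2) (by linarith)
  exact ⟨r₀ / 2, by linarith, by linarith, fun k => (h k).m₁, fun k => (h k).m₂, fun k => (h k).l,
    fun k => (h k).m, fun k => (h k).s, fun i u v e k => (h k).j i u v e⟩

end Pool.Agent.MP_ed9623_an.R46
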