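import Pool.Agent.MP_ed9623_an.R46.Pc

/-! The Schauder estimate in a characteristic chart. -/

open MeasureTheory Filter Topology Set

namespace Pool.Agent.MP_ed9623_an.R46

open H64 H77 R77

namespace XCrs

/-- Classical solutions are weak solutions. -/
theorem crw {O : Set P} {a a₁ a₂ b b₁ b₂ : P → ℝ} (hO : IsOpen O) (ha : C1 O a a₁ a₂)
    (hb : C1 O b b₁ b₂) : CRw O a b (fun p => a₁ p - b₂ p) fun p => a₂ p + b₁ p := fun φ hφ => by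
  have e1 := ha.wd0 hO φ hφ
  have e2 := ha.wd1 hO φ hφ
  have e3 := hb.wd0 hO φ hφ
  have e4 := hb.wd1 hO φ hφ
  refine ⟨?_, ?_⟩
  · rw [integral_sub (int_on hO ha.cont (hφ.pd _)) (int_on hO hb.cont (hφ.pd _)), e1, e4]
    simp only [sub_mul]
    rw [integral_sub (int_on hO ha.c1 hφ) (int_on hO hb.c2 hφ)]
    ring
  · rw [integral_add (int_on hO ha.cont (hφ.pd _)) (int_on hO hb.cont (hφ.pd _)), e2, e3]
    simp only [add_mul]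
    rw [integral_add (int_on hO ha.c2 hφ) (int_on hO hb.c1 hφ)]
    ring

variable {a r K : ℝ} {l m m₁ m₂ : P → ℝ} {Θ Ξ : P → P}

theorem jlo (h : Co a r K l m Θ Ξ m₁ m₂) {p : P} (hp : p ∈ Q r) :
    1 / K * (1 / K) * (1 / 2) ≤ Jc l m Θ m₁ m₂ p := by
  obtain ⟨h1, h2, h3⟩ := h.lo p hp
  have K0 : 0 < 1 / K := one_div_pos.2 (one_pos.trans_le h.K1)
  have := (abs_le.1 h3).2
  unfold Jc
  exact mul_le_mul (mul_le_mul h1 h2 K0.le (K0.le.trans h1)) (by linarith) (by norm_num)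
    (mul_nonneg (K0.le.trans h1) (K0.le.trans h2))

theorem jne (h : Co a r K l m Θ Ξ m₁ m₂) {p : P} (hp : p ∈ Q r) : Jc l m Θ m₁ m₂ p ≠ 0 := by
  have K0 : 0 < 1 / K := one_div_pos.2 (one_pos.trans_le h.K1)
  exact (lt_of_lt_of_le (by positivity) (jlo h hp)).ne'

theorem jinv (h : Co a r K l m Θ Ξ m₁ m₂) : Hq (Q r) fun p => (Jc l m Θ m₁ m₂ p)⁻¹ := by
  have K0 : 0 ≤ K := zero_le_one.trans h.K1
  have K1 : 0 < 1 / K := one_div_pos.2 (one_pos.trans_le h.K1)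
  have q : Hq (Q r) (Jc l m Θ m₁ m₂) :=
    (Hq.mul ⟨K, K0, h.h1⟩ ⟨K, K0, h.h2⟩).mul
      ((Hq.const _ 1).sub (Hq.mul ⟨K, K0, h.hl⟩ ⟨K, K0, h.hm⟩))
  exact q.inv (c := 1 / K * (1 / K) * (1 / 2)) (by positivity)
    fun p hp => (jlo h hp).trans (le_abs_self _)

/-- The gradient of `u ∘ Ξ`. -/
noncomputable def g1 (l m m₁ m₂ : P → ℝ) (Θ Ξ : P → P) (u₁ u₂ : P → ℝ) : P → ℝ := fun z =>
  u₁ (Ξ z) * (m₂ (Ξ z) / Jc l m Θ m₁ m₂ (Ξ z)) + u₂ (Ξ z) * (-(m₁ (Ξ z) * l z) / Jc l m Θ m₁ m₂ (Ξ z))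
noncomputable def g2 (l m m₁ m₂ : P → ℝ) (Θ Ξ : P → P) (u₁ u₂ : P → ℝ) : P → ℝ := fun z =>
  u₁ (Ξ z) * (-(m₂ (Ξ z) * m z) / Jc l m Θ m₁ m₂ (Ξ z)) + u₂ (Ξ z) * (m₁ (Ξ z) / Jc l m Θ m₁ m₂ (Ξ z))

theorem xmem (h : Co a r K l m Θ Ξ m₁ m₂) {R : ℝ} (hR : R ≤ r) : ∀ z ∈ Θ '' Q R, Ξ z ∈ Q R := by
  rintro _ ⟨p, hp, rfl⟩
  rwa [h.inv p (Q_mono hR hp)]

theorem c1x (hX : XiS) (h : Co a r K l m Θ Ξ m₁ m₂) {R : ℝ} (hR : R ≤ r) {u u₁ u₂ : P → ℝ}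
    (hu : C1 (Q R) u u₁ u₂) :
    C1 (Θ '' Q R) (fun z => u (Ξ z)) (g1 l m m₁ m₂ Θ Ξ u₁ u₂) (g2 l m m₁ m₂ Θ Ξ u₁ u₂) := by
  obtain ⟨-, x, y⟩ := hX _ _ _ _ _ _ _ _ _ h
  have s : Θ '' Q R ⊆ Θ '' Q r := image_mono (Q_mono hR)
  exact hu.comp (x.mono s) (y.mono s) (xmem h hR)

theorem xlip (h : Co a r K l m Θ Ξ m₁ m₂) {R : ℝ} (hR : R ≤ r) :
    ∀ z ∈ Θ '' Q R, ∀ w ∈ Θ '' Q R, dist (Ξ z) (Ξ w) ≤ K * dist z w := by
  rintro _ ⟨p, hp, rfl⟩ _ ⟨q, hq, rfl⟩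
  rw [h.inv p (Q_mono hR hp), h.inv q (Q_mono hR hq)]
  exact (h.lip p (Q_mono hR hp) q (Q_mono hR hq)).2

/-- Back to the chart. -/
theorem back (h : Co a r K l m Θ Ξ m₁ m₂) {ρ S : ℝ} (hρ : ρ ≤ r) (hS : 0 ≤ S) {B : Set P}
    (hB : ∀ p ∈ Q ρ, Θ p ∈ B) {u₁ u₂ : P → ℝ} (h1 : Ho B S (g1 l m m₁ m₂ Θ Ξ u₁ u₂))
    (h2 : Ho B S (g2 l m m₁ m₂ Θ Ξ u₁ u₂)) :
    Ho (Q ρ) (8 * K ^ 3 * S) u₁ ∧ Ho (Q ρ) (8 * K ^ 3 * S) u₂ := by
  have K0 : 0 ≤ K := zero_le_one.trans h.K1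
  have s := Q_mono hρ
  have L : ∀ p ∈ Q ρ, ∀ q ∈ Q ρ, dist (Θ p) (Θ q) ≤ K * dist p q :=
    fun p hp q hq => (h.lip p (s hp) q (s hq)).1
  have a1 := h1.comp hS h.K1 hB L
  have a2 := h2.comp hS h.K1 hB L
  have k : K ≤ 2 * (K * K) := by nlinarith [h.K1]
  have x1 := h.h1.mono s k
  have y2 := h.h2.mono s k
  have x2 := (h.h2.mul h.hm K0 K0).mono s le_rfl
  have y1 := (h.h1.mul h.hl K0 K0).mono s le_rfl
  have n1 : 0 ≤ S * K := mul_nonneg hS K0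
  have n2 : 0 ≤ 2 * (K * K) := by positivity
  refine ⟨(((a1.mul x1 n1 n2).add (a2.mul y1 n1 n2)).congr fun p hp => ?_).mono le_rfl
    (le_of_eq (by ring)), (((a1.mul x2 n1 n2).add (a2.mul y2 n1 n2)).congr fun p hp => ?_).mono
    le_rfl (le_of_eq (by ring))⟩
  all_goals
    have j := jne h (s hp)
    simp only [g1, g2, h.inv p (s hp)]
    field_simp
    unfold Jc
    ring

end XCrs

open XCrs

theorem rowCrs : OfCrs := by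
  rintro - ⟨C₀, c1, hS⟩ hX a r K l m Θ Ξ m₁ m₂ h
  obtain ⟨N, N0, hN⟩ := jinv h
  have K1 := h.K1
  have K0 : 0 < K := one_pos.trans_le K1
  refine ⟨8 * K ^ 3 * (C₀ * (2 * N * K + 9 * K ^ 2)), by positivity, ?_⟩
  intro ρ R M M₀ u u₁ u₂ v v₁ v₂ ρ0 ρR Rr M0 M1 hu hv hb k1 k2
  have hO := (hX _ _ _ _ _ _ _ _ _ h).1 R Rr
  have ca := c1x hX h Rr hu
  have cb := c1x hX h Rr hv
  have sR := Q_mono Rr
  have d0 : 0 < R - ρ := sub_pos.2 ρR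
  have hk : ∀ {c k : P → ℝ}, Ho (Q R) M c →
      (∀ p ∈ Q R, c p * (Jc l m Θ m₁ m₂ p)⁻¹ = k (Θ p)) → Ho (Θ '' Q R) (2 * (M * N) * K) k := by
    intro c k hc e
    refine ((hc.mul (hN.mono sR le_rfl) M0 N0).comp (by positivity) K1 (xmem h Rr)
      (xlip h Rr)).congr ?_
    rintro _ ⟨p, hp, rfl⟩
    simp only [h.inv p (sR hp)]
    exact e p hp
  have e0 : 0 < (R - ρ) / (3 * K) := by positivity
  have e1 : (R - ρ) / (3 * K) ≤ 1 := by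
    rw [div_le_one (by positivity)]
    linarith [h.r1]
  have main := hS (Θ '' Q R) _ _ _ _ (2 * (M * N) * K) M₀ _ hO e0 e1 (by positivity) M1 ca.cont
    cb.cont (fun z hz => hb _ (xmem h Rr z hz))
    (hk k1 fun p hp => by
      have j := jne h (sR hp)
      simp only [g1, g2, cr1, h.inv p (sR hp)]
      field_simp
      ring)
    (hk k2 fun p hp => by
      have j := jne h (sR hp)
      simp only [g1, g2, cr2, h.inv p (sR hp)]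
      field_simp
      ring) (crw hO ca cb)
  have sub : {x : P | Metric.ball x (3 * ((R - ρ) / (3 * K))) ⊆ Θ '' Q R} ⊆ Θ '' Q R :=
    fun x hx => hx (Metric.mem_ball_self (by positivity))
  have hB : ∀ p ∈ Q ρ, Θ p ∈ {x : P | Metric.ball x (3 * ((R - ρ) / (3 * K))) ⊆ Θ '' Q R} := by
    intro p hp
    have b : Metric.ball p (R - ρ) ⊆ Q R := by
      rw [Q_eq_ball] at hp ⊢
      exact Metric.ball_subset_ball' (by linarith [Metric.mem_ball.1 hp])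
    rw [mem_setOf_eq, show 3 * ((R - ρ) / (3 * K)) = (R - ρ) / K by field_simp]
    exact (h.bl p _ (b.trans sR)).trans (image_mono b)
  have S0 : 0 ≤ C₀ * (2 * (M * N) * K + M₀ / ((R - ρ) / (3 * K)) ^ 2) := by positivity
  have fa := (main _ (mem_insert _ _)).2
  have fb := (main _ (mem_insert_of_mem _ rfl)).2
  have ru := back h (ρR.le.trans Rr) S0 hB ((fa 0).congr fun x hx => ca.pd0 (sub hx))
    ((fa 1).congr fun x hx => ca.pd1 (sub hx))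
  have rv := back h (ρR.le.trans Rr) S0 hB ((fb 0).congr fun x hx => cb.pd0 (sub hx))
    ((fb 1).congr fun x hx => cb.pd1 (sub hx))
  have le : 8 * K ^ 3 * (C₀ * (2 * (M * N) * K + M₀ / ((R - ρ) / (3 * K)) ^ 2)) ≤
      8 * K ^ 3 * (C₀ * (2 * N * K + 9 * K ^ 2)) * (M + M₀ / (R - ρ) ^ 2) := by
    rw [show M₀ / ((R - ρ) / (3 * K)) ^ 2 = 9 * K ^ 2 * (M₀ / (R - ρ) ^ 2) by field_simp; ring,
      mul_assoc (8 * K ^ 3), mul_assoc C₀]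
    have t : 0 ≤ M₀ / (R - ρ) ^ 2 := by positivity
    refine mul_le_mul_of_nonneg_left (mul_le_mul_of_nonneg_left ?_ (by linarith)) (by positivity)
    nlinarith [mul_nonneg (mul_nonneg N0 K0.le) t, mul_nonneg (sq_nonneg K) M0]
  rintro f (rfl | rfl | rfl | rfl)
  exacts [ru.1.mono le_rfl le, ru.2.mono le_rfl le, rv.1.mono le_rfl le, rv.2.mono le_rfl le]

end Pool.Agent.MP_ed9623_an.R46
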