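import Pool.Agent.MP_ed9623_an.R46.Spec

/-! Square integrable functions and null sets in the chart. -/

open MeasureTheory Filter Topology Set
open scoped ENNReal NNReal

namespace Pool.Agent.MP_ed9623_an.R46

open H64 H77 R77

namespace XCv

theorem img {F : P → P} {s : Set P} {K : ℝ} (hK : 0 ≤ K)
    (h : ∀ p ∈ s, ∀ q ∈ s, dist (F p) (F q) ≤ K * dist p q) :
    volume (F '' s) ≤ ENNReal.ofReal (K ^ 2) * volume s := by
  have l : LipschitzOnWith K.toNNReal F s := LipschitzOnWith.of_dist_le_mul fun p hp q hq => by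
    rw [Real.coe_toNNReal K hK]; exact h p hp q hq
  have := l.hausdorffMeasure_image_le (d := 2) (by norm_num)
  rw [hausdorffMeasure_prod_real] at this
  rw [ENNReal.ofReal_pow hK]
  simpa [ENNReal.ofReal] using this

variable {a r K : ℝ} {l m m₁ m₂ : P → ℝ} {Θ Ξ : P → P}

theorem pre (h : Co a r K l m Θ Ξ m₁ m₂) (S : Set P) :
    volume (Θ ⁻¹' S ∩ Q r) ≤ ENNReal.ofReal (K ^ 2) * volume S := by
  have K0 : 0 ≤ K := zero_le_one.trans h.K1
  have e : Θ ⁻¹' S ∩ Q r = Ξ '' (Θ '' (Θ ⁻¹' S ∩ Q r)) := by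
    rw [image_image, image_congr fun p hp => h.inv p hp.2, image_id']
  rw [e]
  refine (img K0 ?_).trans (mul_le_mul_right (measure_mono ?_) _)
  · rintro _ ⟨p, hp, rfl⟩ _ ⟨q, hq, rfl⟩
    rw [h.inv p hp.2, h.inv q hq.2]
    exact (h.lip p hp.2 q hq.2).2
  · rintro _ ⟨p, hp, rfl⟩
    exact hp.1

theorem meas (h : Co a r K l m Θ Ξ m₁ m₂) : AEMeasurable Θ (volume.restrict (Q r)) :=
  ContinuousOn.aemeasurable (f := Θ) (h.cx.cont.prodMk h.cy.cont) (isOpen_Q r).measurableSet

theorem map_le (h : Co a r K l m Θ Ξ m₁ m₂) :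
    Measure.map Θ (volume.restrict (Q r)) ≤ ENNReal.ofReal (K ^ 2) • volume := by
  refine Measure.le_iff.2 fun S hS => ?_
  rw [Measure.map_apply_of_aemeasurable (meas h) hS,
    Measure.restrict_apply' (isOpen_Q r).measurableSet]
  exact pre h S

end XCv

open XCv

theorem rowCv : OfCv := by
  intro a r K l m Θ Ξ m₁ m₂ h
  have K0 : 0 ≤ K := zero_le_one.trans h.K1
  have mQ := (isOpen_Q r).measurableSet
  refine ⟨K, K0, fun f hf => ?_, fun e he => ?_, fun e he => ?_⟩
  · have a1 : MemLp f 2 (Measure.map Θ (volume.restrict (Q r))) :=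
      (MemLp.smul_measure hf ENNReal.ofReal_ne_top).mono_measure (map_le h)
    refine ⟨(memLp_indicator_iff_restrict mQ).2 (a1.comp_of_map (meas h)), ?_⟩
    refine abs_le_of_sq_le_sq' ?_ (mul_nonneg K0 (nm_nonneg f)) |>.2
    rw [nm_sq, mul_pow, nm_sq]
    have e : (fun x => (Q r).indicator (fun p => f (Θ p)) x ^ 2)
        = (Q r).indicator fun p => f (Θ p) ^ 2 := by
      funext x; by_cases c : x ∈ Q r <;> simp [c]
    rw [e, integral_indicator mQ, ← integral_map (f := fun z => f z ^ 2) (meas h) (a1.1.pow 2)]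
    refine (integral_mono_measure (map_le h) (Eventually.of_forall fun _ => sq_nonneg _)
      (hf.int_sq.smul_measure ENNReal.ofReal_ne_top)).trans ?_
    rw [integral_smul_measure, ENNReal.toReal_ofReal (sq_nonneg K), smul_eq_mul]
  · have := pre h {z | ¬ (z ∈ Q a → e z)}
    rw [ae_iff.1 he, mul_zero] at this
    refine measure_mono_null (fun p hp => ?_) (nonpos_iff_eq_zero.1 this)
    rw [mem_compl_iff, mem_setOf_eq, Classical.not_imp] at hp
    exact ⟨fun c => hp.2 (c (h.mp p hp.1)), hp.1⟩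
  · have := img (F := Θ) (s := {p | ¬ (p ∈ Q r → e p)}) K0 fun p hp q hq =>
      (h.lip p (Classical.not_imp.1 hp).1 q (Classical.not_imp.1 hq).1).1
    rw [ae_iff.1 he, mul_zero] at this
    refine measure_mono_null (fun z hz => ?_) (nonpos_iff_eq_zero.1 this)
    rw [mem_compl_iff, mem_setOf_eq, Classical.not_imp] at hz
    obtain ⟨⟨p, hp, rfl⟩, hz⟩ := hz
    exact ⟨p, fun c => hz (by rw [h.inv p hp]; exact c hp), rfl⟩

end Pool.Agent.MP_ed9623_an.R46
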