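import Pool.Agent.MP_ed9623_an.R46.Pc
import Pool.Agent.MP_ed9623_an.R46.Up

/-! The flow of a field with integrated Lipschitz bounds. -/

open MeasureTheory Filter Topology Set BoundedContinuousFunction

namespace Pool.Agent.MP_ed9623_an.R46

open H64 H77 R77

namespace XFl

variable {a K β e e₁ e₂ e₃ e₄ : ℝ} {l : P → ℝ} {y y₁ y₂ y₃ y₄ f g : ℝ → ℝ}

theorem bnd (hf : ContinuousOn f (Icc (-β) β)) (hg : ContinuousOn g (Icc (-β) β))
    (h : ∀ τ ∈ Icc (-β) β, |f τ| ≤ g τ) {σ : ℝ} (hσ : σ ∈ Icc (-β) β) :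
    |∫ τ in (0 : ℝ)..σ, f τ| ≤ ∫ τ in (-β)..β, g τ := by
  have b : -β ≤ β := hσ.1.trans hσ.2
  have u : uIcc 0 σ ⊆ uIcc (-β) β :=
    uIcc_subset_uIcc (by rw [uIcc_of_le b]; exact ⟨by linarith, by linarith⟩) (by rwa [uIcc_of_le b])
  have i : IntervalIntegrable (fun τ => |f τ|) volume (-β) β := hf.abs.intervalIntegrable_of_Icc b
  refine (intervalIntegral.norm_integral_le_abs_integral_norm (f := f)).trans
    ((intervalIntegral.abs_integral_mono_interval (uIoc_subset_uIoc_of_uIcc_subset_uIcc u)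
      (Eventually.of_forall fun _ => abs_nonneg _) i).trans ?_)
  rw [abs_of_nonneg (intervalIntegral.integral_nonneg b fun _ _ => abs_nonneg _)]
  exact intervalIntegral.integral_mono_on b i (hg.intervalIntegrable_of_Icc b) h

theorem sup_le (hf : ContinuousOn f (Icc (-β) β)) {c θ : ℝ} (h1 : θ < 1)
    (h : ∀ d, (∀ τ ∈ Icc (-β) β, |f τ| ≤ d) → ∀ τ ∈ Icc (-β) β, |f τ| ≤ c + θ * d) :
    ∀ τ ∈ Icc (-β) β, |f τ| ≤ c / (1 - θ) := fun τ hτ => by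
  obtain ⟨σ, hσ, m⟩ := isCompact_Icc.exists_isMaxOn ⟨τ, hτ⟩ hf.abs
  refine (m hτ).trans ?_
  rw [le_div_iff₀ (by linarith)]
  linarith [h _ (fun _ ht => m ht) σ hσ]

/-- A solution of the integral equation. -/
structure Sol (a β : ℝ) (l : P → ℝ) (e : ℝ) (y : ℝ → ℝ) : Prop where
  cu : Cu a (-β) β y
  eq : ∀ σ ∈ Icc (-β) β, y σ = e + ∫ τ in (0 : ℝ)..σ, l (τ, y τ)

section

variable (hQ : QH a K l) (ha : β < a) (hK : K * √(β - -β) ≤ 1 / 4)
include hQ ha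

theorem ctl (h : Cu a (-β) β y) : ContinuousOn (fun τ => l (τ, y τ)) (Icc (-β) β) :=
  hQ.ct.comp (continuousOn_id.prodMk h.1) fun τ hτ =>
    mem_Q.2 ⟨abs_lt.2 ⟨by linarith [hτ.1], by linarith [hτ.2]⟩, h.2 τ hτ⟩

theorem ii (h : Cu a (-β) β y) {s t : ℝ} (hs : s ∈ Icc (-β) β) (ht : t ∈ Icc (-β) β) :
    IntervalIntegrable (fun τ => l (τ, y τ)) volume s t :=
  ((ctl hQ ha h).mono (uIcc_subset_Icc hs ht)).intervalIntegrable

theorem dif (h₁ : Sol a β l e₁ y₁) (h₂ : Sol a β l e₂ y₂) {σ : ℝ} (hσ : σ ∈ Icc (-β) β) :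
    y₂ σ - y₁ σ = e₂ - e₁ + ∫ τ in (0 : ℝ)..σ, (l (τ, y₂ τ) - l (τ, y₁ τ)) := by
  have z : (0 : ℝ) ∈ Icc (-β) β := ⟨by linarith [hσ.1, hσ.2], by linarith [hσ.1, hσ.2]⟩
  rw [intervalIntegral.integral_sub (ii hQ ha h₂.cu z hσ) (ii hQ ha h₁.cu z hσ), h₁.eq σ hσ,
    h₂.eq σ hσ]
  ring

include hK

theorem con (h₁ : Cu a (-β) β y₁) (h₂ : Cu a (-β) β y₂) {d σ : ℝ}
    (h : ∀ τ ∈ Icc (-β) β, |y₂ τ - y₁ τ| ≤ d) (hσ : σ ∈ Icc (-β) β) :
    |∫ τ in (0 : ℝ)..σ, (l (τ, y₂ τ) - l (τ, y₁ τ))| ≤ 1 / 4 * d :=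
  have c := (ctl hQ ha h₂).sub (ctl hQ ha h₁)
  (bnd c c.abs (fun _ _ => le_rfl) hσ).trans ((hQ.il _ _ d _ _ (by linarith) (hσ.1.trans hσ.2) ha
    h₂ h₁ h).trans (mul_le_mul_of_nonneg_right hK ((abs_nonneg _).trans (h σ hσ))))

theorem lip (h₁ : Sol a β l e₁ y₁) (h₂ : Sol a β l e₂ y₂) :
    ∀ σ ∈ Icc (-β) β, |y₂ σ - y₁ σ| ≤ 4 / 3 * |e₂ - e₁| := fun σ hσ =>
  (sup_le (h₂.cu.1.sub h₁.cu.1) (c := |e₂ - e₁|) (θ := 1 / 4) (by norm_num) (fun d hd τ hτ => by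
    rw [Pi.sub_apply, dif hQ ha h₁ h₂ hτ]
    exact (abs_add_le _ _).trans (add_le_add le_rfl (con hQ ha hK h₁.cu h₂.cu hd hτ))) σ hσ).trans
    (le_of_eq (by ring))

theorem low (h₁ : Sol a β l e₁ y₁) (h₂ : Sol a β l e₂ y₂) (he : e₁ < e₂) :
    ∀ σ ∈ Icc (-β) β, 2 / 3 * (e₂ - e₁) ≤ y₂ σ - y₁ σ := fun σ hσ => by
  have := con hQ ha hK h₁.cu h₂.cu (lip hQ ha hK h₁ h₂) hσ
  rw [abs_of_pos (sub_pos.2 he)] at this
  rw [dif hQ ha h₁ h₂ hσ]
  linarith [(abs_le.1 this).1]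

theorem hol (h₁ : Sol a β l e₁ y₁) (h₂ : Sol a β l e₂ y₂) {s t : ℝ} (hs : s ∈ Icc (-β) β)
    (ht : t ∈ Icc (-β) β) : |y₂ t - y₁ t - (y₂ s - y₁ s)| ≤ K * √|t - s| * (4 / 3 * |e₂ - e₁|) := by
  wlog h : s ≤ t generalizing s t
  · rw [abs_sub_comm, abs_sub_comm t]; exact this ht hs (le_of_not_ge h)
  have z : (0 : ℝ) ∈ Icc (-β) β := ⟨by linarith [hs.1, hs.2], by linarith [hs.1, hs.2]⟩
  have u := Icc_subset_Icc hs.1 ht.2
  rw [dif hQ ha h₁ h₂ hs, dif hQ ha h₁ h₂ ht, add_sub_add_left_eq_sub,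
    intervalIntegral.integral_interval_sub_left ((ii hQ ha h₂.cu z ht).sub (ii hQ ha h₁.cu z ht))
      ((ii hQ ha h₂.cu z hs).sub (ii hQ ha h₁.cu z hs)), abs_of_nonneg (sub_nonneg.2 h)]
  exact (intervalIntegral.abs_integral_le_integral_abs h).trans (hQ.il _ _ _ _ _
    (by linarith [hs.1]) h (by linarith [ht.2]) ⟨h₂.cu.1.mono u, fun σ hσ => h₂.cu.2 σ (u hσ)⟩
    ⟨h₁.cu.1.mono u, fun σ hσ => h₁.cu.2 σ (u hσ)⟩ fun σ hσ => lip hQ ha hK h₁ h₂ σ (u hσ))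

theorem quo (h₁ : Sol a β l e₁ y₁) (h₂ : Sol a β l e₂ y₂) (he : e₁ < e₂) (b : -β ≤ β) :
    ContinuousOn (dq l y₁ y₂) (Icc (-β) β) ∧ ∫ τ in (-β)..β, |dq l y₁ y₂ τ| ≤ 1 / 2 ∧
    ∀ σ ∈ Icc (-β) β, |(y₂ σ - y₁ σ) / (e₂ - e₁)| ≤ 4 / 3 ∧ (y₂ σ - y₁ σ) / (e₂ - e₁)
      = 1 + ∫ τ in (0 : ℝ)..σ, dq l y₁ y₂ τ * ((y₂ τ - y₁ τ) / (e₂ - e₁)) := by
  have d0 := sub_pos.2 he
  have lo := low hQ ha hK h₁ h₂ he
  have p : ∀ σ ∈ Icc (-β) β, 0 < y₂ σ - y₁ σ := fun σ hσ => lt_of_lt_of_le (by positivity) (lo σ hσ)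
  have c := (ctl hQ ha h₂.cu).sub (ctl hQ ha h₁.cu)
  have cq : ContinuousOn (dq l y₁ y₂) (Icc (-β) β) :=
    c.div (h₂.cu.1.sub h₁.cu.1) fun σ hσ => (p σ hσ).ne'
  have li := lip hQ ha hK h₁ h₂
  rw [abs_of_pos d0] at li
  refine ⟨cq, ?_, fun σ hσ => ⟨?_, ?_⟩⟩
  · refine (intervalIntegral.integral_mono_on b (cq.abs.intervalIntegrable_of_Icc b)
      ((c.abs.div_const (2 / 3 * (e₂ - e₁))).intervalIntegrable_of_Icc b) fun σ hσ => ?_).trans ?_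
    · rw [dq, abs_div, abs_of_pos (p σ hσ)]
      exact div_le_div_of_nonneg_left (abs_nonneg _) (by positivity) (lo σ hσ)
    · rw [intervalIntegral.integral_div, div_le_iff₀ (by positivity)]
      refine (hQ.il _ _ _ _ _ (by linarith) b ha h₂.cu h₁.cu li).trans ?_
      linarith [mul_le_mul_of_nonneg_right hK (show 0 ≤ 4 / 3 * (e₂ - e₁) by positivity)]
  · rw [abs_div, abs_of_pos d0, div_le_iff₀ d0]
    exact li σ hσ
  · rw [dif hQ ha h₁ h₂ hσ, add_div, div_self d0.ne', ← intervalIntegral.integral_div]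
    refine congrArg _ (intervalIntegral.integral_congr fun τ hτ => ?_)
    have := (p τ (uIcc_subset_Icc ⟨by linarith, by linarith⟩ hσ hτ)).ne'
    simp only [dq]
    field_simp

theorem sec (h₁ : Sol a β l e₁ y₁) (h₂ : Sol a β l e₂ y₂) (h₃ : Sol a β l e₃ y₃)
    (h₄ : Sol a β l e₄ y₄) (he : e₁ < e₂) (he' : e₃ < e₄) {ρ : ℝ} (r₁ : |e₂ - e₃| ≤ ρ)
    (r₂ : |e₄ - e₁| ≤ ρ) (r₃ : |e₂ - e₁| ≤ ρ) (r₄ : |e₄ - e₃| ≤ ρ) : ∀ σ ∈ Icc (-β) β,
      |(y₂ σ - y₁ σ) / (e₂ - e₁) - (y₄ σ - y₃ σ) / (e₄ - e₃)| ≤ 2 * √ρ := fun σ hσ => by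
  have b := hσ.1.trans hσ.2
  obtain ⟨c, -, k⟩ := quo hQ ha hK h₁ h₂ he b
  obtain ⟨c', i', k'⟩ := quo hQ ha hK h₃ h₄ he' b
  have cz : ContinuousOn (fun τ => (y₂ τ - y₁ τ) / (e₂ - e₁)) _ :=
    (h₂.cu.1.sub h₁.cu.1).div_const (e₂ - e₁)
  have cz' : ContinuousOn (fun τ => (y₄ τ - y₃ τ) / (e₄ - e₃)) _ :=
    (h₄.cu.1.sub h₃.cu.1).div_const (e₄ - e₃)
  have ρ0 := (abs_nonneg _).trans r₁
  have q := hQ.qh _ _ (4 * ρ) _ _ _ _ (by linarith) b ha h₁.cu h₂.cu h₃.cu h₄.cu fun τ hτ =>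
    ⟨by linarith [low hQ ha hK h₁ h₂ he τ hτ], by linarith [low hQ ha hK h₃ h₄ he' τ hτ],
      by linarith [(abs_le.1 (lip hQ ha hK h₃ h₂ τ hτ)).2],
      by linarith [(abs_le.1 (lip hQ ha hK h₁ h₄ τ hτ)).2],
      by linarith [(abs_le.1 (lip hQ ha hK h₁ h₂ τ hτ)).2],
      by linarith [(abs_le.1 (lip hQ ha hK h₃ h₄ τ hτ)).2]⟩
  rw [show 4 * ρ = 2 ^ 2 * ρ by norm_num, Real.sqrt_mul (by norm_num), Real.sqrt_sq zero_le_two] at q
  have s0 := Real.sqrt_nonneg ρ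
  have q' := mul_le_mul_of_nonneg_right hK s0
  refine (sup_le (cz.sub cz') (c := √ρ) (θ := 1 / 2) (by norm_num) (fun d hd τ hτ => ?_)
    σ hσ).trans (le_of_eq (by ring))
  have z : (0 : ℝ) ∈ Icc (-β) β := ⟨by linarith, by linarith⟩
  have u := uIcc_subset_Icc z hτ
  have d0 := (abs_nonneg _).trans (hd τ hτ)
  simp only [Pi.sub_apply] at hd ⊢
  rw [(k τ hτ).2, (k' τ hτ).2, add_sub_add_left_eq_sub, ← intervalIntegral.integral_sub
    ((c.fun_mul cz).mono u).intervalIntegrable ((c'.fun_mul cz').mono u).intervalIntegrable]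
  refine (bnd ((c.fun_mul cz).fun_sub (c'.fun_mul cz')) (((c.sub c').abs.mul continuousOn_const).add
    (c'.abs.mul continuousOn_const)) (g := fun τ => |dq l y₁ y₂ τ - dq l y₃ y₄ τ| * (4 / 3)
      + |dq l y₃ y₄ τ| * d) (fun t ht => ?_) hτ).trans ?_
  · rw [show ∀ u v z w : ℝ, u * z - v * w = (u - v) * z + v * (z - w) from fun _ _ _ _ => by ring]
    refine (abs_add_le _ _).trans ?_
    rw [abs_mul, abs_mul]
    exact add_le_add (mul_le_mul_of_nonneg_left (k t ht).1 (abs_nonneg _))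
      (mul_le_mul_of_nonneg_left (hd t ht) (abs_nonneg _))
  · rw [intervalIntegral.integral_add (((c.fun_sub c').abs.intervalIntegrable_of_Icc b).mul_const _)
      ((c'.abs.intervalIntegrable_of_Icc b).mul_const _), intervalIntegral.integral_mul_const,
      intervalIntegral.integral_mul_const]
    linarith [mul_le_mul_of_nonneg_right i' d0]

theorem ex (K0 : 0 ≤ K) (b0 : 0 < β) (hb : β * (1 + K) < a) (he : |e| ≤ β) :
    ∃ y, Sol a β l e y := by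
  set c : ℝ → ℝ := fun s => max (-β) (min β s) with hc
  set d : ℝ → ℝ := fun s => max (-(β * (1 + K))) (min (β * (1 + K)) s) with hd
  have a0 : 0 ≤ β * (1 + K) := by positivity
  have cm : ∀ s, c s ∈ Icc (-β) β := fun s => ⟨le_max_left _ _, max_le (by linarith) (min_le_left _ _)⟩
  have dm : ∀ s, |d s| < a := fun s => (abs_le.2 ⟨le_max_left _ _,
    max_le (by linarith) (min_le_left _ _)⟩).trans_lt hb
  have cc : Continuous c := by fun_prop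
  have cu : ∀ y : ℝ →ᵇ ℝ, Cu a (-β) β fun τ => d (y τ) := fun y =>
    ⟨Continuous.continuousOn (by fun_prop), fun _ _ => dm _⟩
  have z : (0 : ℝ) ∈ Icc (-β) β := ⟨by linarith, b0.le⟩
  have bd : ∀ (y : ℝ →ᵇ ℝ) s, |e + ∫ τ in (0 : ℝ)..c s, l (τ, d (y τ))| ≤ β * (1 + K) := by
    intro y s
    have := intervalIntegral.norm_integral_le_of_norm_le_const (a := 0) (b := c s) (C := K)
      (f := fun τ => l (τ, d (y τ))) fun τ hτ => hQ.bd _ (mem_Q.2 ⟨(abs_le.2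
        (uIcc_subset_Icc z (cm s) (uIoc_subset_uIcc hτ))).trans_lt ha, dm _⟩)
    rw [sub_zero] at this
    have u := mul_le_mul_of_nonneg_left (abs_le.2 (cm s)) K0
    exact (abs_add_le _ _).trans (by linarith [show |_| ≤ _ from this])
  let T : (ℝ →ᵇ ℝ) → ℝ →ᵇ ℝ := fun y => ofNormedAddCommGroup
    (fun s => e + ∫ τ in (0 : ℝ)..c s, l (τ, d (y τ))) (continuous_const.add
      ((intervalIntegral.continuousOn_primitive_interval' (ii hQ ha (cu y) ⟨le_rfl, by linarith⟩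
        ⟨by linarith, le_rfl⟩) (by rwa [uIcc_of_le (by linarith)])).comp_continuous cc
        fun s => by rw [uIcc_of_le (by linarith)]; exact cm s)) _ (bd y)
  have hT : ContractingWith (1 / 4) T := ⟨by norm_num, LipschitzWith.of_dist_le_mul fun y w =>
    (dist_le (by positivity)).2 fun s => by
      have := con hQ ha hK (cu w) (cu y) (d := dist y w) (fun τ _ =>
        (abs_max_sub_max_le_max _ _ _ _).trans (max_le (by simp) ((abs_min_sub_min_le_max _ _ _ _).trans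
          (max_le (by simp) (dist_coe_le_dist (f := y) (g := w) τ))))) (cm s)
      rw [intervalIntegral.integral_sub (ii hQ ha (cu y) z (cm s)) (ii hQ ha (cu w) z (cm s))] at this
      simpa [T, Real.dist_eq] using this⟩
  have f := hT.fixedPoint_isFixedPt
  set y := hT.fixedPoint
  have f' : ∀ s, y s = e + ∫ τ in (0 : ℝ)..c s, l (τ, d (y τ)) := fun s =>
    (congrArg (fun w : ℝ →ᵇ ℝ => w s) f).symm
  have dy : ∀ s, d (y s) = y s := fun s => by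
    have := abs_le.1 (f' s ▸ bd y s)
    simp only [hd, min_eq_right this.2, max_eq_right this.1]
  refine ⟨y, ⟨y.continuous.continuousOn, fun s _ => dy s ▸ dm _⟩, fun s hs => ?_⟩
  rw [f' s]
  simp only [dy, hc, min_eq_right hs.2, max_eq_right hs.1]

end

end XFl

open XFl in
theorem rowFl : OfFl := by
  intro _ a K l a0 K0 hQ
  set β := min (a / (2 * (1 + K))) (1 / (32 * (1 + K) ^ 2)) with hβ
  have b0 : 0 < β := lt_min (by positivity) (by positivity)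
  have b1 : β * (1 + K) ≤ a / 2 := by
    rw [← le_div_iff₀ (by positivity), div_div]; exact min_le_left _ _
  have ha : β < a := by nlinarith
  have hK : K * √(β - -β) ≤ 1 / 4 := by
    have u : √(β - -β) ≤ 1 / (4 * (1 + K)) := Real.sqrt_le_iff.2 ⟨by positivity, by
      have : β ≤ 1 / (32 * (1 + K) ^ 2) := min_le_right _ _
      have e : (1 / (4 * (1 + K))) ^ 2 = 2 * (1 / (32 * (1 + K) ^ 2)) := by field_simp; norm_num
      linarith⟩
    refine (mul_le_mul (show K ≤ 1 + K by linarith) u (Real.sqrt_nonneg _) (by positivity)).trans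
      (le_of_eq (by field_simp))
  choose! y hy using fun e (he : |e| < β) => ex hQ ha hK K0 b0 (by linarith) he.le
  have I : ∀ {s : ℝ}, |s| < β → s ∈ Icc (-β) β := fun h => abs_le.1 h.le
  have sy : ∀ s u v : ℝ, (y v s - y u s) / (v - u) = (y u s - y v s) / (u - v) := fun s u v => by
    rw [← neg_sub (y u s), ← neg_sub u, neg_div_neg_eq]
  have d2 : ∀ p ∈ Q β, DifferentiableAt ℝ (fun e => y e p.1) p.2 := fun p hp => by
    obtain ⟨h1, h2⟩ := mem_Q.1 hp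
    suffices k : Cauchy (map (slope (fun e => y e p.1) p.2) (𝓝[≠] p.2)) from
      let ⟨x, hx⟩ := cauchy_map_iff_exists_tendsto.1 k
      (hasDerivAt_iff_tendsto_slope.2 hx).differentiableAt
    refine Metric.cauchy_iff.2 ⟨inferInstance, fun ε e0 => ?_⟩
    have ρ0 : 0 < (ε / 4) ^ 2 := by positivity
    refine ⟨_, image_mem_map (inter_mem_nhdsWithin _ (inter_mem (Metric.ball_mem_nhds _ (half_pos ρ0))
      (continuous_abs.continuousAt.eventually_lt continuousAt_const h2))), ?_⟩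
    rintro _ ⟨u, ⟨u0, u1, u2⟩, rfl⟩ _ ⟨v, ⟨v0, v1, v2⟩, rfl⟩
    have u3 := abs_lt.1 (show |u - p.2| < _ from u1)
    have v3 := abs_lt.1 (show |v - p.2| < _ from v1)
    have key : ∀ e₁ e₂ e₃ e₄, |e₁| < β → |e₂| < β → |e₃| < β → |e₄| < β → e₁ < e₂ → e₃ < e₄ →
        |e₂ - e₃| ≤ (ε / 4) ^ 2 → |e₄ - e₁| ≤ (ε / 4) ^ 2 → |e₂ - e₁| ≤ (ε / 4) ^ 2 →
        |e₄ - e₃| ≤ (ε / 4) ^ 2 → |(y e₂ p.1 - y e₁ p.1) / (e₂ - e₁)
          - (y e₄ p.1 - y e₃ p.1) / (e₄ - e₃)| < ε := fun _ _ _ _ a b c d e f g h i j => by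
      have := sec hQ ha hK (hy _ a) (hy _ b) (hy _ c) (hy _ d) e f g h i j _ (I h1)
      rw [Real.sqrt_sq (by positivity)] at this
      linarith
    rw [Real.dist_eq, slope_def_field, slope_def_field]
    rcases lt_or_gt_of_ne (show u ≠ p.2 from u0) with a | a <;>
      rcases lt_or_gt_of_ne (show v ≠ p.2 from v0) with b | b
    · rw [sy _ _ u, sy _ _ v]
      refine key _ _ _ _ u2 h2 v2 h2 a b ?_ ?_ ?_ ?_ <;> exact abs_le.2 ⟨by linarith, by linarith⟩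
    · rw [sy _ _ u]
      refine key _ _ _ _ u2 h2 h2 v2 a b ?_ ?_ ?_ ?_ <;> exact abs_le.2 ⟨by linarith, by linarith⟩
    · rw [sy _ _ v]
      refine key _ _ _ _ h2 u2 v2 h2 a b ?_ ?_ ?_ ?_ <;> exact abs_le.2 ⟨by linarith, by linarith⟩
    · refine key _ _ _ _ h2 u2 h2 v2 a b ?_ ?_ ?_ ?_ <;> exact abs_le.2 ⟨by linarith, by linarith⟩
  set n : P → ℝ := fun p => deriv (fun e => y e p.1) p.2 with hn
  have tn : ∀ p ∈ Q β, Tendsto (fun h => (y (p.2 + h) p.1 - y p.2 p.1) / (p.2 + h - p.2)) (𝓝[>] 0)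
      (𝓝 (n p)) := fun p hp => by
    simpa only [smul_eq_mul, add_sub_cancel_left, div_eq_inv_mul] using
      (d2 p hp).hasDerivAt.tendsto_slope_zero_right
  have ev : ∀ {e : ℝ}, |e| < β → ∀ᶠ h in 𝓝[>] (0 : ℝ), |e + h| < β ∧ 0 < h := fun {e} he =>
    (((show Continuous fun h : ℝ => |e + h| by fun_prop).continuousAt.eventually_lt continuousAt_const
      (by simpa using he)).filter_mono nhdsWithin_le_nhds).and self_mem_nhdsWithin
  have qn : Ho (Q β) (4 / 3 * K + 2) n := by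
    refine ho_of_sep (M₀ := 4 / 3) (M₁ := 4 / 3 * K) (M₂ := 2) (fun p hp => ?_) (by positivity)
      zero_le_two (fun p hp t ht => ?_) (fun p hp t ht => ?_) (by linarith) le_rfl
    all_goals obtain ⟨h1, h2⟩ := mem_Q.1 hp
    · refine le_of_tendsto (tn p hp).abs ((ev h2).mono fun h e => ?_)
      exact ((quo hQ ha hK (hy _ h2) (hy _ e.1) (by linarith [e.2]) (by linarith)).2.2 _ (I h1)).1
    · refine le_of_tendsto ((tn p hp).sub (tn (t, p.2) (mem_Q.2 ⟨ht, h2⟩))).abs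
        ((ev h2).mono fun h e => ?_)
      have := hol hQ ha hK (hy _ h2) (hy _ e.1) (I ht) (I h1)
      simp only [add_sub_cancel_left] at this ⊢
      rw [← sub_div, abs_div, div_le_iff₀ (abs_pos.2 e.2.ne')]
      linarith
    · have t0 : Tendsto (fun h : ℝ => 2 * √(|p.2 - t| + h)) (𝓝[>] 0) (𝓝 (2 * √|p.2 - t|)) :=
        (Continuous.tendsto' (by fun_prop) _ _ (by simp)).mono_left nhdsWithin_le_nhds
      refine le_of_tendsto_of_tendsto ((tn p hp).sub (tn (p.1, t) (mem_Q.2 ⟨h1, ht⟩))).abs t0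
        (((ev h2).and (ev ht)).mono fun h e => ?_)
      have h0 := e.1.2
      have u := le_abs_self (p.2 - t)
      have v := neg_abs_le (p.2 - t)
      refine sec hQ ha hK (hy _ h2) (hy _ e.1.1) (hy _ ht) (hy _ e.2.1) (by linarith) (by linarith)
        ?_ ?_ ?_ ?_ _ (I h1) <;> exact abs_le.2 ⟨by linarith, by linarith⟩
  have cY : ContinuousOn (fun p : P => y p.2 p.1) (Q β) :=
    continuousOn_prod_of_continuousOn_lipschitzOnWith' _ 2 (fun s hs =>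
      LipschitzOnWith.of_dist_le_mul fun u hu v hv => (lip hQ ha hK (hy _ (abs_lt.2 hv))
        (hy _ (abs_lt.2 hu)) s (Ioo_subset_Icc_self hs)).trans
        (mul_le_mul_of_nonneg_right (by norm_num) (abs_nonneg _)))
      fun e he => (hy e (abs_lt.2 he)).cu.1.mono Ioo_subset_Icc_self
  have mY : ∀ p ∈ Q β, |y p.2 p.1| < a := fun p hp =>
    (hy _ (mem_Q.1 hp).2).cu.2 _ (I (mem_Q.1 hp).1)
  refine ⟨β, fun p => y p.2 p.1, n, b0, ha.le, C1.of_d (isOpen_Q _) (fun p hp => ?_)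
    (fun p hp => (d2 p hp).hasDerivAt) (hQ.ct.comp (continuousOn_fst.prodMk cY) fun p hp =>
      mem_Q.2 ⟨(mem_Q.1 hp).1.trans ha, mY p hp⟩) qn.cont, ⟨_, by positivity, qn⟩,
    fun p hp => ⟨?_, mY p hp⟩, fun e he => ?_⟩
  · obtain ⟨h1, h2⟩ := mem_Q.1 hp
    have c := (ctl hQ ha (hy _ h2).cu).mono Ioo_subset_Icc_self
    refine ((intervalIntegral.integral_hasDerivAt_right (ii hQ ha (hy _ h2).cu
      ⟨by linarith, b0.le⟩ (I h1)) (c.stronglyMeasurableAtFilter isOpen_Ioo _ hp.1)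
      (c.continuousAt (isOpen_Ioo.mem_nhds hp.1))).const_add p.2).congr_of_eventuallyEq ?_
    filter_upwards [isOpen_Ioo.mem_nhds hp.1] with s hs
    exact (hy _ h2).eq s (Ioo_subset_Icc_self hs)
  · obtain ⟨h1, h2⟩ := mem_Q.1 hp
    refine ge_of_tendsto (tn p hp) ((ev h2).mono fun h e => ?_)
    have := low hQ ha hK (hy _ h2) (hy _ e.1) (by linarith [e.2]) _ (I h1)
    rw [le_div_iff₀ (by linarith [e.2])]
    linarith [e.2]
  · simpa using (hy e he).eq 0 ⟨by linarith, b0.le⟩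

end Pool.Agent.MP_ed9623_an.R46
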