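import Pool.Agent.MP_ed9623_an.R46.Spec

/-! Local inverses of continuously differentiable maps of the plane. -/

open MeasureTheory Filter Topology Set
open scoped ContDiff

namespace Pool.Agent.MP_ed9623_an.R46

open H64 H77 R77

namespace XInv

/-- An invertible matrix as a linear equivalence. -/
noncomputable def eqv (u v x y : ℝ) (h : u * y - v * x ≠ 0) : P ≃L[ℝ] P :=
  ContinuousLinearEquiv.equivOfInverse ((lf u v).prod (lf x y))
    ((lf (y / (u * y - v * x)) (-v / (u * y - v * x))).prod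
      (lf (-x / (u * y - v * x)) (u / (u * y - v * x))))
    (fun p => by
      have e := mul_inv_cancel₀ h
      ext <;> simp only [ContinuousLinearMap.prod_apply, lf_apply, div_eq_mul_inv]
      · linear_combination p.1 * e
      · linear_combination p.2 * e)
    (fun p => by
      have e := mul_inv_cancel₀ h
      ext <;> simp only [ContinuousLinearMap.prod_apply, lf_apply, div_eq_mul_inv]
      · linear_combination p.1 * e
      · linear_combination p.2 * e)

theorem nh {s : Set P} (h : s ∈ 𝓝 (0 : P)) : ∃ r > 0, Q r ⊆ s := by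
  obtain ⟨r, r0, hr⟩ := Metric.mem_nhds_iff.1 h
  exact ⟨r, r0, Q_eq_ball r ▸ hr⟩

theorem Qn {r : ℝ} (h : 0 < r) : Q r ∈ 𝓝 (0 : P) := Q_eq_ball r ▸ Metric.ball_mem_nhds _ h

theorem rad {p : P} {δ a : ℝ} (ha : 0 < a) (h : Metric.ball p δ ⊆ Q a) : δ ≤ a := by
  by_contra e
  rw [not_le] at e
  have k : ∀ t : ℝ, |t| = a → |p.1 + t| < a := fun t ht =>
    (mem_Q.1 (h (a := (p.1 + t, p.2)) (by
      rw [Metric.mem_ball, Prod.dist_eq]
      simp only [dist_self_add_left, Real.norm_eq_abs, dist_self, ht]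
      exact max_lt e (ha.trans e)))).1
  have a1 := abs_lt.1 (k a (abs_of_pos ha))
  have a2 := abs_lt.1 (k (-a) (by rw [abs_neg, abs_of_pos ha]))
  linarith [a1.2, a2.1]

end XInv

open XInv in
theorem rowInv : OfInv := by
  intro hP a F a₁ a₂ b₁ b₂ ha F0 hx hy hd
  have z0 : (0 : P) ∈ Q a := mem_of_mem_nhds (Qn ha)
  have fd : ∀ p ∈ Q a, HasFDerivAt F ((lf (a₁ p) (a₂ p)).prod (lf (b₁ p) (b₂ p))) p :=
    fun p hp => (hx.fd p hp).prodMk (hy.fd p hp)
  have cd : ContDiffAt ℝ 1 F 0 :=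
    (((hP _ _ _ _ (isOpen_Q a)).2 hx).1.prodMk ((hP _ _ _ _ (isOpen_Q a)).2 hy).1).contDiffAt (Qn ha)
  have hs : HasStrictFDerivAt F (eqv _ _ _ _ hd : P →L[ℝ] P) 0 :=
    cd.hasStrictFDerivAt' (fd 0 z0) one_ne_zero
  set G : P → P := hs.localInverse F _ 0 with hG
  have G0 : G 0 = 0 := by simpa only [F0] using hs.localInverse_apply_image
  have gs : HasStrictFDerivAt G ((eqv _ _ _ _ hd).symm : P →L[ℝ] P) 0 := by
    simpa only [F0] using hs.to_localInverse
  have gt : Tendsto G (𝓝 0) (𝓝 0) := by simpa only [G0] using gs.continuousAt.tendsto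
  have ft : Tendsto F (𝓝 0) (𝓝 0) := by simpa only [F0] using hs.continuousAt.tendsto
  obtain ⟨K₁, s₁, n₁, l₁⟩ := gs.exists_lipschitzOnWith
  obtain ⟨K₂, s₂, n₂, l₂⟩ := hs.exists_lipschitzOnWith
  set D : P → ℝ := fun p => a₁ p * b₂ p - a₂ p * b₁ p with hD
  have cD : ContinuousOn D (Q a) := (hx.c1.mul hy.c2).sub (hx.c2.mul hy.c1)
  have d0 : 0 < |D 0| := abs_pos.2 hd
  have e1 : ∀ᶠ p in 𝓝 (0 : P), |D 0| / 2 < |D p| :=
    (cD.continuousAt (Qn ha)).abs.eventually (lt_mem_nhds (half_lt_self d0))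
  have e2 : ∀ᶠ z in 𝓝 (0 : P), F (G z) = z := by
    simpa only [F0] using hs.eventually_right_inverse
  obtain ⟨b, b0, hb⟩ := nh (inter_mem n₁ (e2.and (gt.eventually (e1.and (Qn ha)))))
  obtain ⟨r, r0, hr⟩ := nh (inter_mem n₂ (hs.eventually_left_inverse.and
    (ft.eventually (Qn (half_pos b0)))))
  set K : ℝ := 1 + K₁ + K₂ + 2 / |D 0| with hK
  have p1 : (0 : ℝ) ≤ K₁ := K₁.2
  have p2 : (0 : ℝ) ≤ K₂ := K₂.2
  have p3 : 0 < 2 / |D 0| := by positivity
  have K1 : 1 ≤ K := by linarith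
  have lG : ∀ z ∈ Q b, ∀ w ∈ Q b, dist (G z) (G w) ≤ K * dist z w := fun z hz w hw =>
    (l₁.dist_le_mul z (hb hz).1 w (hb hw).1).trans
      (mul_le_mul_of_nonneg_right (by linarith) dist_nonneg)
  have cG : ContinuousOn G (Q b) := l₁.continuousOn.mono fun z hz => (hb hz).1
  have mG : ∀ z ∈ Q b, G z ∈ Q a := fun z hz => (hb hz).2.2.2
  have nD : ∀ z ∈ Q b, D (G z) ≠ 0 := fun z hz =>
    abs_pos.1 ((half_pos d0).trans (hb hz).2.2.1)
  have gd : ∀ z (hz : z ∈ Q b),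
      HasFDerivAt G ((eqv _ _ _ _ (nD z hz)).symm : P →L[ℝ] P) z := fun z hz =>
    HasFDerivAt.of_local_left_inverse (cG.continuousAt ((isOpen_Q b).mem_nhds hz))
      (f := F) (fd _ (mG z hz)) (mem_of_superset ((isOpen_Q b).mem_nhds hz) fun w hw => (hb hw).2.1)
  have cq : ∀ {u : P → ℝ}, ContinuousOn u (Q a) →
      ContinuousOn (fun z => u (G z) / D (G z)) (Q b) := fun hu =>
    (hu.comp cG mG).div (cD.comp cG mG) nD
  have s1 : Q (min (min a r) (b / 2)) ⊆ Q r := Q_mono ((min_le_left _ _).trans (min_le_right _ _))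
  have s2 : Q (b / 2) ⊆ Q b := Q_mono (half_le_self b0.le)
  have a0 : 0 < min (min a r) (b / 2) := lt_min (lt_min ha r0) (half_pos b0)
  refine ⟨min (min a r) (b / 2), b, K, G, a0, (min_le_left _ _).trans (min_le_left _ _), b0, K1,
    G0, fun z hz => ⟨mG z hz, (hb hz).2.1, ?_⟩,
    fun p hp => ⟨s2 (hr (s1 hp)).2.2, (hr (s1 hp)).2.1⟩,
    ⟨cq hy.c2, cq hx.c2.neg, fun z hz => (gd z hz).fst⟩,
    ⟨cq hy.c1.neg, cq hx.c1, fun z hz => (gd z hz).snd⟩, lG, fun p hp q hq => ?_,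
    fun p δ hδ w hw => ?_⟩
  · refine le_trans ?_ (hb hz).2.2.1.le
    rw [← one_div_div 2]
    exact one_div_le_one_div_of_le p3 (by linarith)
  · exact (l₂.dist_le_mul p (hr (s1 hp)).1 q (hr (s1 hq)).1).trans
      (mul_le_mul_of_nonneg_right (by linarith) dist_nonneg)
  · have K0 : 0 < K := one_pos.trans_le K1
    rw [Metric.mem_ball, lt_div_iff₀ K0] at hw
    have δ0 : 0 < δ := (mul_nonneg dist_nonneg K0.le).trans_lt hw
    have hp := hr (s1 (hδ (Metric.mem_ball_self δ0)))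
    have h1 : δ ≤ b / 2 := (rad a0 hδ).trans (min_le_right _ _)
    have h2 : w ∈ Q b := by
      have h3 : F p ∈ Q (b / 2) := hp.2.2
      rw [Q_eq_ball, Metric.mem_ball] at h3 ⊢
      have := dist_triangle w (F p) 0
      nlinarith [dist_nonneg (x := w) (y := F p)]
    refine ⟨G w, ?_, (hb h2).2.1⟩
    have := lG w h2 _ (s2 hp.2.2)
    rw [show G (F p) = p from hp.2.1] at this
    rw [Metric.mem_ball]
    linarith

end Pool.Agent.MP_ed9623_an.R46
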