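import Pool.Agent.MP_ed9623_an.R46.Spec
import Pool.Agent.MP_ed9623_an.R77.Kit

/-! The chain rule for jets of order two. -/

open MeasureTheory Filter Topology Set
open scoped ContDiff

namespace Pool.Agent.MP_ed9623_an.R46

open H64 H77 R77

namespace XJch

variable {f g : P → ℝ} {G : ℝ → ℝ} {e : P} {O : Set P}

/-- A smooth function is Lipschitz on bounded intervals. -/
theorem lip (hG : ContDiff ℝ ∞ G) (M : ℝ) :
    ∃ L, 0 ≤ L ∧ ∀ x y, |x| ≤ M → |y| ≤ M → |G x - G y| ≤ L * |x - y| := by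
  obtain ⟨L, hL⟩ := (isCompact_Icc (a := -M) (b := M)).exists_bound_of_continuousOn
    (contDiff_infty_iff_deriv.1 hG).2.continuous.continuousOn
  refine ⟨max L 0, le_max_right _ _, fun x y hx hy => ?_⟩
  exact (convex_Icc (-M) M).norm_image_sub_le_of_norm_deriv_le (f := G) (C := max L 0)
    (fun z _ => hG.differentiable (by simp) z) (fun z hz => (hL z hz).trans (le_max_left _ _))
    (abs_le.1 hy) (abs_le.1 hx)

theorem hg_comp (hG : ContDiff ℝ ∞ G) (hf : Hg f) : Hg fun p => G (f p) := by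
  obtain ⟨M, m0, hM⟩ := hf
  obtain ⟨L, l0, hL⟩ := lip hG M
  refine ⟨|G 0| + L * M, by positivity, fun p => ⟨?_, fun q => ?_⟩⟩
  · have a := hL (f p) 0 (hM p).1 (by simpa using m0)
    have b := abs_add_le (G 0) (G (f p) - G 0)
    rw [sub_zero] at a
    rw [add_sub_cancel] at b
    nlinarith [mul_le_mul_of_nonneg_left (hM p).1 l0]
  · refine (hL _ _ (hM p).1 (hM q).1).trans ?_
    have a := mul_le_mul_of_nonneg_left ((hM p).2 q) l0
    have b : 0 ≤ |G 0| * √(dist p q) := by positivity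
    nlinarith

theorem m2_comp {M : ℝ} (hG : ContDiff ℝ ∞ G) (h0 : G 0 = 0) (m : M2 f) (hM : ∀ p, |f p| ≤ M) :
    M2 fun p => G (f p) := by
  obtain ⟨L, l0, hL⟩ := lip hG M
  refine (m.cmul L).of_le (hG.continuous.comp_aestronglyMeasurable m.meas)
    (Eventually.of_forall fun p => ?_)
  have a := hL (f p) 0 (hM p) (by simpa using (abs_nonneg _).trans (hM p))
  rwa [h0, sub_zero, sub_zero, ← abs_of_nonneg l0, ← abs_mul] at a

/-- Limits of weak derivatives. -/
theorem wd_lim {C : ℝ} (m : M2 f) (mg : M2 g) (h : ∀ δ > 0, ∃ F F', M2 F ∧ M2 F' ∧ WD O e F F' ∧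
    nm (fun p => F p - f p) ≤ C * δ ∧ nm (fun p => F' p - g p) ≤ C * δ) : WD O e f g := by
  intro φ hφ
  refine eq_neg_of_add_eq_zero_left (abs_nonpos_iff.1 (le_of_forall_pos_le_add fun η η0 => ?_))
  have a1 := nm_nonneg (pd e φ)
  have a2 := nm_nonneg φ
  set D := |C| * (nm (pd e φ) + nm φ) + 1 with hD
  have d0 : 0 < D := by positivity
  obtain ⟨F, F', mF, mF', w, c1, c2⟩ := h (η / D) (div_pos η0 d0)
  have b1 := abs_le.1 (Prd.close m mF (hφ.pd e).m2 c1)
  have b2 := abs_le.1 (Prd.close mg mF' hφ.m2 c2)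
  have e0 := w φ hφ
  have q : C * (η / D) * nm (pd e φ) + C * (η / D) * nm φ ≤ η := by
    have : η / D * D = η := div_mul_cancel₀ _ d0.ne'
    have p0 := div_pos η0 d0
    have := mul_le_mul_of_nonneg_right (le_abs_self C) (mul_nonneg p0.le (add_nonneg a1 a2))
    nlinarith
  rw [zero_add, abs_le]
  constructor <;> linarith [b1.1, b1.2, b2.1, b2.2]

/-- The chain rule. -/
theorem chain (hG : ContDiff ℝ ∞ G) (h0 : G 0 = 0) (hf : Hg f) (m : M2 f) (mg : M2 g)
    (w : WD univ e f g) : WD univ e (fun p => G (f p)) fun p => deriv G (f p) * g p := by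
  have hG' := (contDiff_infty_iff_deriv.1 hG).2
  obtain ⟨M, m0, hM⟩ := id hf
  obtain ⟨L, l0, hL⟩ := lip hG M
  obtain ⟨L', l0', hL'⟩ := lip hG' M
  have bd : ∀ x, |x| ≤ M → |deriv G x| ≤ |deriv G 0| + L' * M := fun x hx => by
    have a := hL' x 0 hx (by simpa using m0)
    have b := abs_add_le (deriv G 0) (deriv G x - deriv G 0)
    rw [sub_zero] at a
    rw [add_sub_cancel] at b
    nlinarith [mul_le_mul_of_nonneg_left hx l0']
  set B := |deriv G 0| + L' * M with hB
  have b0 : 0 ≤ B := by positivity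
  have n0 := nm_nonneg g
  refine wd_lim (C := L + B + L' * M * nm g) (m2_comp hG h0 m fun p => (hM p).1)
    ((hg_comp hG' hf).mul2 mg) fun δ δ0 => ?_
  obtain ⟨a, a0, ha⟩ := rowMol2.2.2.2 f m δ δ0
  obtain ⟨b, b1, hb⟩ := rowMol2.2.2.2 g mg δ δ0
  obtain ⟨k, hk⟩ := exists_ker (lt_min (pow_pos δ0 2) (lt_min a0 b1))
  have A := ha _ k ((min_le_right _ _).trans (min_le_left _ _)) hk
  have B' := hb _ k ((min_le_right _ _).trans (min_le_right _ _)) hk
  have mF := (rowMol2.2.1 _ k f hk m).1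
  have mG := (rowMol2.2.1 _ k g hk mg).1
  obtain ⟨sF, dF⟩ := (rowMol1 k hk.test).1 f m
  have c1 : ∀ x, |mol k f x| ≤ M := fun x => by
    simpa using mol_near (x := x) (c := 0) hk m
      (Eventually.of_forall fun z _ => by simpa using (hM z).1)
  have c2 : ∀ x, |mol k f x - f x| ≤ M * δ := fun x => mol_near hk m
    (Eventually.of_forall fun z hz => ((hM z).2 x).trans (mul_le_mul_of_nonneg_left
      (Real.sqrt_le_iff.2 ⟨δ0.le, (hz.trans_le (min_le_left _ _)).le⟩) m0))
  have ms : AEStronglyMeasurable (fun p => deriv G (mol k f p)) volume :=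
    (hG'.continuous.comp sF.continuous).aestronglyMeasurable
  have p1 : 0 ≤ L' * M * nm g * δ := by positivity
  have p2 : 0 ≤ B * δ := by positivity
  have p3 : 0 ≤ L * δ := by positivity
  refine ⟨fun p => G (mol k f p), fun p => deriv G (mol k f p) * mol k g p, m2_comp hG h0 mF c1,
    mG.bmul ms (Eventually.of_forall fun p => bd _ (c1 p)), ?_, ?_, ?_⟩
  · have := WD.of_cd (contDiff_infty.1 (hG.comp sF) 1) univ e
    refine this.congr (Eventually.of_forall fun _ _ => rfl) (Eventually.of_forall fun p _ => ?_)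
    have d : HasFDerivAt (G ∘ mol k f) _ p :=
      (hG.differentiable (by simp) _).hasDerivAt.comp_hasFDerivAt p (sm_diff sF p).hasFDerivAt
    rw [← mol_wd hk.test w (x := p) fun _ _ => trivial, ← dF, pd, pd, d.fderiv]
    rfl
  · refine (nm_mono ((mF.sub m).cmul L) (Eventually.of_forall fun p => ?_)).trans ?_
    · rw [abs_mul, abs_of_nonneg l0]
      exact hL _ _ (c1 p) (hM p).1
    · rw [nm_cmul, abs_of_nonneg l0]
      nlinarith [mul_le_mul_of_nonneg_left A l0]
  · have u1 : ∀ᵐ p, |deriv G (mol k f p)| ≤ B := Eventually.of_forall fun p => bd _ (c1 p)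
    have u2 : ∀ᵐ p, |deriv G (mol k f p) - deriv G (f p)| ≤ L' * (M * δ) :=
      Eventually.of_forall fun p => (hL' _ _ (c1 p) (hM p).1).trans
        (mul_le_mul_of_nonneg_left (c2 p) l0')
    have e1 : (fun p => deriv G (mol k f p) * mol k g p - deriv G (f p) * g p) = fun p =>
        deriv G (mol k f p) * (mol k g p - g p) + (deriv G (mol k f p) - deriv G (f p)) * g p :=
      funext fun p => by ring
    rw [e1]
    have v0 := nm_add_le ((mG.sub mg).bmul ms u1) (mg.bmul
      (m := fun p => deriv G (mol k f p) - deriv G (f p)) (ms.sub (hg_comp hG' hf).meas) u2)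
    have v1 := nm_bmul (mG.sub mg) b0 u1
    have v2 := nm_bmul mg (by positivity) u2
    nlinarith [mul_le_mul_of_nonneg_left B' b0]

/-- The derivative of `F' (f) u`. -/
theorem chain2 {F : ℝ → ℝ} {u u' : P → ℝ} (hF : ContDiff ℝ ∞ F) (hf : Hg f) (m : M2 f)
    (mg : M2 g) (w : WD univ e f g) (mu : M2 u) (mu' : M2 u') (wu : WD univ e u u')
    (mp : M2 fun p => g p * u p) : WD univ e (fun p => F (f p) * u p)
      fun p => deriv F (f p) * (g p * u p) + F (f p) * u' p := by
  have hG : ContDiff ℝ ∞ fun x => F x - F 0 := hF.sub contDiff_const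
  have hF' := (contDiff_infty_iff_deriv.1 hF).2
  obtain ⟨M, -, hM⟩ := id hf
  have c := chain hG (sub_self _) hf m mg w
  simp only [deriv_sub_const] at c
  have mG := m2_comp hG (sub_self _) m fun p => (hM p).1
  have pr := wPrd.1 univ e _ _ _ _ isOpen_univ mG ((hg_comp hF' hf).mul2 mg) mu mu' c wu
  have := pr.add (wu.cmul (F 0)) ((hg_comp hG hf).mul2 mu)
    ((((hg_comp hF' hf).mul2 mp).congr (Eventually.of_forall fun p => (mul_assoc _ _ _).symm)).add
      ((hg_comp hG hf).mul2 mu')) (mu.cmul _) (mu'.cmul _)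
  exact this.congr (Eventually.of_forall fun p _ => by ring)
    (Eventually.of_forall fun p _ => by ring)

/-- The jet of the composition. -/
noncomputable def jt (f : J2) (F : ℝ → ℝ) : J2
  | 0, 0 => fun p => F (f 0 0 p)
  | 1, 0 => fun p => deriv F (f 0 0 p) * f 1 0 p
  | 0, 1 => fun p => deriv F (f 0 0 p) * f 0 1 p
  | 2, 0 => fun p => deriv (deriv F) (f 0 0 p) * (f 1 0 p * f 1 0 p) + deriv F (f 0 0 p) * f 2 0 p
  | 1, 1 => fun p => deriv (deriv F) (f 0 0 p) * (f 0 1 p * f 1 0 p) + deriv F (f 0 0 p) * f 1 1 p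
  | 0, 2 => fun p => deriv (deriv F) (f 0 0 p) * (f 0 1 p * f 0 1 p) + deriv F (f 0 0 p) * f 0 2 p
  | _, _ => fun _ => 0

end XJch

open XJch in
theorem rowJch : OfJch := by
  intro f F hf hF h0
  have hF' := (contDiff_infty_iff_deriv.1 hF).2
  have hF'' := (contDiff_infty_iff_deriv.1 hF').2
  have g0 := hf.c 0 0 le_rfl
  obtain ⟨M, -, hM⟩ := id g0
  have m00 := hf.m 0 0 (by omega)
  have m10 := hf.m 1 0 (by omega)
  have m01 := hf.m 0 1 (by omega)
  have pp : ∀ a b a' b', a + b < 2 → a' + b' < 2 → M2 fun p => f a b p * f a' b' p :=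
    fun _ _ _ _ c d => hf.mul2 hf c d
  have top : ∀ a b a' b' c d, a + b < 2 → a' + b' < 2 → c + d ≤ 2 → M2 fun p =>
      deriv (deriv F) (f 0 0 p) * (f a b p * f a' b' p) + deriv F (f 0 0 p) * f c d p :=
    fun _ _ _ _ _ _ u v w => ((hg_comp hF'' g0).mul2 (pp _ _ _ _ u v)).add
      ((hg_comp hF' g0).mul2 (hf.m _ _ w))
  have x0 := hf.x 0 0 (by omega)
  have y0 := hf.y 0 0 (by omega)
  refine ⟨jt f F, ⟨fun a b c => ?_, fun a b c => ?_, fun a b c => ?_, fun a b c => ?_,
    fun a b c => by omega⟩, rfl⟩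
  · match a, b, c with
    | 0, 0, _ => exact m2_comp hF h0 m00 fun p => (hM p).1
    | 1, 0, _ => exact (hg_comp hF' g0).mul2 m10
    | 0, 1, _ => exact (hg_comp hF' g0).mul2 m01
    | 2, 0, _ => exact top _ _ _ _ _ _ (by omega) (by omega) le_rfl
    | 1, 1, _ => exact top _ _ _ _ _ _ (by omega) (by omega) le_rfl
    | 0, 2, _ => exact top _ _ _ _ _ _ (by omega) (by omega) le_rfl
    | 0, _ + 3, c => omega
    | 1, _ + 2, c => omega
    | 2, _ + 1, c => omega
    | _ + 3, _, c => omega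
  · match a, b, c with
    | 0, 0, _ => exact chain hF h0 g0 m00 m10 x0
    | 1, 0, _ =>
      exact chain2 hF' g0 m00 m10 x0 m10 (hf.m 2 0 le_rfl) (hf.x 1 0 (by omega))
        (pp _ _ _ _ (by omega) (by omega))
    | 0, 1, _ =>
      exact (chain2 hF' g0 m00 m10 x0 m01 (hf.m 1 1 le_rfl) (hf.x 0 1 (by omega))
        (pp _ _ _ _ (by omega) (by omega))).congr (Eventually.of_forall fun _ _ => rfl)
        (Eventually.of_forall fun p _ => by simp only [jt]; ring)
    | 0, _ + 2, c => omega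
    | 1, _ + 1, c => omega
    | _ + 2, _, c => omega
  · match a, b, c with
    | 0, 0, _ => exact chain hF h0 g0 m00 m01 y0
    | 1, 0, _ =>
      exact chain2 hF' g0 m00 m01 y0 m10 (hf.m 1 1 le_rfl) (hf.y 1 0 (by omega))
        (pp _ _ _ _ (by omega) (by omega))
    | 0, 1, _ =>
      exact chain2 hF' g0 m00 m01 y0 m01 (hf.m 0 2 le_rfl) (hf.y 0 1 (by omega))
        (pp _ _ _ _ (by omega) (by omega))
    | 0, _ + 2, c => omega
    | 1, _ + 1, c => omega
    | _ + 2, _, c => omega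
  · obtain ⟨rfl, rfl⟩ : a = 0 ∧ b = 0 := by omega
    exact hg_comp hF g0

end Pool.Agent.MP_ed9623_an.R46
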