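import Pool.Agent.MP_ed9623_an.R46.Spec

/-! Products of jets of order two. -/

open MeasureTheory Filter Topology Set
open scoped ContDiff

namespace Pool.Agent.MP_ed9623_an.R46

open H64 H77 R77

namespace XJmul

/-- The jet of order two of a product. -/
def pj (f g : J2) : J2
  | 0, 0 => fun p => f 0 0 p * g 0 0 p
  | 1, 0 => fun p => f 1 0 p * g 0 0 p + f 0 0 p * g 1 0 p
  | 0, 1 => fun p => f 0 1 p * g 0 0 p + f 0 0 p * g 0 1 p
  | 2, 0 => fun p => f 2 0 p * g 0 0 p + f 1 0 p * g 1 0 p +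
      (f 1 0 p * g 1 0 p + f 0 0 p * g 2 0 p)
  | 1, 1 => fun p => f 1 1 p * g 0 0 p + f 1 0 p * g 0 1 p +
      (f 0 1 p * g 1 0 p + f 0 0 p * g 1 1 p)
  | 0, 2 => fun p => f 0 2 p * g 0 0 p + f 0 1 p * g 0 1 p +
      (f 0 1 p * g 0 1 p + f 0 0 p * g 0 2 p)
  | _, _ => fun _ => 0

variable {f g : J2}

theorem mm (hf : Jt 2 f) (hg : Jt 2 g) (a b a' b' : ℕ) (e : a + b + (a' + b') ≤ 2) :
    M2 fun p => f a b p * g a' b' p := by
  by_cases c : a + b = 0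
  · exact (hf.c a b (by omega)).mul2 (hg.m _ _ (by omega))
  · by_cases c' : a' + b' = 0
    · simpa only [mul_comm] using (hg.c a' b' (by omega)).mul2 (hf.m a b (by omega))
    · exact hf.mul2 hg (by omega) (by omega)

theorem wx (hf : Jt 2 f) (hg : Jt 2 g) (a b a' b' : ℕ) (e : a + b < 2) (e' : a' + b' < 2) :
    WD univ (ee 0) (fun p => f a b p * g a' b' p)
      fun p => f (a + 1) b p * g a' b' p + f a b p * g (a' + 1) b' p :=
  wPrd.1 _ _ _ _ _ _ isOpen_univ (hf.m _ _ (by omega)) (hf.m _ _ (by omega))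
    (hg.m _ _ (by omega)) (hg.m _ _ (by omega)) (hf.x _ _ e) (hg.x _ _ e')

theorem wy (hf : Jt 2 f) (hg : Jt 2 g) (a b a' b' : ℕ) (e : a + b < 2) (e' : a' + b' < 2) :
    WD univ (ee 1) (fun p => f a b p * g a' b' p)
      fun p => f a (b + 1) p * g a' b' p + f a b p * g a' (b' + 1) p :=
  wPrd.1 _ _ _ _ _ _ isOpen_univ (hf.m _ _ (by omega)) (hf.m _ _ (by omega))
    (hg.m _ _ (by omega)) (hg.m _ _ (by omega)) (hf.y _ _ e) (hg.y _ _ e')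

end XJmul

open XJmul in
theorem rowJmul : OfJmul := by
  intro f g hf hg
  have m := mm hf hg
  have x := wx hf hg
  have y := wy hf hg
  refine ⟨pj f g, ⟨fun a b e => ?_, fun a b e => ?_, fun a b e => ?_, fun a b e => ?_,
    fun a b e => by omega⟩, rfl⟩
  · have : (a = 0 ∧ b = 0) ∨ (a = 1 ∧ b = 0) ∨ (a = 0 ∧ b = 1) ∨ (a = 2 ∧ b = 0) ∨
      (a = 1 ∧ b = 1) ∨ (a = 0 ∧ b = 2) := by omega
    rcases this with ⟨rfl, rfl⟩ | ⟨rfl, rfl⟩ | ⟨rfl, rfl⟩ | ⟨rfl, rfl⟩ | ⟨rfl, rfl⟩ | ⟨rfl, rfl⟩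
    · exact m 0 0 0 0 (by omega)
    · exact (m 1 0 0 0 (by omega)).add (m 0 0 1 0 (by omega))
    · exact (m 0 1 0 0 (by omega)).add (m 0 0 0 1 (by omega))
    · exact ((m 2 0 0 0 le_rfl).add (m 1 0 1 0 le_rfl)).add
        ((m 1 0 1 0 le_rfl).add (m 0 0 2 0 le_rfl))
    · exact ((m 1 1 0 0 le_rfl).add (m 1 0 0 1 le_rfl)).add
        ((m 0 1 1 0 le_rfl).add (m 0 0 1 1 le_rfl))
    · exact ((m 0 2 0 0 le_rfl).add (m 0 1 0 1 le_rfl)).add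
        ((m 0 1 0 1 le_rfl).add (m 0 0 0 2 le_rfl))
  · have : (a = 0 ∧ b = 0) ∨ (a = 1 ∧ b = 0) ∨ (a = 0 ∧ b = 1) := by omega
    rcases this with ⟨rfl, rfl⟩ | ⟨rfl, rfl⟩ | ⟨rfl, rfl⟩
    · exact x 0 0 0 0 (by omega) (by omega)
    · exact (x 1 0 0 0 (by omega) (by omega)).add (x 0 0 1 0 (by omega) (by omega))
        (m 1 0 0 0 (by omega)) ((m 2 0 0 0 le_rfl).add (m 1 0 1 0 le_rfl))
        (m 0 0 1 0 (by omega)) ((m 1 0 1 0 le_rfl).add (m 0 0 2 0 le_rfl))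
    · have := (x 0 1 0 0 (by omega) (by omega)).add (x 0 0 0 1 (by omega) (by omega))
        (m 0 1 0 0 (by omega)) ((m 1 1 0 0 le_rfl).add (m 0 1 1 0 le_rfl))
        (m 0 0 0 1 (by omega)) ((m 1 0 0 1 le_rfl).add (m 0 0 1 1 le_rfl))
      refine (congrArg (WD univ (ee 0) _) (funext fun p => ?_)).mp this
      simp only [pj, zero_add]
      ring
  · have : (a = 0 ∧ b = 0) ∨ (a = 1 ∧ b = 0) ∨ (a = 0 ∧ b = 1) := by omega
    rcases this with ⟨rfl, rfl⟩ | ⟨rfl, rfl⟩ | ⟨rfl, rfl⟩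
    · exact y 0 0 0 0 (by omega) (by omega)
    · exact (y 1 0 0 0 (by omega) (by omega)).add (y 0 0 1 0 (by omega) (by omega))
        (m 1 0 0 0 (by omega)) ((m 1 1 0 0 le_rfl).add (m 1 0 0 1 le_rfl))
        (m 0 0 1 0 (by omega)) ((m 0 1 1 0 le_rfl).add (m 0 0 1 1 le_rfl))
    · exact (y 0 1 0 0 (by omega) (by omega)).add (y 0 0 0 1 (by omega) (by omega))
        (m 0 1 0 0 (by omega)) ((m 0 2 0 0 le_rfl).add (m 0 1 0 1 le_rfl))
        (m 0 0 0 1 (by omega)) ((m 0 1 0 1 le_rfl).add (m 0 0 0 2 le_rfl))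
  · obtain ⟨rfl, rfl⟩ : a = 0 ∧ b = 0 := by omega
    exact (hf.c 0 0 le_rfl).mul (hg.c 0 0 le_rfl)

end Pool.Agent.MP_ed9623_an.R46
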