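import Pool.Agent.MP_ed9623_an.R46.Spec

/-! The null fields at a hyperbolic point. -/

open MeasureTheory Filter Topology Set
open scoped ContDiff

namespace Pool.Agent.MP_ed9623_an.R46

open H64 H77 R77

namespace XNul

/-- A function smooth away from the origin agrees near `c` with a smooth one. -/
theorem ext {g : ℝ → ℝ} (hg : ∀ t, t ≠ 0 → ContDiffAt ℝ ∞ g t) {c : ℝ} (hc : c ≠ 0) :
    ∃ F : ℝ → ℝ, ContDiff ℝ ∞ F ∧ F 0 = 0 ∧ ∀ᶠ t in 𝓝 c, F t = g t := by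
  have c0 : 0 < |c| := abs_pos.2 hc
  let χ : ContDiffBump c := ⟨|c| / 4, |c| / 2, by positivity, by linarith⟩
  have z : (0 : ℝ) ∉ tsupport χ := by
    rw [χ.tsupport_eq, Metric.mem_closedBall, dist_zero_left, Real.norm_eq_abs]
    change ¬ |c| ≤ |c| / 2
    linarith
  refine ⟨fun t => χ t * g t, contDiff_iff_contDiffAt.2 fun t => ?_,
    by simp [image_eq_zero_of_notMem_tsupport z], χ.eventuallyEq_one.mono fun t ht => by simp [ht]⟩
  rcases eq_or_ne t 0 with rfl | h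
  · exact (contDiffAt_const (c := (0 : ℝ))).congr_of_eventuallyEq
      ((notMem_tsupport_iff_eventuallyEq.1 z).mono fun t ht => by simp [ht])
  · exact χ.contDiff.contDiffAt.mul (hg t h)

end XNul

open XNul

theorem rowNul : OfNul := by
  intro hM hC a f a0 hf h20 h11
  have jA := hf.der (k' := 2) 2 0 le_rfl
  have jB := hf.der (k' := 2) 1 1 le_rfl
  have jC := hf.der (k' := 2) 0 2 le_rfl
  obtain ⟨B2, jB2, eB2⟩ := hM _ _ jB jB
  obtain ⟨AC, jAC, eAC⟩ := hM _ _ jA jC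
  simp only [zero_add] at eB2 eAC
  set β := f 1 1 0 with hβ
  have b0 : 0 < |β| := abs_pos.2 h11
  have b2 : 0 < β ^ 2 := by positivity
  obtain ⟨ε, e1, e2⟩ : ∃ ε : ℝ, (ε = 1 ∨ ε = -1) ∧ ε * |β| = β := by
    rcases le_total 0 β with h | h
    · exact ⟨1, Or.inl rfl, by rw [one_mul, abs_of_nonneg h]⟩
    · exact ⟨-1, Or.inr rfl, by rw [abs_of_nonpos h]; ring⟩
  have e3 : ε * β = |β| := by
    rcases e1 with rfl | rfl <;> linarith
  obtain ⟨F₁, s1, z1, v1⟩ := ext (g := fun t => √t) (fun t ht => Real.contDiffAt_sqrt ht) b2.ne'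
  obtain ⟨F₂, s2, z2, v2⟩ := ext (g := fun t => t⁻¹) (fun t ht => contDiffAt_inv ℝ ht)
    (c := 2 * β) (mul_ne_zero two_ne_zero h11)
  obtain ⟨S, jS, eS⟩ := hC _ F₁ (jB2.sub jAC) s1 z1
  obtain ⟨I, jI, eI⟩ := hC _ F₂ (jB.add (jS.cmul ε)) s2 z2
  obtain ⟨l, jl, el⟩ := hM _ _ jA.neg jI
  obtain ⟨m, jm, em⟩ := hM _ _ jC.neg jI
  simp only [zero_add, eB2, eAC, eS, eI] at eS eI el em
  have c20 : Continuous (f 2 0) := hf.ct le_rfl
  have c11 : Continuous (f 1 1) := hf.ct le_rfl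
  have c02 : Continuous (f 0 2) := hf.ct le_rfl
  set D : P → ℝ := fun p => f 1 1 p ^ 2 - f 2 0 p * f 0 2 p with hD
  have cD : Continuous D := by fun_prop
  have D0 : D 0 = β ^ 2 := by simp [hD, h20, hβ]
  set W : P → ℝ := fun p => f 1 1 p + ε * √(D p) with hW
  have cW : Continuous W := by fun_prop
  have W0 : W 0 = 2 * β := by
    simp only [hW, D0, Real.sqrt_sq_eq_abs, e2]; ring
  have l0 : l 0 0 0 = 0 := by simp [el, h20]
  have t1 : ∀ᶠ p in 𝓝 (0 : P), F₁ (D p) = √(D p) := (cD.tendsto' 0 _ D0).eventually v1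
  have t2 : ∀ᶠ p in 𝓝 (0 : P), F₂ (W p) = (W p)⁻¹ := (cW.tendsto' 0 _ W0).eventually v2
  have t3 : ∀ᶠ p in 𝓝 (0 : P), β ^ 2 / 2 < D p :=
    (cD.tendsto' 0 _ D0).eventually (lt_mem_nhds (by linarith))
  have t4 : ∀ᶠ p in 𝓝 (0 : P), |β| < ε * W p :=
    ((continuous_const.mul cW).tendsto' 0 (2 * |β|) (by
      simp only [Pi.mul_apply, W0]; linarith)).eventually (lt_mem_nhds (by linarith))
  have t5 : ∀ᶠ p in 𝓝 (0 : P), |l 0 0 p * m 0 0 p| < 1 / 2 :=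
    (((jl.ct (a := 0) (b := 0) le_rfl).mul (jm.ct (a := 0) (b := 0) le_rfl)).abs.tendsto' 0 0 (by
      simp [l0])).eventually (gt_mem_nhds (by norm_num))
  obtain ⟨δ, δ0, hδ⟩ := Metric.eventually_nhds_iff.1 (t1.and (t2.and (t3.and (t4.and t5))))
  have k : ∀ p ∈ Q (min a δ), dist p 0 < δ := fun p hp => by
    rw [Q_eq_ball] at hp
    exact (Metric.mem_ball.1 hp).trans_le (min_le_right _ _)
  have u : ∀ p ∈ Q (min a δ),
      F₂ (f 1 1 p + ε * F₁ (f 1 1 p * f 1 1 p - f 2 0 p * f 0 2 p)) = (W p)⁻¹ := fun p hp => by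
    obtain ⟨a1, a2, -⟩ := hδ (k p hp)
    rw [← sq, show f 1 1 p ^ 2 - f 2 0 p * f 0 2 p = D p from rfl, a1]
    exact a2
  refine ⟨min a δ, min (β ^ 2 / 2) |β|, ε, l, m, fun p => ε * √(D p), lt_min a0 δ0, min_le_left _ _,
    jl, jm, lt_min (half_pos b2) b0, e1, l0, fun p hp => ?_, fun p hp => ?_, fun p hp => ?_,
    fun p hp => (hδ (k p hp)).2.2.2.2.le⟩
  · obtain ⟨-, -, a3, a4, -⟩ := hδ (k p hp)
    exact ⟨(min_le_left _ _).trans a3.le, rfl, (min_le_right _ _).trans a4.le⟩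
  · simp only [el, u p hp, div_eq_mul_inv, hW]
  · simp only [em, u p hp, div_eq_mul_inv, hW]

end Pool.Agent.MP_ed9623_an.R46
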