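import Pool.Agent.MP_ed9623_an.R46.Tr
import Pool.Agent.MP_ed9623_an.R77.Rep

/-! Integrated bounds along curves for functions with two square integrable derivatives. -/

open MeasureTheory Filter Topology Set
open scoped ContDiff

namespace Pool.Agent.MP_ed9623_an.R46

open H64 H77 R77

namespace XQh

variable {a : ℝ} {φ ψ : ℝ → ℝ}

theorem isq (c : Continuous ψ) (a : ℝ) : IntegrableOn (fun x => ψ x ^ 2) (Ioo (-a) a) :=
  (c.pow 2).integrableOn_Icc.mono_set Ioo_subset_Icc_self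

theorem p1 (c : Continuous ψ) (d : ∀ x, HasDerivAt φ (ψ x) x) {u v : ℝ} (hu : u ∈ Ioo (-a) a)
    (hv : v ∈ Ioo (-a) a) : (φ u - φ v) ^ 2 ≤ |u - v| * ∫ x in Ioo (-a) a, ψ x ^ 2 := by
  rcases eq_or_ne u v with rfl | ne
  · simp
  have sub : uIcc v u ⊆ Ioo (-a) a := ordConnected_Ioo.uIcc_subset hv hu
  have m : MemLp ((Ioo (-a) a).indicator ψ) 2 volume :=
    (memLp_indicator_iff_restrict measurableSet_Ioo).2
      ((memLp_two_iff_integrable_sq c.aestronglyMeasurable).2 (isq c a))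
  have e : ∫ σ in v..u, (Ioo (-a) a).indicator ψ σ = φ u - φ v := by
    refine intervalIntegral.integral_eq_sub_of_hasDerivAt (fun σ hσ => ?_) (Slice.ii m _ _)
    rw [indicator_of_mem (sub hσ)]
    exact d σ
  have := XTr.cs m hv hu (abs_pos.2 (sub_ne_zero.2 ne)) le_rfl
  rw [e] at this
  refine this.trans (le_of_eq ?_)
  congr 1
  exact setIntegral_congr_fun measurableSet_Ioo fun σ hσ => by simp only [indicator_of_mem hσ]

theorem p2 (a0 : 0 < a) (c : Continuous ψ) (d : ∀ x, HasDerivAt φ (ψ x) x) {u : ℝ}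
    (hu : u ∈ Ioo (-a) a) : φ u ^ 2 ≤ (∫ x in Ioo (-a) a, φ x ^ 2) / a
      + 4 * a * ∫ x in Ioo (-a) a, ψ x ^ 2 := by
  have cφ : Continuous φ := continuous_iff_continuousAt.2 fun x => (d x).continuousAt
  set Ψ := ∫ x in Ioo (-a) a, ψ x ^ 2 with hΨ
  have Ψ0 : 0 ≤ Ψ := integral_nonneg fun _ => sq_nonneg _
  have b := setIntegral_mono_on (f := fun _ => φ u ^ 2 - 4 * a * Ψ) (g := fun v => 2 * φ v ^ 2)
    (integrableOn_const (by simp)) ((isq cφ a).const_mul 2) measurableSet_Ioo fun v hv => by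
      have h1 := p1 c d hu hv
      have h2 : |u - v| ≤ 2 * a := abs_le.2 ⟨by linarith [hu.1, hv.2], by linarith [hu.2, hv.1]⟩
      have h3 := mul_le_mul_of_nonneg_right h2 Ψ0
      nlinarith [sq_nonneg (φ u - 2 * φ v)]
  rw [integral_const_mul, setIntegral_const, smul_eq_mul,
    Real.volume_real_Ioo_of_le (by linarith)] at b
  rw [← sub_le_iff_le_add, le_div_iff₀ a0]
  linarith

theorem key {u X : ℝ → ℝ} {s t N A c : ℝ} (hX : Integrable X) (X0 : ∀ σ, 0 ≤ X σ)
    (hs : -a < s) (st : s ≤ t) (ht : t < a) (N0 : 0 ≤ N) (A0 : 0 ≤ A)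
    (hN : ∫ σ in Ioo (-a) a, X σ ≤ N ^ 2) (h : ∀ σ ∈ Icc s t, |u σ| ≤ A * √(X σ) + c) :
    ∫ σ in s..t, |u σ| ≤ N * √(t - s) * A + c * (t - s) := by
  have m : MemLp (fun σ => √(X σ)) 2 volume :=
    (memLp_two_iff_integrable_sq
      (Real.continuous_sqrt.comp_aestronglyMeasurable hX.aestronglyMeasurable)).2
      (by simpa only [Real.sq_sqrt (X0 _)] using hX)
  have i := Slice.ii m s t
  have b : ∫ σ in s..t, √(X σ) ≤ N * √(t - s) := by
    rcases st.eq_or_lt with rfl | lt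
    · simp
    have := Slice.cs m st hs.le ht.le (sub_pos.2 lt) le_rfl
    simp only [Real.sq_sqrt (X0 _)] at this
    refine abs_le_of_sq_le_sq' ?_ (by positivity) |>.2
    rw [mul_pow, Real.sq_sqrt (sub_nonneg.2 st), mul_comm]
    exact this.trans (mul_le_mul_of_nonneg_left hN (sub_nonneg.2 st))
  have j : IntervalIntegrable (fun σ => A * √(X σ) + c) volume s t :=
    (i.const_mul A).add intervalIntegrable_const
  have e : ∫ σ in s..t, |u σ| ≤ ∫ σ in s..t, (A * √(X σ) + c) := by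
    rw [intervalIntegral.integral_of_le st, intervalIntegral.integral_of_le st]
    exact integral_mono_of_nonneg (Eventually.of_forall fun _ => abs_nonneg _) j.1
      ((ae_restrict_iff' measurableSet_Ioc).2
        (Eventually.of_forall fun σ hσ => h σ (Ioc_subset_Icc_self hσ)))
  rw [intervalIntegral.integral_add (i.const_mul A) intervalIntegrable_const,
    intervalIntegral.integral_const_mul, intervalIntegral.integral_const, smul_eq_mul] at e
  nlinarith [mul_le_mul_of_nonneg_left b A0]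

theorem lim {I B C : ℝ} (h : ∀ δ > 0, I ≤ B + δ * C) : I ≤ B :=
  le_of_forall_pos_le_add fun ε ε0 => by
    have a := h (ε / (|C| + 1)) (by positivity)
    have : ε / (|C| + 1) * C ≤ ε := by
      rw [div_mul_eq_mul_div, div_le_iff₀ (by positivity)]
      nlinarith [le_abs_self C]
    linarith

/-- Smooth approximation with controlled vertical derivatives. -/
theorem apx {F : J2} (hF : Jt 2 F) {δ : ℝ} (δ0 : 0 < δ) : ∃ L g h : P → ℝ,
    (∀ p, |L p - F 0 0 p| ≤ δ) ∧ Continuous h ∧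
    (∀ σ x, HasDerivAt (fun η => L (σ, η)) (g (σ, x)) x) ∧
    (∀ σ x, HasDerivAt (fun η => g (σ, η)) (h (σ, x)) x) ∧ M2 g ∧ M2 h ∧
    nm g ≤ nm (F 0 1) ∧ nm h ≤ nm (F 0 2) := by
  obtain ⟨M, M0, hM⟩ := hF.c 0 0 le_rfl
  obtain ⟨k, hk⟩ := exists_ker (ε := (δ / (M + 1)) ^ 2) (by positivity)
  have m0 := hF.m 0 0 (by omega)
  have m1 := hF.m 0 1 (by omega)
  have m2 := hF.m 0 2 (by omega)
  have ct : ∀ {g}, M2 g → Continuous (mol k g) := fun a =>
    ((rowMol1 _ hk.test).1 _ a).1.continuous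
  refine ⟨mol k (F 0 0), mol k (F 0 1), mol k (F 0 2), fun p => mol_near hk m0
    (Eventually.of_forall fun z hz => ((hM z).2 p).trans ?_), ct m2,
    fun σ x => cw1 (x := (σ, x)) isOpen_univ (ct m0).continuousOn (ct m1).continuousOn
      (mol_w hk.test m0 (hF.y 0 0 (by omega))) (mem_univ _),
    fun σ x => cw1 (x := (σ, x)) isOpen_univ (ct m1).continuousOn (ct m2).continuousOn
      (mol_w hk.test m1 (hF.y 0 1 (by omega))) (mem_univ _),
    (rowMol2.2.1 _ _ _ hk m1).1, (rowMol2.2.1 _ _ _ hk m2).1, (rowMol2.2.1 _ _ _ hk m1).2,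
    (rowMol2.2.1 _ _ _ hk m2).2⟩
  have a : √(dist z p) ≤ δ / (M + 1) := Real.sqrt_le_iff.2 ⟨by positivity, hz.le⟩
  refine (mul_le_mul_of_nonneg_left a M0).trans ?_
  rw [← mul_div_assoc, div_le_iff₀ (by positivity)]
  nlinarith

theorem box {f : P → ℝ} {N : ℝ} (m : M2 f) (h : nm f ≤ N) :
    ∫ σ in Ioo (-a) a, slS (-a) a f σ ≤ N ^ 2 := by
  rw [m.slS_int]
  exact (m.set_le _).trans (pow_le_pow_left₀ (nm_nonneg f) h 2)

/-- A positive lower bound for the gap of two curves. -/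
theorem gap {s t : ℝ} {y z : ℝ → ℝ} (st : s ≤ t) (cy : Cu a s t y) (cz : Cu a s t z)
    (h : ∀ σ ∈ Icc s t, y σ < z σ) : ∃ m > 0, ∀ σ ∈ Icc s t, m ≤ z σ - y σ := by
  obtain ⟨σ, hσ, b⟩ := isCompact_Icc.exists_isMinOn (nonempty_Icc.2 st) (cz.1.sub cy.1)
  exact ⟨_, sub_pos.2 (h σ hσ), fun τ hτ => b hτ⟩

theorem near {l L : P → ℝ} {δ m σ : ℝ} {y z : ℝ → ℝ} (h : ∀ p, |L p - l p| ≤ δ) (m0 : 0 < m)
    (hm : m ≤ z σ - y σ) : |dq l y z σ - dq L y z σ| ≤ δ * (2 / m) := by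
  have g0 : 0 < z σ - y σ := m0.trans_le hm
  have a := abs_le.1 (h (σ, z σ))
  have b := abs_le.1 (h (σ, y σ))
  have δ0 : 0 ≤ δ := (abs_nonneg _).trans (h 0)
  unfold dq
  rw [← sub_div, abs_div, abs_of_pos g0, ← mul_div_assoc]
  exact div_le_div₀ (by positivity) (abs_le.2 ⟨by linarith, by linarith⟩) m0 hm

theorem slope {L g : P → ℝ} {σ : ℝ} {y z : ℝ → ℝ}
    (d : ∀ x, HasDerivAt (fun η => L (σ, η)) (g (σ, x)) x) (h : y σ < z σ) :
    ∃ u ∈ Ioo (y σ) (z σ), g (σ, u) = dq L y z σ :=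
  exists_hasDerivAt_eq_slope (fun η => L (σ, η)) (fun x => g (σ, x)) h
    (fun x _ => (d x).continuousAt.continuousWithinAt) fun x _ => d x

end XQh

open XQh

theorem rowQh : OfQh := by
  intro a F a0 hF
  obtain ⟨M, M0, hM⟩ := hF.c 0 0 le_rfl
  set N := √(nm (F 0 1) ^ 2 / a + 4 * a * nm (F 0 2) ^ 2) with hN
  have N0 : 0 ≤ N := Real.sqrt_nonneg _
  have n2 := nm_nonneg (F 0 2)
  refine ⟨M + N + nm (F 0 2), by positivity, (hF.ct (a := 0) (b := 0) le_rfl).continuousOn,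
    fun p _ => (hM p).1.trans (by linarith), fun s t d y z hs st ht cy cz hd => ?_,
    fun s t d y z y' z' hs st ht cy cz cy' cz' hd => ?_⟩
  · have d0 : 0 ≤ d := (abs_nonneg _).trans (hd s (left_mem_Icc.2 st))
    refine (lim (B := N * √(t - s) * d) (C := 2 * (t - s)) fun δ δ0 => ?_).trans
      (by gcongr; linarith)
    obtain ⟨L, g, h, hL, ch, dL, dg, mg, mh, ng, nh⟩ := apx hF δ0
    have i1 := (mg.int_slS (-a) a).div_const a
    have i2 := (mh.int_slS (-a) a).const_mul (4 * a)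
    have := key (u := fun σ => F 0 0 (σ, y σ) - F 0 0 (σ, z σ)) (A := d) (c := δ * 2)
      (X := fun σ => slS (-a) a g σ / a + 4 * a * slS (-a) a h σ) (i1.add i2)
      (fun σ => by have := slS_nonneg (-a) a g σ; have := slS_nonneg (-a) a h σ; positivity)
      hs st ht N0 d0 (by
        rw [integral_add i1.integrableOn i2.integrableOn, integral_div, integral_const_mul, hN,
          Real.sq_sqrt (by positivity)]
        gcongr
        · exact box mg ng
        · exact box mh nh) fun σ hσ => by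
        have b := (convex_Ioo (-a) a).norm_image_sub_le_of_norm_hasDerivWithin_le
          (C := √(slS (-a) a g σ / a + 4 * a * slS (-a) a h σ))
          (fun x _ => (dL σ x).hasDerivWithinAt)
          (fun x hx => Real.abs_le_sqrt (p2 a0 (ψ := fun η => h (σ, η)) (by fun_prop) (dg σ) hx))
          (abs_lt.1 (cz.2 σ hσ)) (abs_lt.1 (cy.2 σ hσ))
        rw [Real.norm_eq_abs, Real.norm_eq_abs] at b
        have b' := abs_le.1 (b.trans (mul_le_mul_of_nonneg_left (hd σ hσ) (Real.sqrt_nonneg _)))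
        have c1 := abs_le.1 (hL (σ, y σ))
        have c2 := abs_le.1 (hL (σ, z σ))
        exact abs_le.2 ⟨by linarith [b'.1, c1.2, c2.1], by linarith [b'.2, c1.1, c2.2]⟩
    linarith
  · obtain ⟨m, m0, hm⟩ := gap st cy cz fun σ hσ => (hd σ hσ).1
    obtain ⟨m', m0', hm'⟩ := gap st cy' cz' fun σ hσ => (hd σ hσ).2.1
    refine (lim (B := nm (F 0 2) * √(t - s) * √d) (C := (2 / m + 2 / m') * (t - s))
      fun δ δ0 => ?_).trans (by gcongr; linarith)
    obtain ⟨L, g, h, hL, ch, dL, dg, mg, mh, ng, nh⟩ := apx hF δ0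
    have := key (u := fun σ => dq (F 0 0) y z σ - dq (F 0 0) y' z' σ) (A := √d)
      (c := δ * (2 / m + 2 / m')) (mh.int_slS (-a) a) (slS_nonneg (-a) a h) hs st ht n2
      (Real.sqrt_nonneg d) (box mh nh) fun σ hσ => by
        obtain ⟨h1, h2, h3, h4, h5, -⟩ := hd σ hσ
        obtain ⟨u, hu, eu⟩ := slope (dL σ) h1
        obtain ⟨v, hv, ev⟩ := slope (dL σ) h2
        have b : (g (σ, u) - g (σ, v)) ^ 2 ≤ |u - v| * slS (-a) a h σ :=
          p1 (a := a) (ψ := fun η => h (σ, η)) (by fun_prop) (dg σ)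
          ⟨(abs_lt.1 (cy.2 σ hσ)).1.trans hu.1, hu.2.trans (abs_lt.1 (cz.2 σ hσ)).2⟩
          ⟨(abs_lt.1 (cy'.2 σ hσ)).1.trans hv.1, hv.2.trans (abs_lt.1 (cz'.2 σ hσ)).2⟩
        have uv : |u - v| ≤ d := abs_le.2 ⟨by linarith [hu.1, hv.2], by linarith [hu.2, hv.1]⟩
        have b' := Real.abs_le_sqrt
          (b.trans (mul_le_mul_of_nonneg_right uv (slS_nonneg (-a) a h σ)))
        rw [Real.sqrt_mul (by linarith), eu, ev] at b'
        have b2 := abs_le.1 b'
        have c1 := abs_le.1 (near hL m0 (hm σ hσ))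
        have c2 := abs_le.1 (near hL m0' (hm' σ hσ))
        exact abs_le.2 ⟨by linarith [b2.1, c1.1, c2.2], by linarith [b2.2, c1.2, c2.1]⟩
    linarith

end Pool.Agent.MP_ed9623_an.R46
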