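import Pool.Agent.MP_ed9623_an.R46.Pc
import Pool.Agent.MP_ed9623_an.R77.Rep

/-! Third derivatives from the gradient of the Laplacian. -/

open MeasureTheory Filter Topology Set
open scoped ContDiff

namespace Pool.Agent.MP_ed9623_an.R46

open H64 H77 R77

namespace XR3

variable {O : Set P} {f g g' : P → ℝ} {e : P}

/-- A continuous weak derivative agrees with a square integrable one. -/
theorem uniq (hO : IsOpen O) (c : ContinuousOn g O) (m : M2 g') (h : WD O e f g)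
    (h' : WD O e f g') : Ae O g g' := by
  have := hO.ae_eq_zero_of_integral_contDiff_smul_eq_zero (μ := volume) (f := fun p => g p - g' p)
    ((c.locallyIntegrableOn hO.measurableSet).sub (m.loc.locallyIntegrableOn O))
    fun φ a b d => by
      have t : Test O φ := ⟨a, b, d⟩
      simp only [smul_eq_mul, mul_comm (φ _), sub_mul]
      rw [integral_sub (int_on hO c t) (m.int_mul t.m2),
        neg_injective ((h φ t).symm.trans (h' φ t)), sub_self]
  exact this.mono fun p a hp => sub_eq_zero.1 (a hp)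

/-- The system in weak form, from weak derivatives. -/
theorem crw {a b ax ay bx by' k₁ k₂ : P → ℝ} (ma : M2 a) (mb : M2 b) (m1 : M2 ax) (m2 : M2 ay)
    (m3 : M2 bx) (m4 : M2 by') (w1 : WD univ (ee 0) a ax) (w2 : WD univ (ee 1) a ay)
    (w3 : WD univ (ee 0) b bx) (w4 : WD univ (ee 1) b by')
    (e1 : Ae O (fun p => ax p - by' p) k₁) (e2 : Ae O (fun p => ay p + bx p) k₂) :
    CRw O a b k₁ k₂ := fun φ hφ => by
  rw [integral_sub (ma.int_mul (hφ.pd _).m2) (mb.int_mul (hφ.pd _).m2),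
    integral_add (ma.int_mul (hφ.pd _).m2) (mb.int_mul (hφ.pd _).m2), w1 φ hφ.top, w2 φ hφ.top,
    w3 φ hφ.top, w4 φ hφ.top, ← int_test_congr (fun _ => hφ.off) e1,
    ← int_test_congr (fun _ => hφ.off) e2]
  simp only [sub_mul, add_mul]
  rw [integral_sub (m1.int_mul hφ.m2) (m4.int_mul hφ.m2),
    integral_add (m2.int_mul hφ.m2) (m3.int_mul hφ.m2)]
  constructor <;> ring

/-- The Schauder estimate on a smaller square. -/
theorem sl (hS : SlS) {r r' : ℝ} {a b k₁ k₂ : P → ℝ} (hr : r' < r) (ha : Hg a) (hb : Hg b)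
    (h1 : Hq (Q r) k₁) (h2 : Hq (Q r) k₂) (h : CRw (Q r) a b k₁ k₂) :
    ∀ f ∈ ({a, b} : Set (P → ℝ)), C1 (Q r') f (pd (ee 0) f) (pd (ee 1) f) ∧
      ∀ i, Hq (Q r') (pd (ee i) f) := by
  intro f hf
  obtain ⟨C, c1, hC⟩ := hS
  obtain ⟨A, a0, hA⟩ := id ha
  obtain ⟨B, b0, hB⟩ := id hb
  obtain ⟨M, m0, hM⟩ := h1
  obtain ⟨N, n0, hN⟩ := h2
  have e0 : 0 < min 1 ((r - r') / 3) := lt_min one_pos (by linarith)
  obtain ⟨d, ho⟩ := hC (Q r) a b k₁ k₂ (M + N) (A + B) _ (isOpen_Q r) e0 (min_le_left _ _)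
    (by positivity) (by positivity) ha.ct.continuousOn hb.ct.continuousOn
    (fun p _ => ⟨by linarith [(hA p).1], by linarith [(hB p).1]⟩)
    (hM.mono Subset.rfl (by linarith)) (hN.mono Subset.rfl (by linarith)) h f hf
  have s : ∀ x ∈ Q r', Metric.ball x (3 * min 1 ((r - r') / 3)) ⊆ Q r := fun x hx y hy => by
    rw [Q_eq_ball, Metric.mem_ball] at hx ⊢
    rw [Metric.mem_ball] at hy
    linarith [dist_triangle y x 0, min_le_right 1 ((r - r') / 3)]
  have q : ∀ i, Hq (Q r') (pd (ee i) f) := fun i =>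
    ⟨_, by positivity, (ho i).mono s le_rfl⟩
  refine ⟨⟨(q 0).cont, (q 1).cont, fun p hp => ?_⟩, q⟩
  refine (d p (s p hp)).hasFDerivAt.congr_fderiv (ContinuousLinearMap.ext fun v => ?_)
  rw [lf_apply, mul_comm, mul_comm _ v.2, ← pd_dir]
  rfl

theorem c1_neg (h : C1 O (fun p => -f p) (pd (ee 0) fun p => -f p) (pd (ee 1) fun p => -f p) ∧
    ∀ i, Hq O (pd (ee i) fun p => -f p)) :
    C1 O f (pd (ee 0) f) (pd (ee 1) f) ∧ ∀ i, Hq O (pd (ee i) f) := by
  have e : ∀ i : Fin 2, (fun p => -pd (ee i) (fun p => -f p) p) = pd (ee i) f := fun i =>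
    funext fun p => by rw [pd_neg, neg_neg]
  refine ⟨?_, fun i => e i ▸ (h.2 i).neg⟩
  simpa only [e, neg_neg] using h.1.neg

/-- The third order jets. -/
noncomputable def jt (F : J2) : J2 := fun u v =>
  if u + v = 3 then (if v = 0 then pd (ee 0) (F (u - 1) 0) else pd (ee 1) (F u (v - 1)))
  else F u v

end XR3

open XR3 in
theorem rowR3 : OfR3 := by
  intro _ hS a a' F k₁ k₂ ha hF h1 h2 e1 e2
  have z : Hq (Q a) fun _ => (0 : ℝ) := Hq.const _ 0
  have m : ∀ u v, u + v ≤ 3 → M2 (F u v) := fun u v c => hF.m u v (by omega)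
  have x : ∀ u v, u + v = 2 → WD univ (ee 0) (F u v) (F (u + 1) v) :=
    fun u v c => hF.x u v (by omega)
  have y : ∀ u v, u + v = 2 → WD univ (ee 1) (F u v) (F u (v + 1)) :=
    fun u v c => hF.y u v (by omega)
  have A := sl hS ha (hF.c 2 0 le_rfl) (hF.c 1 1 le_rfl).neg h1 z
    (crw (m 2 0 (by omega)) (m 1 1 (by omega)).neg (m 3 0 le_rfl) (m 2 1 le_rfl)
      (m 2 1 le_rfl).neg (m 1 2 le_rfl).neg (x 2 0 rfl) (y 2 0 rfl) (x 1 1 rfl).neg (y 1 1 rfl).neg
      (e1.mono fun p c hp => by rw [← c hp, R77.lp]; ring)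
      (Eventually.of_forall fun p _ => by ring))
  have B := sl hS ha (hF.c 1 1 le_rfl) (hF.c 0 2 le_rfl).neg h2 z
    (crw (m 1 1 (by omega)) (m 0 2 (by omega)).neg (m 2 1 le_rfl) (m 1 2 le_rfl)
      (m 1 2 le_rfl).neg (m 0 3 le_rfl).neg (x 1 1 rfl) (y 1 1 rfl) (x 0 2 rfl).neg (y 0 2 rfl).neg
      (e2.mono fun p c hp => by rw [← c hp, R77.lp]; ring)
      (Eventually.of_forall fun p _ => by ring))
  have D : ∀ u v, u + v = 2 → C1 (Q a') (F u v) (pd (ee 0) (F u v)) (pd (ee 1) (F u v)) ∧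
      ∀ i, Hq (Q a') (pd (ee i) (F u v)) := fun u v c => by
    obtain ⟨rfl, rfl⟩ | ⟨rfl, rfl⟩ | ⟨rfl, rfl⟩ :
      (u = 2 ∧ v = 0) ∨ (u = 1 ∧ v = 1) ∨ (u = 0 ∧ v = 2) := by omega
    · exact A _ (Or.inl rfl)
    · exact B _ (Or.inl rfl)
    · exact c1_neg (B _ (Or.inr rfl))
  have o := isOpen_Q a'
  have ex : ∀ u v, u + v = 2 → Ae (Q a') (pd (ee 0) (F u v)) (F (u + 1) v) := fun u v c =>
    uniq o (D u v c).1.c1 (m _ _ (by omega)) ((D u v c).1.wd0 o) ((x u v c).mono (subset_univ _))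
  have ey : ∀ u v, u + v = 2 → Ae (Q a') (pd (ee 1) (F u v)) (F u (v + 1)) := fun u v c =>
    uniq o (D u v c).1.c2 (m _ _ (by omega)) ((D u v c).1.wd1 o) ((y u v c).mono (subset_univ _))
  have lo : ∀ u v, u + v < 3 → jt F u v = F u v := fun u v c => if_neg c.ne
  have T : ∀ u v, u + v = 3 → Hq (Q a') (jt F u v) ∧ Ae (Q a') (jt F u v) (F u v) :=
    fun u v c => by
      unfold jt
      rw [if_pos c]
      cases v with
      | zero =>
        obtain rfl : u = 3 := c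
        exact ⟨(D 2 0 rfl).2 0, ex 2 0 rfl⟩
      | succ v => exact ⟨(D u v (by omega)).2 1, ey u v (by omega)⟩
  refine ⟨jt F, fun u v c => ⟨lo u v c, ?_⟩, T⟩
  rw [lo u v c]
  by_cases c2 : u + v = 2
  · have t1 := T (u + 1) v (by omega)
    have t2 := T u (v + 1) (by omega)
    refine (D u v c2).1.congr_d (fun _ => eq_of_ae o (D u v c2).1.c1 t1.1.cont ?_)
      fun _ => eq_of_ae o (D u v c2).1.c2 t2.1.cont ?_
    · filter_upwards [ex u v c2, t1.2] with p i j hp using (i hp).trans (j hp).symm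
    · filter_upwards [ey u v c2, t2.2] with p i j hp using (i hp).trans (j hp).symm
  · rw [lo (u + 1) v (by omega), lo u (v + 1) (by omega)]
    exact ⟨(hF.ct (by omega)).continuousOn, (hF.ct (by omega)).continuousOn,
      fun p _ => hF.d u v (by omega) p⟩

end Pool.Agent.MP_ed9623_an.R46
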