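import Pool.Agent.MP_ed9623_an.R46.Spec

/-! Vertical primitives: sums, congruence, representation of weak solutions. -/

open MeasureTheory Filter Topology Set

namespace Pool.Agent.MP_ed9623_an.R46

open H64 H77 R77

namespace XRep

variable {r : ℝ} {f g f' g' W Φ φ : P → ℝ} {e : P}

theorem mQ (r : ℝ) : MeasurableSet (Q r) := (isOpen_Q r).measurableSet

theorem volQ (r : ℝ) : volume (Q r) ≠ ⊤ := by
  rw [Q_eq_ball]
  exact Metric.isBounded_ball.measure_lt_top.ne

theorem int_test (hf : IntegrableOn f (Q r)) (hφ : Test (Q r) φ) :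
    Integrable fun x => f x * φ x := by
  obtain ⟨C, -, hC⟩ := hφ.bd
  have h : Integrable fun x => (Q r).indicator f x * φ x :=
    ((integrable_indicator_iff (mQ r)).2 hf).mul_bdd hφ.ct.aestronglyMeasurable
      (Eventually.of_forall hC)
  refine h.congr (Eventually.of_forall fun x => ?_)
  by_cases hx : x ∈ Q r
  · simp only [indicator_of_mem hx]
  · simp only [hφ.off hx, mul_zero]

theorem wd_add (h : WD (Q r) e f g) (h' : WD (Q r) e f' g') (hf : IntegrableOn f (Q r))
    (hg : IntegrableOn g (Q r)) (hf' : IntegrableOn f' (Q r)) (hg' : IntegrableOn g' (Q r)) :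
    WD (Q r) e (fun p => f p + f' p) fun p => g p + g' p := fun φ hφ => by
  simp only [add_mul]
  rw [integral_add (int_test hf (hφ.pd e)) (int_test hf' (hφ.pd e)),
    integral_add (int_test hg hφ) (int_test hg' hφ), h φ hφ, h' φ hφ, neg_add]

theorem m2_ind (h : Pm r W Φ) : M2 ((Q r).indicator Φ) := by
  obtain ⟨M, hM⟩ := h.ho
  have : IsFiniteMeasure ((volume : Measure P).restrict (Q r)) :=
    isFiniteMeasure_restrict.2 (volQ r)
  refine (memLp_indicator_iff_restrict (mQ r)).2 (MemLp.of_bound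
    (h.ct.aestronglyMeasurable (mQ r)) M ?_)
  exact (ae_restrict_iff' (mQ r)).2 (Eventually.of_forall fun p hp => (hM p hp).1)

theorem int_phi (h : Pm r W Φ) : IntegrableOn Φ (Q r) := by
  have : IsFiniteMeasure ((volume : Measure P).restrict (Q r)) :=
    isFiniteMeasure_restrict.2 (volQ r)
  exact ((memLp_indicator_iff_restrict (mQ r)).1 (m2_ind h)).integrable (by norm_num)

theorem seg {c d s η : ℝ} (hc : |c| < r) (hd : |d| < r) (hs : |s| < r) (h : η ∈ uIcc c d) :
    ((s, η) : P) ∈ Q r := by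
  refine mem_Q.2 ⟨hs, ?_⟩
  rw [abs_lt] at hc hd ⊢
  rcases mem_uIcc.1 h with h | h <;> constructor <;> linarith [h.1, h.2, hc.1, hc.2, hd.1, hd.2]

theorem ae_ii (hf : IntegrableOn f (Q r)) {c d : ℝ} (hc : |c| < r) (hd : |d| < r) :
    ∀ᵐ s, |s| < r → IntervalIntegrable (fun η => f (s, η)) volume c d := by
  have h : Integrable ((Q r).indicator f) ((volume : Measure ℝ).prod (volume : Measure ℝ)) :=
    (integrable_indicator_iff (mQ r)).2 hf
  filter_upwards [h.prod_right_ae] with s a hs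
  refine (a.intervalIntegrable (a := c) (b := d)).congr fun η hη => ?_
  exact indicator_of_mem (seg hc hd hs (uIoc_subset_uIcc hη)) f

theorem ii_phi (h : Pm r W Φ) {c d s : ℝ} (hc : |c| < r) (hd : |d| < r) (hs : |s| < r) :
    IntervalIntegrable (fun η => Φ (s, η)) volume c d :=
  (h.ct.comp (f := fun η => ((s, η) : P)) (by fun_prop)
    fun _ hη => seg hc hd hs hη).intervalIntegrable

theorem add {W' Φ' : P → ℝ} (h : Pm r W Φ) (h' : Pm r W' Φ') :
    Pm r (fun p => W p + W' p) fun p => Φ p + Φ' p := by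
  obtain ⟨M, hM⟩ := h.ho
  obtain ⟨M', hM'⟩ := h'.ho
  refine ⟨h.int.add h'.int, h.ct.add h'.ct, ⟨M + M', fun p hp => ⟨(abs_add_le _ _).trans
    (add_le_add (hM p hp).1 (hM' p hp).1), fun t ht => ?_⟩⟩,
    wd_add h.wd h'.wd (int_phi h) h.int (int_phi h') h'.int, fun c d hc hd => ?_⟩
  · rw [add_sub_add_comm, add_mul]
    exact (abs_add_le _ _).trans (add_le_add ((hM p hp).2 t ht) ((hM' p hp).2 t ht))
  · filter_upwards [h.av c d hc hd, h'.av c d hc hd, ae_ii h.int hc hd, ae_ii h'.int hc hd]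
      with s a b i j hs
    rw [intervalIntegral.integral_add (i hs) (j hs), a hs, b hs]
    ring

theorem congr {W' : P → ℝ} (h : Pm r W Φ) (hW : EqOn W W' (Q r)) : Pm r W' Φ := by
  refine ⟨h.int.congr_fun hW (mQ r), h.ct, h.ho, h.wd.congr (Eventually.of_forall fun _ _ => rfl)
    (Eventually.of_forall fun _ hp => hW hp), fun c d hc hd => ?_⟩
  filter_upwards [h.av c d hc hd] with s a hs
  rw [← a hs]
  exact intervalIntegral.integral_congr fun η hη => (hW (seg hc hd hs hη)).symm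

theorem rep {u Ψ : P → ℝ} (hr : 0 < r) (h : Pm r W Φ) (hu : Pm r u Ψ)
    (m : M2 ((Q r).indicator u)) (w : WD (Q r) (ee 1) u W) : ∃ (T : ℝ → ℝ) (M : ℝ),
    (∀ s t, |s| < r → |t| < r → |T s| ≤ M ∧ |T s - T t| ≤ M * √|s - t|) ∧
    Ae (Q r) u fun p => Φ p + T p.1 := by
  obtain ⟨M, hM⟩ := h.ho
  obtain ⟨N, hN⟩ := hu.ho
  have hc : |(0 : ℝ)| < r := by simpa using hr
  have hd : |r / 2| < r := by rw [abs_of_pos (by linarith)]; linarith
  have r2 : 0 < r / 2 := by linarith
  have w0 : WD (Q r) (ee 1) (fun p => (Q r).indicator u p - (Q r).indicator Φ p) fun _ => 0 := by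
    refine (wd_add w h.wd.neg hu.int h.int (int_phi h).neg h.int.neg).congr
      (Eventually.of_forall fun p hp => ?_) (Eventually.of_forall fun p _ => add_neg_cancel _)
    simp only [indicator_of_mem hp, sub_eq_add_neg]
  obtain ⟨T₀, -, hT⟩ := (wFtc (-r) r (-r) r _ _ (m.sub (m2_ind h)) M2.zero).1 w0
  have hT' : ∀ᵐ p : P, p ∈ Q r → u p = Φ p + T₀ p.1 := by
    filter_upwards [hT] with p a hp
    have := a hp
    simp only [indicator_of_mem hp, intervalIntegral.integral_zero, add_zero] at this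
    linarith
  have key : ∀ᵐ s, |s| < r → T₀ s =
      (Ψ (s, r / 2) - Ψ (s, 0) - ∫ η in (0 : ℝ)..r / 2, Φ (s, η)) / (r / 2) := by
    have h2 : ∀ᵐ s : ℝ, ∀ᵐ η : ℝ, ((s, η) : P) ∈ Q r → u (s, η) = Φ (s, η) + T₀ s :=
      Measure.ae_ae_of_ae_prod hT'
    filter_upwards [h2, hu.av 0 (r / 2) hc hd] with s a b hs
    rw [← b hs, intervalIntegral.integral_congr_ae (g := fun η => Φ (s, η) + T₀ s)
      (a.mono fun η k hη => k (seg hc hd hs (uIoc_subset_uIcc hη))),
      intervalIntegral.integral_add (ii_phi h hc hd hs) intervalIntegrable_const]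
    simp only [intervalIntegral.integral_const, sub_zero, smul_eq_mul]
    field_simp
    ring
  refine ⟨fun s => (Ψ (s, r / 2) - Ψ (s, 0) - ∫ η in (0 : ℝ)..r / 2, Φ (s, η)) / (r / 2),
    (2 * N + M * (r / 2)) / (r / 2), fun s t hs ht => ⟨?_, ?_⟩, ?_⟩
  · rw [abs_div, abs_of_pos r2]
    refine div_le_div_of_nonneg_right ?_ r2.le
    have a := (hN (s, r / 2) (mem_Q.2 ⟨hs, hd⟩)).1
    have b := (hN (s, 0) (mem_Q.2 ⟨hs, hc⟩)).1
    have c := intervalIntegral.norm_integral_le_of_norm_le_const (a := 0) (b := r / 2) (C := M)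
      (f := fun η => Φ (s, η)) fun η hη => (hM _ (seg hc hd hs (uIoc_subset_uIcc hη))).1
    rw [Real.norm_eq_abs, sub_zero, abs_of_pos r2] at c
    rw [abs_le] at a b c ⊢
    constructor <;> linarith [a.1, a.2, b.1, b.2, c.1, c.2]
  · rw [← sub_div, abs_div, abs_of_pos r2, div_mul_eq_mul_div]
    refine div_le_div_of_nonneg_right ?_ r2.le
    have a := (hN (s, r / 2) (mem_Q.2 ⟨hs, hd⟩)).2 t ht
    have b := (hN (s, 0) (mem_Q.2 ⟨hs, hc⟩)).2 t ht
    have c := intervalIntegral.norm_integral_le_of_norm_le_const (a := 0) (b := r / 2)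
      (C := M * √|s - t|) (f := fun η => Φ (s, η) - Φ (t, η))
      fun η hη => (hM _ (seg hc hd hs (uIoc_subset_uIcc hη))).2 t ht
    rw [Real.norm_eq_abs, sub_zero, abs_of_pos r2,
      intervalIntegral.integral_sub (ii_phi h hc hd hs) (ii_phi h hc hd ht)] at c
    simp only at a b
    rw [abs_le] at a b c ⊢
    constructor <;> linarith [a.1, a.2, b.1, b.2, c.1, c.2]
  · have h3 : ∀ᵐ p : P, |p.1| < r → T₀ p.1 =
        (Ψ (p.1, r / 2) - Ψ (p.1, 0) - ∫ η in (0 : ℝ)..r / 2, Φ (p.1, η)) / (r / 2) :=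
      (Measure.quasiMeasurePreserving_fst (μ := (volume : Measure ℝ))
        (ν := (volume : Measure ℝ))).ae key
    filter_upwards [hT', h3] with p a b hp
    rw [a hp, b (mem_Q.1 hp).1]

end XRep

theorem rowRep : OfRep := fun _ hr =>
  ⟨fun _ _ _ _ => XRep.add, fun _ _ _ => XRep.congr, fun _ _ _ _ => XRep.rep hr⟩

end Pool.Agent.MP_ed9623_an.R46
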