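import Pool.Agent.MP_ed9623_an.R46.Spec
import Pool.Agent.MP_ed9623_an.R77.Kit

/-! The pressure and the gradient of the Laplacian. -/

open MeasureTheory Filter Topology Set
open scoped ContDiff

namespace Pool.Agent.MP_ed9623_an.R46

open H64 H77 R77

namespace XRu

theorem ae_of_wd {O : Set P} {e : P} {f g g' : P → ℝ} (hO : IsOpen O) (h : WD O e f g)
    (h' : WD O e f g') (hg : ContinuousOn g O) (hg' : M2 g') : Ae O g g' := by
  have := hO.ae_eq_zero_of_integral_contDiff_smul_eq_zero (μ := volume)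
    (f := fun p => g p - g' p)
    ((hg.locallyIntegrableOn hO.measurableSet).sub (hg'.loc.locallyIntegrableOn O))
    fun φ a b c => by
      have hφ : Test O φ := ⟨a, b, c⟩
      have e1 : ∀ x, φ x • (g x - g' x) = g x * φ x - g' x * φ x := fun x => by
        rw [smul_eq_mul]; ring
      simp only [e1]
      rw [integral_sub (int_on hO hg hφ) (hg'.int_mul hφ.m2),
        neg_injective ((h φ hφ).symm.trans (h' φ hφ)), sub_self]
  exact this.mono fun p a hp => sub_eq_zero.1 (a hp)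

theorem ball_Q {a a' e : ℝ} (he : a' + 3 * e ≤ a) {x : P} (hx : x ∈ Q a') :
    Metric.ball x (3 * e) ⊆ Q a := fun y hy => by
  rw [mem_Q] at hx ⊢
  rw [Metric.mem_ball, Prod.dist_eq, max_lt_iff, Real.dist_eq, Real.dist_eq] at hy
  have h1 := abs_add_le (y.1 - x.1) x.1
  have h2 := abs_add_le (y.2 - x.2) x.2
  rw [sub_add_cancel] at h1 h2
  constructor <;> linarith [hx.1, hx.2, hy.1, hy.2]

end XRu

open XRu in
theorem rowRu : OfRu := by
  intro hP hS a a' F G k₁ k₂ ha hF hG h1 h2 e1 e2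
  obtain ⟨C₀, c1, hS⟩ := hS
  have hL : Jt 2 (lp F) := (hF.der 2 0 le_rfl).add (hF.der 0 2 le_rfl)
  obtain ⟨A, a0, hA⟩ := hL.c 0 0 le_rfl
  obtain ⟨B, b0, hB⟩ := hG.c 0 0 le_rfl
  obtain ⟨M₁, m1, hM₁⟩ := h1
  obtain ⟨M₂, m2, hM₂⟩ := h2
  set e := min 1 ((a - a') / 3) with he
  have e0 : 0 < e := lt_min one_pos (by linarith)
  have e3 : a' + 3 * e ≤ a := by linarith [min_le_right 1 ((a - a') / 3)]
  have cr : CRw (Q a) (lp F 0 0) (G 0 0) k₁ k₂ := fun φ hφ => by
    have i : ∀ {f : P → ℝ} (_ : M2 f) (j : Fin 2), Integrable fun x => f x * pd (ee j) φ x :=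
      fun hf j => hf.int_mul (hφ.pd _).m2
    have i' : ∀ {f : P → ℝ} (_ : M2 f), Integrable fun x => f x * φ x :=
      fun hf => hf.int_mul hφ.m2
    constructor
    · rw [integral_sub (i (hL.m 0 0 (by omega)) 0) (i (hG.m 0 0 (by omega)) 1),
        hL.x 0 0 (by omega) φ hφ.top, hG.y 0 0 (by omega) φ hφ.top,
        ← int_test_congr (fun _ => hφ.off) e1]
      simp only [sub_mul]
      rw [integral_sub (i' (hL.m 1 0 (by omega))) (i' (hG.m 0 1 (by omega)))]
      ring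
    · rw [integral_add (i (hL.m 0 0 (by omega)) 1) (i (hG.m 0 0 (by omega)) 0),
        hL.y 0 0 (by omega) φ hφ.top, hG.x 0 0 (by omega) φ hφ.top,
        ← int_test_congr (fun _ => hφ.off) e2]
      simp only [add_mul]
      rw [integral_add (i' (hL.m 0 1 (by omega))) (i' (hG.m 1 0 (by omega)))]
      ring
  obtain ⟨d, ho⟩ := hS (Q a) _ _ k₁ k₂ (M₁ + M₂) (A + B) e (isOpen_Q a) e0 (min_le_left _ _)
    (by positivity) (by positivity) (hL.ct le_rfl).continuousOn (hG.ct le_rfl).continuousOn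
    (fun p _ => ⟨by linarith [(hA p).1], by linarith [(hB p).1]⟩)
    (hM₁.mono Subset.rfl (by linarith)) (hM₂.mono Subset.rfl (by linarith)) cr (G 0 0) (by simp)
  have hq : ∀ i, Hq (Q a') (pd (ee i) (G 0 0)) := fun i =>
    ⟨_, by positivity, (ho i).mono (fun x hx => ball_Q e3 hx) le_rfl⟩
  have c : C1 (Q a') (G 0 0) (pd (ee 0) (G 0 0)) (pd (ee 1) (G 0 0)) :=
    ⟨(hq 0).cont, (hq 1).cont, fun p hp => by
      refine (d p (ball_Q e3 hp)).hasFDerivAt.congr_fderiv (ContinuousLinearMap.ext fun v => ?_)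
      rw [lf_apply, mul_comm _ v.1, mul_comm _ v.2]
      exact pd_dir (G 0 0) v p⟩
  obtain ⟨-, -, -, w0, w1⟩ := (hP _ _ _ _ (isOpen_Q a')).2 c
  refine ⟨fun u v => if u = 1 ∧ v = 0 then pd (ee 0) (G 0 0) else
    if u = 0 ∧ v = 1 then pd (ee 1) (G 0 0) else G u v, by simp, by simpa using c,
    by simpa using hq 0, by simpa using hq 1, ?_, ?_⟩
  · simpa using ae_of_wd (isOpen_Q a') w0 ((hG.x 0 0 (by omega)).mono (subset_univ _)) c.c1
      (hG.m 1 0 (by omega))
  · simpa using ae_of_wd (isOpen_Q a') w1 ((hG.y 0 0 (by omega)).mono (subset_univ _)) c.c2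
      (hG.m 0 1 (by omega))

end Pool.Agent.MP_ed9623_an.R46
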