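import Pool.Agent.MP_ed9623_an.R46.Spec
import Pool.Agent.MP_ed9623_an.R77.Rep

/-! Exchange of the two variables. -/

open MeasureTheory Filter Topology Set
open scoped ContDiff

namespace Pool.Agent.MP_ed9623_an.R46

open H64 H77 R77

namespace XSw

variable {f g : P → ℝ}

theorem wd {O : Set P} {e : P} (hO : ∀ p ∈ O, p.swap ∈ O) (h : WD O e f g) :
    WD O e.swap (fun p => f p.swap) fun p => g p.swap := fun φ hφ => by
  have sm : ContDiff ℝ ∞ fun p : P => φ p.swap := hφ.1.comp (contDiff_snd.prodMk contDiff_fst)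
  have ht : Test O fun p : P => φ p.swap := by
    refine ⟨sm, hφ.2.1.comp_homeomorph (Homeomorph.prodComm ℝ ℝ), fun p hp => ?_⟩
    have : p ∈ Prod.swap ⁻¹' tsupport φ :=
      closure_minimal (t := Prod.swap ⁻¹' tsupport φ) (fun q hq => subset_tsupport φ hq)
        ((isClosed_tsupport φ).preimage continuous_swap) hp
    simpa only [Prod.swap_swap] using hO _ (hφ.2.2 this)
  have hd : ∀ p : P, pd e (fun p : P => φ p.swap) p = pd e.swap φ p.swap := fun p => by
    refine HD.pd_eq ?_ (sm_diff sm p)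
    exact HD.of_diff (e := e.swap) (sm_diff hφ.1 p.swap)
  have h3 := h _ ht
  simp only [hd] at h3
  rw [← Ftc.int_swap, ← Ftc.int_swap fun x => g x.swap * φ x]
  simpa only [Prod.swap_swap] using h3

theorem hg (h : Hg f) : Hg fun p => f p.swap := by
  obtain ⟨M, m0, hM⟩ := h
  refine ⟨M, m0, fun p => ⟨(hM _).1, fun q => ?_⟩⟩
  have e : dist p q = dist p.swap q.swap := by
    rw [Prod.dist_eq, Prod.dist_eq, max_comm]; rfl
  rw [e]
  exact (hM _).2 _

theorem jt (k : ℕ) (F : J2) (h : Jt k F) : Jt k fun a b p => F b a p.swap :=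
  ⟨fun a b c => m2_swap (h.m b a (by omega)),
    fun a b c => wd_swap (e := ee 1) (h.y b a (by omega)),
    fun a b c => wd_swap (e := ee 0) (h.x b a (by omega)),
    fun a b c => hg (h.c b a (by omega)),
    fun a b c p => ((h.d b a (by omega) p.swap).comp p
      (hasFDerivAt_snd.prodMk hasFDerivAt_fst)).congr_fderiv
        (ContinuousLinearMap.ext fun v => by simp; ring)⟩

end XSw

theorem rowSw : OfSw := fun _ f _ =>
  ⟨fun h => ⟨m2_swap h, nm_swap f⟩,
    fun h => (Ftc.mp_swap.quasiMeasurePreserving.ae h).mono fun _ a b =>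
      a (mem_Q.2 (mem_Q.1 b).symm),
    fun _ hO => ⟨fun h => XSw.wd (e := ee 0) hO h, fun h => XSw.wd (e := ee 1) hO h⟩, XSw.jt⟩

end Pool.Agent.MP_ed9623_an.R46
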