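import Pool.Agent.MP_ed9623_an.R46.Spec
import Pool.Agent.MP_ed9623_an.R77.Kit

/-! The transport equations in weak form. -/

open MeasureTheory Filter Topology Set

namespace Pool.Agent.MP_ed9623_an.R46

open H64 H77 R77

namespace XWk

variable {r : ℝ} {U V : ℕ → P → ℝ} {u v c : P → ℝ}

/-- Convergence in the square mean on the square. -/
structure Cv (r : ℝ) (U : ℕ → P → ℝ) (u : P → ℝ) : Prop where
  mn : ∀ n, M2 ((Q r).indicator (U n))
  m : M2 ((Q r).indicator u)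
  cv : Tendsto (fun n => nm fun p => (Q r).indicator (U n) p - (Q r).indicator u p) atTop (𝓝 0)

/-- Convergence against test functions. -/
def Wc (r : ℝ) (U : ℕ → P → ℝ) (u : P → ℝ) : Prop := ∀ ψ, Test (Q r) ψ →
  (∀ n, Integrable fun p => U n p * ψ p) ∧ Integrable (fun p => u p * ψ p) ∧
    Tendsto (fun n => ∫ p, U n p * ψ p) atTop (𝓝 (∫ p, u p * ψ p))

theorem ind_add (f g : P → ℝ) : (Q r).indicator (fun p => f p + g p) =
    fun p => (Q r).indicator f p + (Q r).indicator g p := by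
  funext p; by_cases h : p ∈ Q r <;> simp [h]

theorem ind_mul (f g : P → ℝ) : (Q r).indicator (fun p => f p * g p) =
    fun p => (Q r).indicator g p * (Q r).indicator f p := by
  funext p; by_cases h : p ∈ Q r <;> simp [h, mul_comm]

theorem Cv.add (h : Cv r U u) (h' : Cv r V v) :
    Cv r (fun n p => U n p + V n p) fun p => u p + v p := by
  refine ⟨fun n => ind_add (U n) (V n) ▸ (h.mn n).add (h'.mn n), ind_add u v ▸ h.m.add h'.m, ?_⟩
  have t := h.cv.add h'.cv
  rw [add_zero] at t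
  refine squeeze_zero (fun _ => nm_nonneg _) (fun n => ?_) t
  rw [ind_add, ind_add]
  refine le_trans (le_of_eq ?_) (nm_add_le ((h.mn n).sub h.m) ((h'.mn n).sub h'.m))
  congr 1; funext p; ring

theorem Cv.mul (h : Cv r U u) (hc : Cb (Q r) c) :
    Cv r (fun n p => U n p * c p) fun p => u p * c p := by
  obtain ⟨hc1, M, hM⟩ := hc
  have me : AEStronglyMeasurable ((Q r).indicator c) volume :=
    (aestronglyMeasurable_indicator_iff (isOpen_Q r).measurableSet).2
      (hc1.aestronglyMeasurable (isOpen_Q r).measurableSet)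
  have bd : ∀ᵐ x, |(Q r).indicator c x| ≤ |M| := Eventually.of_forall fun x => by
    by_cases a : x ∈ Q r
    · rw [indicator_of_mem a]; exact (hM x a).trans (le_abs_self M)
    · rw [indicator_of_notMem a, abs_zero]; exact abs_nonneg M
  refine ⟨fun n => ind_mul (U n) c ▸ (h.mn n).bmul me bd, ind_mul u c ▸ h.m.bmul me bd, ?_⟩
  have t := h.cv.const_mul |M|
  rw [mul_zero] at t
  refine squeeze_zero (fun _ => nm_nonneg _) (fun n => ?_) t
  rw [ind_mul, ind_mul]
  refine le_trans (le_of_eq ?_) (nm_bmul ((h.mn n).sub h.m) (abs_nonneg M) bd)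
  congr 1; funext p; ring

theorem lim_mul {a b : ℕ → P → ℝ} {x y : P → ℝ} (ma : ∀ n, M2 (a n)) (mb : ∀ n, M2 (b n))
    (mx : M2 x) (my : M2 y) (ta : Tendsto (fun n => nm fun p => a n p - x p) atTop (𝓝 0))
    (tb : Tendsto (fun n => nm fun p => b n p - y p) atTop (𝓝 0)) :
    Tendsto (fun n => ∫ p, a n p * b n p) atTop (𝓝 (∫ p, x p * y p)) := by
  rw [tendsto_iff_dist_tendsto_zero]
  have t := ((ta.mul tb).add (ta.mul_const (nm y))).add (tb.const_mul (nm x))
  simp only [mul_zero, zero_mul, add_zero] at t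
  refine squeeze_zero (fun _ => dist_nonneg) (fun n => ?_) t
  have m1 := (ma n).sub mx
  have m2 := (mb n).sub my
  have e : (∫ p, a n p * b n p) - ∫ p, x p * y p =
      ((∫ p, (a n p - x p) * (b n p - y p)) + ∫ p, (a n p - x p) * y p) +
        ∫ p, x p * (b n p - y p) := by
    have i : Integrable fun p => (a n p - x p) * (b n p - y p) + (a n p - x p) * y p :=
      (m1.int_mul m2).add (m1.int_mul my)
    rw [← integral_sub ((ma n).int_mul (mb n)) (mx.int_mul my),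
      ← integral_add (m1.int_mul m2) (m1.int_mul my), ← integral_add i (mx.int_mul m2)]
    refine integral_congr_ae (Eventually.of_forall fun p => ?_)
    simp only; ring
  rw [Real.dist_eq, e]
  refine (abs_add_le _ _).trans (add_le_add ((abs_add_le _ _).trans
    (add_le_add (abs_int_le m1 m2) (abs_int_le m1 my))) (abs_int_le mx m2))

theorem Cv.wc (h : Cv r U u) : Wc r U u := fun ψ hψ => by
  have e : ∀ f : P → ℝ, (fun p => f p * ψ p) = fun p => (Q r).indicator f p * ψ p := fun f => by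
    funext p
    by_cases a : p ∈ Q r
    · rw [indicator_of_mem a]
    · rw [hψ.off a, mul_zero, mul_zero]
  refine ⟨fun n => e (U n) ▸ (h.mn n).int_mul hψ.m2, e u ▸ h.m.int_mul hψ.m2, ?_⟩
  simp only [e u, fun n => e (U n)]
  exact lim_mul h.mn (fun _ => hψ.m2) h.m hψ.m2 h.cv (by simp [nm_zero])

theorem Cv.wc2 (h : Cv r U u) (h' : Cv r V v) :
    Wc r (fun n p => U n p * V n p) fun p => u p * v p := fun ψ hψ => by
  obtain ⟨M, -, hM⟩ := hψ.bd
  have g := h'.mul (c := ψ) ⟨hψ.ct.continuousOn, M, fun p _ => hM p⟩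
  have e : ∀ f f' : P → ℝ, (fun p => f p * f' p * ψ p) =
      fun p => (Q r).indicator f p * (Q r).indicator (fun p => f' p * ψ p) p := fun f f' => by
    funext p
    by_cases a : p ∈ Q r
    · rw [indicator_of_mem a, indicator_of_mem a, mul_assoc]
    · rw [hψ.off a, indicator_of_notMem a, mul_zero, zero_mul]
  refine ⟨fun n => e (U n) (V n) ▸ (h.mn n).int_mul (g.mn n), e u v ▸ h.m.int_mul g.m, ?_⟩
  simp only [e u v, fun n => e (U n) (V n)]
  exact lim_mul h.mn g.mn h.m g.m h.cv g.cv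

theorem Wc.add (h : Wc r U u) (h' : Wc r V v) :
    Wc r (fun n p => U n p + V n p) fun p => u p + v p := fun ψ hψ => by
  obtain ⟨a1, a2, a3⟩ := h ψ hψ
  obtain ⟨b1, b2, b3⟩ := h' ψ hψ
  simp only [add_mul]
  refine ⟨fun n => (a1 n).add (b1 n), a2.add b2, ?_⟩
  rw [integral_add a2 b2]
  exact (a3.add b3).congr fun n => (integral_add (a1 n) (b1 n)).symm

theorem Wc.sub (h : Wc r U u) (h' : Wc r V v) :
    Wc r (fun n p => U n p - V n p) fun p => u p - v p := fun ψ hψ => by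
  obtain ⟨a1, a2, a3⟩ := h ψ hψ
  obtain ⟨b1, b2, b3⟩ := h' ψ hψ
  simp only [sub_mul]
  refine ⟨fun n => (a1 n).sub (b1 n), a2.sub b2, ?_⟩
  rw [integral_sub a2 b2]
  exact (a3.sub b3).congr fun n => (integral_sub (a1 n) (b1 n)).symm

theorem kers : ∃ k : ℕ → P → ℝ, (∀ n, ∃ ε, Ker ε (k n)) ∧
    ∀ f, M2 f → Tendsto (fun n => nm fun p => mol (k n) f p - f p) atTop (𝓝 0) := by
  choose k hk using fun n : ℕ => exists_ker (ε := 1 / ((n : ℝ) + 1)) Nat.one_div_pos_of_nat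
  refine ⟨k, fun n => ⟨_, hk n⟩, fun f hf => Metric.tendsto_atTop.2 fun δ hδ => ?_⟩
  obtain ⟨ε₀, e0, he⟩ := rowMol2.2.2.2 f hf (δ / 2) (half_pos hδ)
  obtain ⟨N, hN⟩ := exists_nat_one_div_lt e0
  refine ⟨N, fun n hn => ?_⟩
  rw [Real.dist_eq, sub_zero, abs_of_nonneg (nm_nonneg _)]
  exact (he _ _ ((Nat.one_div_le_one_div hn).trans hN.le) (hk n)).trans_lt (half_lt_self hδ)

theorem c1_mol {k : P → ℝ} {ε : ℝ} (hk : Ker ε k) {F : J2} (hF : Jt 1 F) (O : Set P) :
    C1 O (mol k (F 0 0)) (mol k (F 1 0)) (mol k (F 0 1)) := by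
  obtain ⟨s, d⟩ := (rowMol1 k hk.test).1 _ (hF.m 0 0 (by omega))
  have c1 := ((rowMol1 k hk.test).1 _ (hF.m 1 0 (by omega))).1.continuous
  have c2 := ((rowMol1 k hk.test).1 _ (hF.m 0 1 (by omega))).1.continuous
  refine ⟨c1.continuousOn, c2.continuousOn, fun p _ => ?_⟩
  have e1 := mol_wd hk.test (hF.x 0 0 (by omega)) (x := p) fun _ _ => mem_univ _
  have e2 := mol_wd hk.test (hF.y 0 0 (by omega)) (x := p) fun _ _ => mem_univ _
  rw [← d] at e1 e2
  refine (sm_diff s p).hasFDerivAt.congr_fderiv (ContinuousLinearMap.ext fun w => ?_)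
  have := pd_dir (mol k (F 0 0)) w p
  rw [lf_apply, ← e1, ← e2, mul_comm _ w.1, mul_comm _ w.2]
  exact this

/-- The weak Jacobian identity for functions with square integrable gradient. -/
theorem gen (hJ : JacS) (hC : CvS) {a K : ℝ} {l m m₁ m₂ : P → ℝ} {Θ Ξ : P → P}
    (h : Co a r K l m Θ Ξ m₁ m₂) {F G H : J2} (hF : Jt 1 F) (hG : Jt 1 G) (hH : Jt 1 H)
    {φ : P → ℝ} (hφ : Test (Q r) φ) :
    (∫ p, (H 1 0 (Θ p) * m₁ p + H 0 1 (Θ p) * (m₁ p * l (Θ p)) + F 0 0 (Θ p) *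
        (G 1 0 (Θ p) * m₁ p + G 0 1 (Θ p) * (m₁ p * l (Θ p)))) * pd (ee 1) φ p) -
      ∫ p, (H 1 0 (Θ p) * (m₂ p * m (Θ p)) + H 0 1 (Θ p) * m₂ p + F 0 0 (Θ p) *
        (G 1 0 (Θ p) * (m₂ p * m (Θ p)) + G 0 1 (Θ p) * m₂ p)) * pd (ee 0) φ p =
    -∫ p, Jc l m Θ m₁ m₂ p * (F 0 1 (Θ p) * G 1 0 (Θ p) - F 1 0 (Θ p) * G 0 1 (Θ p)) * φ p := by
  obtain ⟨K', K0, hK, -⟩ := hC a r K l m Θ Ξ m₁ m₂ h
  obtain ⟨k, hk, ck⟩ := kers
  have K1 : (0 : ℝ) ≤ K := zero_le_one.trans h.K1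
  have cv : ∀ f, M2 f → Cv r (fun n p => mol (k n) f (Θ p)) fun p => f (Θ p) := fun f hf => by
    have mn := fun n => (rowMol2.2.1 _ (k n) f (hk n).choose_spec hf).1
    refine ⟨fun n => (hK _ (mn n)).1, (hK _ hf).1, ?_⟩
    have t := (ck f hf).const_mul K'
    rw [mul_zero] at t
    refine squeeze_zero (fun _ => nm_nonneg _) (fun n => ?_) t
    refine le_trans (le_of_eq ?_) (hK _ ((mn n).sub hf)).2
    congr 1; funext p; by_cases a : p ∈ Q r <;> simp [a]
  have b1 : Cb (Q r) m₁ := Hq.cb ⟨K, K1, h.h1⟩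
  have b2 : Cb (Q r) m₂ := Hq.cb ⟨K, K1, h.h2⟩
  have b3 : Cb (Q r) fun p => m₁ p * l (Θ p) := (Hq.mul ⟨K, K1, h.h1⟩ ⟨K, K1, h.hl⟩).cb
  have b4 : Cb (Q r) fun p => m₂ p * m (Θ p) := (Hq.mul ⟨K, K1, h.h2⟩ ⟨K, K1, h.hm⟩).cb
  have d1 := fun (X : J2) (hX : Jt 1 X) =>
    ((cv _ (hX.m 1 0 le_rfl)).mul b1).add ((cv _ (hX.m 0 1 le_rfl)).mul b3)
  have d2 := fun (X : J2) (hX : Jt 1 X) =>
    ((cv _ (hX.m 1 0 le_rfl)).mul b4).add ((cv _ (hX.m 0 1 le_rfl)).mul b2)
  have f0 := cv _ (hF.m 0 0 (by omega))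
  obtain ⟨i1, -, t1⟩ := ((d1 H hH).wc.add (f0.wc2 (d1 G hG))) _ (hφ.pd (ee 1))
  obtain ⟨i2, -, t2⟩ := ((d2 H hH).wc.add (f0.wc2 (d2 G hG))) _ (hφ.pd (ee 0))
  obtain ⟨-, -, t3⟩ := (((d2 F hF).wc2 (d1 G hG)).sub ((d1 F hF).wc2 (d2 G hG))) _ hφ
  have cc := fun (n : ℕ) (X : J2) (hX : Jt 1 X) =>
    (c1_mol (hk n).choose_spec hX (Q a)).comp h.cx h.cy h.mp
  have e := tendsto_nhds_unique ((t1.sub t2).congr fun n => by
    rw [← integral_sub (i1 n) (i2 n)]
    exact hJ _ _ _ _ _ _ _ _ _ _ φ (isOpen_Q r) (cc n F hF) (cc n G hG) (cc n H hH) hφ) t3.neg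
  rw [e]
  congr 1
  refine integral_congr_ae (Eventually.of_forall fun p => ?_)
  simp only [Jc]; ring

end XWk

open XWk in
theorem rowWk : OfWk := by
  intro hJ hC a r K l m g Θ Ξ m₁ m₂ h hl hm hg hv
  obtain ⟨-, -, -, hn, -⟩ := hC a r K _ _ Θ Ξ m₁ m₂ h
  have z := hn _ hv
  have g1 : Jt 1 fun a b => g (a + 1) (b + 0) := hg.der 1 0 (by omega)
  have g2 : Jt 1 fun a b => g (a + 0) (b + 1) := hg.der 0 1 (by omega)
  refine ⟨fun φ hφ => ?_, fun φ hφ => ?_⟩
  · have e := gen hJ hC h (hl.mono one_le_two) g2 g1 hφ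
    rw [int_test_congr (g := fun _ => 0) (φ := pd (ee 0) φ) (fun _ => (hφ.pd _).off)
      (z.mono fun p a b => by
        have := a b
        simp only [h12] at this
        simp only [zero_add, add_zero, one_add_one_eq_two]
        linear_combination m₂ p * this)] at e
    simp only [zero_mul, integral_zero, sub_zero, zero_add, add_zero, one_add_one_eq_two] at e
    rw [← e]
    refine integral_congr_ae (Eventually.of_forall fun p => ?_)
    simp only [h11]; ring
  · have e := gen hJ hC h (hm.mono one_le_two) g1 g2 hφ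
    rw [int_test_congr (g := fun _ => 0) (φ := pd (ee 1) φ) (fun _ => (hφ.pd _).off)
      (z.mono fun p a b => by
        have := a b
        simp only [h12] at this
        simp only [zero_add, add_zero, one_add_one_eq_two]
        linear_combination m₁ p * this)] at e
    simp only [zero_mul, integral_zero, zero_sub, neg_inj, zero_add, add_zero,
      one_add_one_eq_two] at e
    rw [← integral_neg]
    refine Eq.trans (integral_congr_ae (Eventually.of_forall fun p => ?_))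
      (e.trans (integral_congr_ae (Eventually.of_forall fun p => ?_)))
    · simp only [h22]; ring
    · simp only; ring

end Pool.Agent.MP_ed9623_an.R46
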