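import Pool.Agent.MP_ed9623_an.R46.Spec

/-! The inverse of the characteristic chart is continuously differentiable. -/

open MeasureTheory Filter Topology Set

namespace Pool.Agent.MP_ed9623_an.R46

open H64 H77 R77

namespace XXi

variable {a r K : ℝ} {l m m₁ m₂ : P → ℝ} {Θ Ξ : P → P}

theorem opn (h : Co a r K l m Θ Ξ m₁ m₂) (ρ : ℝ) (hρ : ρ ≤ r) : IsOpen (Θ '' Q ρ) := by
  have K0 : 0 < K := one_pos.trans_le h.K1
  rw [Metric.isOpen_iff]
  rintro _ ⟨p, hp, rfl⟩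
  have o : IsOpen (Q ρ) := by rw [Q_eq_ball]; exact Metric.isOpen_ball
  obtain ⟨δ, d0, hd⟩ := Metric.isOpen_iff.1 o p hp
  exact ⟨δ / K, div_pos d0 K0, (h.bl p δ (hd.trans (Q_mono hρ))).trans (image_mono hd)⟩

theorem ct (h : Co a r K l m Θ Ξ m₁ m₂) : ContinuousOn Ξ (Θ '' Q r) := by
  have K0 : 0 < K := one_pos.trans_le h.K1
  refine (LipschitzOnWith.of_dist_le_mul (K := ⟨K, K0.le⟩) ?_).continuousOn
  rintro _ ⟨p, hp, rfl⟩ _ ⟨q, hq, rfl⟩
  rw [h.inv p hp, h.inv q hq]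
  exact (h.lip p hp q hq).2

theorem mp (h : Co a r K l m Θ Ξ m₁ m₂) : MapsTo Ξ (Θ '' Q r) (Q r) := by
  rintro _ ⟨p, hp, rfl⟩
  rwa [h.inv p hp]

theorem ri (h : Co a r K l m Θ Ξ m₁ m₂) {z : P} (hz : z ∈ Θ '' Q r) : Θ (Ξ z) = z := by
  obtain ⟨p, hp, rfl⟩ := hz
  rw [h.inv p hp]

theorem jne (h : Co a r K l m Θ Ξ m₁ m₂) {p : P} (hp : p ∈ Q r) : Jc l m Θ m₁ m₂ p ≠ 0 := by
  have K0 : 0 < 1 / K := one_div_pos.2 (one_pos.trans_le h.K1)
  obtain ⟨h1, h2, h3⟩ := h.lo p hp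
  have := (abs_le.1 h3).2
  exact (mul_pos (mul_pos (K0.trans_le h1) (K0.trans_le h2)) (by linarith)).ne'

theorem jct (h : Co a r K l m Θ Ξ m₁ m₂) : ContinuousOn (Jc l m Θ m₁ m₂) (Q r) :=
  (h.h1.cont.mul h.h2.cont).mul (continuousOn_const.sub (h.hl.cont.mul h.hm.cont))

theorem fd (h : Co a r K l m Θ Ξ m₁ m₂) {p : P} (hp : p ∈ Q r) :
    HasFDerivAt Ξ ((lf (m₂ p / Jc l m Θ m₁ m₂ p) (-(m₂ p * m (Θ p)) / Jc l m Θ m₁ m₂ p)).prod
      (lf (-(m₁ p * l (Θ p)) / Jc l m Θ m₁ m₂ p) (m₁ p / Jc l m Θ m₁ m₂ p))) (Θ p) := by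
  have j := jne h hp
  have hz : Θ p ∈ Θ '' Q r := mem_image_of_mem _ hp
  have nb := (opn h r le_rfl).mem_nhds hz
  let E : P ≃L[ℝ] P := ContinuousLinearEquiv.equivOfInverse
    ((lf (m₁ p) (m₂ p * m (Θ p))).prod (lf (m₁ p * l (Θ p)) (m₂ p)))
    ((lf (m₂ p / Jc l m Θ m₁ m₂ p) (-(m₂ p * m (Θ p)) / Jc l m Θ m₁ m₂ p)).prod
      (lf (-(m₁ p * l (Θ p)) / Jc l m Θ m₁ m₂ p) (m₁ p / Jc l m Θ m₁ m₂ p)))
    (fun v => by
      ext
      · simp only [ContinuousLinearMap.prod_apply, lf_apply]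
        field_simp
        unfold Jc
        ring
      · simp only [ContinuousLinearMap.prod_apply, lf_apply]
        field_simp
        unfold Jc
        ring)
    (fun v => by
      ext
      · simp only [ContinuousLinearMap.prod_apply, lf_apply]
        field_simp
        unfold Jc
        ring
      · simp only [ContinuousLinearMap.prod_apply, lf_apply]
        field_simp
        unfold Jc
        ring)
  have d : HasFDerivAt Θ (E : P →L[ℝ] P) (Ξ (Θ p)) := by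
    rw [h.inv p hp]
    exact (h.cx.fd p hp).prodMk (h.cy.fd p hp)
  exact HasFDerivAt.of_local_left_inverse ((ct h).continuousAt nb) d
    (mem_of_superset nb fun z hz => ri h hz)

end XXi

open XXi in
theorem rowXi : OfXi := by
  intro a r K l m Θ Ξ m₁ m₂ h
  have c := ct h
  have t := mp h
  have j := (jct h).comp c t
  have j0 : ∀ z ∈ Θ '' Q r, Jc l m Θ m₁ m₂ (Ξ z) ≠ 0 := fun z hz => jne h (t hz)
  have c1 := h.h1.cont.comp c t
  have c2 := h.h2.cont.comp c t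
  have cl : ContinuousOn l (Θ '' Q r) :=
    (h.hl.cont.comp c t).congr fun z hz => by simp only [Function.comp, ri h hz]
  have cm : ContinuousOn m (Θ '' Q r) :=
    (h.hm.cont.comp c t).congr fun z hz => by simp only [Function.comp, ri h hz]
  refine ⟨opn h, ⟨c2.div j j0, (c2.mul cm).neg.div j j0, ?_⟩,
    ⟨(c1.mul cl).neg.div j j0, c1.div j j0, ?_⟩⟩
  · rintro _ ⟨p, hp, rfl⟩
    rw [h.inv p hp]
    exact (fd h hp).fst
  · rintro _ ⟨p, hp, rfl⟩
    rw [h.inv p hp]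
    exact (fd h hp).snd

end Pool.Agent.MP_ed9623_an.R46
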