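import Pool.Agent.MP_ed9623_an.U81.Jac
import Pool.Agent.MP_ed9623_an.R46.Apx
import Pool.Agent.MP_ed9623_an.R46.B1
import Pool.Agent.MP_ed9623_an.R46.Base
import Pool.Agent.MP_ed9623_an.R46.Bil
import Pool.Agent.MP_ed9623_an.R46.Ch
import Pool.Agent.MP_ed9623_an.R46.Chart
import Pool.Agent.MP_ed9623_an.R46.Core
import Pool.Agent.MP_ed9623_an.R46.Crs
import Pool.Agent.MP_ed9623_an.R46.Cv
import Pool.Agent.MP_ed9623_an.R46.Fl
import Pool.Agent.MP_ed9623_an.R46.In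
import Pool.Agent.MP_ed9623_an.R46.Inv
import Pool.Agent.MP_ed9623_an.R46.Jch
import Pool.Agent.MP_ed9623_an.R46.Jmul
import Pool.Agent.MP_ed9623_an.R46.NulR
import Pool.Agent.MP_ed9623_an.R46.Qh
import Pool.Agent.MP_ed9623_an.R46.R3
import Pool.Agent.MP_ed9623_an.R46.Rep
import Pool.Agent.MP_ed9623_an.R46.Ru
import Pool.Agent.MP_ed9623_an.R46.Sl
import Pool.Agent.MP_ed9623_an.R46.Sl1
import Pool.Agent.MP_ed9623_an.R46.Sw
import Pool.Agent.MP_ed9623_an.R46.Tr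
import Pool.Agent.MP_ed9623_an.R46.Wk
import Pool.Agent.MP_ed9623_an.R46.Xi

/-! The chart, the arc and the first integral. -/

namespace Pool.Agent.MP_ed9623_an.R46

theorem aJac : JacS := jac_of U81.rowJac

theorem aSl : SlS := rowSl (rowSl1 wKer)

theorem aChart : ChartS :=
  rowChart rowSw rowQh (rowCh (rowFl wPc) (rowInv wPc)) (rowNul rowJmul rowJch)
    (rowB1 rowSw rowCv (rowApx rowSw rowCv rowTr) rowBil rowRep (rowWk aJac rowCv))
    (rowBase wPc wCw (rowR3 wPc aSl) (rowRu wPc aSl))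

theorem aLemA : LemAS :=
  wLemA rowNc (rowJg wCw aJac) (rowInv wPc) (rowArc (rowGo rowNc))
    (wCore rowNc (rowJg wCw aJac) (rowCrs wPc aSl rowXi))

theorem aIn (h : R1.TouchS) (h' : R1.CzS) : R10.InS := wIn aChart aLemA h h'

theorem aEta : R1.EtaS := wEta aChart rowXi

end Pool.Agent.MP_ed9623_an.R46
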