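import Pool.Agent.MP_ed9623_an.R46.Nc
import Pool.Agent.MP_ed9623_an.U81.Base

/-! The exterior derivative of `dh + f dg`. -/

open MeasureTheory Filter Topology Set

namespace Pool.Agent.MP_ed9623_an.R46

open H64 H77 R77

/-- Extension to the plane from a neighbourhood of a compact set. -/
theorem C1.ext {O K : Set P} {f f₁ f₂ : P → ℝ} (h : C1 O f f₁ f₂) (hO : IsOpen O)
    (hK : IsCompact K) (hs : K ⊆ O) : ∃ F, ContDiff ℝ (1 : ℕ) F ∧ ∀ p ∈ K, F =ᶠ[𝓝 p] f ∧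
      pd (ee 0) F p = f₁ p ∧ pd (ee 1) F p = f₂ p := by
  obtain ⟨χ, hχ, -, c1⟩ := exists_cut hK hO hs
  refine ⟨fun p => χ p * f p, U81.c1_of_on (isClosed_tsupport χ) (fun p hp =>
    (U81.Test.c1 hχ).contDiffAt.mul ((h.cd hO).contDiffAt (hO.mem_nhds (hχ.2.2 hp))))
    fun p hp => by rw [image_eq_zero_of_notMem_tsupport hp, zero_mul], fun p hp => ?_⟩
  have e : (fun p => χ p * f p) =ᶠ[𝓝 p] f :=
    (c1.filter_mono (nhds_le_nhdsSet hp)).mono fun q hq => by simp only [hq, one_mul]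
  exact ⟨e, (pd_congr_pt _ e).trans (h.pd0 (hs hp)), (pd_congr_pt _ e).trans (h.pd1 (hs hp))⟩

theorem jac_of (J : U81.JacS) : JacS := by
  intro O f f₁ f₂ g g₁ g₂ h h₁ h₂ φ hO hf hg hh hφ
  obtain ⟨F, cF, eF⟩ := hf.ext hO hφ.2.1 hφ.2.2
  obtain ⟨G, cG, eG⟩ := hg.ext hO hφ.2.1 hφ.2.2
  obtain ⟨H, cH, eH⟩ := hh.ext hO hφ.2.1 hφ.2.2
  have c := U81.Test.c1 hφ
  have z : ∀ p, p ∉ tsupport φ → φ p = 0 := fun p hp => image_eq_zero_of_notMem_tsupport hp
  have zd := fun e p hp => U81.pd_off (isClosed_tsupport φ) z e (p := p) hp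
  have a := J φ H c hφ.2.1 cH
  have b := J (fun p => F p * φ p) G (cF.mul c) hφ.2.1.mul_left cG
  have ea : U81.Jc φ H = fun p => h₂ p * pd (ee 0) φ p - h₁ p * pd (ee 1) φ p := by
    funext p
    by_cases hp : p ∈ tsupport φ
    · simp only [U81.Jc, U81.d0, U81.d1, (eH p hp).2.1, (eH p hp).2.2]; ring
    · simp [U81.Jc, U81.d0, U81.d1, zd _ p hp]
  have eb : U81.Jc (fun p => F p * φ p) G = fun p => (f p * g₂ p * pd (ee 0) φ p
      - f p * g₁ p * pd (ee 1) φ p) - (f₂ p * g₁ p - f₁ p * g₂ p) * φ p := by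
    funext p
    simp only [U81.Jc, U81.d0, U81.d1, pd_mul _ (U81.C1.da cF p) (c.da p)]
    by_cases hp : p ∈ tsupport φ
    · simp only [(eG p hp).2.1, (eG p hp).2.2, (eF p hp).2.1, (eF p hp).2.2,
        (eF p hp).1.self_of_nhds]
      ring
    · simp [zd _ p hp, z p hp]
  have i1 := (int_on hO hh.c2 (hφ.pd (ee 0))).sub (int_on hO hh.c1 (hφ.pd (ee 1)))
  have i2 := (int_on hO (hf.cont.mul hg.c2) (hφ.pd (ee 0))).sub
    (int_on hO (hf.cont.mul hg.c1) (hφ.pd (ee 1)))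
  have i3 := int_on hO ((hf.c2.mul hg.c1).sub (hf.c1.mul hg.c2)) hφ
  rw [ea] at a
  rw [eb] at b
  have e := integral_add i1 i2
  have e' := integral_sub i2 i3
  simp only [Pi.sub_apply, Pi.mul_apply] at e e' a b
  rw [a, zero_add] at e
  rw [← sub_eq_zero.1 (e'.symm.trans b), ← e, ← integral_neg]
  exact integral_congr_ae (Eventually.of_forall fun p => by simp only; ring)

theorem rowJg : OfJg := by
  intro cw J O f f₁ f₂ g g₁ g₂ h h₁ h₂ hO hf hg hh
  have c := (hf.c2.mul hg.c1).sub (hf.c1.mul hg.c2)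
  refine ⟨fun e => (cw O _ _ hO (hh.c1.add (hf.cont.mul hg.c1)) c).2 fun φ hφ => ?_,
    fun e => (cw O _ _ hO (hh.c2.add (hf.cont.mul hg.c2))
      ((hf.c1.mul hg.c2).sub (hf.c2.mul hg.c1))).1 fun φ hφ => ?_⟩
  · refine Eq.trans ?_ (J O _ _ _ _ _ _ _ _ _ φ hO hf hg hh hφ)
    refine integral_congr_ae (Eventually.of_forall fun p => ?_)
    by_cases hp : p ∈ O
    · simp [e p hp]
    · simp [(hφ.pd _).off hp]
  · have := J O _ _ _ _ _ _ _ _ _ φ hO hf hg hh hφ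
    rw [← neg_inj, neg_neg, ← integral_neg] at this
    refine Eq.trans ?_ (this.trans ?_)
    · refine integral_congr_ae (Eventually.of_forall fun p => ?_)
      by_cases hp : p ∈ O
      · simp [e p hp]
      · simp [(hφ.pd _).off hp]
    · rw [← integral_neg]
      exact integral_congr_ae (Eventually.of_forall fun p => by simp; ring)

end Pool.Agent.MP_ed9623_an.R46
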