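import Pool.Agent.MP_ed9623_an.R46.LemA
import Pool.Agent.MP_ed9623_an.R46.Jg
import Pool.Agent.MP_ed9623_an.R1.Base
import Pool.Agent.MP_ed9623_an.R10.In

/-! The arc through a nondegenerate touching point, and the first integral. -/

open MeasureTheory Filter Topology Set
open scoped ContDiff

namespace Pool.Agent.MP_ed9623_an.R46

open H64 H77 R77 R1

theorem cone_of {Z : Set P} {Φ : P → ℝ} (h : Tc Z 0 Φ) (a : pd (ee 0) Φ 0 = 0)
    (b : pd (ee 1) Φ 0 < 0) : Cone Z := by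
  intro κ κ0
  have d := (h.c1.differentiable (by simp) 0).hasFDerivAt
  set c := -pd (ee 1) Φ 0 with hc
  have c0 : 0 < c := by linarith
  obtain ⟨ε, e0, he⟩ := Metric.eventually_nhds_iff.1 (h.up.and
    (d.isLittleO.def (show 0 < c / (2 * (1 + κ⁻¹)) by positivity)))
  refine ⟨ε, e0, fun z hz h2 => ?_⟩
  rw [Q_eq_ball] at hz
  obtain ⟨u, v⟩ := he hz
  have e : fderiv ℝ Φ 0 z = -c * z.2 := by
    have := pd_dir Φ z 0
    rw [a] at this
    rw [hc]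
    exact this.trans (by ring)
  have n0 : 0 < -z.2 := by nlinarith [abs_nonneg z.1]
  have n1 : ‖z‖ ≤ (1 + κ⁻¹) * -z.2 := by
    have k : 0 ≤ κ⁻¹ * -z.2 := by positivity
    refine max_le ?_ ?_
    · have : |z.1| ≤ κ⁻¹ * -z.2 := by rw [← div_eq_inv_mul, le_div_iff₀ κ0]; linarith
      rw [Real.norm_eq_abs]; linarith
    · rw [Real.norm_eq_abs, abs_of_neg (by linarith)]; linarith
  rw [sub_zero, e, Real.norm_eq_abs] at v
  have w := mul_le_mul_of_nonneg_left n1 (show 0 ≤ c / (2 * (1 + κ⁻¹)) by positivity)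
  have w' : c / (2 * (1 + κ⁻¹)) * ((1 + κ⁻¹) * -z.2) = c * -z.2 / 2 := by field_simp
  have := mul_pos c0 n0
  exact u (by linarith [(abs_le.1 v).1])

theorem cc_line {r : ℝ} {f : P → ℝ} (r0 : 0 < r) (h : CC r f) :
    ContDiffOn ℝ ∞ (fun x => f (x, 0)) (Ioo (-r) r) := by
  have m : ∀ x ∈ Ioo (-r) r, ((x, 0) : P) ∈ Q r := fun x hx => ⟨hx, by linarith, r0⟩
  refine contDiffOn_infty.2 fun n => ?_
  induction n generalizing f with
  | zero => exact contDiffOn_zero.2 ((h 0).hq.cont.comp (by fun_prop) m)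
  | succ n ih =>
    exact (contDiffOn_succ_iff_deriv_of_isOpen (n := n) isOpen_Ioo).2 ⟨fun x hx =>
      ((h 1).2.1 _ (m x hx)).differentiableAt.differentiableWithinAt,
      fun e => absurd e (by simp), ih fun k => (h (k + 1)).2.2⟩

theorem cut_line {U : Set ℝ} {f : ℝ → ℝ} {x : ℝ} (hU : IsOpen U) (h : ContDiffOn ℝ ∞ f U)
    (hx : x ∈ U) : ∃ γ : ℝ → ℝ, ContDiff ℝ ∞ γ ∧ γ =ᶠ[𝓝 x] f := by
  obtain ⟨δ, δ0, hδ⟩ := Metric.nhds_basis_closedBall.mem_iff.1 (hU.mem_nhds hx)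
  let β : ContDiffBump x := ⟨δ / 2, δ, half_pos δ0, half_lt_self δ0⟩
  refine ⟨fun s => β s * f s, contDiff_iff_contDiffAt.2 fun s => ?_,
    β.eventuallyEq_one.mono fun s hs => by simp only [hs, Pi.one_apply, one_mul]⟩
  by_cases hs : s ∈ U
  · exact β.contDiff.contDiffAt.mul (h.contDiffAt (hU.mem_nhds hs))
  · refine (contDiffAt_const (c := 0)).congr_of_eventuallyEq ?_
    have : s ∉ tsupport β := fun e => hs (hδ (β.tsupport_eq ▸ e))
    filter_upwards [notMem_tsupport_iff_eventuallyEq.1 this] with t ht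
    rw [ht, Pi.zero_apply, zero_mul]

theorem C1.map_graph {B : Set P} {Y u n : P → ℝ} (h : C1 B Y u n) (o : IsOpen B) {p : P}
    (hp : p ∈ B) (n0 : n p ≠ 0) : map (fun p : P => ((p.1, Y p) : P)) (𝓝 p) = 𝓝 (p.1, Y p) := by
  have s := ((h.cd o).contDiffAt (o.mem_nhds hp)).hasStrictFDerivAt one_ne_zero
  rw [(h.fd p hp).fderiv] at s
  refine (hasStrictFDerivAt_fst.prodMk s).map_nhds_eq_of_surj (LinearMap.range_eq_top.2 fun v =>
    ⟨(v.1, (v.2 - u p * v.1) / n p), Prod.ext rfl ?_⟩)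
  simp
  field_simp
  ring

theorem wIn (ch : ChartS) (la : LemAS) (tou : TouchS) (hz' : CzS) : R10.InS := by
  intro n O Z ps al pr Φ lx o tc e1 e2 e3 e4
  have cZ := cone_of tc e1 e2
  have cl : (0 : P) ∈ closure Z := by
    obtain ⟨ε, e0, he⟩ := cZ 1 one_pos
    have t : Tendsto (fun σ : ℝ => ((0, σ) : P)) (𝓝[<] 0) (𝓝 0) :=
      (Continuous.tendsto' (by fun_prop) _ _ rfl).mono_left nhdsWithin_le_nhds
    refine mem_closure_of_tendsto t ?_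
    filter_upwards [Ioo_mem_nhdsLT (show -ε < 0 by linarith)] with σ hσ
    exact he _ ⟨⟨by linarith, e0⟩, hσ.1, by linarith [hσ.2]⟩ (by simpa using hσ.2)
  obtain ⟨t, ht⟩ := ex_exists lx.n0 e4
  obtain ⟨a, a0, ha⟩ := Metric.isOpen_iff.1 lx.oO 0 o
  rw [← Q_eq_ball] at ha
  obtain ⟨a₀, ps', al', pr', c, ε, l, m, s, r₁, K, Θ, Ξ, m₁, m₂, a1, hJ, hS, hN, hC⟩ :=
    ch a (ps t) (al t) (pr t) a0 ((lx.tj t).mono ha)
      (by rw [hz' n O Z ps al pr lx.l0 t 0 2 0 (Or.inr rfl) 0 ⟨o, cl⟩, e3]; simp)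
      (by rwa [hz' n O Z ps al pr lx.l0 t 0 1 1 (Or.inr rfl) 0 ⟨o, cl⟩])
  have sub := (Q_mono a1).trans ha
  have eZ : Z0 al' = Z0 (al t) := by
    have u := fun j => (hS (.al j) 1 0).1 (al_ord j)
    have v := fun j => (hS (.al j) 0 1).1 (al_ord j)
    simp only [pk] at u v
    simp only [Z0, u, v]
  have zz : O ∩ Z ⊆ Z0 al' := fun z hz => eZ ▸ fun j =>
    ⟨lx.za t j 1 0 rfl z hz, lx.za t j 0 1 rfl z hz⟩
  have mj : ∀ x ∈ O ∩ closure Z, Z0 al' ∈ 𝓝 x → x ∈ Z := fun x hx h =>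
    lx.mj x hx t (show Z0 (al t) ∈ 𝓝 x from eZ ▸ h)
  obtain ⟨r, Y, nn, hO⟩ := la _ _ _ _ _ _ _ _ _ _ _ _ _ _ _ hJ hN hC fun κ κ0 =>
    let ⟨e, e0, he⟩ := cZ κ κ0
    ⟨min e a, lt_min e0 a0, fun z hz h => zz ⟨ha (Q_mono (min_le_right _ _) hz),
      he z (Q_mono (min_le_left _ _) hz) h⟩⟩
  have r0 := hO.r0
  have oQ := isOpen_Q r
  obtain ⟨c₁, c0, hc⟩ := hO.n0
  have cG : ContinuousOn (fun p : P => ((p.1, Y p) : P)) (Q r) := continuousOn_fst.prodMk hO.cY.cont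
  have mg := fun p hp => hO.cY.map_graph oQ (p := p) hp (c0.trans_le (hc p hp)).ne'
  have mono : ∀ x ∈ Ioo (-r) r, StrictMonoOn (fun e => Y (x, e)) (Ioo (-r) r) := fun x hx =>
    strictMonoOn_of_deriv_pos (convex_Ioo _ _)
      (fun e he => (hO.cY.d2 (x, e) ⟨hx, he⟩).continuousAt.continuousWithinAt) fun e he => by
        rw [interior_Ioo] at he
        rw [(hO.cY.d2 (x, e) ⟨hx, he⟩).deriv]
        exact c0.trans_le (hc _ ⟨hx, he⟩)
  have z0 : (0 : ℝ) ∈ Ioo (-r) r := ⟨by linarith, r0⟩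
  have sB : Bx (-r) r (-r) 0 ⊆ Q r := fun p hp => ⟨hp.1, hp.2.1, hp.2.2.trans r0⟩
  have low : Bx (-r) r (-r) 0 ⊆ Bx (-r) r (-r) 0 ∩ (fun p : P => ((p.1, Y p) : P)) ⁻¹' Z := by
    refine (isPreconnected_Ioo.prod isPreconnected_Ioo).subset_of_closure_inter_subset
      ((cG.mono sB).isOpen_inter_preimage (isOpen_Bx _ _ _ _) lx.oZ) ?_ fun p hp => ⟨hp.2, ?_⟩
    · obtain ⟨e, e0, he⟩ := cZ 1 one_pos
      have t : Tendsto (fun σ : ℝ => ((0, σ) : P)) (𝓝[<] 0) (𝓝 0) :=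
        (Continuous.tendsto' (by fun_prop) _ _ rfl).mono_left nhdsWithin_le_nhds
      have t' := ((cG.continuousAt (oQ.mem_nhds (show (0 : P) ∈ Q r from ⟨z0, z0⟩))).tendsto.comp
        t).eventually ((isOpen_Q e).mem_nhds (mem_Q.2 (by simpa [hO.y0] using e0)))
      obtain ⟨σ, h1, h2⟩ := (t'.and (Ioo_mem_nhdsLT (show -r < 0 by linarith))).exists
      refine ⟨(0, σ), ⟨z0, h2⟩, ⟨z0, h2⟩, he _ h1 ?_⟩
      have := mono 0 z0 ⟨h2.1, h2.2.trans r0⟩ z0 h2.2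
      simp only [show Y (0, 0) = 0 from hO.y0] at this
      simpa using this
    · refine mj _ ⟨sub (hO.mp p (sB hp.2)), ?_⟩ ?_
      · exact closure_mono (image_subset_iff.2 inter_subset_right) (mem_closure_image
          (f := fun p : P => ((p.1, Y p) : P)) (cG.continuousAt (oQ.mem_nhds (sB hp.2))) hp.1)
      · rw [← mg p (sB hp.2), mem_map]
        exact mem_of_superset ((isOpen_Bx _ _ _ _).mem_nhds hp.2) fun q hq =>
          hO.zs q (sB hq) hq.2.2.le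
  have low' : ∀ p ∈ Q r, p.2 < 0 → ((p.1, Y p) : P) ∈ Z := fun p hp h => (low ⟨hp.1, hp.2.1, h⟩).2
  have nm : ∀ x ∈ Ioo (-r) r, ((x, Y (x, 0)) : P) ∉ Z := fun x hx h => tc.nm (mj 0 ⟨o, cl⟩
    (mem_interior_iff_mem_nhds.1 (hO.ed ⟨x, abs_lt.2 hx, mem_interior_iff_mem_nhds.2
      (mem_of_superset ((lx.oO.inter lx.oZ).mem_nhds ⟨sub (hO.mp (x, 0) ⟨hx, z0⟩), h⟩) zz)⟩)))
  have hd : ∀ x ∈ Ioo (-r) r, HasDerivAt (fun x => Y (x, 0)) (l (x, Y (x, 0))) x := fun x hx =>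
    hO.cY.d1 (x, 0) ⟨hx, z0⟩
  have sm : ContDiffOn ℝ ∞ (fun x => Y (x, 0)) (Ioo (-r) r) :=
    (contDiffOn_infty_iff_deriv_of_isOpen isOpen_Ioo).2 ⟨fun x hx =>
      (hd x hx).differentiableAt.differentiableWithinAt,
      (cc_line r0 hO.cl).congr fun x hx => (hd x hx).deriv⟩
  have key : ∀ x ∈ Ioo (-r) r, ∃ γ : ℝ → ℝ, ContDiff ℝ ∞ γ ∧ (∀ᶠ s in 𝓝 x, γ s = Y (s, 0)) ∧
      HasDerivAt γ (l (x, Y (x, 0))) x ∧
      ∀ᶠ y in 𝓝 ((x, Y (x, 0)) : P), y.2 < γ y.1 → y ∈ Z := fun x hx => by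
    obtain ⟨γ, g1, g2⟩ := cut_line isOpen_Ioo sm hx
    refine ⟨γ, g1, g2, (hd x hx).congr_of_eventuallyEq g2, ?_⟩
    rw [← mg (x, 0) ⟨hx, z0⟩, eventually_map]
    filter_upwards [oQ.mem_nhds (show ((x, 0) : P) ∈ Q r from ⟨hx, z0⟩),
      (continuous_fst.tendsto ((x, 0) : P)).eventually g2] with q h1 h2 h3
    rw [h2] at h3
    exact low' q h1 (((mono q.1 h1.1).lt_iff_lt h1.2 z0).1 h3)
  refine ⟨t, a₀, r, ps', al', pr', c, ε, l, m, s, Y, nn, ⟨lx, sub, hJ, hS, hN, hO, low',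
    fun x hx => ?_⟩, ?_⟩
  · obtain ⟨γ, g1, g2, g3, g4⟩ := key x (abs_lt.1 hx)
    have mp := hO.mp (x, 0) ⟨abs_lt.1 hx, z0⟩
    have d : HasFDerivAt (fun y : P => γ y.1 - y.2) (lf (l (x, Y (x, 0))) (-1)) (x, Y (x, 0)) :=
      ((HasDerivAt.comp_hasFDerivAt (x, Y (x, 0)) g3 hasFDerivAt_fst).sub
        hasFDerivAt_snd).congr_fderiv (ContinuousLinearMap.ext fun v => by simp; ring)
    have := tou n O Z ps al pr _ (fun y => γ y.1 - y.2) t lx.toLz (sub mp)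
      ⟨nm x (abs_lt.1 hx), ((contDiff_infty.1 g1 1).comp contDiff_fst).sub contDiff_snd,
        Or.inr (by rw [pd1_of d]; norm_num), g4.mono fun y h h' => h (by
          simp only [g2.self_of_nhds] at h'; linarith)⟩ (by
        have u := (hN.ds _ mp).1
        have v := fun a b (e : a + b < 3) => (hS (.ps 0) a b).1 e
        simp only [pk] at v
        rw [v 1 1 (by omega), v 2 0 (by omega), v 0 2 (by omega)] at u
        have := hN.c0
        rw [R77.dt]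
        linarith)
    rwa [pd0_of d, pd1_of d, neg_neg] at this
  · obtain ⟨γ, g1, g2, g3, g4⟩ := key 0 z0
    have y0 : Y (0, 0) = 0 := hO.y0
    rw [y0] at g3 g4
    refine ⟨⟨γ, g1⟩, g2, g3.deriv.trans hN.l0, ⟨(g2.self_of_nhds.trans y0).symm, g4⟩, ?_⟩
    filter_upwards [(continuous_fst.tendsto (0 : P)).eventually (g2.and (isOpen_Ioo.mem_nhds z0))]
      with y h h'
    have := nm y.1 h.2
    rwa [← h.1, ← h'] at this

theorem wEta (ch : ChartS) (xi : XiS) : EtaS := by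
  intro O ps al pr x o hx tj e1 e2
  have hτ : ((1, 0) : P).1 ^ 2 + ((1, 0) : P).2 ^ 2 = 1 := by norm_num
  obtain ⟨a, a0, ha⟩ := Metric.isOpen_iff.1 (o.preimage (ct_mo x (1, 0))) 0
    (show mo x (1, 0) 0 ∈ O by rwa [mo_zero])
  rw [← Q_eq_ball] at ha
  obtain ⟨a₀, ps', al', pr', c, ε, l, m, s, r, K, Θ, Ξ, m₁, m₂, -, -, hS, hN, hC⟩ :=
    ch a _ _ _ a0 ((tj.rot x hτ).mono ha) (by simp [rot20, mo_zero, e1])
      (by simpa [rot11, mo_zero] using e2)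
  obtain ⟨oU, -, cη⟩ := xi _ _ _ _ _ _ _ _ _ hC
  have z : (0 : P) ∈ Q r := mem_Q.2 (by simpa using hC.r0)
  have z' : (0 : P) ∈ Θ '' Q r := ⟨0, z, hC.z0⟩
  have oU := oU r le_rfl
  obtain ⟨F, cF, eF⟩ := cη.ext oU isCompact_singleton (singleton_subset_iff.2 z')
  obtain ⟨f0, f1, f2⟩ := eF 0 rfl
  have pe : ∀ e y, pd e (fun y => F (y - x)) y = pd e F (y - x) := fun e y => by
    simp only [pd, fderiv_comp_sub]
  have x0 : Ξ 0 = 0 := by simpa only [hC.z0] using hC.inv 0 z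
  refine ⟨fun y => F (y - x), cF.comp (contDiff_id.sub contDiff_const), ?_, ?_, ?_⟩
  · rw [pe, sub_self, f1, hN.l0]; simp
  · have K0 : 0 < 1 / K := by have := hC.K1; positivity
    have u := hC.lo 0 z
    rw [pe, sub_self, f2, x0]
    exact div_pos (K0.trans_le u.1) (mul_pos (mul_pos (K0.trans_le u.1) (K0.trans_le u.2.1))
      (by linarith [(abs_le.1 u.2.2).2]))
  · have t : Tendsto (fun y => y - x) (𝓝 x) (𝓝 0) := Continuous.tendsto' (by fun_prop) _ _ (by simp)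
    filter_upwards [t.eventually (f0.eventually_nhds.and (oU.mem_nhds z'))] with y h
    obtain ⟨p, hp, e⟩ := id h.2
    have u := (hN.alg (e ▸ hC.mp p hp)).2.2.2.1
    have v := fun a b (e : a + b < 3) => (hS (.ps 0) a b).1 e
    have w : mo x (1, 0) (y - x) = y := by simp [mo_apply]
    simp only [pk] at v
    simp only [h11, v 1 1 (by omega), v 2 0 (by omega), v 0 2 (by omega), rot20, rot11, rot02, w] at u
    rw [pe, pe, pd_congr_pt _ h.1, pd_congr_pt _ h.1, cη.pd0 h.2, cη.pd1 h.2, hs]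
    linear_combination (m₁ (Ξ (y - x)) / Jc l m Θ m₁ m₂ (Ξ (y - x))) ^ 2 * u

end Pool.Agent.MP_ed9623_an.R46
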