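import Pool.Agent.MP_ed9623_an.R46.Crt

/-! The transport equations in the chart, and the functions that gain a level for free. -/

open MeasureTheory Filter Topology Set

namespace Pool.Agent.MP_ed9623_an.R46

open H64 H77 R77

/-- The data of the chart. -/
structure Dt where
  a : ℝ
  c : ℝ
  ε : ℝ
  r : ℝ
  K : ℝ
  ps : ℕ → J2
  al : ℕ → J2
  pr : ℕ → J2
  l : P → ℝ
  m : P → ℝ
  s : P → ℝ
  m₁ : P → ℝ
  m₂ : P → ℝ
  Θ : P → P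
  Ξ : P → P
  hJ : CJ a ps al pr
  hN : Nu a c ε (ps 0) l m s
  hC : Co a r K l m Θ Ξ m₁ m₂
  cl : C1 (Q a) l (lx (ps 0) l s) (ly (ps 0) l s)
  cm : C1 (Q a) m (mx (ps 0) m s) (my (ps 0) m s)
  qs : Hq (Q a) s

namespace Dt

variable (D : Dt) {F F₁ F₂ : P → ℝ} {k : ℕ} {r' : ℝ}

def t (F : P → ℝ) : P → ℝ := fun p => F (D.Θ p)
def x₂ : P → ℝ := fun p => D.m₂ p * D.m (D.Θ p)
def y₁ : P → ℝ := fun p => D.m₁ p * D.l (D.Θ p)
def dx (F₁ F₂ : P → ℝ) : P → ℝ := fun p => F₁ (D.Θ p) * D.m₁ p + F₂ (D.Θ p) * D.y₁ p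
def dy (F₁ F₂ : P → ℝ) : P → ℝ := fun p => F₁ (D.Θ p) * D.x₂ p + F₂ (D.Θ p) * D.m₂ p
def w : P → ℝ := fun p => 1 - D.l (D.Θ p) * D.m (D.Θ p)
def J : P → ℝ := fun p => D.m₁ p * D.m₂ p * D.w p
def n₁ : P → ℝ := fun p => D.m₁ p * D.w p
def n₂ : P → ℝ := fun p => D.m₂ p * D.w p
def pp : P → ℝ := fun p => D.m₁ p * h11 (D.al 0) D.l (D.Θ p)
def rr : P → ℝ := fun p => D.m₂ p * h22 (D.al 0) D.m (D.Θ p)
noncomputable def Lx : P → ℝ := D.dx (lx (D.ps 0) D.l D.s) (ly (D.ps 0) D.l D.s)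
noncomputable def Ly : P → ℝ := D.dy (lx (D.ps 0) D.l D.s) (ly (D.ps 0) D.l D.s)
noncomputable def Mx : P → ℝ := D.dx (mx (D.ps 0) D.m D.s) (my (D.ps 0) D.m D.s)
noncomputable def My : P → ℝ := D.dy (mx (D.ps 0) D.m D.s) (my (D.ps 0) D.m D.s)
def j (i : Ix) (u v : ℕ) : P → ℝ := D.t (pk D.ps D.al D.pr i u v)

/-- The level hypothesis. -/
structure H (k : ℕ) (r' : ℝ) : Prop where
  m₁ : Lv (Q r') k D.m₁
  m₂ : Lv (Q r') k D.m₂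
  l : Lv (Q r') k (D.t D.l)
  m : Lv (Q r') k (D.t D.m)
  s : Lv (Q r') k (D.t D.s)
  j : ∀ (i : Ix) (u v : ℕ), u + v ≤ i.ord → Lv (Q r') k (D.j i u v)

theorem K0 : 0 < D.K := one_pos.trans_le D.hC.K1

theorem chain (h : C1 (Q D.a) F F₁ F₂) : C1 (Q D.r) (D.t F) (D.dx F₁ F₂) (D.dy F₁ F₂) :=
  h.comp D.hC.cx D.hC.cy D.hC.mp

theorem hq_t (h : Hq (Q D.a) F) : Hq (Q D.r) (D.t F) :=
  let ⟨_, a, b⟩ := h
  ⟨_, mul_nonneg a D.K0.le, b.comp a D.hC.K1 D.hC.mp fun p hp q hq => (D.hC.lip p hp q hq).1⟩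

theorem H0 : D.H 0 D.r :=
  ⟨⟨_, D.K0.le, D.hC.h1⟩, ⟨_, D.K0.le, D.hC.h2⟩, ⟨_, D.K0.le, D.hC.hl⟩, ⟨_, D.K0.le, D.hC.hm⟩,
    D.hq_t D.qs, fun i u v e => D.hq_t (D.hJ.ho i u v e)⟩

theorem H.mono {D : Dt} {ρ : ℝ} (h : D.H k r') (e : ρ ≤ r') : D.H k ρ :=
  have s := Q_mono e
  ⟨h.m₁.mono s, h.m₂.mono s, h.l.mono s, h.m.mono s, h.s.mono s, fun i u v b => (h.j i u v b).mono s⟩

theorem lo_w : ∀ p ∈ Q D.r, 1 / 2 ≤ |D.w p| := fun p hp => by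
  have := abs_le.1 (D.hC.lo p hp).2.2
  exact le_trans (by simp only [w]; linarith) (le_abs_self _)

theorem lo_1 : ∀ p ∈ Q D.r, 1 / D.K ≤ |D.m₁ p| := fun p hp =>
  (D.hC.lo p hp).1.trans (le_abs_self _)

theorem lo_2 : ∀ p ∈ Q D.r, 1 / D.K ≤ |D.m₂ p| := fun p hp =>
  (D.hC.lo p hp).2.1.trans (le_abs_self _)

theorem lo_J : ∀ p ∈ Q D.r, 1 / D.K * (1 / D.K) * (1 / 2) ≤ |D.J p| := fun p hp => by
  have := D.K0
  rw [J, abs_mul, abs_mul]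
  exact mul_le_mul (mul_le_mul (D.lo_1 p hp) (D.lo_2 p hp) (by positivity) (abs_nonneg _))
    (D.lo_w p hp) (by positivity) (by positivity)

theorem lo_s : ∀ p ∈ Q D.r, √D.c ≤ |2 * D.t D.s p| := fun p hp => by
  have := Real.sqrt_le_sqrt (D.hN.alg (D.hC.mp p hp)).2.1
  rw [Real.sqrt_sq_eq_abs] at this
  rw [abs_mul, abs_two, t]
  linarith [abs_nonneg (D.s (D.Θ p))]

theorem ne_w {p : P} (hp : p ∈ Q D.r) : D.w p ≠ 0 :=
  abs_pos.1 (lt_of_lt_of_le (by norm_num) (D.lo_w p hp))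

theorem ne_1 {p : P} (hp : p ∈ Q D.r) : D.m₁ p ≠ 0 :=
  abs_pos.1 (lt_of_lt_of_le (by have := D.K0; positivity) (D.lo_1 p hp))

theorem ne_2 {p : P} (hp : p ∈ Q D.r) : D.m₂ p ≠ 0 :=
  abs_pos.1 (lt_of_lt_of_le (by have := D.K0; positivity) (D.lo_2 p hp))

theorem solve1 (F₁ F₂ : P → ℝ) : EqOn (fun p => (D.dx F₁ F₂ p * D.m₂ p - D.dy F₁ F₂ p * D.y₁ p)
    / D.J p) (D.t F₁) (Q D.r) := fun p hp => by
  have := D.ne_w hp
  have := D.ne_1 hp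
  have := D.ne_2 hp
  simp only [J, t]
  field_simp
  simp only [dx, dy, x₂, y₁, w]
  ring

theorem solve2 (F₁ F₂ : P → ℝ) : EqOn (fun p => (D.dy F₁ F₂ p * D.m₁ p - D.dx F₁ F₂ p * D.x₂ p)
    / D.J p) (D.t F₂) (Q D.r) := fun p hp => by
  have := D.ne_w hp
  have := D.ne_1 hp
  have := D.ne_2 hp
  simp only [J, t]
  field_simp
  simp only [dx, dy, x₂, y₁, w]
  ring

theorem h12_zero {p : P} (hp : p ∈ Q D.r) : h12 (D.al 0) D.l D.m (D.Θ p) = 0 := by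
  have a := D.hN.alg (D.hC.mp p hp)
  have b := D.hJ.l 0 _ (D.hC.mp p hp)
  simp only [zero_add, Finset.range_one, Finset.sum_singleton, Nat.choose_self, Nat.cast_one,
    one_mul, Nat.sub_self, a.2.2.2.2.2.2.2 (D.al 0)] at b
  exact (mul_eq_zero.1 b).resolve_left (neg_ne_zero.2 a.1)

theorem c10 : C1 (Q D.r) (D.j (.al 0) 1 0) (D.dx (D.al 0 2 0) (D.al 0 1 1))
    (D.dy (D.al 0 2 0) (D.al 0 1 1)) := D.chain (D.hJ.c1 (.al 0) 1 0 (by decide))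

theorem c01 : C1 (Q D.r) (D.j (.al 0) 0 1) (D.dx (D.al 0 1 1) (D.al 0 0 2))
    (D.dy (D.al 0 1 1) (D.al 0 0 2)) := D.chain (D.hJ.c1 (.al 0) 0 1 (by decide))

theorem tr_n₁ (jg : JgS) : D2 (Q D.r) D.n₁ fun p => D.Mx p * D.m₂ p - D.My p * D.y₁ p :=
  ((jg _ _ _ _ _ _ _ _ _ _ (isOpen_Q _) (D.chain D.cm).neg D.hC.cy D.hC.cx).1 fun p _ => by
    simp only [t]; ring).congr (isOpen_Q _) (fun p _ => by simp only [t, n₁, w]; ring)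
    fun p _ => by simp only [Mx, My, y₁]; ring

theorem tr_n₂ (jg : JgS) : D1 (Q D.r) D.n₂ fun p => D.Ly p * D.m₁ p - D.Lx p * D.x₂ p :=
  ((jg _ _ _ _ _ _ _ _ _ _ (isOpen_Q _) (D.chain D.cl).neg D.hC.cx D.hC.cy).2 fun p _ => by
    simp only [t]; ring).congr (isOpen_Q _) (fun p _ => by simp only [t, n₂, w]; ring)
    fun p _ => by simp only [Lx, Ly, x₂]; ring

theorem tr_p (jg : JgS) : D2 (Q D.r) D.pp fun p => D.Ly p * D.dx (D.al 0 1 1) (D.al 0 0 2) p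
    - D.Lx p * D.dy (D.al 0 1 1) (D.al 0 0 2) p :=
  ((jg _ _ _ _ _ _ _ _ _ _ (isOpen_Q _) (D.chain D.cl) D.c01 D.c10).1 fun p hp => by
    have := D.h12_zero hp
    simp only [t, dy, x₂, h12] at this ⊢
    linear_combination D.m₂ p * this).congr (isOpen_Q _)
    (fun p _ => by simp only [t, pp, dx, y₁, h11]; ring) fun _ _ => rfl

theorem tr_r (jg : JgS) : D1 (Q D.r) D.rr fun p => D.Mx p * D.dy (D.al 0 2 0) (D.al 0 1 1) p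
    - D.My p * D.dx (D.al 0 2 0) (D.al 0 1 1) p :=
  ((jg _ _ _ _ _ _ _ _ _ _ (isOpen_Q _) (D.chain D.cm) D.c10 D.c01).2 fun p hp => by
    have := D.h12_zero hp
    simp only [t, dx, y₁, h12] at this ⊢
    linear_combination D.m₁ p * this).congr (isOpen_Q _)
    (fun p _ => by simp only [t, rr, dy, x₂, h22]; ring) fun _ _ => rfl

theorem eq20 : EqOn (fun p => (D.pp p / D.m₁ p + D.t D.l p ^ 2 * (D.rr p / D.m₂ p)) / D.w p / D.w p)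
    (D.j (.al 0) 2 0) (Q D.r) := fun p hp => by
  have := D.ne_w hp
  have := D.ne_1 hp
  have := D.ne_2 hp
  have e := D.h12_zero hp
  simp only [pp, rr, j, t, pk]
  field_simp
  simp only [h11, h12, h22, w] at e ⊢
  linear_combination (2 * D.l (D.Θ p)) * e

theorem eq11 : EqOn (fun p => -(D.t D.m p * (D.pp p / D.m₁ p) + D.t D.l p * (D.rr p / D.m₂ p))
    / D.w p / D.w p) (D.j (.al 0) 1 1) (Q D.r) := fun p hp => by
  have := D.ne_w hp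
  have := D.ne_1 hp
  have := D.ne_2 hp
  have e := D.h12_zero hp
  simp only [pp, rr, j, t, pk]
  field_simp
  simp only [h11, h12, h22, w] at e ⊢
  linear_combination (-(1 + D.l (D.Θ p) * D.m (D.Θ p))) * e

theorem eq02 : EqOn (fun p => (D.t D.m p ^ 2 * (D.pp p / D.m₁ p) + D.rr p / D.m₂ p) / D.w p / D.w p)
    (D.j (.al 0) 0 2) (Q D.r) := fun p hp => by
  have := D.ne_w hp
  have := D.ne_1 hp
  have := D.ne_2 hp
  have e := D.h12_zero hp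
  simp only [pp, rr, j, t, pk]
  field_simp
  simp only [h11, h12, h22, w] at e ⊢
  linear_combination (2 * D.m (D.Θ p)) * e

section level

variable {D} (h : D.H k r') (hr : r' ≤ D.r)
include h

theorem H.w : Lv (Q r') k D.w :=
  (Lv.const _ _ 1).sub (isOpen_Q _) (h.l.mul (isOpen_Q _) h.m)

theorem H.x₂ : Lv (Q r') k D.x₂ := h.m₂.mul (isOpen_Q _) h.m

theorem H.y₁ : Lv (Q r') k D.y₁ := h.m₁.mul (isOpen_Q _) h.l

theorem H.J : Lv (Q r') k D.J := (h.m₁.mul (isOpen_Q _) h.m₂).mul (isOpen_Q _) h.w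

theorem H.dx (a : Lv (Q r') k (D.t F₁)) (b : Lv (Q r') k (D.t F₂)) : Lv (Q r') k (D.dx F₁ F₂) :=
  (a.mul (isOpen_Q _) h.m₁).add (isOpen_Q _) (b.mul (isOpen_Q _) h.y₁)

theorem H.dy (a : Lv (Q r') k (D.t F₁)) (b : Lv (Q r') k (D.t F₂)) : Lv (Q r') k (D.dy F₁ F₂) :=
  (a.mul (isOpen_Q _) h.x₂).add (isOpen_Q _) (b.mul (isOpen_Q _) h.m₂)

include hr

theorem H.q1 {f₀ f₁ f₂ z : P → ℝ} (a : Lv (Q r') k f₀) (b : Lv (Q r') k f₁) (c : Lv (Q r') k f₂)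
    (e : Lv (Q r') k z) :
    (Lv (Q r') k fun p => -(f₀ p + 2 * z p * f₁ p + z p ^ 2 * f₂ p) / (2 * D.t D.s p)) ∧
    Lv (Q r') k fun p => -(z p ^ 2 * f₀ p + 2 * z p * f₁ p + f₂ p) / (2 * D.t D.s p) :=
  have o := isOpen_Q r'
  ⟨(((a.add o ((e.cmul o 2).mul o b)).add o ((e.sq o).mul o c)).neg o).div o (h.s.cmul o 2)
    (Real.sqrt_pos.2 D.hN.c0) fun p hp => D.lo_s p (Q_mono hr hp),
  (((((e.sq o).mul o a).add o ((e.cmul o 2).mul o b)).add o c).neg o).div o (h.s.cmul o 2)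
    (Real.sqrt_pos.2 D.hN.c0) fun p hp => D.lo_s p (Q_mono hr hp)⟩

theorem H.sl : Lv (Q r') k D.Lx ∧ Lv (Q r') k D.Ly ∧ Lv (Q r') k D.Mx ∧ Lv (Q r') k D.My :=
  have a := h.j (.ps 0) 3 0 le_rfl
  have b := h.j (.ps 0) 2 1 le_rfl
  have c := h.j (.ps 0) 1 2 le_rfl
  have d := h.j (.ps 0) 0 3 le_rfl
  ⟨h.dx (h.q1 hr a b c h.l).1 (h.q1 hr b c d h.l).1, h.dy (h.q1 hr a b c h.l).1
    (h.q1 hr b c d h.l).1, h.dx (h.q1 hr a b c h.m).2 (h.q1 hr b c d h.m).2,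
    h.dy (h.q1 hr a b c h.m).2 (h.q1 hr b c d h.m).2⟩

theorem H.low (i : Ix) (u v : ℕ) (e : u + v < i.ord) : Lv (Q r') (k + 1) (D.j i u v) :=
  Lv.of_D1 (isOpen_Q _) (h.j i u v e.le).hq ((D.chain (D.hJ.c1 i u v e)).d1.mono (Q_mono hr))
    (h.dx (h.j i (u + 1) v (by omega)) (h.j i u (v + 1) (by omega)))

theorem H.l' : Lv (Q r') (k + 1) (D.t D.l) :=
  Lv.of_D1 (isOpen_Q _) h.l.hq ((D.chain D.cl).d1.mono (Q_mono hr)) (h.sl hr).1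

theorem H.m' : Lv (Q r') (k + 1) (D.t D.m) :=
  Lv.of_D1 (isOpen_Q _) h.m.hq ((D.chain D.cm).d1.mono (Q_mono hr)) (h.sl hr).2.2.1

theorem H.s' : Lv (Q r') (k + 1) (D.t D.s) :=
  ((h.low hr (.ps 0) 1 1 (by decide)).add (isOpen_Q _) ((h.l' hr).mul (isOpen_Q _)
    (h.low hr (.ps 0) 0 2 (by decide)))).congr (isOpen_Q _) fun p hp =>
    (D.hN.alg (D.hC.mp p (Q_mono hr hp))).2.2.2.2.2.1

theorem H.w' : Lv (Q r') (k + 1) D.w :=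
  (Lv.const _ _ 1).sub (isOpen_Q _) ((h.l' hr).mul (isOpen_Q _) (h.m' hr))

theorem H.m₂' (jg : JgS) : Lv (Q r') (k + 1) D.m₂ :=
  have o := isOpen_Q r'
  ((Lv.of_D1 o (h.m₂.mul o h.w).hq ((D.tr_n₂ jg).mono (Q_mono hr))
    (((h.sl hr).2.1.mul o h.m₁).sub o ((h.sl hr).1.mul o h.x₂))).div o (h.w' hr) one_half_pos
    fun p hp => D.lo_w p (Q_mono hr hp)).congr o fun _ hp =>
      mul_div_cancel_right₀ _ (D.ne_w (Q_mono hr hp))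

theorem H.rr' (jg : JgS) : Lv (Q r') (k + 1) D.rr :=
  have o := isOpen_Q r'
  have a := h.j (.al 0) 2 0 le_rfl
  have b := h.j (.al 0) 1 1 le_rfl
  have c := h.j (.al 0) 0 2 le_rfl
  Lv.of_D1 o (h.m₂.mul o ((((h.m.sq o).mul o a).add o ((h.m.cmul o 2).mul o b)).add o c)).hq
    ((D.tr_r jg).mono (Q_mono hr))
    (((h.sl hr).2.2.1.mul o (h.dy a b)).sub o ((h.sl hr).2.2.2.mul o (h.dx a b)))

end level

end Dt

end Pool.Agent.MP_ed9623_an.R46
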