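import Pool.Agent.MP_ed9623_an.R46.Tau

/-! The elliptic system for the top difference quotients. -/

open MeasureTheory Filter Topology Set

namespace Pool.Agent.MP_ed9623_an.R46

open H64 H77 R77

theorem four {k : ℕ} {r' ρ₁ N : ℝ} {u₁ u₂ u₃ u₄ y₁ y₂ y₃ y₄ : P → ℝ} (h1 : ρ₁ < r') (N0 : 0 ≤ N)
    (a₁ : Lv (Q r') k u₁ ∧ Ho (Q r') N u₁) (a₂ : Lv (Q r') k u₂ ∧ Ho (Q r') N u₂)
    (a₃ : Lv (Q r') k u₃ ∧ Ho (Q r') N u₃) (a₄ : Lv (Q r') k u₄ ∧ Ho (Q r') N u₄)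
    (b₁ : Lv (Q r') k y₁) (b₂ : Lv (Q r') k y₂) (b₃ : Lv (Q r') k y₃) (b₄ : Lv (Q r') k y₄) :
    ∃ C, 0 ≤ C ∧ ∀ h, 0 < h → h < r' - ρ₁ → ∀ R ≤ ρ₁, ∀ M, 0 ≤ M →
      Ho (Q R) M (tau k h fun p => u₁ p * y₁ p - u₂ p * y₂ p + u₃ p * y₃ p - u₄ p * y₄ p) →
      Ho (Q R) M (tau k h y₁) → Ho (Q R) M (tau k h y₂) → Ho (Q R) M (tau k h y₃) →
      Ho (Q R) M (tau k h y₄) → Ho (Q R) ((1 + 8 * N) * M + C) fun p => tau k h u₁ p * y₁ p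
        - tau k h u₂ p * y₂ p + tau k h u₃ p * y₃ p - tau k h u₄ p * y₄ p := by
  have o := isOpen_Q r'
  obtain ⟨C, c, hC⟩ := (((tau_mul a₁.1 b₁ h1.le).add (tau_mul a₂.1 b₂ h1.le).neg).add
    (tau_mul a₃.1 b₃ h1.le)).add (tau_mul a₄.1 b₄ h1.le).neg
  refine ⟨C, c, fun h h0 h2 R hR M m e e₁ e₂ e₃ e₄ => ?_⟩
  have s : ∀ {u y : P → ℝ}, Ho (Q r') N u → Ho (Q R) M (tau k h y) →
      Ho (Q R) (2 * (N * M)) fun p => sh h u p * tau k h y p := fun a b =>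
    ((a.sh (ρ₁ := ρ₁) (by rw [abs_of_pos h0]; exact h2.le)).mono (Q_mono hR) le_rfl).mul b N0 m
  refine (((e.sub ((((s a₁.2 e₁).sub (s a₂.2 e₂)).add (s a₃.2 e₃)).sub (s a₄.2 e₄))).sub
    ((hC h h0 h2).mono (Q_mono hR) le_rfl)).congr fun p hp => ?_).mono Subset.rfl
      (le_of_eq (by ring))
  have hp' := Q_mono hR hp
  have m₁ := a₁.1.mul o b₁
  have m₂ := (a₂.1.mul o b₂).neg o
  have m₃ := a₃.1.mul o b₃
  have m₄ := (a₄.1.mul o b₄).neg o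
  have t1 := tau_add ((m₁.add o m₂).add o m₃) m₄ h0 h2 hp'
  have t2 := tau_add (m₁.add o m₂) m₃ h0 h2 hp'
  have t3 := tau_add m₁ m₂ h0 h2 hp'
  have t4 := tau_neg (a₂.1.mul o b₂) h0 h2 hp'
  have t5 := tau_neg (a₄.1.mul o b₄) h0 h2 hp'
  simp only [← sub_eq_add_neg] at t1 t2 t3
  simp only at t4 t5 ⊢
  rw [t1, t2, t3, t4, t5]
  ring

theorem wCrt : CrtS := by
  intro r C₀ N x₁ x₂ y₁ y₂ r1 C0 N0 hC
  refine ⟨C₀ * (1 + 8 * N), by positivity,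
    fun k r' ρ₁ u u₁ u₂ v v₁ v₂ h1 hr hu hv qu qv hf hx => ?_⟩
  have o := isOpen_Q r'
  have a₁ := hf u₁ (by simp)
  have a₂ := hf u₂ (by simp)
  have b₁ := hf v₁ (by simp)
  have b₂ := hf v₂ (by simp)
  have c₁ := hx x₁ (by simp)
  have c₂ := hx x₂ (by simp)
  have e₁ := hx y₁ (by simp)
  have e₂ := hx y₂ (by simp)
  obtain ⟨C₁, p1, k1⟩ := four h1 N0 a₁ a₂ b₁ b₂ e₂ e₁ c₂ c₁
  obtain ⟨C₂, p2, k2⟩ := four h1 N0 a₂ a₁ b₁ b₂ c₁ c₂ e₂ e₁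
  obtain ⟨C₃, p3, k3⟩ := (Lv.of_D1 o qu hu.d1 a₁.1).bd (ρ₁ := ρ₁)
  obtain ⟨C₄, p4, k4⟩ := (Lv.of_D1 o qv hv.d1 b₁.1).bd (ρ₁ := ρ₁)
  refine ⟨C₀ * (C₁ + C₂ + C₃ + C₄), by positivity, fun h h0 h2 ρ R M ρ0 ρR R1 m hM f hf' => ?_⟩
  have s := Q_mono R1
  have g := hC ρ R ((1 + 8 * N) * M + (C₁ + C₂)) (C₃ + C₄) _ _ _ _ _ _ ρ0 ρR (by linarith)
    (by positivity) (by positivity) ((hu.tq qu a₁.1 a₂.1 h0 h2).mono s)
    ((hv.tq qv b₁.1 b₂.1 h0 h2).mono s)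
    (fun p hp => ⟨((k3 h h0 h2).1 p (s hp)).trans (by linarith),
      ((k4 h h0 h2).1 p (s hp)).trans (by linarith)⟩)
    ((k1 h h0 h2 R R1 M m (hM _ (Or.inl rfl)) (hM _ (by simp)) (hM _ (by simp)) (hM _ (by simp))
      (hM _ (by simp))).mono Subset.rfl (by linarith))
    ((k2 h h0 h2 R R1 M m (hM _ (Or.inr (Or.inl rfl))) (hM _ (by simp)) (hM _ (by simp))
      (hM _ (by simp)) (hM _ (by simp))).mono Subset.rfl (by linarith))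
  refine (g (tau k h f) ?_).mono Subset.rfl ?_
  · rcases hf' with rfl | rfl | rfl | rfl <;> simp
  · have d0 : 0 < (R - ρ) ^ 2 := by have : 0 < R - ρ := by linarith
                                    positivity
    have d1 : (R - ρ) ^ 2 ≤ 1 := by nlinarith
    have : C₁ + C₂ ≤ (C₁ + C₂) / (R - ρ) ^ 2 := le_div_self (by positivity) d0 d1
    have e : C₀ * (C₁ + C₂ + C₃ + C₄) / (R - ρ) ^ 2
        = C₀ * ((C₁ + C₂) / (R - ρ) ^ 2 + (C₃ + C₄) / (R - ρ) ^ 2) := by ring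
    rw [e]
    nlinarith

theorem wBt : BtS := by
  intro r C₀ x₁ x₂ y₁ y₂ r1 C0 hC k r' ρ u u₁ u₂ v v₁ v₂ h1 hr hu hv qu qv hf hx f hf'
  rcases le_or_gt ρ 0 with ρ0 | ρ0
  · have e : Q ρ = Q (min ρ 0) := by rw [min_eq_left ρ0]
    refine (Lv.const _ _ 0).congr (isOpen_Q _) fun p hp => ?_
    exact absurd ((abs_nonneg _).trans_lt (mem_Q.1 hp).1) (not_lt.2 ρ0)
  obtain ⟨N₁, n1, q1⟩ := (hf u₁ (by simp)).hq
  obtain ⟨N₂, n2, q2⟩ := (hf u₂ (by simp)).hq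
  obtain ⟨N₃, n3, q3⟩ := (hf v₁ (by simp)).hq
  obtain ⟨N₄, n4, q4⟩ := (hf v₂ (by simp)).hq
  obtain ⟨A, A0, hA⟩ := wCrt r C₀ (N₁ + N₂ + N₃ + N₄) x₁ x₂ y₁ y₂ r1 C0 (by positivity) hC
  set ρ₁ := (ρ + 2 * r') / 3
  set ρ₀ := (2 * ρ + r') / 3
  obtain ⟨C, c, hC'⟩ := hA k r' ρ₁ u u₁ u₂ v v₁ v₂ (by simp only [ρ₁]; linarith) hr hu hv qu qv
    (fun g hg => ⟨hf g hg, by
      rcases hg with rfl | rfl | rfl | rfl
      exacts [q1.mono Subset.rfl (by linarith), q2.mono Subset.rfl (by linarith),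
        q3.mono Subset.rfl (by linarith), q4.mono Subset.rfl (by linarith)]⟩)
    fun g hg => (hx g (Or.inr (Or.inr hg))).pred
  have fin : ({cr1 x₁ x₂ y₁ y₂ u₁ u₂ v₁ v₂, cr2 x₁ x₂ y₁ y₂ u₁ u₂ v₁ v₂, x₁, x₂, y₁, y₂} :
    Set (P → ℝ)).Finite := by simp
  have b := fun g hg => (hx g hg).bd (ρ₁ := ρ₁)
  choose! c c0 hc using b
  obtain ⟨M, hM⟩ := (fin.image c).bddAbove
  have M0 : 0 ≤ M := (c0 x₁ (by simp)).trans (hM (mem_image_of_mem c (by simp)))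
  refine (hf f hf').up (ρ₁ := ρ₀) (h₀ := r' - ρ₁) (by simp only [ρ₁]; linarith)
    (by simp only [ρ₁, ρ₀]; linarith) (by simp only [ρ₀]; linarith)
    ⟨_, by positivity, fun h h0 h2 => hC' h h0 h2 ρ₀ ρ₁ M (by simp only [ρ₀]; linarith)
      (by simp only [ρ₁, ρ₀]; linarith) le_rfl M0
      (fun g hg => (hc g hg h h0 h2).mono Subset.rfl (hM (mem_image_of_mem c hg))) f hf'⟩

end Pool.Agent.MP_ed9623_an.R46
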