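import Pool.Agent.MP_ed9623_an.R46.Pc

/-! The null fields of classical jets. -/

open MeasureTheory Filter Topology Set

namespace Pool.Agent.MP_ed9623_an.R46

open H64 H77 R77

variable {B : Set P} {f f₁ f₂ : P → ℝ}

theorem C1.const (B : Set P) (c : ℝ) : C1 B (fun _ => c) (fun _ => 0) fun _ => 0 :=
  ⟨continuousOn_const, continuousOn_const, fun p _ => (hasFDerivAt_const c p).congr_fderiv
    (ContinuousLinearMap.ext fun v => by simp)⟩

theorem C1.fn (h : C1 B f f₁ f₂) {F : ℝ → ℝ} {g : P → ℝ} (hF : ∀ p ∈ B, HasDerivAt F (g p) (f p))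
    (hg : ContinuousOn g B) :
    C1 B (fun p => F (f p)) (fun p => g p * f₁ p) fun p => g p * f₂ p :=
  ⟨hg.mul h.c1, hg.mul h.c2, fun p hp => ((hF p hp).comp_hasFDerivAt p (h.fd p hp)).congr_fderiv
    (ContinuousLinearMap.ext fun v => by simp; ring)⟩

theorem C1.inv (h : C1 B f f₁ f₂) (h0 : ∀ p ∈ B, f p ≠ 0) :
    C1 B (fun p => (f p)⁻¹) (fun p => -(f p ^ 2)⁻¹ * f₁ p) fun p => -(f p ^ 2)⁻¹ * f₂ p :=
  h.fn (fun p hp => hasDerivAt_inv (h0 p hp))
    ((h.cont.pow 2).inv₀ fun p hp => pow_ne_zero 2 (h0 p hp)).neg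

theorem C1.zero (h : C1 B f f₁ f₂) (hB : IsOpen B) (h0 : ∀ p ∈ B, f p = 0) {p : P} (hp : p ∈ B) :
    f₁ p = 0 ∧ f₂ p = 0 :=
  have a := (C1.const B 0).congr hB fun q hq => (h0 q hq).symm
  ⟨(h.pd0 hp).symm.trans (a.pd0 hp), (h.pd1 hp).symm.trans (a.pd1 hp)⟩

theorem Hq.sqrt (h : Hq B f) {c : ℝ} (hc : 0 < c) (hf : ∀ p ∈ B, c ≤ f p) :
    Hq B fun p => √(f p) := by
  obtain ⟨M, a, b⟩ := h
  have s0 := Real.sqrt_pos.2 hc
  refine ⟨√M + M / √c, by positivity, fun p hp => ?_, fun p hp q hq => ?_⟩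
  · rw [abs_of_nonneg (Real.sqrt_nonneg _)]
    have := Real.sqrt_le_sqrt ((le_abs_self _).trans (b.1 p hp))
    have : 0 ≤ M / √c := by positivity
    linarith
  · have u := Real.sqrt_le_sqrt (hf p hp)
    have v := Real.sqrt_nonneg (f q)
    have e : f p - f q = (√(f p) - √(f q)) * (√(f p) + √(f q)) := by
      linear_combination Real.sq_sqrt (hc.le.trans (hf q hq)) - Real.sq_sqrt (hc.le.trans (hf p hp))
    have w := b.2 p hp q hq
    rw [e, abs_mul, abs_of_nonneg (show 0 ≤ √(f p) + √(f q) by linarith)] at w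
    have : |√(f p) - √(f q)| ≤ M / √c * √(dist p q) := by
      rw [div_mul_eq_mul_div, le_div_iff₀ s0]
      exact (mul_le_mul_of_nonneg_left (by linarith) (abs_nonneg _)).trans w
    have : 0 ≤ √M * √(dist p q) := by positivity
    linarith

theorem rowNc : OfNc := by
  intro a c ε f l m s hN hf
  have o := isOpen_Q a
  obtain ⟨c20, q20⟩ := hf 2 0 rfl
  obtain ⟨c11, q11⟩ := hf 1 1 rfl
  obtain ⟨c02, q02⟩ := hf 0 2 rfl
  have c0 := hN.c0
  have d0 : ∀ p ∈ Q a, c ≤ f 1 1 p * f 1 1 p + -(f 2 0 p * f 0 2 p) := fun p hp => by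
    have := (hN.ds p hp).1
    linarith
  have es : EqOn (fun p => ε * √(f 1 1 p * f 1 1 p + -(f 2 0 p * f 0 2 p))) s (Q a) :=
    fun p hp => by rw [(hN.ds p hp).2.1, sq, sub_eq_add_neg]
  have cD := (c11.mul c11).add (c20.mul c02).neg
  have cs := ((C1.const _ ε).mul (cD.fn
    (fun p hp => Real.hasDerivAt_sqrt (c0.trans_le (d0 p hp)).ne')
    (continuousOn_const.div (continuousOn_const.mul cD.cont.sqrt) fun p hp =>
      mul_ne_zero two_ne_zero (Real.sqrt_pos.2 (c0.trans_le (d0 p hp))).ne'))).congr o es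
  have qs : Hq (Q a) s := ((Hq.const _ ε).mul
    (((q11.mul q11).add (q20.mul q02).neg).sqrt c0 d0)).congr es
  have lo : ∀ p ∈ Q a, c ≤ |f 1 1 p + s p| := fun p hp => by
    have := (hN.ds p hp).2.2.trans (le_abs_self _)
    rcases hN.e with e | e <;> simpa only [e, one_mul, neg_mul, abs_neg] using this
  have ci := (c11.add cs).inv fun p hp => (hN.alg hp).1
  have qi := (q11.add qs).inv c0 lo
  have el : EqOn (fun p => -f 2 0 p * (f 1 1 p + s p)⁻¹) l (Q a) := fun p hp => (hN.hl p hp).symm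
  have em : EqOn (fun p => -f 0 2 p * (f 1 1 p + s p)⁻¹) m (Q a) := fun p hp => (hN.hm p hp).symm
  obtain ⟨l₁, l₂, cl⟩ : ∃ l₁ l₂, C1 (Q a) l l₁ l₂ := ⟨_, _, (c20.neg.mul ci).congr o el⟩
  obtain ⟨m₁, m₂, cm⟩ : ∃ m₁ m₂, C1 (Q a) m m₁ m₂ := ⟨_, _, (c02.neg.mul ci).congr o em⟩
  have s0 : ∀ p ∈ Q a, 2 * s p ≠ 0 := fun p hp e => by
    have := (hN.alg hp).2.1
    rw [show s p = 0 by linarith] at this
    linarith
  have zl := fun p hp => ((c20.add (((C1.const _ 2).mul cl).mul c11)).add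
    ((cl.mul cl).mul c02)).zero o (fun p hp => by
      have := (hN.alg hp).2.2.2.1
      rwa [h11, sq] at this) (p := p) hp
  have zm := fun p hp => ((((cm.mul cm).mul c20).add (((C1.const _ 2).mul cm).mul c11)).add
    c02).zero o (fun p hp => by
      have := (hN.alg hp).2.2.2.2.1
      rwa [h22, sq] at this) (p := p) hp
  refine ⟨cl.congr_d (fun p hp => ?_) fun p hp => ?_, cm.congr_d (fun p hp => ?_) fun p hp => ?_,
    (q20.neg.mul qi).congr el, (q02.neg.mul qi).congr em, qs⟩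
  · rw [lx, eq_div_iff (s0 p hp)]
    linear_combination (zl p hp).1 - 2 * l₁ p * (hN.alg hp).2.2.2.2.2.1
  · rw [ly, eq_div_iff (s0 p hp)]
    linear_combination (zl p hp).2 - 2 * l₂ p * (hN.alg hp).2.2.2.2.2.1
  · rw [mx, eq_div_iff (s0 p hp)]
    linear_combination (zm p hp).1 - 2 * m₁ p * (hN.alg hp).2.2.2.2.2.2.1
  · rw [my, eq_div_iff (s0 p hp)]
    linear_combination (zm p hp).2 - 2 * m₂ p * (hN.alg hp).2.2.2.2.2.2.1

end Pool.Agent.MP_ed9623_an.R46
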