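import Pool.Agent.MP_ed9623_an.R46.Cor1
import Pool.Agent.MP_ed9623_an.R46.Nc

/-! Uniqueness in the Goursat problem, and the arc. -/

open MeasureTheory Filter Topology Set

namespace Pool.Agent.MP_ed9623_an.R46

open H64 H77 R77

theorem mv_Ioo {U V : ℝ → ℝ} {a b c x y : ℝ}
    (h : ∀ t ∈ Ioo a b, HasDerivAt U (V t) t ∧ |V t| ≤ c) (hx : x ∈ Ioo a b) (hy : y ∈ Ioo a b) :
    |U x - U y| ≤ c * |x - y| :=
  (convex_Ioo a b).norm_image_sub_le_of_norm_hasDerivWithin_le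
    (fun t ht => (h t ht).1.hasDerivWithinAt) (fun t ht => (h t ht).2) hy hx

theorem half_zero {B : Set P} {g₁ g₂ : P → ℝ} {M : ℝ} (h0 : ∀ p ∈ B, |g₁ p| ≤ M ∧ |g₂ p| ≤ M)
    (h : ∀ S, (∀ p ∈ B, |g₁ p| ≤ S ∧ |g₂ p| ≤ S) → ∀ p ∈ B, |g₁ p| ≤ S / 2 ∧ |g₂ p| ≤ S / 2) :
    ∀ p ∈ B, g₁ p = 0 ∧ g₂ p = 0 := by
  have k : ∀ n : ℕ, ∀ p ∈ B, |g₁ p| ≤ M * (1 / 2) ^ n ∧ |g₂ p| ≤ M * (1 / 2) ^ n := by
    intro n
    induction n with
    | zero => simpa using h0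
    | succ n ih => rw [pow_succ, ← mul_assoc, mul_one_div]; exact h _ ih
  have t : Tendsto (fun n : ℕ => M * (1 / 2) ^ n) atTop (𝓝 0) := by
    simpa using (tendsto_pow_atTop_nhds_zero_of_lt_one (r := (1 / 2 : ℝ)) (by norm_num)
      (by norm_num)).const_mul M
  exact fun p hp => ⟨abs_nonpos_iff.1 (ge_of_tendsto' t fun n => (k n p hp).1),
    abs_nonpos_iff.1 (ge_of_tendsto' t fun n => (k n p hp).2)⟩

theorem mem_ball2 {p : P} {x y δ : ℝ} (a : x - δ < p.1) (b : p.1 < x + δ) (c : y - δ < p.2)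
    (d : p.2 < y + δ) : p ∈ Metric.ball ((x, y) : P) δ :=
  max_lt (show |p.1 - x| < δ from abs_sub_lt_iff.2 ⟨by linarith, by linarith⟩)
    (show |p.2 - y| < δ from abs_sub_lt_iff.2 ⟨by linarith, by linarith⟩)

theorem al_ord (j : ℕ) : 2 ≤ (Ix.al j).ord := by cases j <;> simp [Ix.ord]

theorem Dt.go (D : Dt) : ∃ r₁, 0 < r₁ ∧ r₁ ≤ D.r ∧ ∀ δ c₀ c₁ e t : ℝ, δ ≤ r₁ → -r₁ ≤ c₀ →
    c₀ < c₁ → c₁ ≤ e → e ≤ r₁ → |t| < δ → (∀ p ∈ Bx (-δ) δ c₀ c₁, D.Θ p ∈ Z0 D.al) →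
    (∀ η ∈ Ioo c₀ e, D.Θ (t, η) ∈ Z0 D.al) → ∀ p ∈ Bx (-δ) δ c₀ e, D.Θ p ∈ Z0 D.al := by
  obtain ⟨N, N0, hN⟩ := (D.H0.sl le_rfl).2.1.hq
  obtain ⟨N', N0', hN'⟩ := (D.H0.sl le_rfl).2.2.1.hq
  have K0 := D.K0
  set θ := 1 / (8 * (1 + D.K) * (N + N' + 1)) with hθ
  have θ0 : 0 < θ := by positivity
  refine ⟨min D.r θ, lt_min D.hC.r0 θ0, min_le_left _ _,
    fun δ c₀ c₁ e t h1 h2 h3 h4 h5 ht hB hL => ?_⟩
  have m1 := min_le_left D.r θ
  have m2 := min_le_right D.r θ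
  have s : Bx (-δ) δ c₀ e ⊆ Q D.r := fun p hp =>
    ⟨⟨by linarith [hp.1.1], by linarith [hp.1.2]⟩, by linarith [hp.2.1], by linarith [hp.2.2]⟩
  have o := isOpen_Bx (-δ) δ c₀ e
  have c10 := fun j => (D.chain (D.hJ.c1 (.al j) 1 0 (al_ord j))).mono s
  have c01 := fun j => (D.chain (D.hJ.c1 (.al j) 0 1 (al_ord j))).mono s
  suffices k : ∀ j, ∀ p ∈ Bx (-δ) δ c₀ e, D.al j 1 0 (D.Θ p) = 0 ∧ D.al j 0 1 (D.Θ p) = 0 from
    fun p hp j => k j p hp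
  intro j
  induction j using Nat.strong_induction_on with
  | _ j ih =>
  have z : ∀ p ∈ Bx (-δ) δ c₀ e, h12 (D.al j) D.l D.m (D.Θ p) = 0 := fun p hp => by
    have a := D.hN.alg (D.hC.mp p (s hp))
    have b := D.hJ.l j _ (D.hC.mp p (s hp))
    rw [Finset.sum_range_succ, Finset.sum_eq_zero fun i hi => ?_] at b
    · simp only [zero_add, Nat.choose_self, Nat.cast_one, one_mul, Nat.sub_self,
        a.2.2.2.2.2.2.2 (D.al j)] at b
      exact (mul_eq_zero.1 b).resolve_left (neg_ne_zero.2 a.1)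
    have u := (c10 i).zero o (fun q hq => (ih i (Finset.mem_range.1 hi) q hq).1) hp
    have v := (c01 i).zero o (fun q hq => (ih i (Finset.mem_range.1 hi) q hq).2) hp
    have e1 := D.solve1 (D.al i 2 0) (D.al i 1 1) (s hp)
    have e2 := D.solve2 (D.al i 2 0) (D.al i 1 1) (s hp)
    have e3 := D.solve2 (D.al i 1 1) (D.al i 0 2) (s hp)
    simp only [pk, Nat.reduceAdd, zero_add] at u v
    simp only [u.1, u.2, v.1, v.2, zero_mul, sub_self, zero_div, Dt.t] at e1 e2 e3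
    simp [cf, ← e1, ← e2, ← e3]
  have du : D1 (Bx (-δ) δ c₀ e) (fun p => D.t D.m p * D.t (D.al j 1 0) p + D.t (D.al j 0 1) p)
      fun p => D.Mx p * D.t (D.al j 1 0) p :=
    (((((D.chain D.cm).mono s).mul (c10 j)).add (c01 j)).d1).congr o (fun _ _ => rfl)
      fun p hp => by
        have := z p hp
        simp only [Dt.t, Dt.dx, Dt.y₁, Dt.Mx, h12, pk] at this ⊢
        linear_combination D.m₁ p * this
  have dv : D2 (Bx (-δ) δ c₀ e) (fun p => D.t (D.al j 1 0) p + D.t D.l p * D.t (D.al j 0 1) p)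
      fun p => D.Ly p * D.t (D.al j 0 1) p :=
    (((c10 j).add (((D.chain D.cl).mono s).mul (c01 j))).d2).congr o (fun _ _ => rfl)
      fun p hp => by
        have := z p hp
        simp only [Dt.t, Dt.dy, Dt.x₂, Dt.Ly, h12, pk] at this ⊢
        linear_combination D.m₂ p * this
  obtain ⟨M, M0, hM⟩ := (D.H0.j (.al j) 1 0 ((by omega : 1 + 0 ≤ 2).trans (al_ord j))).hq
  obtain ⟨M', M0', hM'⟩ := (D.H0.j (.al j) 0 1 ((by omega : 0 + 1 ≤ 2).trans (al_ord j))).hq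
  refine half_zero (g₁ := D.t (D.al j 1 0)) (g₂ := D.t (D.al j 0 1)) (M := M + M')
    (fun p hp => ⟨(hM.1 p (s hp)).trans (by linarith), (hM'.1 p (s hp)).trans (by linarith)⟩)
    fun S hS p hp => ?_
  have S0 : 0 ≤ S := (abs_nonneg _).trans (hS p hp).1
  have t' := abs_lt.1 ht
  have a := mv_Ioo (c := N' * S) (V := fun x => D.Mx (x, p.2) * D.t (D.al j 1 0) (x, p.2))
    (U := fun x => D.t D.m (x, p.2) * D.t (D.al j 1 0) (x, p.2) + D.t (D.al j 0 1) (x, p.2))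
    (fun x hx => ⟨du (x, p.2) ⟨hx, hp.2⟩, by
    rw [abs_mul]
    exact mul_le_mul (hN'.1 (x, p.2) (s ⟨hx, hp.2⟩)) (hS (x, p.2) ⟨hx, hp.2⟩).1 (abs_nonneg _) N0'⟩) hp.1 t'
  have c : (c₀ + min c₁ p.2) / 2 ∈ Ioo c₀ c₁ :=
    ⟨by linarith [lt_min h3 hp.2.1], by linarith [min_le_left c₁ p.2]⟩
  have b := mv_Ioo (c := N * S) (V := fun x => D.Ly (p.1, x) * D.t (D.al j 0 1) (p.1, x))
    (U := fun x => D.t (D.al j 1 0) (p.1, x) + D.t D.l (p.1, x) * D.t (D.al j 0 1) (p.1, x))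
    (fun x hx => ⟨dv (p.1, x) ⟨hp.1, hx⟩, by
    rw [abs_mul]
    exact mul_le_mul (hN.1 (p.1, x) (s ⟨hp.1, hx⟩)) (hS (p.1, x) ⟨hp.1, hx⟩).2 (abs_nonneg _) N0⟩) hp.2
    ⟨c.1, c.2.trans_le h4⟩
  have c' := hB (p.1, (c₀ + min c₁ p.2) / 2) ⟨hp.1, c⟩ j
  simp only [Dt.t, (hL p.2 hp.2 j).1, (hL p.2 hp.2 j).2, c'.1, c'.2, mul_zero, add_zero, sub_zero] at a b
  have a1 : |p.1 - t| ≤ 2 * θ := abs_le.2 ⟨by linarith [hp.1.1], by linarith [hp.1.2]⟩
  have b1 : |p.2 - (c₀ + min c₁ p.2) / 2| ≤ 2 * θ :=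
    abs_le.2 ⟨by linarith [hp.2.1, c.2], by linarith [hp.2.2, c.1]⟩
  have a2 := a.trans (mul_le_mul (mul_le_mul_of_nonneg_right (show N' ≤ N + N' + 1 by linarith) S0)
    a1 (abs_nonneg _) (by positivity))
  have b2 := b.trans (mul_le_mul (mul_le_mul_of_nonneg_right (show N ≤ N + N' + 1 by linarith) S0)
    b1 (abs_nonneg _) (by positivity))
  have e0 : (1 + D.K) * ((N + N' + 1) * S * (2 * θ)) = S / 4 := by rw [hθ]; field_simp; ring
  have fin : ∀ g u v k : ℝ, |k| ≤ D.K → |u| ≤ (N + N' + 1) * S * (2 * θ) →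
      |v| ≤ (N + N' + 1) * S * (2 * θ) → D.w p * g = v - k * u → |g| ≤ S / 2 := by
    intro g u v k h1 h2 h3 h4
    have := abs_sub v (k * u)
    rw [← h4, abs_mul, abs_mul] at this
    have i := mul_le_mul h1 h2 (abs_nonneg _) K0.le
    have := mul_le_mul_of_nonneg_right (D.lo_w p (s hp)) (abs_nonneg g)
    linarith
  exact ⟨fin _ _ _ _ (D.hC.hl.1 p (s hp)) a2 b2 (by simp only [Dt.w, Dt.t]; ring),
    fin _ _ _ _ (D.hC.hm.1 p (s hp)) b2 a2 (by simp only [Dt.w, Dt.t]; ring)⟩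

theorem rowGo : OfGo := by
  intro nc a ps al pr c ε l m s r K Θ Ξ m₁ m₂ hJ hN hC
  obtain ⟨cl, cm, -, -, qs⟩ := nc a c ε (ps 0) l m s hN fun u v e =>
    ⟨hJ.c1 (.ps 0) u v (by simp [Ix.ord, e]), hJ.ho (.ps 0) u v (by simp [Ix.ord, e])⟩
  exact Dt.go ⟨a, c, ε, r, K, ps, al, pr, l, m, s, m₁, m₂, Θ, Ξ, hJ, hN, hC, cl, cm, qs⟩

theorem rowArc : OfArc := by
  intro go a ps al pr c ε l m s r K Θ Ξ m₁ m₂ hJ hN hC hZ
  obtain ⟨r₁, r0, r1, go⟩ := go a ps al pr c ε l m s r K Θ Ξ m₁ m₂ hJ hN hC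
  have K0 : 0 < K := one_pos.trans_le hC.K1
  obtain ⟨e, e0, he⟩ := hZ (1 / (2 * K ^ 2)) (by positivity)
  set b := min r₁ (e / K) with hb
  have b0 : 0 < b := lt_min r0 (by positivity)
  have b1 : b ≤ r₁ := min_le_left _ _
  have b2 : K * b ≤ e := by rw [mul_comm, ← le_div_iff₀ K0]; exact min_le_right _ _
  have cT : ContinuousOn Θ (Q r) := hC.cx.cont.prodMk hC.cy.cont
  have z : (0 : P) ∈ Q r := mem_Q.2 (by simpa using hC.r0)
  have oU : IsOpen (Q e ∩ {z : P | z.2 < -(1 / (2 * K ^ 2) * |z.1|)}) :=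
    (isOpen_Q e).inter (isOpen_lt continuous_snd (by fun_prop))
  have ln : ∀ η ∈ Ioo (-b) 0, Θ (0, η) ∈ Q e ∩ {z : P | z.2 < -(1 / (2 * K ^ 2) * |z.1|)} := by
    intro η hη
    have q : ∀ σ ∈ Icc η 0, ((0, σ) : P) ∈ Q r := fun σ hσ =>
      ⟨⟨by linarith [hC.r0], hC.r0⟩, by linarith [hη.1, hσ.1], by linarith [hσ.2, hC.r0]⟩
    have d := (hC.lip _ (q η ⟨le_rfl, hη.2.le⟩) 0 z).1
    have e1 : dist ((0, η) : P) 0 = -η := by simp [abs_of_neg hη.2, hη.2.le]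
    rw [hC.z0, e1, dist_zero_right] at d
    obtain ⟨σ, hσ, eσ⟩ := exists_hasDerivAt_eq_slope (fun σ => (Θ (0, σ)).2) (fun σ => m₂ (0, σ)) hη.2
      (fun σ hσ => (hC.cy.d2 _ (q σ hσ)).continuousAt.continuousWithinAt)
      fun σ hσ => hC.cy.d2 _ (q σ (Ioo_subset_Icc_self hσ))
    have lo := (hC.lo _ (q σ (Ioo_subset_Icc_self hσ))).2.1
    have n0 : 0 < 0 - η := by linarith [hη.2]
    rw [eσ, le_div_iff₀ n0, show Θ (0, 0) = 0 from hC.z0] at lo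
    refine ⟨?_, ?_⟩
    · rw [Q_eq_ball, mem_ball_zero_iff]
      nlinarith [hη.1]
    · have x1 : |(Θ (0, η)).1| ≤ K * -η := (norm_fst_le _).trans d
      have x2 := mul_le_mul_of_nonneg_left x1 (show 0 ≤ 1 / (2 * K ^ 2) by positivity)
      have x3 : 1 / (2 * K ^ 2) * (K * -η) = 1 / K * (0 - η) / 2 := by field_simp; ring
      have x4 : 0 < 1 / K * (0 - η) := by positivity
      simp only [mem_setOf_eq, Prod.snd_zero] at lo ⊢
      linarith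
  have q0 : ((0, -b / 2) : P) ∈ Q r := ⟨⟨by linarith [hC.r0], hC.r0⟩, by linarith, by linarith⟩
  obtain ⟨δ, δ0, hδ⟩ := Metric.mem_nhds_iff.1 ((cT.continuousAt ((isOpen_Q r).mem_nhds q0)).preimage_mem_nhds
    (oU.mem_nhds (ln _ ⟨by linarith, by linarith⟩)))
  set d := min δ (b / 2) with hd
  have d0 : 0 < d := lt_min δ0 (by linarith)
  have d1 : d ≤ δ := min_le_left _ _
  have d2 : d ≤ b / 2 := min_le_right _ _
  have low := go d (-b / 2) (-b / 2 + d) 0 0 (by linarith) (by linarith) (by linarith) (by linarith)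
    r0.le (by simpa using d0) (fun p hp => by
      have := hδ (mem_ball2 (x := 0) (y := -b / 2) (by linarith [hp.1.1]) (by linarith [hp.1.2])
        (by linarith [hp.2.1]) (by linarith [hp.2.2]))
      exact he _ this.1 this.2)
    fun η hη => he _ (ln η ⟨by linarith [hη.1], hη.2⟩).1 (ln η ⟨by linarith [hη.1], hη.2⟩).2
  have low' : ∀ p ∈ Bx (-d) d (-d) 0, Θ p ∈ Z0 al := fun p hp =>
    low p ⟨hp.1, by linarith [hp.2.1], hp.2.2⟩
  refine ⟨d, d0, by linarith, fun p hp h2 => ?_, fun ⟨t, ht, hi⟩ => ?_⟩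
  · rcases h2.lt_or_eq with h2 | h2
    · exact low' p ⟨hp.1, hp.2.1, h2⟩
    have hr := Q_mono (show d ≤ r by linarith) hp
    have k : ∀ j u v, u + v = 1 → (∀ z ∈ Z0 al, al j u v z = 0) → al j u v (Θ p) = 0 := by
      intro j u v e hz
      have c := ((hJ.ho (.al j) u v (by linarith [al_ord j])).cont.continuousAt
        ((isOpen_Q a).mem_nhds (hC.mp p hr))).comp (cT.continuousAt ((isOpen_Q r).mem_nhds hr))
      have t : Tendsto (fun η : ℝ => ((p.1, η) : P)) (𝓝[<] 0) (𝓝 p) :=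
        (Continuous.tendsto' (by fun_prop) _ _ (by rw [← h2])).mono_left nhdsWithin_le_nhds
      refine tendsto_nhds_unique (c.tendsto.comp t) (tendsto_const_nhds.congr' ?_)
      filter_upwards [Ioo_mem_nhdsLT (show -d < 0 by linarith)] with η hη
      exact (hz _ (low' (p.1, η) ⟨hp.1, hη⟩)).symm
    exact fun j => ⟨k j 1 0 rfl fun z hz => (hz j).1, k j 0 1 rfl fun z hz => (hz j).2⟩
  · have hr : ((t, 0) : P) ∈ Q r := mem_Q.2 ⟨by linarith, by simpa using hC.r0⟩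
    obtain ⟨σ, σ0, hσ⟩ := Metric.mem_nhds_iff.1
      ((cT.continuousAt ((isOpen_Q r).mem_nhds hr)).preimage_mem_nhds (mem_interior_iff_mem_nhds.1 hi))
    have m1 := min_le_left σ d
    have m2 := min_le_right σ d
    have m0 := lt_min σ0 d0
    have up := go d (-d) 0 (min σ d) t (by linarith) (by linarith) (by linarith) m0.le (by linarith) ht
      low' fun η hη => by
        rcases lt_or_ge η 0 with h | h
        · exact low' _ ⟨abs_lt.1 ht, hη.1, h⟩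
        · exact hσ (mem_ball2 (p := (t, η)) (by linarith) (by linarith) (by linarith)
            (by linarith [hη.2]))
    have bl := hC.bl 0 (min σ d) (by rw [← Q_eq_ball]; exact Q_mono (by linarith))
    rw [hC.z0] at bl
    refine mem_interior_iff_mem_nhds.2 (mem_of_superset (Metric.ball_mem_nhds _ (by positivity))
      (bl.trans ?_))
    rintro _ ⟨p, hp, rfl⟩
    rw [← Q_eq_ball] at hp
    exact up p ⟨⟨by linarith [hp.1.1], by linarith [hp.1.2]⟩, by linarith [hp.2.1], hp.2.2⟩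

end Pool.Agent.MP_ed9623_an.R46
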