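import Pool.Agent.MP_ed9623_an.R46.Go

/-! The output chart. -/

open MeasureTheory Filter Topology Set

namespace Pool.Agent.MP_ed9623_an.R46

open H64 H77 R77

theorem C1.fst (B : Set P) : C1 B (fun p => p.1) (fun _ => 1) fun _ => 0 :=
  ⟨continuousOn_const, continuousOn_const, fun _ _ => hasFDerivAt_fst.congr_fderiv
    (ContinuousLinearMap.ext fun v => by simp)⟩

theorem C1.snd (B : Set P) : C1 B (fun p => p.2) (fun _ => 0) fun _ => 1 :=
  ⟨continuousOn_const, continuousOn_const, fun _ _ => hasFDerivAt_snd.congr_fderiv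
    (ContinuousLinearMap.ext fun v => by simp)⟩

theorem wLemA (nc : NcS) (jg : JgS) (inv : InvS) (arc : ArcS) (core : CoreS) : LemAS := by
  intro a ps al pr c ε l m s r K Θ Ξ m₁ m₂ hJ hN hC hZ
  obtain ⟨cl, cm, -, -, qs⟩ := nc a c ε (ps 0) l m s hN fun u v e =>
    ⟨hJ.c1 (.ps 0) u v (by simp [Ix.ord, e]), hJ.ho (.ps 0) u v (by simp [Ix.ord, e])⟩
  let D : Dt := ⟨a, c, ε, r, K, ps, al, pr, l, m, s, m₁, m₂, Θ, Ξ, hJ, hN, hC, cl, cm, qs⟩
  obtain ⟨r₂, r0, r1, zs, ed⟩ := arc _ _ _ _ _ _ _ _ _ _ _ _ _ _ _ hJ hN hC hZ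
  obtain ⟨r₀, q0, q1, k1, k2, kl, km, ks, kj⟩ := core _ _ _ _ _ _ _ _ _ _ _ _ _ _ _ hJ hN
    (hC.mono r0 r1) fun t ht => by
      have hp : ((t, 0) : P) ∈ Q r := mem_Q.2 ⟨ht.trans_le r1, by simpa using hC.r0⟩
      have ev : ∀ᶠ σ in 𝓝 t, Θ (σ, 0) ∈ Z0 al :=
        (continuous_abs.continuousAt.eventually_lt continuousAt_const ht).mono fun σ hσ =>
          zs _ (mem_Q.2 ⟨hσ, by simpa using r0⟩) le_rfl
      have u := (D.c10.d1 _ hp).unique ((hasDerivAt_const t (0 : ℝ)).congr_of_eventuallyEq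
        (ev.mono fun σ hσ => (hσ 0).1))
      have v := (D.c01.d1 _ hp).unique ((hasDerivAt_const t (0 : ℝ)).congr_of_eventuallyEq
        (ev.mono fun σ hσ => (hσ 0).2))
      refine mul_left_cancel₀ (D.ne_1 hp) ?_
      simp only [Dt.dx, Dt.y₁, D, h11] at u v ⊢
      linear_combination u + l (Θ (t, 0)) * v
  have sr : Q r₀ ⊆ Q r := Q_mono (q1.trans r1)
  have z : (0 : P) ∈ Q r := mem_Q.2 (by simpa using hC.r0)
  obtain ⟨a', b, L, G, -, -, b0, L1, G0, hG, -, g1, -, lip, -⟩ := inv r₀ (fun p => ((Θ p).1, p.2))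
    _ _ _ _ q0 (by simp [hC.z0]) (hC.cx.mono sr) (C1.snd _) (by simpa using D.ne_1 z)
  have o := isOpen_Q b
  have o' := isOpen_Q r₀
  have mp : ∀ p ∈ Q b, G p ∈ Q r₀ := fun p hp => (hG p hp).1
  have e2 : ∀ p ∈ Q b, (G p).2 = p.2 := fun p hp => (Prod.ext_iff.1 (hG p hp).2.1).2
  have eT : ∀ p ∈ Q b, ((p.1, (Θ (G p)).2) : P) = Θ (G p) := fun p hp =>
    Prod.ext (Prod.ext_iff.1 (hG p hp).2.1).1.symm rfl
  have K0 : 0 < 1 / K := by have := D.K0; positivity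
  have ch : ∀ {f g : P → ℝ}, D1 (Q r₀) f g →
      D1 (Q b) (fun p => f (G p)) fun p => g (G p) * (m₁ (G p))⁻¹ := fun {f g} h p hp =>
    ((HasDerivAt.comp (h₂ := fun σ => f (σ, (G p).2)) p.1 (h _ (mp p hp))
      (g1.d1 p hp)).congr_deriv (by simp)).congr_of_eventuallyEq
      ((ev1 o hp).mono fun σ hσ => congrArg f (show G (σ, p.2) = ((G (σ, p.2)).1, (G p).2) from
        Prod.ext rfl ((e2 (σ, p.2) hσ).trans (e2 p hp).symm)))
  have cc : ∀ {f : P → ℝ}, CC r₀ f → CC b fun p => f (G p) := by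
    intro f hf k
    have q : ∀ {f : P → ℝ}, CC r₀ f → Hq (Q b) fun p => f (G p) := fun hf =>
      let ⟨_, u, v⟩ := hf 0; ⟨_, by positivity, v.comp u L1 mp lip⟩
    induction k generalizing f with
    | zero => exact q hf
    | succ k ih =>
      exact Lv.of_D1 o (q hf) (ch (hf 1).2.1) (ih (f := fun p => d1 f p * (m₁ p)⁻¹) fun k =>
        (hf (k + 1)).2.2.mul o' ((k1 k).inv o' K0 fun p hp => D.lo_1 p (sr hp)))
  have cg : ∀ {F : P → ℝ}, CC r₀ (fun p => F (Θ p)) → CC b fun p => F (p.1, (Θ (G p)).2) :=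
    fun h k => (cc h k).congr o fun p hp => by simp only [eT p hp]
  refine ⟨b, fun p => (Θ (G p)).2, fun p => D.n₂ (G p), b0, fun p hp => ?_, ?_, ?_,
    ⟨1 / K * (1 / 2), by positivity, fun p hp => ?_⟩, ?_,
    cc fun k => (k2 k).mul o' ((Lv.const _ _ 1).sub o' ((kl k).mul o' (km k))), cg kl, cg ks,
    fun i u v e => cg (kj i u v e), fun p hp h2 => ?_, fun ⟨t, ht, hi⟩ => ?_⟩
  · rw [eT p hp]; exact hC.mp _ (sr (mp p hp))
  · simp only [G0, hC.z0, Prod.snd_zero]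
  · refine ((hC.cy.mono sr).comp g1 ((C1.snd _).congr o fun p hp => (e2 p hp).symm) mp).congr_d
      (fun p hp => ?_) fun p hp => ?_
    · have : m₁ (G p) ≠ 0 := D.ne_1 (sr (mp p hp))
      simp only [eT p hp, mul_one, mul_zero, sub_zero, add_zero]
      field_simp
    · have : m₁ (G p) ≠ 0 := D.ne_1 (sr (mp p hp))
      simp only [Dt.n₂, Dt.w, D, mul_one, mul_zero, sub_zero]
      field_simp
      ring
  · have u := hC.lo _ (sr (mp p hp))
    exact mul_le_mul u.2.1 (by simp only [Dt.w, D]; linarith [(abs_le.1 u.2.2).2]) (by norm_num)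
      (K0.le.trans u.2.1)
  · refine (ch ((D.tr_n₂ jg).mono sr)).congr o (fun _ _ => rfl) fun p hp => ?_
    have : m₁ (G p) ≠ 0 := D.ne_1 (sr (mp p hp))
    simp only [eT p hp, Dt.n₂, Dt.w, Dt.Lx, Dt.Ly, Dt.dx, Dt.dy, Dt.x₂, Dt.y₁, D]
    field_simp
    ring
  · rw [eT p hp]; exact zs _ (Q_mono q1 (mp p hp)) (by rw [e2 p hp]; exact h2)
  · have hp : ((t, 0) : P) ∈ Q b := mem_Q.2 ⟨ht, by simpa using b0⟩
    refine ed ⟨(G (t, 0)).1, (mem_Q.1 (mp _ hp)).1.trans_le q1, ?_⟩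
    rw [show (((G (t, 0)).1, 0) : P) = G (t, 0) from Prod.ext rfl (e2 _ hp).symm, ← eT _ hp]
    exact hi

end Pool.Agent.MP_ed9623_an.R46
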