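import Pool.Agent.MP_ed9623_an.R46.Pc

/-! The levels form rings; mixed derivatives; difference quotients. -/

open MeasureTheory Filter Topology Set

namespace Pool.Agent.MP_ed9623_an.R46

open H64 H77 R77

variable {B B' : Set P} {f g f' g' : P → ℝ} {k : ℕ}

theorem ev1 (hB : IsOpen B) {p : P} (hp : p ∈ B) : ∀ᶠ s in 𝓝 p.1, ((s, p.2) : P) ∈ B :=
  (Continuous.tendsto' (f := fun s : ℝ => ((s, p.2) : P)) (by fun_prop) _ p rfl).eventually
    (hB.mem_nhds hp)

theorem ev2 (hB : IsOpen B) {p : P} (hp : p ∈ B) : ∀ᶠ s in 𝓝 p.2, ((p.1, s) : P) ∈ B :=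
  (Continuous.tendsto' (f := fun s : ℝ => ((p.1, s) : P)) (by fun_prop) _ p rfl).eventually
    (hB.mem_nhds hp)

theorem D1.congr (h : D1 B f f') (hB : IsOpen B) (hf : EqOn f g B) (hg : EqOn f' g' B) :
    D1 B g g' := fun p hp => hg hp ▸ (h p hp).congr_of_eventuallyEq
      ((ev1 hB hp).mono fun _ hs => (hf hs).symm)

theorem D2.congr (h : D2 B f f') (hB : IsOpen B) (hf : EqOn f g B) (hg : EqOn f' g' B) :
    D2 B g g' := fun p hp => hg hp ▸ (h p hp).congr_of_eventuallyEq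
      ((ev2 hB hp).mono fun _ hs => (hf hs).symm)

theorem D1.mono (h : D1 B f f') (hB : B' ⊆ B) : D1 B' f f' := fun p hp => h p (hB hp)

theorem D2.mono (h : D2 B f f') (hB : B' ⊆ B) : D2 B' f f' := fun p hp => h p (hB hp)

theorem D1.add (h : D1 B f f') (h' : D1 B g g') :
    D1 B (fun p => f p + g p) fun p => f' p + g' p := fun p hp => (h p hp).add (h' p hp)

theorem D1.neg (h : D1 B f f') : D1 B (fun p => -f p) fun p => -f' p := fun p hp => (h p hp).neg

theorem D1.mul (h : D1 B f f') (h' : D1 B g g') :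
    D1 B (fun p => f p * g p) fun p => f' p * g p + f p * g' p :=
  fun p hp => (h p hp).mul (h' p hp)

theorem D1.inv (h : D1 B f f') (h0 : ∀ p ∈ B, f p ≠ 0) :
    D1 B (fun p => (f p)⁻¹) fun p => -f' p * ((f p)⁻¹ * (f p)⁻¹) := fun p hp =>
  ((h p hp).inv (h0 p hp)).congr_deriv (by rw [div_eq_mul_inv, sq, mul_inv])

theorem d1_congr (hB : IsOpen B) (hf : EqOn f g B) : EqOn (d1 f) (d1 g) B := fun _ hp =>
  Filter.EventuallyEq.deriv_eq ((ev1 hB hp).mono fun _ hs => hf hs)

theorem it_congr (hB : IsOpen B) (k : ℕ) (hf : EqOn f g B) : EqOn (d1^[k] f) (d1^[k] g) B := by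
  induction k generalizing f g with
  | zero => exact hf
  | succ k ih => exact ih (d1_congr hB hf)

theorem Lv.congr (h : Lv B k f) (hB : IsOpen B) (hf : EqOn f g B) : Lv B k g := by
  induction k generalizing f g with
  | zero => exact Hq.congr h hf
  | succ k ih =>
    exact ⟨h.1.congr hf, h.2.1.congr hB hf (d1_congr hB hf), ih h.2.2 (d1_congr hB hf)⟩

theorem Lv.mono (h : Lv B k f) (hB : B' ⊆ B) : Lv B' k f := by
  induction k generalizing f with
  | zero => exact Hq.mono h hB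
  | succ k ih => exact ⟨h.1.mono hB, h.2.1.mono hB, ih h.2.2⟩

theorem Lv.pred (h : Lv B (k + 1) f) : Lv B k f := by
  induction k generalizing f with
  | zero => exact h.1
  | succ k ih => exact ⟨h.1, h.2.1, ih h.2.2⟩

theorem Lv.of_le {j : ℕ} (h : Lv B k f) (hj : j ≤ k) : Lv B j f := by
  induction hj with
  | refl => exact h
  | step _ ih => exact ih h.pred

theorem Lv.of_D1 (hB : IsOpen B) (h : Hq B f) (hd : D1 B f g) (hg : Lv B k g) : Lv B (k + 1) f :=
  ⟨h, hd.congr hB (fun _ _ => rfl) hd.eq.symm, hg.congr hB hd.eq.symm⟩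

theorem d1_const (c : ℝ) : d1 (fun _ => c) = fun _ => 0 := funext fun _ => by simp [d1]

theorem Lv.const (B : Set P) (k : ℕ) (c : ℝ) : Lv B k fun _ => c := by
  induction k generalizing c with
  | zero => exact Hq.const B c
  | succ k ih =>
    refine ⟨Hq.const B c, ?_, ?_⟩ <;> rw [d1_const]
    exacts [fun _ _ => hasDerivAt_const _ _, ih 0]

theorem Lv.add (h : Lv B k f) (hB : IsOpen B) (h' : Lv B k g) : Lv B k fun p => f p + g p := by
  induction k generalizing f g with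
  | zero => exact Hq.add h h'
  | succ k ih => exact Lv.of_D1 hB (h.1.add h'.1) (h.2.1.add h'.2.1) (ih h.2.2 h'.2.2)

theorem Lv.neg (h : Lv B k f) (hB : IsOpen B) : Lv B k fun p => -f p := by
  induction k generalizing f with
  | zero => exact Hq.neg h
  | succ k ih => exact Lv.of_D1 hB h.1.neg h.2.1.neg (ih h.2.2)

theorem Lv.sub (h : Lv B k f) (hB : IsOpen B) (h' : Lv B k g) : Lv B k fun p => f p - g p := by
  simpa only [sub_eq_add_neg] using h.add hB (h'.neg hB)

theorem Lv.mul (h : Lv B k f) (hB : IsOpen B) (h' : Lv B k g) : Lv B k fun p => f p * g p := by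
  induction k generalizing f g with
  | zero => exact Hq.mul h h'
  | succ k ih =>
    exact Lv.of_D1 hB (h.1.mul h'.1) (h.2.1.mul h'.2.1)
      ((ih h.2.2 h'.pred).add hB (ih h.pred h'.2.2))

theorem Lv.cmul (h : Lv B k f) (hB : IsOpen B) (c : ℝ) : Lv B k fun p => c * f p :=
  (Lv.const B k c).mul hB h

theorem Lv.sq (h : Lv B k f) (hB : IsOpen B) : Lv B k fun p => f p ^ 2 := by
  simpa only [pow_two] using h.mul hB h

theorem Lv.inv (h : Lv B k f) (hB : IsOpen B) {c : ℝ} (hc : 0 < c) (hf : ∀ p ∈ B, c ≤ |f p|) :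
    Lv B k fun p => (f p)⁻¹ := by
  induction k with
  | zero => exact Hq.inv h hc hf
  | succ k ih =>
    exact Lv.of_D1 hB (h.1.inv hc hf) (h.2.1.inv fun p hp => abs_pos.1 (hc.trans_le (hf p hp)))
      ((h.2.2.neg hB).mul hB ((ih h.pred).mul hB (ih h.pred)))

theorem Lv.div (h : Lv B k f) (hB : IsOpen B) (h' : Lv B k g) {c : ℝ} (hc : 0 < c)
    (hg : ∀ p ∈ B, c ≤ |g p|) : Lv B k fun p => f p / g p := by
  simpa only [div_eq_mul_inv] using h.mul hB (h'.inv hB hc hg)

theorem Lv.sum {ι : Type} (s : Finset ι) {F : ι → P → ℝ} (hB : IsOpen B)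
    (h : ∀ i ∈ s, Lv B k (F i)) : Lv B k fun p => ∑ i ∈ s, F i p := by
  classical
  induction s using Finset.induction_on with
  | empty => simpa using Lv.const B k 0
  | insert a s ha ih =>
    simp only [Finset.sum_insert ha]
    exact (h a (Finset.mem_insert_self _ _)).add hB (ih fun i hi => h i (Finset.mem_insert_of_mem hi))

theorem Lv.it {j : ℕ} (h : Lv B (j + k) f) : Lv B j (d1^[k] f) := by
  induction k generalizing f with
  | zero => exact h
  | succ k ih => exact ih h.2.2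

theorem Lv.it_hq (h : Lv B k f) : Hq B (d1^[k] f) := Lv.it (j := 0) (by rwa [zero_add])

theorem Lv.it_d1 (h : Lv B (k + 1) f) : D1 B (d1^[k] f) (d1^[k] (d1 f)) := by
  have := (Lv.it (j := 1) (k := k) (by rwa [add_comm])).2.1
  rwa [← Function.iterate_succ_apply' d1 k f] at this

theorem Lv.snoc (h : Lv B k f) (hB : IsOpen B) (hd : D1 B (d1^[k] f) g) (hg : Hq B g) :
    Lv B (k + 1) f := by
  induction k generalizing f with
  | zero => exact Lv.of_D1 hB h hd hg
  | succ k ih => exact ⟨h.1, h.2.1, ih h.2.2 hd⟩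

theorem it_add (hB : IsOpen B) (h : Lv B k f) (h' : Lv B k g) :
    EqOn (d1^[k] fun p => f p + g p) (fun p => d1^[k] f p + d1^[k] g p) B := by
  induction k generalizing f g with
  | zero => exact fun _ _ => rfl
  | succ k ih => exact (it_congr hB k (h.2.1.add h'.2.1).eq).trans (ih h.2.2 h'.2.2)

theorem it_neg (hB : IsOpen B) (h : Lv B k f) :
    EqOn (d1^[k] fun p => -f p) (fun p => -d1^[k] f p) B := by
  induction k generalizing f with
  | zero => exact fun _ _ => rfl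
  | succ k ih => exact (it_congr hB k h.2.1.neg.eq).trans (ih h.2.2)

theorem it_const (k : ℕ) (c : ℝ) : ∃ c' : ℝ, (d1^[k] fun _ => c) = fun _ => c' := by
  induction k generalizing c with
  | zero => exact ⟨c, rfl⟩
  | succ k ih => rw [Function.iterate_succ_apply, d1_const]; exact ih 0

/-- The product rule up to terms that are one level better. -/
theorem it_mul (hB : IsOpen B) (h : Lv B (k + 1) f) (h' : Lv B (k + 1) g) :
    Lv B 1 fun p => (d1^[k + 1] fun p => f p * g p) p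
      - (d1^[k + 1] f p * g p + f p * d1^[k + 1] g p) := by
  have one : ∀ {k : ℕ} {f g : P → ℝ}, Lv B (k + 1) f → Lv B k g →
      Lv B 1 fun p => (d1^[k] fun p => f p * g p) p - f p * d1^[k] g p := by
    intro k
    induction k with
    | zero => intro f g _ _; simpa using Lv.const B 1 0
    | succ k ih =>
      intro f g h h'
      have a := ih h.pred h'.2.2
      have b : Lv B 1 (d1^[k] fun p => d1 f p * g p) :=
        Lv.it (j := 1) (by rw [add_comm]; exact h.2.2.mul hB h')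
      refine (b.add hB a).congr hB fun p hp => ?_
      have e := ((it_congr hB k (h.2.1.mul h'.2.1).eq).trans
        (it_add hB (h.2.2.pred.mul hB h'.pred) (h.pred.pred.mul hB h'.2.2))) hp
      simp only [Function.iterate_succ_apply] at e ⊢
      rw [e]; ring
  have a := one h h'.2.2
  have b := one h' h.2.2
  refine (a.add hB b).congr hB fun p hp => ?_
  have e := ((it_congr hB k (h.2.1.mul h'.2.1).eq).trans
    (it_add hB (h.2.2.mul hB h'.pred) (h.pred.mul hB h'.2.2))) hp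
  have c : (fun p => g p * d1 f p) = fun p => d1 f p * g p := funext fun _ => mul_comm _ _
  simp only [Function.iterate_succ_apply] at e ⊢
  rw [e, c]; ring

/-- The iterates on a horizontal segment depend only on the values on the segment. -/
theorem it_line {ρ c : ℝ} (k : ℕ) (h : ∀ s, |s| < ρ → f (s, c) = g (s, c)) :
    ∀ s, |s| < ρ → d1^[k] f (s, c) = d1^[k] g (s, c) := by
  induction k generalizing f g with
  | zero => exact h
  | succ k ih =>
    refine ih fun s hs => Filter.EventuallyEq.deriv_eq ?_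
    filter_upwards [(isOpen_lt continuous_abs continuous_const).mem_nhds hs] with t ht
    exact h t ht

section square

variable {ρ ρ₁ ρ₂ h M : ℝ} {S T : P → ℝ}

theorem seg2 {p : P} (hp : p ∈ Q ρ) {c t : ℝ} (hc : |c| < ρ) (ht : t ∈ uIcc c p.2) :
    ((p.1, t) : P) ∈ Q ρ := by
  rw [mem_Q] at hp ⊢
  refine ⟨hp.1, ?_⟩
  have a := abs_lt.1 hc
  have b := abs_lt.1 hp.2
  rcases mem_uIcc.1 ht with e | e <;> exact abs_lt.2 ⟨by linarith [e.1, e.2], by linarith [e.1, e.2]⟩

theorem ct2 (hS : ContinuousOn S (Q ρ)) {p : P} (hp : p ∈ Q ρ) {c : ℝ} (hc : |c| < ρ) :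
    ContinuousOn (fun t => S (p.1, t)) (uIcc c p.2) :=
  hS.comp (by fun_prop) fun _ ht => seg2 hp hc ht

theorem D2.ftc (hd : D2 (Q ρ) f S) (hS : ContinuousOn S (Q ρ)) {p : P} (hp : p ∈ Q ρ) {c : ℝ}
    (hc : |c| < ρ) : f p - f (p.1, c) = ∫ t in c..p.2, S (p.1, t) :=
  (intervalIntegral.integral_eq_sub_of_hasDerivAt (f := fun t => f (p.1, t))
    (fun t ht => hd (p.1, t) (seg2 hp hc ht)) (ct2 hS hp hc).intervalIntegrable).symm

/-- Symmetry of mixed derivatives. -/
theorem mx_one (hd : D2 (Q ρ) f S) (hf : D1 (Q ρ) f f') (hS : D1 (Q ρ) S g) (cS : Hq (Q ρ) S)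
    (cg : Hq (Q ρ) g) : D2 (Q ρ) f' g := by
  have key : ∀ p ∈ Q ρ, f' p - f' (p.1, 0) = ∫ t in (0 : ℝ)..p.2, g (p.1, t) := by
    intro p hp
    have z : |(0 : ℝ)| < ρ := by rw [abs_zero]; exact (abs_nonneg _).trans_lt (mem_Q.1 hp).1
    obtain ⟨M, -, hM⟩ := id cg
    have o : {s : ℝ | |s| < ρ} ∈ 𝓝 p.1 :=
      (isOpen_lt continuous_abs continuous_const).mem_nhds (mem_Q.1 hp).1
    have m : ∀ s : ℝ, |s| < ρ → ((s, p.2) : P) ∈ Q ρ := fun s hs => mem_Q.2 ⟨hs, (mem_Q.1 hp).2⟩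
    have a := (intervalIntegral.hasDerivAt_integral_of_dominated_loc_of_deriv_le (μ := volume)
      (a := 0) (b := p.2) (F := fun s t => S (s, t)) (F' := fun s t => g (s, t)) (x₀ := p.1)
      (bound := fun _ => M) o
      (mem_of_superset o fun s hs => ((ct2 cS.cont (m s hs) z).mono uIoc_subset_uIcc
        ).aestronglyMeasurable measurableSet_uIoc)
      (ct2 cS.cont hp z).intervalIntegrable
      (((ct2 cg.cont hp z).mono uIoc_subset_uIcc).aestronglyMeasurable measurableSet_uIoc)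
      (Eventually.of_forall fun t ht s hs => hM.1 _ (seg2 (m s hs) z (uIoc_subset_uIcc ht)))
      intervalIntegrable_const
      (Eventually.of_forall fun t ht s hs => hS _ (seg2 (m s hs) z (uIoc_subset_uIcc ht)))).2
    have b := (hf p hp).sub (hf (p.1, 0) (mem_Q.2 ⟨(mem_Q.1 hp).1, z⟩))
    refine b.unique (a.congr_of_eventuallyEq (mem_of_superset o fun s hs => ?_))
    exact hd.ftc cS.cont (m s hs) z
  intro p hp
  have z : |(0 : ℝ)| < ρ := by rw [abs_zero]; exact (abs_nonneg _).trans_lt (mem_Q.1 hp).1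
  have c : ContinuousOn (fun t => g (p.1, t)) {t | |t| < ρ} :=
    cg.cont.comp (by fun_prop) fun t ht => mem_Q.2 ⟨(mem_Q.1 hp).1, ht⟩
  have o : IsOpen {t : ℝ | |t| < ρ} := isOpen_lt continuous_abs continuous_const
  have a := intervalIntegral.integral_hasDerivAt_right (ct2 cg.cont hp z).intervalIntegrable
    (c.stronglyMeasurableAtFilter o _ (mem_Q.1 hp).2) (c.continuousAt (o.mem_nhds (mem_Q.1 hp).2))
  refine (a.const_add (f' (p.1, 0))).congr_of_eventuallyEq ?_
  filter_upwards [ev2 (isOpen_Q ρ) hp] with t ht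
  rw [← key _ ht]; ring

theorem mx_it (hd : D2 (Q ρ) f S) (hf : Lv (Q ρ) k f) (hS : Lv (Q ρ) k S) :
    D2 (Q ρ) (d1^[k] f) (d1^[k] S) := by
  induction k generalizing f S with
  | zero => exact hd
  | succ k ih => exact ih (mx_one hd hf.2.1 hS.2.1 hS.1 hS.2.2.hq) hf.2.2 hS.2.2

theorem sh_mem {p : P} (hp : p ∈ Q ρ₁) {t : ℝ} (ht : |t| ≤ ρ₂ - ρ₁) :
    ((p.1 + t, p.2) : P) ∈ Q ρ₂ := by
  rw [mem_Q] at hp ⊢
  exact ⟨(abs_add_le _ _).trans_lt (by linarith [hp.1]), by linarith [hp.2, abs_nonneg t]⟩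

theorem dist_sh (p q : P) (t : ℝ) : dist ((p.1 + t, p.2) : P) (q.1 + t, q.2) = dist p q := by
  simp [Prod.dist_eq]

theorem Ho.sh (hf : Ho (Q ρ₂) M f) {t : ℝ} (ht : |t| ≤ ρ₂ - ρ₁) : Ho (Q ρ₁) M (sh t f) :=
  ⟨fun _ hp => hf.1 _ (sh_mem hp ht), fun p hp q hq =>
    dist_sh p q t ▸ hf.2 _ (sh_mem hp ht) _ (sh_mem hq ht)⟩

/-- Difference quotients of a differentiable function. -/
theorem ho_dq (hd : D1 (Q ρ₂) f g) (hg : Ho (Q ρ₂) M g) (h0 : 0 < h) (h1 : h ≤ ρ₂ - ρ₁) :
    Ho (Q ρ₁) M fun p => dl h f p / h := by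
  have m : ∀ p ∈ Q ρ₁, ∀ t ∈ Icc 0 h, ((p.1 + t, p.2) : P) ∈ Q ρ₂ := fun p hp t ht =>
    sh_mem hp (by rw [abs_of_nonneg ht.1]; linarith [ht.2])
  have d : ∀ p ∈ Q ρ₁, ∀ t ∈ Icc 0 h,
      HasDerivAt (fun t => f (p.1 + t, p.2)) (g (p.1 + t, p.2)) t := fun p hp t ht =>
    (hd _ (m p hp t ht)).comp_const_add p.1 t
  refine ⟨fun p hp => ?_, fun p hp q hq => ?_⟩
  · have := norm_image_sub_le_of_norm_deriv_le_segment' (C := M)
      (fun t ht => (d p hp t ht).hasDerivWithinAt)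
      (fun t ht => hg.1 _ (m p hp t (Ico_subset_Icc_self ht))) h (right_mem_Icc.2 h0.le)
    rw [abs_div, abs_of_pos h0, div_le_iff₀ h0]
    simpa [dl] using this
  · have := norm_image_sub_le_of_norm_deriv_le_segment' (C := M * √(dist p q))
      (fun t ht => ((d p hp t ht).sub (d q hq t ht)).hasDerivWithinAt)
      (fun t ht => dist_sh p q t ▸ hg.2 _ (m p hp t (Ico_subset_Icc_self ht)) _
        (m q hq t (Ico_subset_Icc_self ht))) h (right_mem_Icc.2 h0.le)
    rw [← sub_div, abs_div, abs_of_pos h0, div_le_iff₀ h0]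
    simp only [Pi.sub_apply, add_zero, Real.norm_eq_abs, sub_zero] at this
    refine le_of_eq_of_le (congrArg _ ?_) this
    simp only [dl]; ring

theorem Lv.bd (hf : Lv (Q ρ₂) (k + 1) f) : Bd ρ₁ (ρ₂ - ρ₁) fun h => tau k h f := by
  obtain ⟨M, m0, hM⟩ := hf.2.2.it_hq
  exact ⟨M, m0, fun h h0 h1 => ho_dq hf.it_d1 hM h0 h1.le⟩

end square

end Pool.Agent.MP_ed9623_an.R46
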