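import Pool.Agent.MP_ed9623_an.R46.Defs

/-! Statements: characteristic charts, continuity of the top jets, tangential regularity. -/

open MeasureTheory Filter Topology Set
open scoped ContDiff

namespace Pool.Agent.MP_ed9623_an.R46

open H64 H77 R77

/-! ### Classical calculus -/

/-- Continuous derivatives along the axes, and integration by parts on an open set. -/
def PcS : Prop := ∀ (O : Set P) (f f₁ f₂ : P → ℝ), IsOpen O →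
  (D1 O f f₁ → D2 O f f₂ → ContinuousOn f₁ O → ContinuousOn f₂ O → C1 O f f₁ f₂) ∧
  (C1 O f f₁ f₂ → ContDiffOn ℝ 1 f O ∧ EqOn (pd (ee 0) f) f₁ O ∧ EqOn (pd (ee 1) f) f₂ O ∧
    WD O (ee 0) f f₁ ∧ WD O (ee 1) f f₂)

/-- A continuous weak derivative is a classical derivative. -/
def CwS : Prop := ∀ (O : Set P) (f g : P → ℝ), IsOpen O → ContinuousOn f O → ContinuousOn g O →
  (WD O (ee 0) f g → D1 O f g) ∧ (WD O (ee 1) f g → D2 O f g)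

/-- The weak form of `d (dh + f dg) = df ∧ dg`. -/
def JacS : Prop := ∀ (O : Set P) (f f₁ f₂ g g₁ g₂ h h₁ h₂ φ : P → ℝ), IsOpen O → C1 O f f₁ f₂ →
  C1 O g g₁ g₂ → C1 O h h₁ h₂ → Test O φ →
  ∫ p, ((h₁ p + f p * g₁ p) * pd (ee 1) φ p - (h₂ p + f p * g₂ p) * pd (ee 0) φ p)
    = -∫ p, (f₂ p * g₁ p - f₁ p * g₂ p) * φ p

/-- The classical form when one component of the form vanishes. -/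
def JgS : Prop := ∀ (O : Set P) (f f₁ f₂ g g₁ g₂ h h₁ h₂ : P → ℝ), IsOpen O → C1 O f f₁ f₂ →
  C1 O g g₁ g₂ → C1 O h h₁ h₂ →
  ((∀ p ∈ O, h₂ p + f p * g₂ p = 0) →
    D2 O (fun p => h₁ p + f p * g₁ p) fun p => f₂ p * g₁ p - f₁ p * g₂ p) ∧
  ((∀ p ∈ O, h₁ p + f p * g₁ p = 0) →
    D1 O (fun p => h₂ p + f p * g₂ p) fun p => f₁ p * g₂ p - f₂ p * g₁ p)

/-- Exchange of the two variables. -/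
def SwS : Prop := ∀ (r : ℝ) (f g : P → ℝ),
  (M2 f → M2 (fun p => f p.swap) ∧ nm (fun p => f p.swap) = nm f) ∧
  (Ae (Q r) f g → Ae (Q r) (fun p => f p.swap) fun p => g p.swap) ∧
  (∀ O : Set P, (∀ p ∈ O, p.swap ∈ O) →
    (WD O (ee 0) f g → WD O (ee 1) (fun p => f p.swap) fun p => g p.swap) ∧
    (WD O (ee 1) f g → WD O (ee 0) (fun p => f p.swap) fun p => g p.swap)) ∧
  ∀ (k : ℕ) (F : J2), Jt k F → Jt k fun a b p => F b a p.swap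

/-! ### The Schauder estimate -/

def KerS : Prop := ∃ ρ κ : P → ℝ, Ker 1 ρ ∧ Test (Metric.ball 0 1) κ ∧ ∀ x : P,
  ρ x - 4 * ρ ((2 : ℝ) • x) = pd (ee 0) (pd (ee 0) κ) x + pd (ee 1) (pd (ee 1) κ) x

/-- Bounds for mollifications at dyadic scales. -/
def Sl1S : Prop := ∃ (ρ : P → ℝ) (C : ℝ), 0 ≤ C ∧ (∀ s, 0 < s → Ker s (rs ρ s)) ∧
  (∀ (a : P → ℝ) (x : P) (s M₀ : ℝ) (l : List (Fin 2)), l.length ≤ 2 → 0 < s → M2 a →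
    (∀ z ∈ Metric.ball x s, |a z| ≤ M₀) → |mol (DL l (rs ρ s)) a x| ≤ C * M₀ / s ^ l.length) ∧
  ∀ (O : Set P) (a b k₁ k₂ : P → ℝ) (x : P) (s M : ℝ) (i : Fin 2) (l : List (Fin 2)),
    l.length ≤ 1 → 0 < s → Metric.ball x s ⊆ O → M2 a → M2 b → Ho O M k₁ → Ho O M k₂ →
    CRw O a b k₁ k₂ → |mol (DL (l ++ [i]) (rs ρ s)) a x - mol (DL (l ++ [i]) (rs ρ (s / 2))) a x|
      ≤ C * M * √s / s ^ l.length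

def SlS : Prop := ∃ C₀ : ℝ, 1 ≤ C₀ ∧ ∀ (O : Set P) (a b k₁ k₂ : P → ℝ) (M M₀ e : ℝ), IsOpen O →
  0 < e → e ≤ 1 → 0 ≤ M → 0 ≤ M₀ → ContinuousOn a O → ContinuousOn b O →
  (∀ p ∈ O, |a p| ≤ M₀ ∧ |b p| ≤ M₀) → Ho O M k₁ → Ho O M k₂ → CRw O a b k₁ k₂ →
  ∀ f ∈ ({a, b} : Set (P → ℝ)), (∀ x, Metric.ball x (3 * e) ⊆ O → DifferentiableAt ℝ f x) ∧
    ∀ i, Ho {x | Metric.ball x (3 * e) ⊆ O} (C₀ * (M + M₀ / e ^ 2)) (pd (ee i) f)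

/-- The inverse of the chart. -/
def XiS : Prop := ∀ a r K l m Θ Ξ m₁ m₂, Co a r K l m Θ Ξ m₁ m₂ →
  (∀ ρ ≤ r, IsOpen (Θ '' Q ρ)) ∧
  C1 (Θ '' Q r) (fun z => (Ξ z).1) (fun z => m₂ (Ξ z) / Jc l m Θ m₁ m₂ (Ξ z))
    (fun z => -(m₂ (Ξ z) * m z) / Jc l m Θ m₁ m₂ (Ξ z)) ∧
  C1 (Θ '' Q r) (fun z => (Ξ z).2) (fun z => -(m₁ (Ξ z) * l z) / Jc l m Θ m₁ m₂ (Ξ z))
    fun z => m₁ (Ξ z) / Jc l m Θ m₁ m₂ (Ξ z)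

def CrsS : Prop := ∀ a r K l m Θ Ξ m₁ m₂, Co a r K l m Θ Ξ m₁ m₂ → ∃ C₀, 0 ≤ C₀ ∧
  CRe r C₀ m₁ (fun p => m₂ p * m (Θ p)) (fun p => m₁ p * l (Θ p)) m₂

/-! ### The chart -/

def QhS : Prop := ∀ (a : ℝ) (F : J2), 0 < a → Jt 2 F → ∃ K, 0 ≤ K ∧ QH a K (F 0 0)

/-- The flow of the field `(1, l)`. -/
def FlS : Prop := ∀ (a K : ℝ) (l : P → ℝ), 0 < a → 0 ≤ K → QH a K l →
  ∃ (b : ℝ) (Y n : P → ℝ), 0 < b ∧ b ≤ a ∧ C1 (Q b) Y (fun p => l (p.1, Y p)) n ∧ Hq (Q b) n ∧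
    (∀ p ∈ Q b, 1 / 2 ≤ n p ∧ |Y p| < a) ∧ ∀ e, |e| < b → Y (0, e) = e

/-- Local inverses. -/
def InvS : Prop := ∀ (a : ℝ) (F : P → P) (a₁ a₂ b₁ b₂ : P → ℝ), 0 < a → F 0 = 0 →
  C1 (Q a) (fun p => (F p).1) a₁ a₂ → C1 (Q a) (fun p => (F p).2) b₁ b₂ →
  a₁ 0 * b₂ 0 - a₂ 0 * b₁ 0 ≠ 0 → ∃ (a' b K : ℝ) (G : P → P), 0 < a' ∧ a' ≤ a ∧ 0 < b ∧ 1 ≤ K ∧
    G 0 = 0 ∧ (∀ z ∈ Q b, G z ∈ Q a ∧ F (G z) = z ∧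
      1 / K ≤ |a₁ (G z) * b₂ (G z) - a₂ (G z) * b₁ (G z)|) ∧
    (∀ p ∈ Q a', F p ∈ Q b ∧ G (F p) = p) ∧
    C1 (Q b) (fun z => (G z).1) (fun z => b₂ (G z) / (a₁ (G z) * b₂ (G z) - a₂ (G z) * b₁ (G z)))
      (fun z => -a₂ (G z) / (a₁ (G z) * b₂ (G z) - a₂ (G z) * b₁ (G z))) ∧
    C1 (Q b) (fun z => (G z).2) (fun z => -b₁ (G z) / (a₁ (G z) * b₂ (G z) - a₂ (G z) * b₁ (G z)))
      (fun z => a₁ (G z) / (a₁ (G z) * b₂ (G z) - a₂ (G z) * b₁ (G z))) ∧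
    (∀ z ∈ Q b, ∀ w ∈ Q b, dist (G z) (G w) ≤ K * dist z w) ∧
    (∀ p ∈ Q a', ∀ q ∈ Q a', dist (F p) (F q) ≤ K * dist p q) ∧
    ∀ p δ, Metric.ball p δ ⊆ Q a' → Metric.ball (F p) (δ / K) ⊆ F '' Metric.ball p δ

def ChS : Prop := ∀ (a K : ℝ) (l m : P → ℝ), 0 < a → 0 ≤ K → Hg l → Hg m → QH a K l →
  QH a K (fun p => m p.swap) → (∀ p ∈ Q a, |l p * m p| ≤ 1 / 2) →
  ∃ r K' Θ Ξ m₁ m₂, Co a r K' l m Θ Ξ m₁ m₂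

/-- Square integrable functions and null sets in the chart. -/
def CvS : Prop := ∀ a r K l m Θ Ξ m₁ m₂, Co a r K l m Θ Ξ m₁ m₂ → ∃ K', 0 ≤ K' ∧
  (∀ f, M2 f → M2 ((Q r).indicator fun p => f (Θ p)) ∧
    nm ((Q r).indicator fun p => f (Θ p)) ≤ K' * nm f) ∧
  (∀ e : P → Prop, (∀ᵐ z, z ∈ Q a → e z) → ∀ᵐ p, p ∈ Q r → e (Θ p)) ∧
  ∀ e : P → Prop, (∀ᵐ p, p ∈ Q r → e p) → ∀ᵐ z, z ∈ Θ '' Q r → e (Ξ z)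

/-! ### The null fields -/

def JmulS : Prop := ∀ f g : J2, Jt 2 f → Jt 2 g →
  ∃ h : J2, Jt 2 h ∧ h 0 0 = fun p => f 0 0 p * g 0 0 p

def JchS : Prop := ∀ (f : J2) (F : ℝ → ℝ), Jt 2 f → ContDiff ℝ ∞ F → F 0 = 0 →
  ∃ h : J2, Jt 2 h ∧ h 0 0 = fun p => F (f 0 0 p)

def NulS : Prop := ∀ (a : ℝ) (f : J2), 0 < a → Jt 4 f → f 2 0 0 = 0 → f 1 1 0 ≠ 0 →
  ∃ (a' c ε : ℝ) (l m : J2) (s : P → ℝ), 0 < a' ∧ a' ≤ a ∧ Jt 2 l ∧ Jt 2 m ∧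
    Nu a' c ε f (l 0 0) (m 0 0) s

/-- The null fields of classical jets. -/
def NcS : Prop := ∀ (a c ε : ℝ) (f : J2) (l m s : P → ℝ), Nu a c ε f l m s →
  (∀ u v, u + v = 2 → C1 (Q a) (f u v) (f (u + 1) v) (f u (v + 1)) ∧ Hq (Q a) (f u v)) →
  C1 (Q a) l (lx f l s) (ly f l s) ∧ C1 (Q a) m (mx f m s) (my f m s) ∧
    Hq (Q a) l ∧ Hq (Q a) m ∧ Hq (Q a) s

/-! ### Continuity of the Hessian of the half sum -/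

/-- Vertical slices of continuously differentiable functions. -/
def TrS : Prop := ∀ (r : ℝ) (G G₁ : P → ℝ), 0 < r → Cb (Q r) G → Cb (Q r) G₁ → D1 (Q r) G G₁ →
  (∀ s t, |s| < r → |t| < r → ∫ η in Ioo (-r) r, (G (s, η) - G (t, η)) ^ 2
    ≤ nm ((Q r).indicator G₁) ^ 2 * |s - t|) ∧
  ∀ s, |s| < r → slS (-r) r G s
    ≤ nm ((Q r).indicator G) ^ 2 / r + 4 * r * nm ((Q r).indicator G₁) ^ 2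

def ApxS : Prop := ∀ a r K l m Θ Ξ m₁ m₂, Co a r K l m Θ Ξ m₁ m₂ →
  ∀ (k : ℕ → P → ℝ) (e : ℕ → ℝ) (F : J2), (∀ n, Ker (e n) (k n)) → Tendsto e atTop (𝓝 0) →
    Jt 1 F → ∃ K', Sq r K' (fun n p => mol (k n) (F 0 0) (Θ p)) (fun p => F 0 0 (Θ p)) ∧
      Sq r K' (fun n p => mol (k n) (F 0 0) (Θ p.swap)) fun p => F 0 0 (Θ p.swap)

/-- Primitives of products. -/
def BilS : Prop := ∀ (r K K' : ℝ) (F G : ℕ → P → ℝ) (f g c : P → ℝ), 0 < r → Sq r K F f →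
  Sq r K' G g → Hq (Q r) c → ∃ Φ, Pm r (fun p => c p * (f p * g p)) Φ ∧
    ((∃ B, ∀ᵐ p, p ∈ Q r → |g p| ≤ B) → Vh r Φ)

def RepS : Prop := ∀ r : ℝ, 0 < r →
  (∀ W Φ W' Φ', Pm r W Φ → Pm r W' Φ' → Pm r (fun p => W p + W' p) fun p => Φ p + Φ' p) ∧
  (∀ W Φ W', Pm r W Φ → EqOn W W' (Q r) → Pm r W' Φ) ∧
  ∀ u W Φ Ψ, Pm r W Φ → Pm r u Ψ → M2 ((Q r).indicator u) → WD (Q r) (ee 1) u W →
    ∃ (T : ℝ → ℝ) (M : ℝ),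
    (∀ s t, |s| < r → |t| < r → |T s| ≤ M ∧ |T s - T t| ≤ M * √|s - t|) ∧
    Ae (Q r) u fun p => Φ p + T p.1

/-- The transport equations in weak form. -/
def WkS : Prop := ∀ (a r K : ℝ) (l m g : J2) Θ Ξ m₁ m₂, Co a r K (l 0 0) (m 0 0) Θ Ξ m₁ m₂ →
  Jt 2 l → Jt 2 m → Jt 3 g → Van (Q a) (h12 g (l 0 0) (m 0 0)) →
  WD (Q r) (ee 1) (fun p => m₁ p * h11 g (l 0 0) (Θ p)) (fun p => Jc (l 0 0) (m 0 0) Θ m₁ m₂ p *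
    (l 0 1 (Θ p) * g 1 1 (Θ p) - l 1 0 (Θ p) * g 0 2 (Θ p))) ∧
  WD (Q r) (ee 0) (fun p => m₂ p * h22 g (m 0 0) (Θ p)) fun p => Jc (l 0 0) (m 0 0) Θ m₁ m₂ p *
    (m 1 0 (Θ p) * g 1 1 (Θ p) - m 0 1 (Θ p) * g 2 0 (Θ p))

def B1S : Prop := ∀ (a r K : ℝ) (l m g : J2) Θ Ξ m₁ m₂, Co a r K (l 0 0) (m 0 0) Θ Ξ m₁ m₂ →
  Jt 2 l → Jt 2 m → Jt 3 g → Van (Q a) (h12 g (l 0 0) (m 0 0)) →
  ∃ a₀, 0 < a₀ ∧ a₀ ≤ a ∧ ∀ u v, u + v = 2 → ∃ b, Hq (Q a₀) b ∧ Ae (Q a₀) (g u v) b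

/-! ### Classical jets -/

/-- Third derivatives from the gradient of the Laplacian. -/
def R3S : Prop := ∀ (a a' : ℝ) (F : J2) (k₁ k₂ : P → ℝ), a' < a → Jt 4 F → Hq (Q a) k₁ →
  Hq (Q a) k₂ → Ae (Q a) (lp F 1 0) k₁ → Ae (Q a) (lp F 0 1) k₂ → ∃ F' : J2,
    (∀ u v, u + v < 3 → F' u v = F u v ∧ C1 (Q a') (F' u v) (F' (u + 1) v) (F' u (v + 1))) ∧
    ∀ u v, u + v = 3 → Hq (Q a') (F' u v) ∧ Ae (Q a') (F' u v) (F u v)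

/-- The pressure and the gradient of the Laplacian. -/
def RuS : Prop := ∀ (a a' : ℝ) (F G : J2) (k₁ k₂ : P → ℝ), a' < a → Jt 4 F → Jt 2 G →
  Hq (Q a) k₁ → Hq (Q a) k₂ → Ae (Q a) (fun p => lp F 1 0 p - G 0 1 p) k₁ →
  Ae (Q a) (fun p => lp F 0 1 p + G 1 0 p) k₂ → ∃ G' : J2, G' 0 0 = G 0 0 ∧
    C1 (Q a') (G' 0 0) (G' 1 0) (G' 0 1) ∧ Hq (Q a') (G' 1 0) ∧ Hq (Q a') (G' 0 1) ∧
    Ae (Q a') (G' 1 0) (G 1 0) ∧ Ae (Q a') (G' 0 1) (G 0 1)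

def BaseS : Prop := ∀ (a a' : ℝ) (ps al pr : ℕ → J2), a' < a → Tj (Q a) ps al pr →
  (∀ u v, u + v = 2 → ∃ b, Hq (Q a) b ∧ Ae (Q a) (al 0 u v) b) →
  ∃ ps' al' pr', CJ a' ps' al' pr' ∧ Same a' (pk ps' al' pr') (pk ps al pr)

/-- The chart at a hyperbolic point. -/
def ChartS : Prop := ∀ (a : ℝ) (ps al pr : ℕ → J2), 0 < a → Tj (Q a) ps al pr → ps 0 2 0 0 = 0 →
  ps 0 1 1 0 ≠ 0 → ∃ a₀ ps' al' pr' c ε l m s r K Θ Ξ m₁ m₂, a₀ ≤ a ∧ CJ a₀ ps' al' pr' ∧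
    Same a₀ (pk ps' al' pr') (pk ps al pr) ∧ Nu a₀ c ε (ps' 0) l m s ∧ Co a₀ r K l m Θ Ξ m₁ m₂

/-! ### The arc -/

/-- Uniqueness in the Goursat problem. -/
def GoS : Prop := ∀ a ps al pr c ε l m s r K Θ Ξ m₁ m₂, CJ a ps al pr → Nu a c ε (ps 0) l m s →
  Co a r K l m Θ Ξ m₁ m₂ → ∃ r₁, 0 < r₁ ∧ r₁ ≤ r ∧ ∀ δ c₀ c₁ e t : ℝ, δ ≤ r₁ → -r₁ ≤ c₀ →
    c₀ < c₁ → c₁ ≤ e → e ≤ r₁ → |t| < δ → (∀ p ∈ Bx (-δ) δ c₀ c₁, Θ p ∈ Z0 al) →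
    (∀ η ∈ Ioo c₀ e, Θ (t, η) ∈ Z0 al) → ∀ p ∈ Bx (-δ) δ c₀ e, Θ p ∈ Z0 al

def ArcS : Prop := ∀ a ps al pr c ε l m s r K Θ Ξ m₁ m₂, CJ a ps al pr → Nu a c ε (ps 0) l m s →
  Co a r K l m Θ Ξ m₁ m₂ → Cone (Z0 al) → ∃ r₂, 0 < r₂ ∧ r₂ ≤ r ∧
    (∀ p ∈ Q r₂, p.2 ≤ 0 → Θ p ∈ Z0 al) ∧
    ((∃ t, |t| < r₂ ∧ Θ (t, 0) ∈ interior (Z0 al)) → (0 : P) ∈ interior (Z0 al))

/-! ### Tangential regularity -/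

/-- The estimate for the top difference quotients of a solution of the elliptic system. -/
def CrtS : Prop := ∀ (r C₀ N : ℝ) (x₁ x₂ y₁ y₂ : P → ℝ), r ≤ 1 → 0 ≤ C₀ → 0 ≤ N →
  CRe r C₀ x₁ x₂ y₁ y₂ → ∃ A, 0 ≤ A ∧ ∀ (k : ℕ) (r' ρ₁ : ℝ) (u u₁ u₂ v v₁ v₂ : P → ℝ), ρ₁ < r' →
    r' ≤ r → C1 (Q r') u u₁ u₂ → C1 (Q r') v v₁ v₂ → Hq (Q r') u → Hq (Q r') v →
    (∀ f ∈ ({u₁, u₂, v₁, v₂} : Set (P → ℝ)), Lv (Q r') k f ∧ Ho (Q r') N f) →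
    (∀ f ∈ ({x₁, x₂, y₁, y₂} : Set (P → ℝ)), Lv (Q r') k f) →
    ∃ C, 0 ≤ C ∧ ∀ h, 0 < h → h < r' - ρ₁ → ∀ ρ R M : ℝ, 0 < ρ → ρ < R → R ≤ ρ₁ → 0 ≤ M →
      (∀ g ∈ ({cr1 x₁ x₂ y₁ y₂ u₁ u₂ v₁ v₂, cr2 x₁ x₂ y₁ y₂ u₁ u₂ v₁ v₂, x₁, x₂, y₁, y₂} :
        Set (P → ℝ)), Ho (Q R) M (tau k h g)) →
      ∀ f ∈ ({u₁, u₂, v₁, v₂} : Set (P → ℝ)), Ho (Q ρ) (A * M + C / (R - ρ) ^ 2) (tau k h f)

/-- One more level for a solution of the elliptic system. -/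
def BtS : Prop := ∀ (r C₀ : ℝ) (x₁ x₂ y₁ y₂ : P → ℝ), r ≤ 1 → 0 ≤ C₀ → CRe r C₀ x₁ x₂ y₁ y₂ →
  ∀ (k : ℕ) (r' ρ : ℝ) (u u₁ u₂ v v₁ v₂ : P → ℝ), ρ < r' → r' ≤ r → C1 (Q r') u u₁ u₂ →
    C1 (Q r') v v₁ v₂ → Hq (Q r') u → Hq (Q r') v →
    (∀ f ∈ ({u₁, u₂, v₁, v₂} : Set (P → ℝ)), Lv (Q r') k f) →
    (∀ f ∈ ({cr1 x₁ x₂ y₁ y₂ u₁ u₂ v₁ v₂, cr2 x₁ x₂ y₁ y₂ u₁ u₂ v₁ v₂, x₁, x₂, y₁, y₂} :
      Set (P → ℝ)), Lv (Q r') (k + 1) f) →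
    ∀ f ∈ ({u₁, u₂, v₁, v₂} : Set (P → ℝ)), Lv (Q ρ) (k + 1) f

def CoreS : Prop := ∀ a ps al pr c ε l m s r K Θ Ξ m₁ m₂, CJ a ps al pr → Nu a c ε (ps 0) l m s →
  Co a r K l m Θ Ξ m₁ m₂ → (∀ t, |t| < r → h11 (al 0) l (Θ (t, 0)) = 0) →
  ∃ r₀, 0 < r₀ ∧ r₀ ≤ r ∧ CC r₀ m₁ ∧ CC r₀ m₂ ∧ CC r₀ (fun p => l (Θ p)) ∧
    CC r₀ (fun p => m (Θ p)) ∧ CC r₀ (fun p => s (Θ p)) ∧
    ∀ (i : Ix) (u v : ℕ), u + v ≤ i.ord → CC r₀ fun p => pk ps al pr i u v (Θ p)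

def LemAS : Prop := ∀ a ps al pr c ε l m s r K Θ Ξ m₁ m₂, CJ a ps al pr → Nu a c ε (ps 0) l m s →
  Co a r K l m Θ Ξ m₁ m₂ → Cone (Z0 al) → ∃ r' Y n, Out a r' ps al pr l s Y n

/-! ### Rows -/

def OfJac : Prop := PcS → JacS
def OfJg : Prop := CwS → JacS → JgS
def OfSw : Prop := SwS
def OfSl1 : Prop := KerS → Sl1S
def OfSl : Prop := Sl1S → SlS
def OfXi : Prop := XiS
def OfCrs : Prop := PcS → SlS → XiS → CrsS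
def OfQh : Prop := QhS
def OfFl : Prop := PcS → FlS
def OfInv : Prop := PcS → InvS
def OfCh : Prop := FlS → InvS → ChS
def OfCv : Prop := CvS
def OfJmul : Prop := JmulS
def OfJch : Prop := JchS
def OfNul : Prop := JmulS → JchS → NulS
def OfNc : Prop := NcS
def OfTr : Prop := TrS
def OfApx : Prop := SwS → CvS → TrS → ApxS
def OfBil : Prop := BilS
def OfRep : Prop := RepS
def OfWk : Prop := JacS → CvS → WkS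
def OfB1 : Prop := SwS → CvS → ApxS → BilS → RepS → WkS → B1S
def OfR3 : Prop := PcS → SlS → R3S
def OfRu : Prop := PcS → SlS → RuS
def OfBase : Prop := PcS → CwS → R3S → RuS → BaseS
def OfChart : Prop := SwS → QhS → ChS → NulS → B1S → BaseS → ChartS
def OfGo : Prop := NcS → GoS
def OfArc : Prop := GoS → ArcS

end Pool.Agent.MP_ed9623_an.R46
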