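import Pool.Agent.MP_ed9623_an.R46.Up

/-! The top difference quotients of sums, products and inverses. -/

open MeasureTheory Filter Topology Set

namespace Pool.Agent.MP_ed9623_an.R46

open H64 H77 R77

variable {ρ ρ₁ ρ₂ h h₀ M C a b N N' r : ℝ} {f g : P → ℝ} {k : ℕ} {u v : ℝ → P → ℝ}
  {G : Set (P → ℝ)} {H : ℕ → ℝ → Prop}

theorem Bd.add (hu : Bd ρ h₀ u) (hv : Bd ρ h₀ v) : Bd ρ h₀ fun h p => u h p + v h p :=
  let ⟨_, a, b⟩ := hu; let ⟨_, a', b'⟩ := hv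
  ⟨_, add_nonneg a a', fun h h0 h1 => (b h h0 h1).add (b' h h0 h1)⟩

theorem Bd.neg (hu : Bd ρ h₀ u) : Bd ρ h₀ fun h p => -u h p :=
  let ⟨C, a, b⟩ := hu; ⟨C, a, fun h h0 h1 => (b h h0 h1).neg⟩

theorem Bd.mul (hu : Bd ρ h₀ u) (hv : Bd ρ h₀ v) : Bd ρ h₀ fun h p => u h p * v h p :=
  let ⟨_, a, b⟩ := hu; let ⟨_, a', b'⟩ := hv
  ⟨_, by positivity, fun h h0 h1 => (b h h0 h1).mul (b' h h0 h1) a a'⟩

theorem Bd.congr (hu : Bd ρ h₀ u) (e : ∀ h, 0 < h → h < h₀ → EqOn (u h) (v h) (Q ρ)) : Bd ρ h₀ v :=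
  let ⟨C, a, b⟩ := hu; ⟨C, a, fun h h0 h1 => (b h h0 h1).congr (e h h0 h1)⟩

theorem Hq.bd (hf : Hq (Q ρ) f) (h₀ : ℝ) : Bd ρ h₀ fun _ => f :=
  let ⟨C, a, b⟩ := hf; ⟨C, a, fun _ _ _ => b⟩

theorem Hq.bd_sh (hf : Hq (Q ρ₂) f) : Bd ρ₁ (ρ₂ - ρ₁) fun h => sh h f :=
  let ⟨C, a, b⟩ := hf; ⟨C, a, fun h h0 h1 => b.sh (by rw [abs_of_pos h0]; exact h1.le)⟩

theorem sh_mem' {p : P} (hp : p ∈ Q ρ₁) (h0 : 0 < h) (h1 : h < ρ₂ - ρ₁) :
    p ∈ Q ρ₂ ∧ ((p.1 + h, p.2) : P) ∈ Q ρ₂ :=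
  ⟨Q_mono (by linarith) hp, sh_mem hp (by rw [abs_of_pos h0]; exact h1.le)⟩

theorem tau_congr (e : EqOn f g (Q ρ₂)) (h0 : 0 < h) (h1 : h < ρ₂ - ρ₁) :
    EqOn (tau k h f) (tau k h g) (Q ρ₁) := fun p hp => by
  have := sh_mem' hp h0 h1
  simp only [tau, dl, it_congr (isOpen_Q _) k e this.1, it_congr (isOpen_Q _) k e this.2]

theorem tau_add (hf : Lv (Q ρ₂) k f) (hg : Lv (Q ρ₂) k g) (h0 : 0 < h) (h1 : h < ρ₂ - ρ₁) :
    EqOn (tau k h fun p => f p + g p) (fun p => tau k h f p + tau k h g p) (Q ρ₁) := fun p hp => by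
  have := sh_mem' hp h0 h1
  simp only [tau, dl, it_add (isOpen_Q _) hf hg this.1, it_add (isOpen_Q _) hf hg this.2]
  ring

theorem tau_neg (hf : Lv (Q ρ₂) k f) (h0 : 0 < h) (h1 : h < ρ₂ - ρ₁) :
    EqOn (tau k h fun p => -f p) (fun p => -tau k h f p) (Q ρ₁) := fun p hp => by
  have := sh_mem' hp h0 h1
  simp only [tau, dl, it_neg (isOpen_Q _) hf this.1, it_neg (isOpen_Q _) hf this.2]
  ring

theorem tau_const (k : ℕ) (h c : ℝ) : (tau k h fun _ => c) = fun _ => 0 := by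
  obtain ⟨c', e⟩ := it_const k c
  funext p
  simp [tau, dl, e]

theorem tau_mul (hf : Lv (Q ρ₂) k f) (hg : Lv (Q ρ₂) k g) (h12 : ρ₁ ≤ ρ₂) :
    Bd ρ₁ (ρ₂ - ρ₁) fun h p => (tau k h fun p => f p * g p) p
      - (tau k h f p * g p + sh h f p * tau k h g p) := by
  cases k with
  | zero =>
    refine ((Hq.const _ 0).bd _).congr fun h _ _ p _ => ?_
    simp only [tau, dl, sh, Function.iterate_zero, id]
    ring
  | succ k =>
    have f1 : Lv (Q ρ₂) (0 + 1) f := hf.of_le (by omega)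
    have g1 : Lv (Q ρ₂) (0 + 1) g := hg.of_le (by omega)
    refine (((hf.it_hq.bd_sh.mul g1.bd).add (f1.bd.mul ((hg.it_hq.mono (Q_mono h12)).bd _))).add
      (Lv.bd (k := 0) (it_mul (isOpen_Q _) hf hg))).congr fun h _ _ p _ => ?_
    simp only [tau, dl, sh, Function.iterate_zero, id]
    ring

theorem Dom.of_bd (hb : Bd ρ₁ h₀ fun h => tau k h f) : Dom k ρ₁ h₀ G 0 f :=
  let ⟨C, c, e⟩ := hb
  ⟨C, c, fun h h0 h1 _ hρ _ _ _ => (e h h0 h1).mono (Q_mono hρ) (by simp)⟩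

theorem Dom.gen (hf : f ∈ G) : Dom k ρ₁ h₀ G 1 f :=
  ⟨0, le_rfl, fun _ _ _ _ _ _ _ e => (e f hf).mono Subset.rfl (by simp)⟩

theorem TU.congr (hf : TU r H G f) (e : EqOn f g (Q r)) : TU r H G g := by
  obtain ⟨a, N, a0, N0, hN, hf⟩ := hf
  refine ⟨a, N, a0, N0, hN.congr e, fun k r' hr hH => ?_⟩
  have e' := e.mono (Q_mono hr)
  refine ⟨(hf k r' hr hH).1.congr (isOpen_Q _) e', fun ρ₁ h1 => ?_⟩
  obtain ⟨C, c, hC⟩ := (hf k r' hr hH).2 ρ₁ h1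
  exact ⟨C, c, fun h h0 h2 ρ hρ M m hM => (hC h h0 h2 ρ hρ M m hM).congr
    ((tau_congr e' h0 h2).mono (Q_mono hρ))⟩

theorem TU.better (h0 : Hq (Q r) f) (hf : ∀ k, ∀ r' ≤ r, H k r' → Lv (Q r') (k + 1) f) :
    TU r H G f :=
  let ⟨N, N0, hN⟩ := h0
  ⟨0, N, le_rfl, N0, hN, fun k r' hr hH =>
    ⟨(hf k r' hr hH).pred, fun _ _ => Dom.of_bd (hf k r' hr hH).bd⟩⟩

theorem TU.gen (h0 : Hq (Q r) f) (hG : f ∈ G) (hf : ∀ k, ∀ r' ≤ r, H k r' → Lv (Q r') k f) :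
    TU r H G f :=
  let ⟨N, N0, hN⟩ := h0
  ⟨1, N, zero_le_one, N0, hN, fun k r' hr hH => ⟨hf k r' hr hH, fun _ _ => Dom.gen hG⟩⟩

theorem TU.const (c : ℝ) : TU r H G fun _ => c :=
  TU.better (Hq.const _ c) fun _ _ _ _ => Lv.const _ _ c

theorem TU.hq (hf : TU r H G f) : Hq (Q r) f := let ⟨_, N, _, N0, hN, _⟩ := hf; ⟨N, N0, hN⟩

theorem TU.lv (hf : TU r H G f) {r' : ℝ} (hr : r' ≤ r) (hH : H k r') : Lv (Q r') k f :=
  let ⟨_, _, _, _, _, h⟩ := hf; (h k r' hr hH).1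

theorem TU.add (hf : TU r H G f) (hg : TU r H G g) : TU r H G fun p => f p + g p := by
  obtain ⟨a, N, a0, N0, hN, hf⟩ := hf
  obtain ⟨b, N', b0, N0', hN', hg⟩ := hg
  refine ⟨a + b, N + N', by positivity, by positivity, hN.add hN', fun k r' hr hH => ?_⟩
  have u := hf k r' hr hH
  have v := hg k r' hr hH
  refine ⟨u.1.add (isOpen_Q _) v.1, fun ρ₁ h1 => ?_⟩
  obtain ⟨C, c, hC⟩ := u.2 ρ₁ h1
  obtain ⟨C', c', hC'⟩ := v.2 ρ₁ h1
  exact ⟨C + C', by positivity, fun h h0 h2 ρ hρ M m hM =>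
    (((hC h h0 h2 ρ hρ M m hM).add (hC' h h0 h2 ρ hρ M m hM)).congr
      ((tau_add u.1 v.1 h0 h2).mono (Q_mono hρ)).symm).mono Subset.rfl (le_of_eq (by ring))⟩

theorem TU.mul (hf : TU r H G f) (hg : TU r H G g) : TU r H G fun p => f p * g p := by
  obtain ⟨a, N, a0, N0, hN, hf⟩ := hf
  obtain ⟨b, N', b0, N0', hN', hg⟩ := hg
  refine ⟨2 * (a * N') + 2 * (N * b), _, by positivity, by positivity, hN.mul hN' N0 N0',
    fun k r' hr hH => ?_⟩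
  have u := hf k r' hr hH
  have v := hg k r' hr hH
  refine ⟨u.1.mul (isOpen_Q _) v.1, fun ρ₁ h1 => ?_⟩
  obtain ⟨C, c, hC⟩ := u.2 ρ₁ h1
  obtain ⟨C', c', hC'⟩ := v.2 ρ₁ h1
  obtain ⟨E, e, hE⟩ := tau_mul u.1 v.1 h1.le
  refine ⟨E + (2 * (C * N') + 2 * (N * C')), by positivity, fun h h0 h2 ρ hρ M m hM => ?_⟩
  have s1 := (hC h h0 h2 ρ hρ M m hM).mul (hN'.mono (Q_mono (by linarith)) le_rfl)
    (by positivity) N0'
  have s2 := (((hN.mono (Q_mono hr) le_rfl).sh (ρ₁ := ρ₁) (t := h)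
    (by rw [abs_of_pos h0]; exact h2.le)).mono (Q_mono hρ) le_rfl).mul (hC' h h0 h2 ρ hρ M m hM) N0
    (by positivity)
  exact ((((hE h h0 h2).mono (Q_mono hρ) le_rfl).add (s1.add s2)).congr
    fun p _ => by simp only; ring).mono Subset.rfl (le_of_eq (by ring))

theorem TU.cmul (hf : TU r H G f) (c : ℝ) : TU r H G fun p => c * f p := (TU.const c).mul hf

theorem TU.neg (hf : TU r H G f) : TU r H G fun p => -f p := by simpa using hf.cmul (-1)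

theorem TU.sub (hf : TU r H G f) (hg : TU r H G g) : TU r H G fun p => f p - g p := by
  simpa only [sub_eq_add_neg] using hf.add hg.neg

theorem TU.sq (hf : TU r H G f) : TU r H G fun p => f p ^ 2 := by
  simpa only [pow_two] using hf.mul hf

theorem TU.sum {ι : Type} (s : Finset ι) {F : ι → P → ℝ} (h : ∀ i ∈ s, TU r H G (F i)) :
    TU r H G fun p => ∑ i ∈ s, F i p := by
  classical
  induction s using Finset.induction_on with
  | empty => simpa using TU.const (r := r) (H := H) (G := G) 0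
  | insert a s ha ih =>
    simp only [Finset.sum_insert ha]
    exact (h a (Finset.mem_insert_self _ _)).add (ih fun i hi => h i (Finset.mem_insert_of_mem hi))

theorem TU.inv (hf : TU r H G f) {c : ℝ} (hc : 0 < c) (h0 : ∀ p ∈ Q r, c ≤ |f p|) :
    TU r H G fun p => (f p)⁻¹ := by
  obtain ⟨N', N0', hN'⟩ := hf.hq.inv hc h0
  obtain ⟨a, N, a0, N0, hN, hf⟩ := hf
  refine ⟨2 * (2 * (N' * a) * N'), N', by positivity, N0', hN', fun k r' hr hH => ?_⟩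
  have u := hf k r' hr hH
  have w := u.1.inv (isOpen_Q _) hc fun p hp => h0 p (Q_mono hr hp)
  refine ⟨w, fun ρ₁ h1 => ?_⟩
  obtain ⟨C, c0, hC⟩ := u.2 ρ₁ h1
  obtain ⟨E, e, hE⟩ := tau_mul w u.1 h1.le
  refine ⟨2 * ((E + 2 * (N' * C)) * N'), by positivity, fun h h0' h2 ρ hρ M m hM => ?_⟩
  have s2 := (((hN'.mono (Q_mono hr) le_rfl).sh (ρ₁ := ρ₁) (t := h)
    (by rw [abs_of_pos h0']; exact h2.le)).mono (Q_mono hρ) le_rfl).mul (hC h h0' h2 ρ hρ M m hM)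
    N0' (by positivity)
  have s3 := ((((hE h h0' h2).mono (Q_mono hρ) le_rfl).add s2).mul
    (hN'.mono (Q_mono (by linarith)) le_rfl) (by positivity) N0').neg
  refine (s3.congr fun p hp => ?_).mono Subset.rfl (le_of_eq (by ring))
  have ne : ∀ q ∈ Q r', f q ≠ 0 := fun q hq => abs_pos.1 (hc.trans_le (h0 q (Q_mono hr hq)))
  have one : EqOn (fun p => (f p)⁻¹ * f p) (fun _ => 1) (Q r') := fun q hq =>
    inv_mul_cancel₀ (ne q hq)
  have z := tau_congr (k := k) one h0' h2 (Q_mono hρ hp)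
  rw [tau_const] at z
  have := ne p (Q_mono (by linarith) hp)
  simp only [z]
  field_simp
  ring

theorem TU.div (hf : TU r H G f) (hg : TU r H G g) {c : ℝ} (hc : 0 < c)
    (h0 : ∀ p ∈ Q r, c ≤ |g p|) : TU r H G fun p => f p / g p := by
  simpa only [div_eq_mul_inv] using hf.mul (hg.inv hc h0)

/-- The top difference quotient of a continuously differentiable function. -/
theorem C1.tq {u u₁ u₂ : P → ℝ} (hu : C1 (Q ρ₂) u u₁ u₂) (h0 : Hq (Q ρ₂) u)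
    (h1 : Lv (Q ρ₂) k u₁) (h2 : Lv (Q ρ₂) k u₂) (hh : 0 < h) (hh' : h < ρ₂ - ρ₁) :
    C1 (Q ρ₁) (tau k h u) (tau k h u₁) (tau k h u₂) := by
  have o := isOpen_Q ρ₂
  have l := Lv.of_D1 o h0 hu.d1 h1
  have c : C1 (Q ρ₂) (R46.d1^[k] u) (R46.d1^[k] u₁) (R46.d1^[k] u₂) := C1.of_d o
    (l.it_d1.congr o (fun _ _ => rfl) (it_congr o k hu.d1.eq)) (mx_it hu.d2 l.pred h2)
    h1.it_hq.cont h2.it_hq.cont
  have s : ∀ p ∈ Q ρ₁, ((p.1 + h, p.2) : P) ∈ Q ρ₂ := fun p hp => (sh_mem' hp hh hh').2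
  have m : Q ρ₁ ⊆ Q ρ₂ := Q_mono (by linarith)
  have t : ∀ w : P → ℝ, ContinuousOn w (Q ρ₂) → ContinuousOn (fun p => dl h w p / h) (Q ρ₁) :=
    fun w hw => ((hw.comp (by fun_prop) s).sub (hw.mono m)).div_const h
  refine ⟨t _ c.c1, t _ c.c2, fun p hp => ?_⟩
  have a : HasFDerivAt (fun p : P => ((p.1 + h, p.2) : P)) (ContinuousLinearMap.id ℝ P) p := by
    have := (hasFDerivAt_id (𝕜 := ℝ) p).add_const ((h, 0) : P)
    refine this.congr_of_eventuallyEq (Eventually.of_forall fun q => ?_)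
    ext <;> simp
  have b := (((c.fd _ (s p hp)).comp p a).sub (c.fd p (m hp))).mul_const h⁻¹
  refine (b.congr_fderiv (ContinuousLinearMap.ext fun v => ?_)).congr_of_eventuallyEq
    (Eventually.of_forall fun q => ?_)
  · simp [tau, dl]; ring
  · simp [tau, dl, div_eq_mul_inv]

/-- The transport in the second variable for the top difference quotients. -/
theorem D2.tq {S : P → ℝ} (hd : D2 (Q ρ₂) f S) (hf : Lv (Q ρ₂) k f) (hS : Lv (Q ρ₂) k S)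
    (hh : 0 < h) (hh' : h < ρ₂ - ρ₁) : D2 (Q ρ₁) (tau k h f) (tau k h S) := fun p hp =>
  have := sh_mem' hp hh hh'
  ((mx_it hd hf hS _ this.2).sub (mx_it hd hf hS p this.1)).div_const h

theorem tau_line {c : ℝ} (e : ∀ s, |s| < ρ₂ → f (s, c) = g (s, c)) (hh : 0 < h)
    (hh' : h < ρ₂ - ρ₁) : ∀ s, |s| < ρ₁ → tau k h f (s, c) = tau k h g (s, c) := fun s hs => by
  have a : |s + h| < ρ₂ := (abs_add_le _ _).trans_lt (by rw [abs_of_pos hh]; linarith)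
  simp only [tau, dl, it_line k e s (by linarith), it_line k e _ a]

end Pool.Agent.MP_ed9623_an.R46
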