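import Pool.Agent.MP_ed9623_an.R46.Spec

/-! Vertical slices of continuously differentiable functions. -/

open MeasureTheory Filter Topology Set

namespace Pool.Agent.MP_ed9623_an.R46

open H64 H77 R77

namespace XTr

variable {r : ℝ} {G G₁ : P → ℝ}

theorem m2 (h : Cb (Q r) G) : M2 ((Q r).indicator G) := by
  obtain ⟨c, M, hM⟩ := h
  have mQ := (isOpen_Q r).measurableSet
  have : Fact (volume (Q r) < ⊤) := ⟨by rw [Q_eq_ball]; exact measure_ball_lt_top⟩
  exact (memLp_indicator_iff_restrict mQ).2 (MemLp.of_bound (c.aestronglyMeasurable mQ) M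
    ((ae_restrict_iff' mQ).2 (Eventually.of_forall hM)))

theorem m1 {u : ℝ → ℝ} {a b M : ℝ} (c : ContinuousOn u (Ioo a b))
    (h : ∀ x ∈ Ioo a b, |u x| ≤ M) : MemLp u 2 (volume.restrict (Ioo a b)) :=
  MemLp.of_bound (c.aestronglyMeasurable measurableSet_Ioo) M
    ((ae_restrict_iff' measurableSet_Ioo).2 (Eventually.of_forall h))

theorem mem {s t : ℝ} (hs : |s| < r) (ht : t ∈ Ioo (-r) r) : ((s, t) : P) ∈ Q r :=
  ⟨abs_lt.1 hs, ht⟩

theorem mem' {s t : ℝ} (hs : s ∈ Ioo (-r) r) (ht : t ∈ Ioo (-r) r) : ((s, t) : P) ∈ Q r :=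
  ⟨hs, ht⟩

theorem slV (h : Cb (Q r) G) {s : ℝ} (hs : |s| < r) :
    MemLp (fun η => G (s, η)) 2 (volume.restrict (Ioo (-r) r)) := by
  obtain ⟨c, M, hM⟩ := h
  exact m1 (c.comp (f := fun η => ((s, η) : P)) (by fun_prop) fun η a => mem hs a)
    fun η a => hM _ (mem hs a)

theorem slH (h : Cb (Q r) G) {η : ℝ} (hη : η ∈ Ioo (-r) r) :
    MemLp (fun s => G (s, η)) 2 (volume.restrict (Ioo (-r) r)) := by
  obtain ⟨c, M, hM⟩ := h
  exact m1 (c.comp (f := fun s => ((s, η) : P)) (by fun_prop) fun s a => mem' a hη)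
    fun s a => hM _ (mem' a hη)

theorem cs {g : ℝ → ℝ} {a b x y l : ℝ} (hg : MemLp g 2 volume) (hx : x ∈ Ioo a b)
    (hy : y ∈ Ioo a b) (hl : 0 < l) (h : |y - x| ≤ l) :
    (∫ r in x..y, g r) ^ 2 ≤ l * ∫ r in Ioo a b, g r ^ 2 := by
  rcases le_total x y with h7 | h7
  · exact Slice.cs hg h7 hx.1.le hy.2.le hl (abs_le.1 h).2
  · rw [intervalIntegral.integral_symm, neg_sq]
    exact Slice.cs hg h7 hy.1.le hx.2.le hl (by linarith [(abs_le.1 h).1])

theorem pt (h₁ : Cb (Q r) G₁) (hd : D1 (Q r) G G₁) {s t η : ℝ} (hs : |s| < r) (ht : |t| < r)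
    (hη : η ∈ Ioo (-r) r) :
    (G (s, η) - G (t, η)) ^ 2 ≤ |s - t| * slY (-r) r ((Q r).indicator G₁) η := by
  rcases eq_or_ne s t with rfl | ne
  · simp
  have sub : uIcc t s ⊆ Ioo (-r) r := ordConnected_Ioo.uIcc_subset (abs_lt.1 ht) (abs_lt.1 hs)
  have m : MemLp ((Ioo (-r) r).indicator fun σ => G₁ (σ, η)) 2 volume :=
    (memLp_indicator_iff_restrict measurableSet_Ioo).2 (slH h₁ hη)
  have e : ∫ σ in t..s, (Ioo (-r) r).indicator (fun σ => G₁ (σ, η)) σ = G (s, η) - G (t, η) := by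
    refine intervalIntegral.integral_eq_sub_of_hasDerivAt (f := fun σ => G (σ, η))
      (fun σ hσ => ?_) (Slice.ii m _ _)
    rw [indicator_of_mem (sub hσ)]
    exact hd _ (mem' (sub hσ) hη)
  have := cs m (abs_lt.1 ht) (abs_lt.1 hs) (abs_pos.2 (sub_ne_zero.2 ne)) le_rfl
  rw [e] at this
  refine this.trans (le_of_eq ?_)
  congr 1
  refine setIntegral_congr_fun measurableSet_Ioo fun σ hσ => ?_
  simp only [indicator_of_mem hσ, indicator_of_mem (mem' hσ hη)]

theorem one (h : Cb (Q r) G) (h₁ : Cb (Q r) G₁) (hd : D1 (Q r) G G₁) {s t : ℝ} (hs : |s| < r)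
    (ht : |t| < r) : ∫ η in Ioo (-r) r, (G (s, η) - G (t, η)) ^ 2
      ≤ nm ((Q r).indicator G₁) ^ 2 * |s - t| := by
  have m := m2 h₁
  refine (setIntegral_mono_on ((slV h hs).sub (slV h ht)).integrable_sq
    ((m.int_slY (-r) r).const_mul |s - t|).integrableOn measurableSet_Ioo
    fun η hη => pt h₁ hd hs ht hη).trans ?_
  rw [integral_const_mul, m.slY_int, mul_comm]
  exact mul_le_mul_of_nonneg_right (m.set_le _) (abs_nonneg _)

end XTr

open XTr

theorem rowTr : OfTr := by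
  intro r G G₁ r0 h h₁ hd
  refine ⟨fun s t hs ht => one h h₁ hd hs ht, fun s hs => ?_⟩
  have m := m2 h
  set N := nm ((Q r).indicator G₁) ^ 2 with hN
  have N0 : 0 ≤ N := sq_nonneg _
  have a : ∀ t ∈ Ioo (-r) r, slS (-r) r G s - 4 * r * N
      ≤ 2 * slS (-r) r ((Q r).indicator G) t := fun t ht => by
    have ht' : |t| < r := abs_lt.2 ht
    have e : slS (-r) r ((Q r).indicator G) t = slS (-r) r G t :=
      setIntegral_congr_fun measurableSet_Ioo fun η hη => by
        simp only [indicator_of_mem (mem' ht hη)]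
    have i1 := (slV h ht').integrable_sq
    have i2 := ((slV h hs).sub (slV h ht')).integrable_sq
    have b := setIntegral_mono_on (slV h hs).integrable_sq
      ((i1.const_mul 2).add (i2.const_mul 2)) measurableSet_Ioo fun η _ => by
        show G (s, η) ^ 2 ≤ 2 * G (t, η) ^ 2 + 2 * (G (s, η) - G (t, η)) ^ 2
        nlinarith [sq_nonneg (G (s, η) - 2 * G (t, η))]
    rw [integral_add' (i1.const_mul 2) (i2.const_mul 2), integral_const_mul,
      integral_const_mul] at b
    have c := one h h₁ hd hs ht'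
    have d : |s - t| ≤ 2 * r := (abs_sub _ _).trans (by linarith)
    have f := mul_le_mul_of_nonneg_left d N0
    rw [e]
    simp only [Pi.sub_apply] at b
    unfold slS
    linarith
  have b := setIntegral_mono_on (integrableOn_const (by simp))
    ((m.int_slS (-r) r).const_mul 2).integrableOn measurableSet_Ioo a
  rw [integral_const_mul, m.slS_int, setIntegral_const, smul_eq_mul,
    Real.volume_real_Ioo_of_le (by linarith)] at b
  have c := m.set_le (Bx (-r) r (-r) r)
  rw [← sub_le_iff_le_add, le_div_iff₀ r0]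
  linarith

end Pool.Agent.MP_ed9623_an.R46
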